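import Pool.Agent.Lib.MP_b07157_agQ.LT1

/-!
# Relations of linear type in three variables
-/

noncomputable section

namespace MPb07157Q

open MvPolynomial

/-- The cross product `v × ξ`. -/
def crs {R : Type*} [CommRing R] (v : Fin 3 → R) : Fin 3 → MvPolynomial (Fin 3) R :=
  ![C (v 1) * X 2 - C (v 2) * X 1, C (v 2) * X 0 - C (v 0) * X 2, C (v 0) * X 1 - C (v 1) * X 0]

theorem crs_zero {R : Type*} [CommRing R] (v : Fin 3 → R) :
    crs v 0 = C (v 1) * X 2 - C (v 2) * X 1 := rfl

theorem crs_one {R : Type*} [CommRing R] (v : Fin 3 → R) :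
    crs v 1 = C (v 2) * X 0 - C (v 0) * X 2 := rfl

theorem crs_two {R : Type*} [CommRing R] (v : Fin 3 → R) :
    crs v 2 = C (v 0) * X 1 - C (v 1) * X 0 := rfl

theorem coeff_crs {R : Type*} [CommRing R] (v : Fin 3 → R) (i k : Fin 3) :
    coeff (Finsupp.single k 1) (crs v i) =
      ![![0, -v 2, v 1], ![v 2, 0, -v 0], ![-v 1, v 0, 0]] i k := by
  classical
  fin_cases i <;> fin_cases k <;> simp [crs, coeff_C_mul, coeff_X, Finsupp.single_left_inj]

theorem coeff_crs_of_ne {R : Type*} [CommRing R] (v : Fin 3 → R) (i : Fin 3) (m : Fin 3 →₀ ℕ)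
    (h : ∀ k, m ≠ Finsupp.single k 1) : coeff m (crs v i) = 0 := by
  classical
  fin_cases i <;> simp [crs, coeff_C_mul, coeff_X, (h _).symm]

theorem crs_primitive {R : Type*} [CommRing R] [IsDomain R] {v : Fin 3 → R}
    (hv : ∀ q, (∀ i, q ∣ v i) → IsUnit q) {h : MvPolynomial (Fin 3) R}
    (hh : ∀ i, h ∣ crs v i) : IsUnit h := by
  classical
  -- not all `v i` are zero
  have hv0 : ∃ i, v i ≠ 0 := by
    by_contra hcon
    push Not at hcon
    exact not_isUnit_zero (hv 0 fun i => by rw [hcon i])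
  -- for each variable there is a non-zero component without this variable
  have hdeg0 : ∀ i, degreeOf i (crs v i) = 0 := by
    intro i
    rw [← Nat.le_zero, degreeOf_le_iff]
    intro m hm
    by_contra hcon
    apply mem_support_iff.1 hm
    by_cases h1 : ∃ k, m = Finsupp.single k 1
    · obtain ⟨k, rfl⟩ := h1
      have : k = i := by
        by_contra hki
        apply hcon
        rw [Finsupp.single_eq_of_ne (Ne.symm hki)]
      subst this
      rw [coeff_crs]
      fin_cases k <;> rfl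
    · push Not at h1
      exact coeff_crs_of_ne v i m h1
  have hex : ∀ k : Fin 3, ∃ i, crs v i ≠ 0 ∧ degreeOf k (crs v i) = 0 := by
    intro k
    by_cases hk : crs v k = 0
    · -- then `v j = 0` for `j ≠ k`, and the component `k + 1` has only the variable `k + 2`
      refine ⟨k + 1, ?_, ?_⟩
      · intro hcon
        obtain ⟨i, hi⟩ := hv0
        apply hi
        have a1 := coeff_crs v k 0
        have a2 := coeff_crs v k 1
        have a3 := coeff_crs v k 2
        have b1 := coeff_crs v (k + 1) 0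
        have b2 := coeff_crs v (k + 1) 1
        have b3 := coeff_crs v (k + 1) 2
        rw [hk] at a1 a2 a3
        rw [hcon] at b1 b2 b3
        fin_cases k <;> fin_cases i <;> simp at a1 a2 a3 b1 b2 b3 ⊢ <;> tauto
      · rw [← Nat.le_zero, degreeOf_le_iff]
        intro m hm
        by_contra hcon
        apply mem_support_iff.1 hm
        by_cases h1 : ∃ l, m = Finsupp.single l 1
        · obtain ⟨l, rfl⟩ := h1
          have : l = k := by
            by_contra hki
            apply hcon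
            rw [Finsupp.single_eq_of_ne (Ne.symm hki)]
          subst this
          rw [coeff_crs]
          have a1 := coeff_crs v l 0
          have a2 := coeff_crs v l 1
          have a3 := coeff_crs v l 2
          rw [hk] at a1 a2 a3
          fin_cases l <;> simp at a1 a2 a3 ⊢ <;> tauto
        · push Not at h1
          exact coeff_crs_of_ne v _ m h1
    · exact ⟨k, hk, hdeg0 k⟩
  have hd : ∀ k, degreeOf k h = 0 := by
    intro k
    obtain ⟨i, hi, hi2⟩ := hex k
    obtain ⟨z, hz⟩ := hh i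
    have h1 : h ≠ 0 := by
      rintro rfl
      rw [zero_mul] at hz
      exact hi hz
    have h2 : z ≠ 0 := by
      rintro rfl
      rw [mul_zero] at hz
      exact hi hz
    rw [hz, degreeOf_mul_eq h1 h2] at hi2
    omega
  have hC : h = C (coeff 0 h) := by
    ext m
    rw [coeff_C]
    split_ifs with h1
    · rw [← h1]
    · rw [← notMem_support_iff]
      intro hm
      apply h1
      ext k
      have := degreeOf_le_iff.1 (hd k).le m hm
      simp only [Finsupp.coe_zero, Pi.zero_apply]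
      omega
  rw [hC]
  apply IsUnit.map C
  apply hv
  have hh' : ∀ i k, coeff 0 h ∣ coeff (Finsupp.single k 1) (crs v i) := by
    intro i k
    have := hh i
    rw [hC, C_dvd_iff_dvd_coeff] at this
    exact this _
  intro i
  have h0 := hh' 0 1
  have h1 := hh' 0 2
  have h2 := hh' 1 2
  rw [coeff_crs] at h0 h1 h2
  simp at h0 h1 h2
  fin_cases i
  · exact h2
  · exact h1
  · exact h0

/-- A vector of polynomials orthogonal to `v` and to `ξ` is a multiple of `v × ξ`. -/
theorem exists_mul_crs {R : Type*} [CommRing R] [IsDomain R] [UniqueFactorizationMonoid R]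
    {v : Fin 3 → R} (hv : ∀ q, (∀ i, q ∣ v i) → IsUnit q) {W : Fin 3 → MvPolynomial (Fin 3) R}
    (h1 : ∑ i, W i * C (v i) = 0) (h2 : ∑ i, W i * X i = 0) :
    ∃ U, ∀ i, W i = U * crs v i := by
  classical
  let _ : GCDMonoid (MvPolynomial (Fin 3) R) :=
    UniqueFactorizationMonoid.toGCDMonoid (MvPolynomial (Fin 3) R)
  rw [Fin.sum_univ_three] at h1 h2
  have e : ∀ i j, W i * crs v j = W j * crs v i := by
    have e01 : W 0 * crs v 1 = W 1 * crs v 0 := by
      rw [crs_one, crs_zero]
      linear_combination C (v 2) * h2 - X 2 * h1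
    have e12 : W 1 * crs v 2 = W 2 * crs v 1 := by
      rw [crs_one, crs_two]
      linear_combination C (v 0) * h2 - X 0 * h1
    have e20 : W 2 * crs v 0 = W 0 * crs v 2 := by
      rw [crs_two, crs_zero]
      linear_combination C (v 1) * h2 - X 1 * h1
    intro i j
    fin_cases i <;> fin_cases j <;>
      first | rfl | exact e01 | exact e01.symm | exact e12 | exact e12.symm | exact e20 |
        exact e20.symm
  have hne : ∃ i, crs v i ≠ 0 := by
    by_contra hcon
    push Not at hcon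
    exact not_isUnit_zero (crs_primitive hv (h := 0) fun i => by rw [hcon i])
  obtain ⟨i, hi⟩ := hne
  have hd : crs v i ∣ W i := by
    have a : ∀ j, crs v i ∣ W i * crs v j := fun j => ⟨W j, by rw [e i j]; ring⟩
    have b : crs v i ∣ gcd (W i * crs v 0) (gcd (W i * crs v 1) (W i * crs v 2)) :=
      dvd_gcd (a 0) (dvd_gcd (a 1) (a 2))
    have c : Associated (gcd (W i * crs v 0) (gcd (W i * crs v 1) (W i * crs v 2)))
        (W i * gcd (crs v 0) (gcd (crs v 1) (crs v 2))) :=
      ((Associated.refl _).gcd (gcd_mul_left' _ _ _)).trans (gcd_mul_left' _ _ _)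
    have d : IsUnit (gcd (crs v 0) (gcd (crs v 1) (crs v 2))) := by
      apply crs_primitive hv
      intro j
      fin_cases j
      · exact gcd_dvd_left _ _
      · exact (gcd_dvd_right _ _).trans (gcd_dvd_left _ _)
      · exact (gcd_dvd_right _ _).trans (gcd_dvd_right _ _)
    have f := b.trans c.dvd
    rwa [d.dvd_mul_right] at f
  obtain ⟨U, hU⟩ := hd
  refine ⟨U, fun j => ?_⟩
  apply mul_right_cancel₀ hi
  rw [e j i, hU]
  ring

/-- `x^N, y^N, z^N` is a regular sequence. -/
theorem koszul_aux (N : ℕ) {u₀ u₁ u₂ : MvPolynomial (Fin 3) ℂ}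
    (h : X 0 ^ N * u₀ + X 1 ^ N * u₁ + X 2 ^ N * u₂ = 0) :
    u₂ ∈ Ideal.span ({X 0 ^ N, X 1 ^ N} : Set (MvPolynomial (Fin 3) ℂ)) := by
  classical
  have e : ({X 0 ^ N, X 1 ^ N} : Set (MvPolynomial (Fin 3) ℂ)) =
      (fun s => monomial s (1 : ℂ)) '' {Finsupp.single 0 N, Finsupp.single 1 N} := by
    rw [Set.image_pair, X_pow_eq_monomial, X_pow_eq_monomial]
  rw [e, mem_ideal_span_monomial_image]
  intro m hm
  have h1 : X 2 ^ N * u₂ ∈ Ideal.span ({X 0 ^ N, X 1 ^ N} : Set (MvPolynomial (Fin 3) ℂ)) := by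
    rw [Ideal.mem_span_pair]
    exact ⟨-u₀, -u₁, by linear_combination -h⟩
  rw [e, mem_ideal_span_monomial_image] at h1
  have h2 : Finsupp.single 2 N + m ∈ (X 2 ^ N * u₂).support := by
    rw [mem_support_iff, X_pow_eq_monomial, coeff_monomial_mul, one_mul]
    exact mem_support_iff.1 hm
  obtain ⟨s, hs, hs2⟩ := h1 _ h2
  refine ⟨s, hs, ?_⟩
  rcases hs with rfl | rfl
  · rw [Finsupp.single_le_iff] at hs2 ⊢
    simpa using hs2
  · rw [Finsupp.single_le_iff] at hs2 ⊢
    simpa using hs2

theorem koszul (N : ℕ) {U₀ U₁ U₂ : MvPolynomial (Fin 3) (MvPolynomial (Fin 3) ℂ)}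
    (h : C (X 0 ^ N) * U₀ + C (X 1 ^ N) * U₁ + C (X 2 ^ N) * U₂ = 0) :
    ∃ α β, U₂ = C (X 1 ^ N) * α - C (X 0 ^ N) * β := by
  have h1 : U₂ ∈ (Ideal.span ({X 0 ^ N, X 1 ^ N} : Set (MvPolynomial (Fin 3) ℂ))).map
      (C : MvPolynomial (Fin 3) ℂ →+* MvPolynomial (Fin 3) (MvPolynomial (Fin 3) ℂ)) := by
    rw [mem_map_C_iff]
    intro m
    apply koszul_aux N (u₀ := coeff m U₀) (u₁ := coeff m U₁)
    have := congrArg (coeff m) h
    simpa only [coeff_add, coeff_C_mul, coeff_zero] using this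
  rw [Ideal.map_span, Set.image_pair, Ideal.mem_span_pair] at h1
  obtain ⟨a, b, hab⟩ := h1
  exact ⟨b, -a, by rw [← hab]; ring⟩

theorem dvd_of_swap (N : ℕ) {A B : MvPolynomial (Fin 3) (MvPolynomial (Fin 3) ℂ)}
    (h : C (X 1 ^ N) * A = C (X 0 ^ N) * B) : C (X 0 ^ N) ∣ A := by
  rw [C_dvd_iff_dvd_coeff]
  intro m
  have h1 := congrArg (coeff m) h
  rw [coeff_C_mul, coeff_C_mul] at h1
  have h2 : IsRelPrime ((X 0 : MvPolynomial (Fin 3) ℂ) ^ N) (X 1 ^ N) := by
    apply IsRelPrime.pow
    rw [(X_prime (R := ℂ) (i := (0 : Fin 3))).irreducible.isRelPrime_iff_not_dvd]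
    intro hcon
    rw [X_dvd_X] at hcon
    simp at hcon
  exact h2.dvd_of_dvd_mul_left ⟨coeff m B, h1⟩

/-- **Linear type.** Let `v` be a vector of three polynomials in three variables without common
factor, such that for each `p ≠ 0` there is a syzygy of `v` which does not vanish at `p`. Then the
polynomial relations of `v` are generated by the linear ones. -/
theorem linear_type {v : Fin 3 → MvPolynomial (Fin 3) ℂ}
    (hv : ∀ q, (∀ i, q ∣ v i) → IsUnit q)
    (hQ : ∀ p : Fin 3 → ℂ, p ≠ 0 → ∃ a : Fin 3 → MvPolynomial (Fin 3) ℂ, ∑ i, a i * v i = 0 ∧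
      ∃ i, eval p (a i) ≠ 0) {M : ℕ} (hM : 0 < M)
    {F : MvPolynomial (Fin 3) (MvPolynomial (Fin 3) ℂ)} (hF : F.IsHomogeneous M)
    (h0 : eval v F = 0) : F ∈ LI v := by
  classical
  -- the ideal of all `h` with `h F` of linear type
  set J : Ideal (MvPolynomial (Fin 3) ℂ) := ((LI v).colon (Ideal.span {F})).comap C with hJ
  have hJm : ∀ h, h ∈ J ↔ C h * F ∈ LI v := by
    intro h
    rw [hJ, Ideal.mem_comap, Submodule.mem_colon_span_singleton, smul_eq_mul]
  have hloc : ∀ a : Fin 3 → MvPolynomial (Fin 3) ℂ, ∑ i, a i * v i = 0 → ∀ i, a i ^ M ∈ J := by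
    intro a ha i
    rw [hJm, C_pow]
    fin_cases i
    · exact local_step hv ha hM hF h0 0 1 2 (by decide) (by decide) (by decide)
    · exact local_step hv ha hM hF h0 1 0 2 (by decide) (by decide) (by decide)
    · exact local_step hv ha hM hF h0 2 0 1 (by decide) (by decide) (by decide)
  have hrad : ∀ k, (X k : MvPolynomial (Fin 3) ℂ) ∈ J.radical := by
    intro k
    rw [← vanishingIdeal_zeroLocus_eq_radical (K := ℂ), mem_vanishingIdeal_iff]
    intro p hp
    by_cases hp0 : p = 0
    · subst hp0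
      simp
    · exfalso
      obtain ⟨a, ha, i, hi⟩ := hQ p hp0
      have h1 := hloc a ha i
      rw [mem_zeroLocus_iff] at hp
      have h2 := hp _ h1
      rw [map_pow] at h2
      apply hi
      have h3 := pow_eq_zero_iff hM.ne' |>.1 h2
      simpa using h3
  choose n hn using hrad
  set N := n 0 + n 1 + n 2 with hN
  have hXN : ∀ k, C ((X k : MvPolynomial (Fin 3) ℂ) ^ N) * F ∈ LI v := by
    intro k
    rw [← hJm]
    have : n k ≤ N := by
      fin_cases k <;> simp [hN] <;> omega
    obtain ⟨r, hr⟩ := Nat.exists_eq_add_of_le this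
    rw [hr, pow_add]
    exact Ideal.mul_mem_right _ _ (hn k)
  obtain ⟨A, hA1, hA2⟩ := hXN 0
  obtain ⟨B, hB1, hB2⟩ := hXN 1
  obtain ⟨G, hG1, hG2⟩ := hXN 2
  have key : ∀ (S T : Fin 3 → MvPolynomial (Fin 3) (MvPolynomial (Fin 3) ℂ))
      (s t : MvPolynomial (Fin 3) ℂ), ∑ i, S i * C (v i) = 0 → ∑ i, T i * C (v i) = 0 →
      C s * F = ∑ i, S i * X i → C t * F = ∑ i, T i * X i →
      ∃ U, ∀ i, C t * S i - C s * T i = U * crs v i := by
    intro S T s t h1 h2 h3 h4
    apply exists_mul_crs hv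
    · have : ∑ i, (C t * S i - C s * T i) * C (v i) =
          C t * ∑ i, S i * C (v i) - C s * ∑ i, T i * C (v i) := by
        rw [Finset.mul_sum, Finset.mul_sum, ← Finset.sum_sub_distrib]
        exact Finset.sum_congr rfl fun i _ => by ring
      rw [this, h1, h2]
      ring
    · have : ∑ i, (C t * S i - C s * T i) * X i =
          C t * ∑ i, S i * X i - C s * ∑ i, T i * X i := by
        rw [Finset.mul_sum, Finset.mul_sum, ← Finset.sum_sub_distrib]
        exact Finset.sum_congr rfl fun i _ => by ring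
      rw [this, ← h3, ← h4]
      ring
  obtain ⟨U₂, hU₂⟩ := key A B _ _ hA1 hB1 hA2 hB2
  obtain ⟨U₀, hU₀⟩ := key B G _ _ hB1 hG1 hB2 hG2
  obtain ⟨U₁, hU₁⟩ := key G A _ _ hG1 hA1 hG2 hA2
  have hne : ∃ i, crs v i ≠ 0 := by
    by_contra hcon
    push Not at hcon
    exact not_isUnit_zero (crs_primitive hv (h := 0) fun i => by rw [hcon i])
  obtain ⟨l, hl⟩ := hne
  have hU : C (X 0 ^ N) * U₀ + C (X 1 ^ N) * U₁ + C (X 2 ^ N) * U₂ = 0 := by
    apply mul_right_cancel₀ hl
    rw [zero_mul]
    have a0 := hU₀ l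
    have a1 := hU₁ l
    have a2 := hU₂ l
    linear_combination -C (X 0 ^ N) * a0 - C (X 1 ^ N) * a1 - C (X 2 ^ N) * a2
  obtain ⟨α, β, hαβ⟩ := koszul N hU
  have hdiv : ∀ i, ∃ T, A i - α * crs v i = C (X 0 ^ N) * T := by
    intro i
    apply dvd_of_swap N (B := B i - β * crs v i)
    have := hU₂ i
    rw [hαβ] at this
    linear_combination this
  choose T hT using hdiv
  have hx : (C ((X 0 : MvPolynomial (Fin 3) ℂ) ^ N) :
      MvPolynomial (Fin 3) (MvPolynomial (Fin 3) ℂ)) ≠ 0 := by
    rw [Ne, C_eq_zero]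
    exact pow_ne_zero _ (X_ne_zero _)
  have c1 : ∑ i, crs v i * C (v i) = 0 := by
    rw [Fin.sum_univ_three, crs_zero, crs_one, crs_two]
    ring
  have c2 : ∑ i, crs v i * X i = 0 := by
    rw [Fin.sum_univ_three, crs_zero, crs_one, crs_two]
    ring
  refine ⟨T, ?_, ?_⟩
  · apply mul_left_cancel₀ hx
    rw [mul_zero, Finset.mul_sum]
    have : ∀ i, C (X 0 ^ N) * (T i * C (v i)) = A i * C (v i) - α * (crs v i * C (v i)) := by
      intro i
      have := hT i
      linear_combination -C (v i) * this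
    rw [Finset.sum_congr rfl fun i _ => this i, Finset.sum_sub_distrib, ← Finset.mul_sum, hA1, c1]
    ring
  · apply mul_left_cancel₀ hx
    rw [hA2, Finset.mul_sum]
    have : ∀ i, C (X 0 ^ N) * (T i * X i) = A i * X i - α * (crs v i * X i) := by
      intro i
      have := hT i
      linear_combination -X i * this
    rw [Finset.sum_congr rfl fun i _ => this i, Finset.sum_sub_distrib, ← Finset.mul_sum, c2]
    ring

end MPb07157Q
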