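import Pool.Agent.Lib.MP_b07157_agQ.Psi
import Pool.Agent.Lib.MP_b07157_agQ.LT2

/-!
# The key lemma: relations `∑_β ∂^β (G_β f^s) = 0`
-/

noncomputable section

namespace MPb07157Q

open MvPolynomial MPb07157

variable {n : ℕ}

/-- The values of `f^{|β|} ∂^β (a f^q)` at integers `q`. -/
theorem exists_top_monomial (f : MvPolynomial (Fin n) ℂ) (k : ℕ) :
    ∀ (β : Fin n →₀ ℕ) (a : MvPolynomial (Fin n) ℂ), β.degree = k →
    ∃ Λ : Polynomial (MvPolynomial (Fin n) ℂ), Λ.natDegree ≤ k ∧
      Λ.coeff k = a * β.prod (fun j e => pderiv j f ^ e) ∧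
      ∀ q : ℕ, (f : MvPowerSeries (Fin n) ℂ) ^ k *
        dPow β ((a : MvPowerSeries (Fin n) ℂ) * (f : MvPowerSeries (Fin n) ℂ) ^ q) =
        (f : MvPowerSeries (Fin n) ℂ) ^ q *
          ((Λ.eval (q : MvPolynomial (Fin n) ℂ) : MvPolynomial (Fin n) ℂ) :
            MvPowerSeries (Fin n) ℂ) := by
  classical
  induction k with
  | zero =>
    intro β a hβ
    have : β = 0 := by rwa [Finsupp.degree_eq_zero_iff] at hβ
    subst this
    refine ⟨Polynomial.C a, by simp, by simp, fun q => ?_⟩
    rw [dPow_zero, Polynomial.eval_C]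
    ring
  | succ k ih =>
    intro β a hβ
    obtain ⟨i, β', rfl, hβ'⟩ := exists_sub_single hβ
    obtain ⟨Λ, h1, h2, h3⟩ := ih β' a hβ'
    refine ⟨(Polynomial.X - Polynomial.C (k : MvPolynomial (Fin n) ℂ)) *
      Polynomial.C (pderiv i f) * Λ + Polynomial.C f * MPb07157S.dC (pderiv i) Λ, ?_, ?_, ?_⟩
    · apply Polynomial.natDegree_add_le_of_degree_le
      · refine (Polynomial.natDegree_mul_le).trans ?_
        have : (((Polynomial.X - Polynomial.C (k : MvPolynomial (Fin n) ℂ)) *
          Polynomial.C (pderiv i f)).natDegree) ≤ 1 := by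
          refine (Polynomial.natDegree_mul_C_le _ _).trans ?_
          rw [Polynomial.natDegree_X_sub_C]
        omega
      · refine (Polynomial.natDegree_C_mul_le _ _).trans ?_
        rw [Polynomial.natDegree_le_iff_coeff_eq_zero]
        intro N hN
        rw [MPb07157S.coeff_dC, Polynomial.coeff_eq_zero_of_natDegree_lt (by omega), map_zero]
    · rw [Polynomial.coeff_add, Polynomial.coeff_C_mul, MPb07157S.coeff_dC,
        Polynomial.coeff_eq_zero_of_natDegree_lt (show Λ.natDegree < k + 1 by omega), map_zero,
        mul_zero, add_zero, mul_assoc, sub_mul, Polynomial.coeff_sub, Polynomial.coeff_X_mul,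
        Polynomial.coeff_C_mul, Polynomial.coeff_C_mul, Polynomial.coeff_C_mul,
        Polynomial.coeff_eq_zero_of_natDegree_lt (show Λ.natDegree < k + 1 by omega), h2,
        Finsupp.prod_add_index', Finsupp.prod_single_index]
      · ring
      · rw [pow_zero]
      · intro j
        rw [pow_zero]
      · intro j b c
        rw [pow_add]
    · intro q
      set F : MvPowerSeries (Fin n) ℂ := (f : MvPowerSeries (Fin n) ℂ) with hF
      set u := dPow β' ((a : MvPowerSeries (Fin n) ℂ) * F ^ q) with hu
      have e0 := h3 q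
      have e1 := congrArg (MvPowerSeries.pderiv ℂ i) e0
      rw [Derivation.leibniz, Derivation.leibniz, smul_eq_mul, smul_eq_mul, smul_eq_mul,
        smul_eq_mul, MvPowerSeries.pderiv_coe] at e1
      have e2 := MPb07157S.mul_D_pow (MvPowerSeries.pderiv ℂ i) F k
      have e3 := MPb07157S.mul_D_pow (MvPowerSeries.pderiv ℂ i) F q
      have e4 : MvPowerSeries.pderiv ℂ i F = ((pderiv i f : MvPolynomial (Fin n) ℂ) :
          MvPowerSeries (Fin n) ℂ) := MvPowerSeries.pderiv_coe f
      have e5 : pderiv i (Λ.eval (q : MvPolynomial (Fin n) ℂ)) =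
          (MPb07157S.dC (pderiv i) Λ).eval (q : MvPolynomial (Fin n) ℂ) := by
        rw [MPb07157S.eval_dC]
        simp
      rw [e5] at e1
      rw [← pderiv_dPow, ← hu]
      simp only [Polynomial.eval_add, Polynomial.eval_mul, Polynomial.eval_sub,
        Polynomial.eval_X, Polynomial.eval_C, coe_add, coe_mul]
      have e6 : (((q : MvPolynomial (Fin n) ℂ) - (k : MvPolynomial (Fin n) ℂ) :
          MvPolynomial (Fin n) ℂ) : MvPowerSeries (Fin n) ℂ) = (q : MvPowerSeries (Fin n) ℂ) - k := by
        rw [← coeToMvPowerSeries.ringHom_apply, map_sub, map_natCast, map_natCast]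
      rw [e6, ← hF, ← e4]
      linear_combination F * e1 - u * e2 +
        ((Λ.eval (q : MvPolynomial (Fin n) ℂ) : MvPolynomial (Fin n) ℂ) :
            MvPowerSeries (Fin n) ℂ) * e3 - (k : MvPowerSeries (Fin n) ℂ) *
            MvPowerSeries.pderiv ℂ i F * e0

theorem coe_finsum {ι : Type*} (s : Finset ι) (g : ι → MvPolynomial (Fin n) ℂ) :
    ((∑ i ∈ s, g i : MvPolynomial (Fin n) ℂ) : MvPowerSeries (Fin n) ℂ) =
      ∑ i ∈ s, (g i : MvPowerSeries (Fin n) ℂ) := by
  have := map_sum (coeToMvPowerSeries.ringHom (σ := Fin n) (R := ℂ)) g s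
  simpa only [coeToMvPowerSeries.ringHom_apply] using this

/-- The top part of a relation vanishes at the gradient. -/
theorem top_eq_zero {f : MvPolynomial (Fin n) ℂ} (hf : f ≠ 0) {M : ℕ}
    {G : MvPolynomial (Fin n) (MvPolynomial (Fin n) ℂ)} (hG : ∀ β ∈ G.support, β.degree ≤ M)
    (h : ∀ q : ℕ, Psi ((f : MvPowerSeries (Fin n) ℂ) ^ q) G = 0) :
    eval (fun j => pderiv j f) (homogeneousComponent M G) = 0 := by
  classical
  choose! Λ h1 h2 h3 using fun β : Fin n →₀ ℕ =>
    exists_top_monomial f β.degree β (coeff β G) rfl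
  set T : Polynomial (MvPolynomial (Fin n) ℂ) :=
    ∑ β ∈ G.support, Polynomial.C (f ^ (M - β.degree)) * Λ β with hT
  have hF : (f : MvPowerSeries (Fin n) ℂ) ≠ 0 := by
    intro h0
    exact hf (MvPolynomial.coe_injective _ _ (by simpa using h0))
  have e1 : ∀ q : ℕ, T.eval (q : MvPolynomial (Fin n) ℂ) = 0 := by
    intro q
    apply MvPolynomial.coe_injective
    apply mul_left_cancel₀ (pow_ne_zero q hF)
    rw [coe_zero, mul_zero]
    have e2 : (f : MvPowerSeries (Fin n) ℂ) ^ M *
        Psi ((f : MvPowerSeries (Fin n) ℂ) ^ q) G = 0 := by rw [h q, mul_zero]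
    rw [← e2]
    unfold Psi
    rw [hT, Polynomial.eval_finsetSum, coe_finsum, Finset.mul_sum, Finset.mul_sum]
    refine Finset.sum_congr rfl fun β hβ => ?_
    have e3 : M = (M - β.degree) + β.degree := (Nat.sub_add_cancel (hG β hβ)).symm
    conv_rhs => rw [e3, pow_add, mul_assoc, h3 β q]
    rw [Polynomial.eval_mul, Polynomial.eval_C, coe_mul, coe_pow]
    ring
  have e2 : T = 0 := by
    apply Polynomial.eq_of_infinite_eval_eq
    apply Set.infinite_of_injective_forall_mem (f := fun q : ℕ => (q : MvPolynomial (Fin n) ℂ))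
    · intro a b hab
      exact_mod_cast (show (a : MvPolynomial (Fin n) ℂ) = b from hab)
    · intro q
      show T.eval _ = Polynomial.eval _ 0
      rw [e1 q, Polynomial.eval_zero]
  have e3 : T.coeff M = eval (fun j => pderiv j f) (homogeneousComponent M G) := by
    rw [hT, Polynomial.finsetSum_coeff, homogeneousComponent_apply, map_sum, Finset.sum_filter]
    refine Finset.sum_congr rfl fun β hβ => ?_
    rw [Polynomial.coeff_C_mul]
    split_ifs with hβ2
    · rw [← hβ2, Nat.sub_self, pow_zero, one_mul, h2 β, eval_monomial]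
    · have h4 : β.degree < M := lt_of_le_of_ne (hG β hβ) hβ2
      rw [Polynomial.coeff_eq_zero_of_natDegree_lt (lt_of_le_of_lt (h1 β) h4), mul_zero]
  rw [← e3, e2, Polynomial.coeff_zero]

/-- A relation of linear type can be replaced by one of smaller order. -/
theorem Psi_linear {f : MvPolynomial (Fin n) ℂ} {t : Fin n → MvPolynomial (Fin n) ℂ}
    (ht : ∑ i, t i * pderiv i f = 0) (β : Fin n →₀ ℕ) (q : ℕ) :
    Psi ((f : MvPowerSeries (Fin n) ℂ) ^ q) (monomial β 1 * ∑ i, C (t i) * X i) =
      Psi ((f : MvPowerSeries (Fin n) ℂ) ^ q) (monomial β (∑ i, pderiv i (t i))) := by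
  rw [Finset.mul_sum, Psi_sum, Psi_monomial]
  have h1 : ∀ i, Psi ((f : MvPowerSeries (Fin n) ℂ) ^ q) (monomial β 1 * (C (t i) * X i)) =
      dPow β (MvPowerSeries.pderiv ℂ i (((t i * f ^ q : MvPolynomial (Fin n) ℂ)) :
        MvPowerSeries (Fin n) ℂ)) := by
    intro i
    rw [X, C_mul_monomial, monomial_mul, mul_one, one_mul, Psi_monomial, dPow_pderiv, coe_mul,
      coe_pow]
  rw [Finset.sum_congr rfl fun i _ => h1 i, ← dPow_sum]
  congr 1
  have h2 : ∑ i, pderiv i (t i * f ^ q) = (∑ i, pderiv i (t i)) * f ^ q := by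
    have h3 : ∀ i, pderiv i (t i * f ^ q) = pderiv i (t i) * f ^ q +
        C (q : ℂ) * f ^ (q - 1) * (t i * pderiv i f) := by
      intro i
      rw [Derivation.leibniz, Derivation.leibniz_pow, smul_eq_mul, smul_eq_mul, nsmul_eq_mul,
        smul_eq_mul, map_natCast]
      ring
    rw [Finset.sum_congr rfl fun i _ => h3 i, Finset.sum_add_distrib, ← Finset.mul_sum, ht,
      mul_zero, add_zero, Finset.sum_mul]
  have h4 := congrArg (fun z : MvPolynomial (Fin n) ℂ => (z : MvPowerSeries (Fin n) ℂ)) h2
  simp only [coe_finsum, coe_mul, coe_pow] at h4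
  rw [coe_finsum, ← h4]
  refine Finset.sum_congr rfl fun i _ => ?_
  rw [MvPowerSeries.pderiv_coe]

/-- **Key lemma.** If the relations of `grad f` are generated by the linear ones and all vector
fields which kill `f` have divergence without constant term, then `∑_β ∂^β (G_β f^q) = 0` for all
`q` implies that the constant term of `G_0` is zero. -/
theorem key {f : MvPolynomial (Fin n) ℂ} (hf : f ≠ 0)
    (hLT : ∀ M : ℕ, 0 < M → ∀ F : MvPolynomial (Fin n) (MvPolynomial (Fin n) ℂ),
      F.IsHomogeneous M → eval (fun j => pderiv j f) F = 0 →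
      ∃ T : Fin n → MvPolynomial (Fin n) (MvPolynomial (Fin n) ℂ),
        ∑ i, T i * C (pderiv i f) = 0 ∧ F = ∑ i, T i * X i)
    (hNS : ∀ t : Fin n → MvPolynomial (Fin n) ℂ, ∑ i, t i * pderiv i f = 0 →
      constantCoeff (∑ i, pderiv i (t i)) = 0) (M : ℕ) :
    ∀ G : MvPolynomial (Fin n) (MvPolynomial (Fin n) ℂ), (∀ β ∈ G.support, β.degree ≤ M) →
      (∀ q : ℕ, Psi ((f : MvPowerSeries (Fin n) ℂ) ^ q) G = 0) → cc G = 0 := by
  classical
  induction M with
  | zero =>
    intro G hG h
    have h1 : G = C (coeff 0 G) := by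
      ext1 β
      rw [coeff_C]
      split_ifs with hβ
      · rw [← hβ]
      · rw [← notMem_support_iff]
        intro hcon
        apply hβ
        have := hG β hcon
        rw [Nat.le_zero, Finsupp.degree_eq_zero_iff] at this
        exact this.symm
    have h2 := h 0
    rw [h1, Psi_C, pow_zero, mul_one] at h2
    have h3 : coeff 0 G = 0 := by
      apply MvPolynomial.coe_injective
      rw [h2, coe_zero]
    unfold cc
    rw [h3, map_zero]
  | succ M ih =>
    intro G hG h
    set F := homogeneousComponent (M + 1) G with hFdef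
    have hF : F.IsHomogeneous (M + 1) := homogeneousComponent_isHomogeneous _ _
    obtain ⟨T, hT1, hT2⟩ := hLT (M + 1) (Nat.succ_pos M) F hF (top_eq_zero hf hG h)
    -- homogeneous components of `T`
    set U : Fin n → MvPolynomial (Fin n) (MvPolynomial (Fin n) ℂ) :=
      fun i => homogeneousComponent M (T i) with hU
    have hU1 : ∀ β : Fin n →₀ ℕ, ∑ i, coeff β (U i) * pderiv i f = 0 := by
      intro β
      simp only [hU, coeff_homogeneousComponent]
      split_ifs with hβ
      · have := congrArg (coeff β) hT1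
        rw [coeff_sum, coeff_zero] at this
        rw [← this]
        refine Finset.sum_congr rfl fun i _ => ?_
        rw [mul_comm (T i), coeff_C_mul, mul_comm]
      · simp
    have hU2 : F = ∑ i, U i * X i := by
      ext1 β
      have h1 := congrArg (coeff β) hT2
      rw [h1, coeff_sum, coeff_sum]
      by_cases hβ : β.degree = M + 1
      · refine Finset.sum_congr rfl fun i _ => ?_
        rw [coeff_mul_X', coeff_mul_X']
        split_ifs with hi
        · rw [hU]
          simp only
          rw [coeff_homogeneousComponent, if_pos]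
          have h2 : Finsupp.single i 1 ≤ β := by
            rw [Finsupp.single_le_iff]
            rw [Finsupp.mem_support_iff] at hi
            omega
          have h3 := congrArg Finsupp.degree (tsub_add_cancel_of_le h2)
          rw [map_add, Finsupp.degree_single, hβ] at h3
          omega
        · rfl
      · have h2 : coeff β F = 0 := hF.coeff_eq_zero hβ
        have h3 : ∑ i, coeff β (T i * X i) = 0 := by
          rw [← coeff_sum, ← h1, h2]
        rw [h3]
        symm
        apply Finset.sum_eq_zero
        intro i _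
        have h4 : (U i * X i).IsHomogeneous (M + 1) :=
          (homogeneousComponent_isHomogeneous M (T i)).mul (isHomogeneous_X _ i)
        exact h4.coeff_eq_zero hβ
    set s : Finset (Fin n →₀ ℕ) := Finset.univ.biUnion fun i => (U i).support with hs
    have hsupp : ∀ β ∈ s, β.degree = M := by
      intro β hβ
      rw [hs, Finset.mem_biUnion] at hβ
      obtain ⟨i, -, hi⟩ := hβ
      by_contra hcon
      exact (mem_support_iff.1 hi)
        ((homogeneousComponent_isHomogeneous M (T i)).coeff_eq_zero hcon)
    have hU3 : F = ∑ β ∈ s, monomial β 1 * ∑ i, C (coeff β (U i)) * X i := by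
      rw [hU2]
      have h1 : ∀ i, U i = ∑ β ∈ s, monomial β (coeff β (U i)) := by
        intro i
        conv_lhs => rw [(U i).as_sum]
        apply Finset.sum_subset
        · rw [hs]
          exact Finset.subset_biUnion_of_mem (fun i => (U i).support) (Finset.mem_univ i)
        · intro β _ hβ
          rw [notMem_support_iff.1 hβ, map_zero]
      have h2 : ∀ i, U i * X i = ∑ β ∈ s, monomial β 1 * (C (coeff β (U i)) * X i) := by
        intro i
        conv_lhs => rw [h1 i, Finset.sum_mul]
        refine Finset.sum_congr rfl fun β _ => ?_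
        rw [← mul_assoc, mul_comm (monomial β 1) (C _), C_mul_monomial, mul_one]
      rw [Finset.sum_congr rfl fun i _ => h2 i, Finset.sum_comm]
      refine Finset.sum_congr rfl fun β _ => ?_
      rw [Finset.mul_sum]
    set H : MvPolynomial (Fin n) (MvPolynomial (Fin n) ℂ) :=
      ∑ β ∈ s, monomial β (∑ i, pderiv i (coeff β (U i))) with hH
    have hPsi : ∀ q : ℕ, Psi ((f : MvPowerSeries (Fin n) ℂ) ^ q) F =
        Psi ((f : MvPowerSeries (Fin n) ℂ) ^ q) H := by
      intro q
      rw [hU3, hH, Psi_sum, Psi_sum]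
      exact Finset.sum_congr rfl fun β _ => Psi_linear (hU1 β) β q
    have hccH : cc H = 0 := by
      unfold cc
      rw [hH, coeff_sum, map_sum]
      apply Finset.sum_eq_zero
      intro β _
      rw [coeff_monomial]
      split_ifs with hβ
      · exact hNS _ (hU1 β)
      · rw [map_zero]
    have hccF : cc F = 0 := by
      unfold cc
      have : coeff 0 F = 0 := by
        apply hF.coeff_eq_zero
        simp
      rw [this, map_zero]
    have h5 := ih (G - F + H) (by
      intro β hβ
      by_contra hcon
      push Not at hcon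
      apply mem_support_iff.1 hβ
      rw [coeff_add, coeff_sub]
      have h6 : coeff β H = 0 := by
        rw [hH, coeff_sum]
        apply Finset.sum_eq_zero
        intro γ hγ
        rw [coeff_monomial, if_neg]
        rintro rfl
        have := hsupp γ hγ
        omega
      rw [h6, add_zero, hFdef, coeff_homogeneousComponent]
      split_ifs with h7
      · rw [sub_self]
      · rw [sub_zero, ← notMem_support_iff]
        intro h8
        have := hG β h8
        omega) (by
      intro q
      rw [Psi_add, Psi_sub, h q, hPsi q]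
      ring)
    rw [cc_add, cc_sub, hccF, hccH] at h5
    simpa using h5

end MPb07157Q
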