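import Pool.Agent.Lib.MP_b07157_agQ.FinQ
import Pool.Agent.Lib.MP_b07157_agM.RootLT
import Pool.Agent.Lib.MP_b07157_agQ.Key
import Pool.Agent.Lib.MP_b07157_agS.SC

/-!
# The root `-3/d` of homogeneous polynomials of degree `d` in three variables
-/

noncomputable section

namespace MPb07157

open MvPolynomial MPb07157Q

variable {n : ℕ}

theorem root_of_qh {r : ℕ} {f : MvPolynomial (Fin 3) ℂ}
    {g : Fin r → MvPolynomial (Fin 3) ℂ} {m : Fin r → ℕ} (hf : IsFact f g m) {d : ℕ} (hd : 0 < d)
    (hh : f.IsHomogeneous d) (hQ : ∀ p ≠ 0, eval p f = 0 → QHat f p) (hNS : NS f)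
    (b : Polynomial ℂ) (hb : InDnForm f 1 (b.map (MvPowerSeries.C (σ := Fin 3) (R := ℂ)))) :
    b.eval (((-(3 / d) : ℚ)) : ℂ) = 0 := by
  classical
  have hf0 : f ≠ 0 := hf.ne_zero
  set P : MvPolynomial (Fin 3) ℂ := ∏ j, g j with hP
  have hP0 : P ≠ 0 := Finset.prod_ne_zero_iff.2 fun i _ => (hf.irr i).ne_zero
  set v : Fin 3 → MvPolynomial (Fin 3) ℂ := vv g m with hv
  have hrel : ∀ i, P * pderiv i f = f * v i := by
    intro i
    have := prod_mul_pderiv g m i
    rwa [← hf.eq] at this
  have hiff : ∀ t : Fin 3 → MvPolynomial (Fin 3) ℂ,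
      P * ∑ i, t i * pderiv i f = f * ∑ i, t i * v i := by
    intro t
    rw [Finset.mul_sum, Finset.mul_sum]
    refine Finset.sum_congr rfl fun i _ => ?_
    have := hrel i
    linear_combination t i * this
  have hQ' : ∀ p : Fin 3 → ℂ, p ≠ 0 → ∃ a : Fin 3 → MvPolynomial (Fin 3) ℂ,
      ∑ i, a i * v i = 0 ∧ ∃ i, eval p (a i) ≠ 0 := by
    intro p hp
    by_cases hpf : eval p f = 0
    · obtain ⟨a, ha, hi⟩ := hQ p hp hpf
      refine ⟨a, ?_, hi⟩
      have := hiff a
      rw [ha, mul_zero] at this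
      exact (mul_eq_zero.1 this.symm).resolve_left hf0
    · have h1 : ∃ i, eval p (v i) ≠ 0 := by
        by_contra hcon
        push Not at hcon
        have h2 := hiff (fun i => X i)
        rw [euler_aux hh] at h2
        have h3 := congrArg (eval p) h2
        rw [map_mul, map_mul, map_mul, map_sum] at h3
        have h4 : ∑ i, eval p (X i * v i) = 0 := by
          apply Finset.sum_eq_zero
          intro i _
          rw [map_mul, hcon i, mul_zero]
        rw [h4, mul_zero, eval_C] at h3
        have h5 : eval p P ≠ 0 := by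
          rw [hP, map_prod]
          intro h6
          obtain ⟨j, -, hj⟩ := Finset.prod_eq_zero_iff.1 h6
          apply hpf
          rw [hf.eq]
          unfold prodPow
          rw [map_prod]
          apply Finset.prod_eq_zero (Finset.mem_univ j)
          rw [map_pow, hj, zero_pow (hf.pos j).ne']
        have h6 : (d : ℂ) ≠ 0 := by exact_mod_cast hd.ne'
        exact (mul_ne_zero h5 (mul_ne_zero h6 hpf)) h3
      obtain ⟨i, hi⟩ := h1
      obtain ⟨j, hj⟩ : ∃ j : Fin 3, j ≠ i := exists_ne i
      refine ⟨Pi.single j (v i) - Pi.single i (v j), ?_, j, ?_⟩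
      · simp only [Pi.sub_apply, sub_mul, Finset.sum_sub_distrib, Pi.single_apply, ite_mul,
          zero_mul, Finset.sum_ite_eq', Finset.mem_univ, if_true]
        ring
      · simpa [hj] using hi
  have hb' := root_of_linear_type hf0 hd hh (fun M hM F hF h0 => by
    have h1 : eval v F = 0 := by
      have e1 : ∀ z : Fin 3 → MvPolynomial (Fin 3) ℂ, aeval z F = eval z F := fun z => rfl
      have e2 : P ^ M * eval (fun j => pderiv j f) F = f ^ M * eval v F := by
        rw [← e1, ← e1, ← aeval_smul_hom hF, ← aeval_smul_hom hF]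
        congr 2
        funext k
        exact hrel k
      rw [h0, mul_zero] at e2
      exact (mul_eq_zero.1 e2.symm).resolve_left (pow_ne_zero M hf0)
    obtain ⟨T, hT1, hT2⟩ := linear_type (fun q hq => vv_coprime hf hd hh hq) hQ' hM hF h1
    refine ⟨T, ?_, hT2⟩
    have h2 : (C P : MvPolynomial (Fin 3) (MvPolynomial (Fin 3) ℂ)) ≠ 0 := by
      rw [Ne, C_eq_zero]
      exact hP0
    apply mul_left_cancel₀ h2
    have h3 : C P * ∑ i, T i * C (pderiv i f) = C f * ∑ i, T i * C (v i) := by
      rw [Finset.mul_sum, Finset.mul_sum]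
      refine Finset.sum_congr rfl fun i _ => ?_
      have h4 := congrArg (C : MvPolynomial (Fin 3) ℂ →
        MvPolynomial (Fin 3) (MvPolynomial (Fin 3) ℂ)) (hrel i)
      rw [C_mul, C_mul] at h4
      linear_combination T i * h4
    rw [h3, hT1, mul_zero, mul_zero]) hNS b hb
  rw [← hb']
  congr 1
  push_cast
  ring

end MPb07157
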