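import Pool.Agent.Lib.MP_b07157_agQ.LineC
import Mathlib.Algebra.Polynomial.Homogenize

/-!
# Polynomials whose exponents lie on a line are stably non-degenerate
-/

noncomputable section

namespace MPb07157

open MvPolynomial

namespace Line

variable {N : ℕ} {ι : Type} [DecidableEq ι]

/-! ### Small cases -/

theorem subND_monomial {v : Fin N →₀ ℕ} {c : ℂ} (hc : c ≠ 0) : SubND (monomial v c) := by
  classical
  intro S hS hS0 u hu h0
  have hS' : S = {v} := by
    apply Finset.Subset.antisymm
    · intro x hx
      have := hS hx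
      rw [support_monomial, if_neg hc] at this
      exact this
    · obtain ⟨x, hx⟩ := hS0
      have := hS hx
      rw [support_monomial, if_neg hc, Finset.mem_singleton] at this
      rw [Finset.singleton_subset_iff, ← this]
      exact hx
  have h1 : E0 S u (monomial v c) = 0 := h0
  rw [E0_monomial, mul_eq_zero] at h1
  rcases h1 with h1 | h1
  · exact absurd h1 hc
  · unfold chi at h1
    rw [if_pos (by rw [hS']; exact Finset.mem_singleton_self v)] at h1
    exact absurd h1 (Finset.prod_ne_zero_iff.2 fun j _ => pow_ne_zero _ (hu j))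

theorem subND_bin {β γ : Fin N →₀ ℕ} (hβγ : β ≠ γ) (c : ℂ) : SubND (bin β γ c) := by
  classical
  intro S hS hS0 u hu h0
  by_contra hcon
  push Not at hcon
  have e0 : E0 S u (bin β γ c) = 0 := h0
  have e1 : ∀ j, E1 S u j (bin β γ c) = 0 := by
    intro j
    show u j * eval u (pderiv j (inForm (bin β γ c) S)) = 0
    rw [hcon j, mul_zero]
  unfold bin at e0 e1
  rw [map_sub, E0_monomial, E0_monomial, one_mul] at e0
  simp only [map_sub, E1_monomial, one_mul] at e1
  obtain ⟨j, hj⟩ : ∃ j, β j ≠ γ j := by
    by_contra h'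
    push Not at h'
    exact hβγ (Finsupp.ext h')
  have h1 : ((β j : ℂ) - (γ j : ℂ)) * chi S u β = 0 := by
    linear_combination e1 j - (γ j : ℂ) * e0
  have hβ : chi S u β = 0 := by
    rcases mul_eq_zero.1 h1 with h | h
    · rw [sub_eq_zero] at h
      exact absurd (by exact_mod_cast h) hj
    · exact h
  have hγ : c * chi S u γ = 0 := by
    rw [hβ] at e0
    linear_combination -e0
  obtain ⟨v, hv⟩ := hS0
  have hchi : ∀ x ∈ S, chi S u x ≠ 0 := by
    intro x hx
    unfold chi
    rw [if_pos hx]
    exact Finset.prod_ne_zero_iff.2 fun j _ => pow_ne_zero _ (hu j)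
  apply mem_support_iff.1 (hS hv)
  unfold bin
  rw [coeff_sub, coeff_monomial, coeff_monomial, if_neg (by rintro rfl; exact hchi _ hv hβ),
    zero_sub, neg_eq_zero]
  by_cases h : γ = v
  · rw [if_pos h]
    rw [h, mul_eq_zero] at hγ
    exact hγ.resolve_right (hchi _ hv)
  · rw [if_neg h]

/-- Products of a monomial and powers of binomials. -/
theorem stable_prod {α β γ : Fin N →₀ ℕ} {r : ι → ℂ} {m : ι → ℕ} (hm : ∀ i, 0 < m i)
    {T : Finset ι} (hr : ∀ i ∈ T, ∀ j ∈ T, r i = r j → i = j) (hβγ : β ≠ γ) (hβ : β ≠ 0)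
    (hγ : γ ≠ 0) {c : ℂ} (hc : c ≠ 0) {f : MvPolynomial (Fin N) ℂ}
    (hf : f = C c * (monomial α 1 * ∏ i ∈ T, bin β γ (r i) ^ m i)) (h0 : coeff 0 f = 0) :
    StableLoc N f ∧ StableGlob N f := by
  classical
  have hunit : ∀ g : MvPolynomial (Fin N) ℂ, ∀ k : ℕ, f = C c * g ^ k → FormEquivPow f g k := by
    intro g k hfg
    refine ⟨AlgEquiv.refl, Units.map (MvPowerSeries.C (σ := Fin N) (R := ℂ) : ℂ →* _)
      (Units.mk0 c hc), ?_⟩
    rw [hfg, MvPolynomial.coe_mul, MvPolynomial.coe_pow, MvPolynomial.coe_C]
    rfl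
  have hunit' : ∀ g : MvPolynomial (Fin N) ℂ, ∀ k : ℕ, f = C c * g ^ k → PolyEquivPow f g k := by
    intro g k hfg
    exact ⟨AlgEquiv.refl, c, hc, hfg⟩
  by_cases h : α ≠ 0 ∨ 2 ≤ T.card
  · have hN : 0 < N := by
      rcases Nat.eq_zero_or_pos N with h' | h'
      · subst h'
        exact absurd (Subsingleton.elim β γ) hβγ
      · exact h'
    have hg : Good α β γ (∅ : Finset ι) (fun _ => (⟨0, hN⟩ : Fin N)) (fun _ => ⟨0, hN⟩) := by
      constructor <;> simp
    obtain ⟨h1, h2⟩ := stable_FF (r := r) hm T.card N α β γ T ∅ _ _ rfl hg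
      (Finset.disjoint_empty_right T) (by simpa using hr) hβγ hβ hγ
      (by rcases h with h | h
          · exact Or.inl h
          · exact Or.inr (Or.inr h))
    have hfF : f = C c * (FF α β γ r m T ∅ (fun _ => (⟨0, hN⟩ : Fin N)) (fun _ => ⟨0, hN⟩)) ^ 1 := by
      rw [hf, FF]
      simp
    exact ⟨StableLoc.equiv _ _ 1 one_pos (hunit _ _ hfF) h1,
      StableGlob.equiv _ _ 1 one_pos h0 (hunit' _ _ hfF) h2⟩
  · push Not at h
    obtain ⟨hα, hT⟩ := h
    have hT' : T.card = 0 ∨ T.card = 1 := by omega
    rcases hT' with hT' | hT'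
    · exfalso
      rw [Finset.card_eq_zero] at hT'
      rw [hf, hT', Finset.prod_empty, hα, mul_one, ← constantCoeff_eq, map_mul, constantCoeff_C,
        constantCoeff_eq, coeff_monomial, if_pos rfl, mul_one] at h0
      exact hc h0
    · obtain ⟨i, hi⟩ := Finset.card_eq_one.1 hT'
      have hfb : f = C c * bin β γ (r i) ^ m i := by
        rw [hf, hi, Finset.prod_singleton, hα]
        congr 1
        rw [show (monomial 0 (1 : ℂ) : MvPolynomial (Fin N) ℂ) = 1 from rfl, one_mul]
      have hbne : bin β γ (r i) ≠ 0 := by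
        intro hb
        have : coeff β (bin β γ (r i)) = 1 := by
          unfold bin
          rw [coeff_sub, coeff_monomial, if_pos rfl, coeff_monomial, if_neg hβγ.symm, sub_zero]
        rw [hb, coeff_zero] at this
        exact zero_ne_one this
      obtain ⟨h1, h2⟩ := (subND_bin hβγ (r i)).stable hbne
        (by rw [← constantCoeff_eq]; exact constantCoeff_bin hβ hγ _)
      exact ⟨StableLoc.equiv _ _ _ (hm i) (hunit _ _ hfb) h1,
        StableGlob.equiv _ _ _ (hm i) h0 (hunit' _ _ hfb) h2⟩

/-! ### Factorization -/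

theorem homogenize_X_sub_C_pow (a : ℂ) (m : ℕ) :
    ((Polynomial.X - Polynomial.C a) ^ m : Polynomial ℂ).homogenize m =
      (X 0 - C a * X 1 : MvPolynomial (Fin 2) ℂ) ^ m := by
  induction m with
  | zero => simp
  | succ m ih =>
    rw [pow_succ, Polynomial.homogenize_mul _ _ (m := m) (n := 1), ih, pow_succ]
    · congr 1
      rw [Polynomial.homogenize_sub, Polynomial.homogenize_X one_ne_zero, Polynomial.homogenize_C]
      simp
    · refine (Polynomial.natDegree_pow_le).trans ?_
      rw [Polynomial.natDegree_X_sub_C, mul_one]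
    · exact (Polynomial.natDegree_X_sub_C a).le

theorem homogenize_eq_prod (p : Polynomial ℂ) :
    p.homogenize p.natDegree = C p.leadingCoeff *
      ∏ a ∈ p.roots.toFinset, (X 0 - C a * X 1 : MvPolynomial (Fin 2) ℂ) ^ p.rootMultiplicity a := by
  classical
  have hs : p.roots.card = p.natDegree :=
    (IsAlgClosed.splits p).natDegree_eq_card_roots.symm
  have h1 : Polynomial.C p.leadingCoeff * ∏ a ∈ p.roots.toFinset,
      (Polynomial.X - Polynomial.C a) ^ p.rootMultiplicity a = p := by
    rw [← Polynomial.prod_multiset_root_eq_finset_root]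
    exact Polynomial.C_leadingCoeff_mul_prod_multiset_X_sub_C hs
  have h2 : ∑ a ∈ p.roots.toFinset, p.rootMultiplicity a = p.natDegree := by
    rw [← hs]
    conv_rhs => rw [← Multiset.toFinset_sum_count_eq]
    refine Finset.sum_congr rfl fun a _ => ?_
    rw [Polynomial.count_roots]
  conv_lhs => rw [← h1]
  rw [Polynomial.homogenize_C_mul]
  congr 1
  rw [h1, ← h2, Polynomial.homogenize_finsetProd]
  · refine Finset.prod_congr rfl fun a _ => ?_
    exact homogenize_X_sub_C_pow a _
  · intro a _
    refine (Polynomial.natDegree_pow_le).trans ?_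
    rw [Polynomial.natDegree_X_sub_C, mul_one]

/-- The exponents `α + k β⁺ + (K - k) β⁻`. -/
def EE (α βp βm : Fin N →₀ ℕ) (K k : ℕ) : Fin N →₀ ℕ := α + k • βp + (K - k) • βm

theorem stable_of_EE {α βp βm : Fin N →₀ ℕ} {K : ℕ} (hβ : βp ≠ βm) (hβp : βp ≠ 0) (hβm : βm ≠ 0)
    {f : MvPolynomial (Fin N) ℂ} (h0 : coeff 0 f = 0)
    (h : ∀ v ∈ f.support, ∃ k ≤ K, v = EE α βp βm K k) (hK : coeff (EE α βp βm K K) f ≠ 0) :
    StableLoc N f ∧ StableGlob N f := by
  classical
  -- the exponents are different
  have hinj : ∀ k ≤ K, ∀ l ≤ K, EE α βp βm K k = EE α βp βm K l → k = l := by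
    intro k hk l hl hkl
    obtain ⟨j, hj⟩ : ∃ j, βp j ≠ βm j := by
      by_contra h'
      push Not at h'
      exact hβ (Finsupp.ext h')
    have h1 := DFunLike.congr_fun hkl j
    unfold EE at h1
    simp only [Finsupp.add_apply, Finsupp.smul_apply, smul_eq_mul] at h1
    have h2 : ((k : ℤ) - l) * ((βp j : ℤ) - βm j) = 0 := by
      have h3 : ((α j : ℤ) + k * βp j + ((K : ℤ) - k) * βm j) =
          (α j : ℤ) + l * βp j + ((K : ℤ) - l) * βm j := by
        have h4 : ((K - k : ℕ) : ℤ) = (K : ℤ) - k := by omega
        have h5 : ((K - l : ℕ) : ℤ) = (K : ℤ) - l := by omega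
        rw [← h4, ← h5]
        exact_mod_cast h1
      linear_combination h3
    rcases mul_eq_zero.1 h2 with h3 | h3
    · omega
    · exact absurd (by omega) hj
  set p : Polynomial ℂ := ∑ k ∈ Finset.range (K + 1),
    Polynomial.monomial k (coeff (EE α βp βm K k) f) with hp
  have hpc : ∀ k ≤ K, p.coeff k = coeff (EE α βp βm K k) f := by
    intro k hk
    rw [hp, Polynomial.finsetSum_coeff]
    simp only [Polynomial.coeff_monomial]
    rw [Finset.sum_ite_eq', if_pos (Finset.mem_range.2 (by omega))]
  have hdeg : p.natDegree = K := by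
    apply le_antisymm
    · rw [hp]
      refine Polynomial.natDegree_sum_le_of_forall_le _ _ fun k hk => ?_
      refine (Polynomial.natDegree_monomial_le _).trans ?_
      have := Finset.mem_range.1 hk
      omega
    · apply Polynomial.le_natDegree_of_ne_zero
      rw [hpc K le_rfl]
      exact hK
  have hp0 : p ≠ 0 := by
    intro h1
    apply hK
    rw [← hpc K le_rfl, h1, Polynomial.coeff_zero]
  -- `f` is the product of a monomial and a binary form of monomials
  have hf : f = monomial α 1 * aeval ![(monomial βp 1 : MvPolynomial (Fin N) ℂ), monomial βm 1]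
      (p.homogenize K) := by
    have h1 : aeval ![(monomial βp 1 : MvPolynomial (Fin N) ℂ), monomial βm 1] (p.homogenize K) =
        ∑ k ∈ Finset.range (K + 1), monomial (k • βp + (K - k) • βm) (p.coeff k) := by
      unfold Polynomial.homogenize
      rw [map_sum, Finset.Nat.sum_antidiagonal_eq_sum_range_succ_mk]
      refine Finset.sum_congr rfl fun k _ => ?_
      rw [aeval_monomial, Finsupp.prod_fintype _ _ (fun _ => pow_zero _), Fin.prod_univ_two]
      simp only [Matrix.cons_val_zero, Matrix.cons_val_one]
      have h2 : (Finsupp.single (0 : Fin 2) k).update 1 (K - k) 0 = k := by simp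
      have h3 : (Finsupp.single (0 : Fin 2) k).update 1 (K - k) 1 = K - k := by simp
      rw [h2, h3, monomial_pow, monomial_pow, one_pow, one_pow, monomial_mul, mul_one,
        MvPolynomial.algebraMap_eq, C_mul_monomial, mul_one]
    rw [h1, Finset.mul_sum]
    ext v
    rw [coeff_sum]
    by_cases hv : ∃ k ≤ K, v = EE α βp βm K k
    · obtain ⟨k, hk, rfl⟩ := hv
      rw [Finset.sum_eq_single k]
      · have h2 : α + k • βp + (K - k) • βm = EE α βp βm K k := rfl
        rw [monomial_mul, one_mul, hpc k hk, ← add_assoc, coeff_monomial, h2, if_pos rfl]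
      · intro l hl hlk
        rw [monomial_mul, one_mul, coeff_monomial, if_neg]
        intro h2
        rw [← add_assoc] at h2
        have h3 := Finset.mem_range.1 hl
        exact hlk (hinj l (by omega) k hk h2)
      · intro h'
        exact absurd (Finset.mem_range.2 (by omega)) h'
    · have hv0 : coeff v f = 0 := by
        by_contra h'
        exact hv (h v (mem_support_iff.2 h'))
      rw [hv0, Finset.sum_eq_zero]
      intro l hl
      rw [monomial_mul, one_mul, coeff_monomial, if_neg]
      intro h2
      rw [← add_assoc] at h2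
      have h3 := Finset.mem_range.1 hl
      exact hv ⟨l, by omega, h2.symm⟩
  have hfac := homogenize_eq_prod p
  rw [hdeg] at hfac
  have hroot : ∀ a ∈ p.roots.toFinset, 0 < p.rootMultiplicity a := by
    intro a ha
    rw [Polynomial.rootMultiplicity_pos hp0]
    exact Polynomial.isRoot_of_mem_roots (Multiset.mem_toFinset.1 ha)
  refine stable_prod (α := α) (β := βp) (γ := βm) (r := fun a : ℂ => a)
    (m := fun a => max (p.rootMultiplicity a) 1) (fun a => lt_of_lt_of_le one_pos (le_max_right _ _))
    (T := p.roots.toFinset) (fun i _ j _ hij => hij) hβ hβp hβm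
    (Polynomial.leadingCoeff_ne_zero.2 hp0) ?_ h0
  rw [hf, hfac, map_mul, map_prod, aeval_C]
  have hprod : ∏ a ∈ p.roots.toFinset, aeval ![(monomial βp 1 : MvPolynomial (Fin N) ℂ), monomial βm 1]
      ((X 0 - C a * X 1 : MvPolynomial (Fin 2) ℂ) ^ p.rootMultiplicity a) =
      ∏ a ∈ p.roots.toFinset, bin βp βm a ^ max (p.rootMultiplicity a) 1 := by
    refine Finset.prod_congr rfl fun a ha => ?_
    have h1 := hroot a ha
    rw [max_eq_left (by omega), map_pow]
    congr 1
    rw [map_sub, map_mul, aeval_X, aeval_X, aeval_C, algebraMap_eq]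
    simp only [Matrix.cons_val_zero, Matrix.cons_val_one]
    rw [C_mul_monomial, mul_one]
    rfl
  rw [hprod, algebraMap_eq]
  ring

end Line

/-- A polynomial whose exponents lie on a line which contains no direction with nonnegative
coordinates is stably non-degenerate. -/
theorem stable_of_line {n : ℕ} {f : MvPolynomial (Fin n) ℂ} (hf : f ≠ 0) (h0 : coeff 0 f = 0)
    (e β : Fin n → ℤ) (w : Fin n → ℕ) (hw : ∀ j, 0 < w j) (hβ : ∑ j, (w j : ℤ) * β j = 0)
    (h : ∀ v ∈ f.support, ∃ k : ℤ, ∀ j, (v j : ℤ) = e j + k * β j) :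
    StableLoc n f ∧ StableGlob n f := by
  classical
  have hs : f.support.Nonempty := support_nonempty.2 hf
  by_cases hβ0 : β = 0
  · obtain ⟨v, hv⟩ := hs
    have hsv : f.support = {v} := by
      apply Finset.Subset.antisymm
      · intro x hx
        rw [Finset.mem_singleton]
        ext j
        obtain ⟨k, hk⟩ := h v hv
        obtain ⟨l, hl⟩ := h x hx
        have h1 := hk j
        have h2 := hl j
        rw [hβ0] at h1 h2
        simp only [Pi.zero_apply, mul_zero, add_zero] at h1 h2
        omega
      · rw [Finset.singleton_subset_iff]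
        exact hv
    have hfv : f = monomial v (coeff v f) := by
      conv_lhs => rw [← support_sum_monomial_coeff f]
      rw [hsv, Finset.sum_singleton]
    rw [hfv] at hf h0 ⊢
    refine (Line.subND_monomial ?_).stable hf h0
    exact mem_support_iff.1 hv
  · choose! k hk using h
    obtain ⟨a, ha, hamin⟩ := f.support.exists_min_image k hs
    obtain ⟨b, hb, hbmax⟩ := f.support.exists_max_image k hs
    obtain ⟨K, hK⟩ : ∃ K : ℕ, (K : ℤ) = k b - k a := ⟨(k b - k a).toNat, by
      have := hamin b hb
      omega⟩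
    obtain ⟨βp, hβp⟩ : ∃ βp : Fin n →₀ ℕ, ∀ j, βp j = (β j).toNat :=
      ⟨Finsupp.equivFunOnFinite.symm fun j => (β j).toNat, fun j => rfl⟩
    obtain ⟨βm, hβm⟩ : ∃ βm : Fin n →₀ ℕ, ∀ j, βm j = (-β j).toNat :=
      ⟨Finsupp.equivFunOnFinite.symm fun j => (-β j).toNat, fun j => rfl⟩
    have hpm : ∀ j, (βp j : ℤ) - βm j = β j := by
      intro j
      rw [hβp, hβm]
      omega
    -- the least exponent
    have hle : ∀ j, K * βm j ≤ a j := by
      intro j
      have h1 := hk a ha j
      have h2 := hk b hb j
      rcases le_or_gt 0 (β j) with h3 | h3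
      · have h4 : βm j = 0 := by rw [hβm]; omega
        rw [h4, mul_zero]
        exact Nat.zero_le _
      · have h4 : (βm j : ℤ) = -β j := by rw [hβm]; omega
        have h5 : (0 : ℤ) ≤ b j := Int.natCast_nonneg _
        have h6 : ((K * βm j : ℕ) : ℤ) ≤ a j := by
          push_cast
          rw [h4, hK]
          nlinarith
        exact_mod_cast h6
    obtain ⟨α, hα⟩ : ∃ α : Fin n →₀ ℕ, ∀ j, α j + K * βm j = a j :=
      ⟨a - K • βm, fun j => by
        have := hle j
        simp only [Finsupp.tsub_apply, Finsupp.smul_apply, smul_eq_mul]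
        omega⟩
    have hex : ∀ v ∈ f.support, ∃ l ≤ K, (l : ℤ) = k v - k a ∧ v = Line.EE α βp βm K l := by
      intro v hv
      have h1 := hamin v hv
      have h2 := hbmax v hv
      refine ⟨(k v - k a).toNat, by omega, by omega, ?_⟩
      ext j
      unfold Line.EE
      simp only [Finsupp.add_apply, Finsupp.smul_apply, smul_eq_mul]
      obtain ⟨l, hl⟩ : ∃ l : ℕ, l = (k v - k a).toNat := ⟨_, rfl⟩
      rw [← hl]
      have hl' : (l : ℤ) = k v - k a := by omega
      have hlK : l ≤ K := by omega
      have h3 := hk a ha j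
      have h4 := hk v hv j
      have h5 := hpm j
      have h6 := hα j
      have h7 : ((α j + l * βp j + (K - l) * βm j : ℕ) : ℤ) = v j := by
        have h8 : ((K - l : ℕ) : ℤ) = (K : ℤ) - l := by omega
        push_cast
        rw [h8, h4]
        have h6' : (α j : ℤ) + K * βm j = a j := by exact_mod_cast h6
        rw [h3] at h6'
        have h9 : (α j : ℤ) = e j + k a * β j - K * βm j := by linarith
        rw [h9, hl']
        linear_combination (k v - k a) * h5
      exact_mod_cast h7.symm
    have hsign : (∃ j, 0 < β j) ∧ (∃ j, β j < 0) := by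
      obtain ⟨j, hj⟩ : ∃ j, β j ≠ 0 := by
        by_contra h'
        push Not at h'
        exact hβ0 (funext h')
      constructor
      · by_contra h'
        push Not at h'
        have h1 : ∑ j, (w j : ℤ) * β j < 0 := by
          have hall : ∀ i ∈ Finset.univ, (w i : ℤ) * β i ≤ 0 := by
            intro i _
            have := h' i
            have h2 : (0 : ℤ) ≤ w i := Int.natCast_nonneg _
            nlinarith
          have hone : (w j : ℤ) * β j < 0 := by
            have h3 := lt_of_le_of_ne (h' j) hj
            have h4 : (0 : ℤ) < w j := by exact_mod_cast hw j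
            nlinarith
          exact Finset.sum_neg' hall ⟨j, Finset.mem_univ j, hone⟩
        omega
      · by_contra h'
        push Not at h'
        have h1 : 0 < ∑ j, (w j : ℤ) * β j := by
          have hall : ∀ i ∈ Finset.univ, 0 ≤ (w i : ℤ) * β i := by
            intro i _
            have := h' i
            have h2 : (0 : ℤ) ≤ w i := Int.natCast_nonneg _
            nlinarith
          have hone : 0 < (w j : ℤ) * β j := by
            have h3 := lt_of_le_of_ne (h' j) hj.symm
            have h4 : (0 : ℤ) < w j := by exact_mod_cast hw j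
            nlinarith
          exact Finset.sum_pos' hall ⟨j, Finset.mem_univ j, hone⟩
        omega
    obtain ⟨⟨j₁, hj₁⟩, ⟨j₂, hj₂⟩⟩ := hsign
    have hbK : b = Line.EE α βp βm K K := by
      obtain ⟨l, hl, hl', hbl⟩ := hex b hb
      have : l = K := by omega
      rw [← this]
      rw [this] at hbl
      rw [this]
      exact hbl
    refine Line.stable_of_EE (α := α) (βp := βp) (βm := βm) (K := K) ?_ ?_ ?_ h0 ?_ ?_
    · intro h1
      have h2 := DFunLike.congr_fun h1 j₁
      rw [hβp, hβm] at h2
      omega
    · intro h1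
      have h2 := DFunLike.congr_fun h1 j₁
      rw [hβp] at h2
      simp only [Finsupp.coe_zero, Pi.zero_apply] at h2
      omega
    · intro h1
      have h2 := DFunLike.congr_fun h1 j₂
      rw [hβm] at h2
      simp only [Finsupp.coe_zero, Pi.zero_apply] at h2
      omega
    · intro v hv
      obtain ⟨l, hl, _, hvl⟩ := hex v hv
      exact ⟨l, hl, hvl⟩
    · rw [← hbK]
      exact mem_support_iff.1 hb

end MPb07157
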