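import Pool.Agent.Lib.MP_b07157_agQ.QDefs
import Pool.Agent.Lib.MP_b07157_agQ.Line
import Mathlib.LinearAlgebra.Eigenspace.Triangularizable

/-!
# Homogeneous polynomials killed by a linear vector field of non-zero divergence
-/

noncomputable section

namespace MPb07157

open MvPolynomial

namespace NSQ

/-! ### The lattice -/

/-- The integral points of a rational line through the origin. -/
theorem exists_line {lam : Fin 3 → ℂ} (hl : ∃ i j, lam i ≠ lam j) :
    ∃ β : Fin 3 → ℤ, ∑ j, β j = 0 ∧ ∀ u : Fin 3 → ℤ, ∑ j, u j = 0 → ∑ j, lam j * u j = 0 →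
      ∃ k : ℤ, ∀ j, u j = k * β j := by
  classical
  let Λ : AddSubgroup (Fin 3 → ℤ) :=
    { carrier := {u | ∑ j, u j = 0 ∧ ∑ j, lam j * u j = 0}
      zero_mem' := by simp
      add_mem' := by
        rintro a b ⟨h1, h2⟩ ⟨h3, h4⟩
        refine ⟨?_, ?_⟩
        · simp only [Pi.add_apply, Finset.sum_add_distrib, h1, h3, add_zero]
        · simp only [Pi.add_apply, Int.cast_add, mul_add, Finset.sum_add_distrib, h2, h4, add_zero]
      neg_mem' := by
        rintro a ⟨h1, h2⟩
        refine ⟨?_, ?_⟩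
        · simp only [Pi.neg_apply, Finset.sum_neg_distrib, h1, neg_zero]
        · simp only [Pi.neg_apply, Int.cast_neg, mul_neg, Finset.sum_neg_distrib, h2, neg_zero] }
  have hmem : ∀ u, u ∈ Λ ↔ ∑ j, u j = 0 ∧ ∑ j, lam j * u j = 0 := fun u => Iff.rfl
  have hprop : ∀ u ∈ Λ, ∀ δ ∈ Λ, ∀ i j, u i * δ j = u j * δ i := by
    intro u hu δ hδ
    rw [hmem, Fin.sum_univ_three, Fin.sum_univ_three] at hu hδ
    obtain ⟨h1, h2⟩ := hu
    obtain ⟨h3, h4⟩ := hδ
    have h1' : (u 0 : ℂ) + u 1 + u 2 = 0 := by exact_mod_cast h1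
    have h3' : (δ 0 : ℂ) + δ 1 + δ 2 = 0 := by exact_mod_cast h3
    have h5 : (lam 0 - lam 2) * u 0 + (lam 1 - lam 2) * u 1 = 0 := by
      linear_combination h2 - lam 2 * h1'
    have h6 : (lam 0 - lam 2) * δ 0 + (lam 1 - lam 2) * δ 1 = 0 := by
      linear_combination h4 - lam 2 * h3'
    have h7 : u 0 * δ 1 = u 1 * δ 0 := by
      have h8 : (u 0 : ℂ) * δ 1 = u 1 * δ 0 := by
        by_cases hp : lam 0 - lam 2 = 0
        · have hq : lam 1 - lam 2 ≠ 0 := by
            intro hq
            obtain ⟨i, j, hij⟩ := hl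
            apply hij
            have e0 : lam 0 = lam 2 := sub_eq_zero.1 hp
            have e1 : lam 1 = lam 2 := sub_eq_zero.1 hq
            have key : ∀ i, lam i = lam 2 := by
              intro i
              fin_cases i
              · exact e0
              · exact e1
              · rfl
            rw [key i, key j]
          apply mul_left_cancel₀ hq
          linear_combination (u 0 : ℂ) * h6 - (δ 0 : ℂ) * h5
        · apply mul_left_cancel₀ hp
          linear_combination (δ 1 : ℂ) * h5 - (u 1 : ℂ) * h6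
      exact_mod_cast h8
    have key : ∀ i j : Fin 3, u i * δ j - u j * δ i = 0 := by
      have e1 : u 2 = -u 0 - u 1 := by linarith
      have e2 : δ 2 = -δ 0 - δ 1 := by linarith
      intro i j
      fin_cases i <;> fin_cases j <;>
        simp only [Fin.zero_eta, Fin.mk_one, Fin.reduceFinMk, e1, e2] <;> 
        first
          | ring1
          | linear_combination h7
          | linear_combination -h7
    intro i j
    exact sub_eq_zero.1 (key i j)
  by_cases h0 : ∀ δ ∈ Λ, δ = 0
  · refine ⟨0, by simp, fun u hu1 hu2 => ⟨0, fun j => ?_⟩⟩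
    rw [h0 u ((hmem u).2 ⟨hu1, hu2⟩)]
    simp
  · push Not at h0
    obtain ⟨δ, hδ, hδ0⟩ := h0
    obtain ⟨j, hj⟩ : ∃ j, δ j ≠ 0 := by
      by_contra h
      push Not at h
      exact hδ0 (funext h)
    obtain ⟨b, hb⟩ := Int.subgroup_cyclic (Λ.map (Pi.evalAddMonoidHom (fun _ : Fin 3 => ℤ) j))
    have hbm : b ∈ Λ.map (Pi.evalAddMonoidHom (fun _ : Fin 3 => ℤ) j) := by
      rw [hb]
      exact AddSubgroup.subset_closure (Set.mem_singleton b)
    obtain ⟨β, hβ, hβb⟩ := AddSubgroup.mem_map.1 hbm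
    rw [Pi.evalAddMonoidHom_apply] at hβb
    refine ⟨β, ((hmem β).1 hβ).1, fun u hu1 hu2 => ?_⟩
    have hu : u ∈ Λ := (hmem u).2 ⟨hu1, hu2⟩
    have hum : u j ∈ Λ.map (Pi.evalAddMonoidHom (fun _ : Fin 3 => ℤ) j) :=
      AddSubgroup.mem_map.2 ⟨u, hu, rfl⟩
    rw [hb, AddSubgroup.mem_closure_singleton] at hum
    obtain ⟨k, hk⟩ := hum
    refine ⟨k, fun i => ?_⟩
    have h1 : u - k • β ∈ Λ := Λ.sub_mem hu (Λ.zsmul_mem hβ k)
    have h2 := hprop _ h1 δ hδ i j
    have h3 : (u - k • β) j = 0 := by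
      rw [Pi.sub_apply, Pi.smul_apply, hβb, hk, sub_self]
    rw [h3, zero_mul] at h2
    have h4 := (mul_eq_zero.1 h2).resolve_right hj
    rw [Pi.sub_apply, Pi.smul_apply, smul_eq_mul, sub_eq_zero] at h4
    exact h4

/-! ### Generalized eigenspaces of a derivation -/

/-- The product of generalized eigenvectors of a derivation. -/
theorem mul_mem_gen {A : Type*} [CommRing A] [Algebra ℂ A] (D : Derivation ℂ A A) {μ ν : ℂ}
    {p q : A} (hp : p ∈ Module.End.maxGenEigenspace (D : A →ₗ[ℂ] A) μ)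
    (hq : q ∈ Module.End.maxGenEigenspace (D : A →ₗ[ℂ] A) ν) :
    p * q ∈ Module.End.maxGenEigenspace (D : A →ₗ[ℂ] A) (μ + ν) := by
  rw [Module.End.mem_maxGenEigenspace] at hp hq ⊢
  obtain ⟨k, hk⟩ := hp
  obtain ⟨l, hl⟩ := hq
  refine ⟨k + l, ?_⟩
  obtain ⟨N, hN⟩ : ∃ N, N = k + l := ⟨_, rfl⟩
  rw [← hN]
  induction N generalizing k l p q with
  | zero =>
    have h1 : k = 0 := by omega
    rw [h1, pow_zero] at hk
    change p = 0 at hk
    rw [hk, zero_mul, map_zero]
  | succ N ih =>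
    rcases k with _ | k
    · rw [pow_zero] at hk
      change p = 0 at hk
      rw [hk, zero_mul, map_zero]
    rcases l with _ | l
    · rw [pow_zero] at hl
      change q = 0 at hl
      rw [hl, mul_zero, map_zero]
    have h1 : ((D : A →ₗ[ℂ] A) - (μ + ν) • (1 : Module.End ℂ A)) (p * q) =
        (((D : A →ₗ[ℂ] A) - μ • (1 : Module.End ℂ A)) p) * q +
          p * (((D : A →ₗ[ℂ] A) - ν • (1 : Module.End ℂ A)) q) := by
      simp only [LinearMap.sub_apply, LinearMap.smul_apply, Module.End.one_apply,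
        Derivation.coeFn_coe, Derivation.leibniz, smul_eq_mul]
      rw [add_smul, sub_mul, mul_sub, smul_mul_assoc, mul_smul_comm]
      ring
    rw [pow_succ, Module.End.mul_apply, h1, map_add, ih k ?_ (l + 1) hl (by omega),
      ih (k + 1) hk l ?_ (by omega), add_zero]
    · rw [pow_succ, Module.End.mul_apply] at hl
      exact hl
    · rw [pow_succ, Module.End.mul_apply] at hk
      exact hk

theorem one_mem_gen {A : Type*} [CommRing A] [Algebra ℂ A] (D : Derivation ℂ A A) :
    (1 : A) ∈ Module.End.maxGenEigenspace (D : A →ₗ[ℂ] A) 0 := by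
  rw [Module.End.mem_maxGenEigenspace]
  refine ⟨1, ?_⟩
  rw [pow_one, LinearMap.sub_apply, LinearMap.smul_apply, zero_smul, sub_zero,
    Derivation.coeFn_coe, Derivation.map_one_eq_zero]

theorem pow_mem_gen {A : Type*} [CommRing A] [Algebra ℂ A] (D : Derivation ℂ A A) {μ : ℂ}
    {p : A} (hp : p ∈ Module.End.maxGenEigenspace (D : A →ₗ[ℂ] A) μ) (k : ℕ) :
    p ^ k ∈ Module.End.maxGenEigenspace (D : A →ₗ[ℂ] A) (μ * k) := by
  induction k with
  | zero =>
    rw [pow_zero, Nat.cast_zero, mul_zero]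
    exact one_mem_gen D
  | succ k ih =>
    rw [pow_succ, Nat.cast_succ, mul_add, mul_one]
    exact mul_mem_gen D ih hp

theorem prod_mem_gen {A : Type*} [CommRing A] [Algebra ℂ A] (D : Derivation ℂ A A)
    {ι : Type*} (s : Finset ι) {μ : ι → ℂ} {p : ι → A}
    (hp : ∀ i ∈ s, p i ∈ Module.End.maxGenEigenspace (D : A →ₗ[ℂ] A) (μ i)) :
    ∏ i ∈ s, p i ∈ Module.End.maxGenEigenspace (D : A →ₗ[ℂ] A) (∑ i ∈ s, μ i) := by
  classical
  induction s using Finset.induction_on with
  | empty =>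
    rw [Finset.prod_empty, Finset.sum_empty]
    exact one_mem_gen D
  | insert a s ha ih =>
    rw [Finset.prod_insert ha, Finset.sum_insert ha]
    exact mul_mem_gen D (hp a (Finset.mem_insert_self a s))
      (ih fun i hi => hp i (Finset.mem_insert_of_mem hi))

/-! ### Linear forms -/

/-- The linear form with given coefficients. -/
def lin : (Fin 3 → ℂ) →ₗ[ℂ] MvPolynomial (Fin 3) ℂ := Fintype.linearCombination ℂ X

theorem lin_apply (c : Fin 3 → ℂ) : lin c = ∑ i, c i • X i := rfl

theorem lin_single (i : Fin 3) : lin (Pi.single i 1) = X i := by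
  classical
  unfold lin
  rw [Fintype.linearCombination_apply_single, one_smul]

theorem lin_isHomogeneous (c : Fin 3 → ℂ) : (lin c).IsHomogeneous 1 := by
  rw [lin_apply]
  refine IsHomogeneous.sum _ _ _ fun i _ => ?_
  rw [smul_eq_C_mul]
  simpa using (isHomogeneous_C (Fin 3) (c i)).mul (isHomogeneous_X ℂ i)

theorem aeval_lin (u : Fin 3 → Fin 3 → ℂ) (c : Fin 3 → ℂ) :
    aeval (fun i => lin (u i)) (lin c) = lin (∑ j, c j • u j) := by
  rw [lin_apply, map_sum, map_sum]
  refine Finset.sum_congr rfl fun j _ => ?_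
  rw [map_smul, map_smul, aeval_X]

/-- The linear change of coordinates given by a basis. -/
def autB (b : Module.Basis (Fin 3) ℂ (Fin 3 → ℂ)) :
    MvPolynomial (Fin 3) ℂ ≃ₐ[ℂ] MvPolynomial (Fin 3) ℂ :=
  AlgEquiv.ofAlgHom (aeval fun i => lin (b i))
    (aeval fun i => lin (b.repr (Pi.single i 1)))
    (by
      apply MvPolynomial.algHom_ext
      intro i
      rw [AlgHom.comp_apply, aeval_X, aeval_lin, b.sum_repr, lin_single, AlgHom.id_apply])
    (by
      apply MvPolynomial.algHom_ext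
      intro i
      have h : ∑ j, (b i) j • ⇑(b.repr (Pi.single j 1)) = ⇑(b.repr (b i)) := by
        have h1 : b i = ∑ j, (b i) j • (Pi.single j 1 : Fin 3 → ℂ) := by
          rw [← pi_eq_sum_univ' (b i)]
        conv_rhs => rw [h1, map_sum]
        rw [Finsupp.coe_finsetSum]
        refine Finset.sum_congr rfl fun j _ => ?_
        rw [map_smul, Finsupp.coe_smul]
      rw [AlgHom.comp_apply, aeval_X, aeval_lin, h, b.repr_self, Finsupp.single_eq_pi_single,
        lin_single, AlgHom.id_apply])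

theorem autB_apply (b : Module.Basis (Fin 3) ℂ (Fin 3 → ℂ)) (p : MvPolynomial (Fin 3) ℂ) :
    autB b p = aeval (fun i => lin (b i)) p := rfl

theorem autB_symm_apply (b : Module.Basis (Fin 3) ℂ (Fin 3 → ℂ)) (p : MvPolynomial (Fin 3) ℂ) :
    (autB b).symm p = aeval (fun i => lin (b.repr (Pi.single i 1))) p := rfl

/-- A basis of generalized eigenvectors. -/
theorem exists_basis (T : Module.End ℂ (Fin 3 → ℂ)) :
    ∃ (b : Module.Basis (Fin 3) ℂ (Fin 3 → ℂ)) (lam : Fin 3 → ℂ),
      ∀ i, b i ∈ T.maxGenEigenspace (lam i) := by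
  classical
  have hint : DirectSum.IsInternal T.maxGenEigenspace :=
    DirectSum.isInternal_submodule_of_iSupIndep_of_iSup_eq_top T.independent_maxGenEigenspace
      T.iSup_maxGenEigenspace_eq_top
  let B := hint.collectedBasis (fun μ => Module.finBasis ℂ (T.maxGenEigenspace μ))
  let e := B.indexEquiv (Pi.basisFun ℂ (Fin 3))
  refine ⟨B.reindex e, fun i => (e.symm i).1, fun i => ?_⟩
  rw [Module.Basis.reindex_apply]
  exact hint.collectedBasis_mem _ _

/-- A linear form is given by its derivatives. -/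
theorem eq_lin {a : MvPolynomial (Fin 3) ℂ} (ha : a.IsHomogeneous 1) :
    a = lin fun i => coeff 0 (pderiv i a) := by
  have h1 : ∀ i, pderiv i a = C (coeff 0 (pderiv i a)) := by
    intro i
    have h2 : (pderiv i a).IsHomogeneous 0 := ha.pderiv
    exact totalDegree_eq_zero_iff_eq_C.1 (Nat.le_zero.1 h2.totalDegree_le)
  have h2 := ha.sum_X_mul_pderiv
  rw [one_smul] at h2
  conv_lhs => rw [← h2]
  rw [lin_apply]
  refine Finset.sum_congr rfl fun i _ => ?_
  rw [smul_eq_C_mul, ← h1 i, mul_comm]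

/-- The linear vector field `∑ a_i ∂_i` acts on linear forms. -/
theorem mkDerivation_lin (a : Fin 3 → MvPolynomial (Fin 3) ℂ) (A : Fin 3 → Fin 3 → ℂ)
    (ha : ∀ i, a i = lin (A i)) (c : Fin 3 → ℂ) :
    mkDerivation ℂ a (lin c) = lin (Fintype.linearCombination ℂ A c) := by
  rw [lin_apply, map_sum, Fintype.linearCombination_apply, map_sum]
  refine Finset.sum_congr rfl fun i _ => ?_
  rw [Derivation.map_smul, map_smul, mkDerivation_X, ha i]

theorem lin_mem_gen {D : Derivation ℂ (MvPolynomial (Fin 3) ℂ) (MvPolynomial (Fin 3) ℂ)}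
    {T : Module.End ℂ (Fin 3 → ℂ)} (hD : ∀ c, D (lin c) = lin (T c)) {c : Fin 3 → ℂ} {μ : ℂ}
    (hc : c ∈ T.maxGenEigenspace μ) :
    lin c ∈ Module.End.maxGenEigenspace
      (D : MvPolynomial (Fin 3) ℂ →ₗ[ℂ] MvPolynomial (Fin 3) ℂ) μ := by
  rw [Module.End.mem_maxGenEigenspace] at hc ⊢
  obtain ⟨k, hk⟩ := hc
  refine ⟨k, ?_⟩
  have key : ∀ k : ℕ, (((D : MvPolynomial (Fin 3) ℂ →ₗ[ℂ] MvPolynomial (Fin 3) ℂ) -
      μ • (1 : Module.End ℂ (MvPolynomial (Fin 3) ℂ))) ^ k) (lin c) =
      lin (((T - μ • (1 : Module.End ℂ (Fin 3 → ℂ))) ^ k) c) := by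
    intro k
    induction k with
    | zero => rfl
    | succ k ih =>
      rw [pow_succ', Module.End.mul_apply, ih, pow_succ', Module.End.mul_apply,
        LinearMap.sub_apply, LinearMap.smul_apply, Module.End.one_apply, Derivation.coeFn_coe, hD,
        LinearMap.sub_apply, LinearMap.smul_apply, Module.End.one_apply, map_sub, map_smul]
  rw [key, hk, map_zero]

theorem autB_monomial_mem (b : Module.Basis (Fin 3) ℂ (Fin 3 → ℂ))
    {D : Derivation ℂ (MvPolynomial (Fin 3) ℂ) (MvPolynomial (Fin 3) ℂ)} {lam : Fin 3 → ℂ}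
    (h : ∀ i, lin (b i) ∈ Module.End.maxGenEigenspace
      (D : MvPolynomial (Fin 3) ℂ →ₗ[ℂ] MvPolynomial (Fin 3) ℂ) (lam i))
    (v : Fin 3 →₀ ℕ) (c : ℂ) :
    autB b (monomial v c) ∈ Module.End.maxGenEigenspace
      (D : MvPolynomial (Fin 3) ℂ →ₗ[ℂ] MvPolynomial (Fin 3) ℂ) (∑ i, lam i * v i) := by
  rw [autB_apply, aeval_monomial, algebraMap_eq, ← smul_eq_C_mul]
  refine Submodule.smul_mem _ _ ?_
  rw [Finsupp.prod_fintype _ _ (fun i => pow_zero _)]
  exact prod_mem_gen D _ fun i _ => pow_mem_gen D (h i) _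

/-- The exponents of a polynomial killed by a linear vector field, in suitable coordinates. -/
theorem sum_eq_zero_of_mem_support (b : Module.Basis (Fin 3) ℂ (Fin 3 → ℂ))
    {D : Derivation ℂ (MvPolynomial (Fin 3) ℂ) (MvPolynomial (Fin 3) ℂ)} {lam : Fin 3 → ℂ}
    (h : ∀ i, lin (b i) ∈ Module.End.maxGenEigenspace
      (D : MvPolynomial (Fin 3) ℂ →ₗ[ℂ] MvPolynomial (Fin 3) ℂ) (lam i))
    {g : MvPolynomial (Fin 3) ℂ} (hg : D (autB b g) = 0) {v : Fin 3 →₀ ℕ} (hv : v ∈ g.support) :
    ∑ i, lam i * v i = 0 := by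
  classical
  by_contra hne
  set E := Module.End.maxGenEigenspace
    (D : MvPolynomial (Fin 3) ℂ →ₗ[ℂ] MvPolynomial (Fin 3) ℂ) with hE
  set dg : (Fin 3 →₀ ℕ) → ℂ := fun v => ∑ i, lam i * v i with hdg
  set M : Finset ℂ := insert 0 (g.support.image dg) with hM
  set F : ℂ → MvPolynomial (Fin 3) ℂ := fun μ =>
    ∑ v ∈ g.support.filter (fun v => dg v = μ), monomial v (coeff v g) with hF
  have hfE : autB b g ∈ E 0 := by
    rw [hE, Module.End.mem_maxGenEigenspace]
    refine ⟨1, ?_⟩
    rw [pow_one, LinearMap.sub_apply, LinearMap.smul_apply, zero_smul, sub_zero,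
      Derivation.coeFn_coe, hg]
  have hFE : ∀ μ, autB b (F μ) ∈ E μ := by
    intro μ
    rw [hF]
    dsimp only
    rw [map_sum]
    refine Submodule.sum_mem _ fun v hv => ?_
    rw [← (Finset.mem_filter.1 hv).2]
    exact autB_monomial_mem b h v _
  have hsum : ∑ μ ∈ M, autB b (F μ) = ∑ μ ∈ M, if μ = 0 then autB b g else 0 := by
    rw [Finset.sum_ite_eq' M 0 (fun _ => autB b g), if_pos (Finset.mem_insert_self _ _), ← map_sum]
    congr 1
    rw [hF]
    dsimp only
    rw [Finset.sum_fiberwise_of_maps_to (fun v hv => Finset.mem_insert_of_mem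
      (Finset.mem_image_of_mem _ hv)), support_sum_monomial_coeff]
  have key := (iSupIndep_iff_finsetSum_eq_imp_eq E).1 (Module.End.independent_maxGenEigenspace _) M
    (fun μ => autB b (F μ)) (fun μ => if μ = 0 then autB b g else 0) (by
      intro μ _
      refine ⟨hFE μ, ?_⟩
      split_ifs with h0
      · rw [h0]
        exact hfE
      · exact Submodule.zero_mem _) hsum (dg v)
    (Finset.mem_insert_of_mem (Finset.mem_image_of_mem _ hv))
  rw [if_neg hne] at key
  have h1 : F (dg v) = 0 := (map_eq_zero_iff _ (autB b).injective).1 key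
  have h2 : coeff v (F (dg v)) = coeff v g := by
    rw [hF]
    dsimp only
    have hvm : v ∈ g.support.filter (fun u => dg u = dg v) := Finset.mem_filter.2 ⟨hv, rfl⟩
    rw [coeff_sum, Finset.sum_eq_single_of_mem v hvm, coeff_monomial, if_pos rfl]
    intro u _ huv
    rw [coeff_monomial, if_neg huv]
  rw [h1, coeff_zero] at h2
  exact mem_support_iff.1 hv h2.symm

theorem constantCoeff_lin (c : Fin 3 → ℂ) : constantCoeff (lin c) = 0 := by
  rw [lin_apply, map_sum]
  refine Finset.sum_eq_zero fun i _ => ?_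
  rw [smul_eq_C_mul, map_mul, constantCoeff_X, mul_zero]

/-! ### Formal automorphisms -/

/-- The automorphism of the ring of power series given by two substitutions inverse to each
other. -/
def psEquiv (a b : Fin 3 → MvPowerSeries (Fin 3) ℂ)
    (ha : ∀ i, MvPowerSeries.constantCoeff (a i) = 0)
    (hb : ∀ i, MvPowerSeries.constantCoeff (b i) = 0)
    (hab : ∀ i, MvPowerSeries.subst a (b i) = (MvPowerSeries.X i : MvPowerSeries (Fin 3) ℂ))
    (hba : ∀ i, MvPowerSeries.subst b (a i) = (MvPowerSeries.X i : MvPowerSeries (Fin 3) ℂ)) :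
    MvPowerSeries (Fin 3) ℂ ≃ₐ[ℂ] MvPowerSeries (Fin 3) ℂ :=
  AlgEquiv.ofAlgHom (MvPowerSeries.substAlgHom (MvPowerSeries.hasSubst_of_constantCoeff_zero ha))
    (MvPowerSeries.substAlgHom (MvPowerSeries.hasSubst_of_constantCoeff_zero hb))
    (by
      apply AlgHom.ext
      intro f
      rw [AlgHom.comp_apply, MvPowerSeries.substAlgHom_apply, MvPowerSeries.substAlgHom_apply,
        MvPowerSeries.subst_comp_subst_apply (MvPowerSeries.hasSubst_of_constantCoeff_zero hb)
          (MvPowerSeries.hasSubst_of_constantCoeff_zero ha), AlgHom.id_apply, funext hab,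
        MvPowerSeries.subst_self]
      rfl)
    (by
      apply AlgHom.ext
      intro f
      rw [AlgHom.comp_apply, MvPowerSeries.substAlgHom_apply, MvPowerSeries.substAlgHom_apply,
        MvPowerSeries.subst_comp_subst_apply (MvPowerSeries.hasSubst_of_constantCoeff_zero ha)
          (MvPowerSeries.hasSubst_of_constantCoeff_zero hb), AlgHom.id_apply, funext hba,
        MvPowerSeries.subst_self]
      rfl)

theorem psEquiv_coe (a b : Fin 3 → MvPowerSeries (Fin 3) ℂ)
    (ha : ∀ i, MvPowerSeries.constantCoeff (a i) = 0)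
    (hb : ∀ i, MvPowerSeries.constantCoeff (b i) = 0)
    (hab : ∀ i, MvPowerSeries.subst a (b i) = (MvPowerSeries.X i : MvPowerSeries (Fin 3) ℂ))
    (hba : ∀ i, MvPowerSeries.subst b (a i) = (MvPowerSeries.X i : MvPowerSeries (Fin 3) ℂ))
    (p : MvPolynomial (Fin 3) ℂ) :
    psEquiv a b ha hb hab hba (p : MvPowerSeries (Fin 3) ℂ) = aeval a p := by
  show MvPowerSeries.substAlgHom (MvPowerSeries.hasSubst_of_constantCoeff_zero ha)
    (p : MvPowerSeries (Fin 3) ℂ) = _
  rw [MvPowerSeries.substAlgHom_coe]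

theorem aeval_coe (q : Fin 3 → MvPolynomial (Fin 3) ℂ) (p : MvPolynomial (Fin 3) ℂ) :
    (aeval (fun i => (q i : MvPowerSeries (Fin 3) ℂ)) p : MvPowerSeries (Fin 3) ℂ) =
      ((aeval q p : MvPolynomial (Fin 3) ℂ) : MvPowerSeries (Fin 3) ℂ) := by
  have h : (aeval (fun i => (q i : MvPowerSeries (Fin 3) ℂ)) :
      MvPolynomial (Fin 3) ℂ →ₐ[ℂ] MvPowerSeries (Fin 3) ℂ) =
      (MvPolynomial.coeToMvPowerSeries.algHom ℂ).comp (aeval q) := by
    apply MvPolynomial.algHom_ext
    intro i
    rw [AlgHom.comp_apply, aeval_X, aeval_X, MvPolynomial.coeToMvPowerSeries.algHom_apply]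
    rfl
  rw [h, AlgHom.comp_apply, MvPolynomial.coeToMvPowerSeries.algHom_apply]
  rfl

/-- A polynomial automorphism that fixes the origin is a formal change of coordinates. -/
theorem formEquivPow_of_polyEquiv (e : MvPolynomial (Fin 3) ℂ ≃ₐ[ℂ] MvPolynomial (Fin 3) ℂ)
    (he : ∀ i, constantCoeff (e (X i)) = 0) (he' : ∀ i, constantCoeff (e.symm (X i)) = 0)
    (g : MvPolynomial (Fin 3) ℂ) : FormEquivPow (e g) g 1 := by
  have hc : ∀ q : MvPolynomial (Fin 3) ℂ, constantCoeff q = 0 →
      MvPowerSeries.constantCoeff (q : MvPowerSeries (Fin 3) ℂ) = 0 := by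
    intro q hq
    rw [← MvPowerSeries.coeff_zero_eq_constantCoeff_apply, coeff_coe, ← constantCoeff_eq, hq]
  have hi : ∀ (e : MvPolynomial (Fin 3) ℂ ≃ₐ[ℂ] MvPolynomial (Fin 3) ℂ)
      (p : MvPolynomial (Fin 3) ℂ), aeval (fun i => e (X i)) p = e p := by
    intro e p
    have h : (aeval (fun i => e (X i)) : MvPolynomial (Fin 3) ℂ →ₐ[ℂ] MvPolynomial (Fin 3) ℂ) =
        (e : MvPolynomial (Fin 3) ℂ →ₐ[ℂ] MvPolynomial (Fin 3) ℂ) := by
      apply MvPolynomial.algHom_ext
      intro i
      rw [aeval_X]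
      rfl
    rw [h]
    rfl
  refine ⟨psEquiv (fun i => (e (X i) : MvPowerSeries (Fin 3) ℂ))
    (fun i => (e.symm (X i) : MvPowerSeries (Fin 3) ℂ)) (fun i => hc _ (he i))
    (fun i => hc _ (he' i)) (fun i => ?_) (fun i => ?_), 1, ?_⟩
  · rw [MvPowerSeries.subst_coe, aeval_coe, hi, AlgEquiv.apply_symm_apply, coe_X]
  · rw [MvPowerSeries.subst_coe, aeval_coe, hi, AlgEquiv.symm_apply_apply, coe_X]
  · rw [psEquiv_coe, aeval_coe, hi, pow_one, Units.val_one, one_mul]

end NSQ

/-- Proof.  The semisimple part of a linear vector field which kills `f` kills `f` and has the same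
divergence. So, in suitable linear coordinates, `f` is a constant times
`x^κ ∏ (M₁ - c_i M₂)^(m_i)` with different `c_i ≠ 0` and monomials `M₁ ≠ M₂` without common factor,
and the polynomial `x^κ ∏ z_i^(m_i) + ∑ w_i (z_i - M₁ + c_i M₂)` is non-degenerate (all sums of some
of its monomials are). -/
theorem stable_of_not_NS {f : MvPolynomial (Fin 3) ℂ} (hf : f ≠ 0) {d : ℕ} (hd : 0 < d)
    (hh : f.IsHomogeneous d) (h : ¬ NS f) : StableLoc 3 f ∧ StableGlob 3 f := by
  classical
  unfold NS at h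
  push Not at h
  obtain ⟨a, ha, haf, hdiv⟩ := h
  -- the linear map
  set A : Fin 3 → Fin 3 → ℂ := fun j i => coeff 0 (pderiv i (a j)) with hA
  have haA : ∀ j, a j = NSQ.lin (A j) := fun j => NSQ.eq_lin (ha j)
  set T : Module.End ℂ (Fin 3 → ℂ) := Fintype.linearCombination ℂ A with hT
  set D : Derivation ℂ (MvPolynomial (Fin 3) ℂ) (MvPolynomial (Fin 3) ℂ) := mkDerivation ℂ a with hD
  have hDT : ∀ c, D (NSQ.lin c) = NSQ.lin (T c) := NSQ.mkDerivation_lin a A haA
  have hDf : D f = 0 := by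
    rw [← haf]
    have h0 : ∀ p, (∑ i, a i • (pderiv i : Derivation ℂ (MvPolynomial (Fin 3) ℂ) _)) p =
        ∑ i, a i * pderiv i p := by
      intro p
      simp only [Fin.sum_univ_three, Derivation.add_apply, Derivation.smul_apply, smul_eq_mul]
    have h1 : D = ∑ i, a i • (pderiv i : Derivation ℂ (MvPolynomial (Fin 3) ℂ) _) := by
      apply MvPolynomial.derivation_ext
      intro j
      rw [hD, mkDerivation_X, h0, Finset.sum_eq_single j]
      · rw [pderiv_X_self, mul_one]
      · intro i _ hij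
        rw [pderiv_X_of_ne hij.symm, mul_zero]
      · intro h2
        exact absurd (Finset.mem_univ j) h2
    rw [h1, h0]
  obtain ⟨b, lam, hb⟩ := NSQ.exists_basis T
  have hbD := fun i => NSQ.lin_mem_gen hDT (hb i)
  -- the polynomial in the new coordinates
  set g := (NSQ.autB b).symm f with hg
  have hfg : NSQ.autB b g = f := AlgEquiv.apply_symm_apply _ _
  have hg0 : g ≠ 0 := by
    intro h0
    rw [h0, map_zero] at hfg
    exact hf hfg.symm
  have hgh : g.IsHomogeneous d := by
    rw [hg, NSQ.autB_symm_apply]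
    have := hh.aeval (fun i => NSQ.lin (b.repr (Pi.single i 1)))
      (fun i => NSQ.lin_isHomogeneous _)
    rwa [one_mul] at this
  have hsupp : ∀ v ∈ g.support, ∑ i, lam i * v i = 0 := fun v hv =>
    NSQ.sum_eq_zero_of_mem_support b hbD (by rw [hfg]; exact hDf) hv
  have hdeg : ∀ v ∈ g.support, ∑ i, v i = d := by
    intro v hv
    have h1 := hgh (mem_support_iff.1 hv)
    rw [Finsupp.weight_apply, Finsupp.sum_fintype _ _ (fun i => by simp)] at h1
    simpa using h1
  obtain ⟨v₀, hv₀⟩ : g.support.Nonempty := support_nonempty.2 hg0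
  -- the eigenvalues are not all equal
  have hlam : ∃ i j, lam i ≠ lam j := by
    by_contra hcon
    push Not at hcon
    have h1 := hsupp v₀ hv₀
    have h2 : lam 0 * (d : ℂ) = 0 := by
      rw [← hdeg v₀ hv₀, ← h1]
      push_cast
      rw [Finset.mul_sum]
      exact Finset.sum_congr rfl fun i _ => by rw [hcon i 0]
    have h3 : lam 0 = 0 := (mul_eq_zero.1 h2).resolve_right (by exact_mod_cast hd.ne')
    have hnil : IsNilpotent T := by
      have h4 : ∀ i, ∃ k : ℕ, (T ^ k) (b i) = 0 := by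
        intro i
        obtain ⟨k, hk⟩ := (Module.End.mem_maxGenEigenspace _ _ _).1 (hb i)
        rw [hcon i 0, h3, zero_smul, sub_zero] at hk
        exact ⟨k, hk⟩
      choose k hk using h4
      refine ⟨∑ i, k i, ?_⟩
      apply b.ext
      intro i
      rw [← Finset.sum_erase_add _ _ (Finset.mem_univ i), pow_add, Module.End.mul_apply, hk,
        map_zero, LinearMap.zero_apply]
    have h5 := (LinearMap.isNilpotent_trace_of_isNilpotent hnil).eq_zero
    apply hdiv
    have h6 : ∀ i, pderiv i (a i) = C (A i i) := by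
      intro i
      have h2 : (pderiv i (a i)).IsHomogeneous 0 := (ha i).pderiv
      exact totalDegree_eq_zero_iff_eq_C.1 (Nat.le_zero.1 h2.totalDegree_le)
    rw [Finset.sum_congr rfl fun i _ => h6 i, ← map_sum]
    have h7 : LinearMap.trace ℂ (Fin 3 → ℂ) T = ∑ i, A i i := by
      rw [LinearMap.trace_eq_matrix_trace ℂ (Pi.basisFun ℂ (Fin 3)), Matrix.trace]
      refine Finset.sum_congr rfl fun i _ => ?_
      rw [Matrix.diag_apply, LinearMap.toMatrix_apply, Pi.basisFun_apply, Pi.basisFun_repr, hT,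
        Fintype.linearCombination_apply_single, one_smul]
    rw [← h7, h5, map_zero]
  obtain ⟨β, hβ, hline⟩ := NSQ.exists_line hlam
  have hc0 : coeff 0 g = 0 := by
    by_contra h1
    have h2 := hdeg 0 (mem_support_iff.2 h1)
    simp only [Finsupp.coe_zero, Pi.zero_apply, Finset.sum_const_zero] at h2
    omega
  have hc0f : coeff 0 f = 0 := by
    by_contra h1
    have h2 := hh h1
    rw [map_zero] at h2
    omega
  obtain ⟨hl, hgl⟩ := stable_of_line hg0 hc0 (fun i => (v₀ i : ℤ)) β (fun _ => 1) (fun _ => one_pos)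
    (by simpa using hβ) (by
      intro v hv
      obtain ⟨k, hk⟩ := hline (fun i => (v i : ℤ) - v₀ i) (by
        rw [Finset.sum_sub_distrib]
        have h1 := hdeg v hv
        have h2 := hdeg v₀ hv₀
        have h3 : (∑ i, (v i : ℤ)) = d := by exact_mod_cast h1
        have h4 : (∑ i, (v₀ i : ℤ)) = d := by exact_mod_cast h2
        rw [h3, h4, sub_self]) (by
        push_cast
        simp only [mul_sub, Finset.sum_sub_distrib]
        rw [hsupp v hv, hsupp v₀ hv₀, sub_self])
      exact ⟨k, fun j => by linarith [hk j]⟩)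
  refine ⟨StableLoc.equiv f g 1 one_pos ?_ hl, StableGlob.equiv f g 1 one_pos hc0f ?_ hgl⟩
  · rw [← hfg]
    exact NSQ.formEquivPow_of_polyEquiv (NSQ.autB b) (fun i => by
        rw [NSQ.autB_apply, aeval_X]
        exact NSQ.constantCoeff_lin _) (fun i => by
        rw [NSQ.autB_symm_apply, aeval_X]
        exact NSQ.constantCoeff_lin _) g
  · exact ⟨NSQ.autB b, 1, one_ne_zero, by rw [hfg, pow_one, map_one, one_mul]⟩

end MPb07157
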