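import Pool.Agent.Lib.MP_b07157_agS.SMain
import Pool.Agent.Lib.MP_b07157_agK.K1
import Pool.Agent.Lib.MP_b07157_agM.CDefs

/-!
# Homogeneous polynomials in three variables: definitions
-/

noncomputable section

namespace MPb07157

open MvPolynomial

variable {n : ℕ}

/-- The germ of `f` at `p` is, up to a unit and a formal change of coordinates, a polynomial in the
first two variables which is weighted homogeneous of positive degree for some positive weights. -/
def IsWHAt (f : MvPolynomial (Fin 3) ℂ) (p : Fin 3 → ℂ) : Prop :=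
  ∃ (h : MvPolynomial (Fin 3) ℂ) (w : Fin 3 → ℕ) (N : ℕ), 0 < w 0 ∧ 0 < w 1 ∧ 0 < N ∧
    (∀ v ∈ h.support, w 0 * v 0 + w 1 * v 1 = N ∧ v 2 = 0) ∧ FormEquivPow (translate p f) h 1

/-- The components `∑_j m_j (∏_{k ≠ j} g_k) ∂_i g_j` of `(∏ g_k) · grad f / f`, `f = ∏ g_j ^ m_j`. -/
def vv {ι : Type} [Fintype ι] [DecidableEq ι] (g : ι → MvPolynomial (Fin n) ℂ) (m : ι → ℕ)
    (i : Fin n) : MvPolynomial (Fin n) ℂ :=
  ∑ j, C (m j : ℂ) * (∏ k ∈ Finset.univ.erase j, g k) * pderiv i (g j)

/-- `f = ∏ g_j ^ m_j` is the factorization of `f` into powers of different irreducible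
polynomials. -/
structure IsFact {ι : Type} [Fintype ι] (f : MvPolynomial (Fin n) ℂ)
    (g : ι → MvPolynomial (Fin n) ℂ) (m : ι → ℕ) : Prop where
  irr : ∀ i, Irreducible (g i)
  ne : ∀ i j, i ≠ j → ¬ Associated (g i) (g j)
  pos : ∀ i, 0 < m i
  eq : f = prodPow g m

theorem prod_mul_pderiv {ι : Type} [Fintype ι] [DecidableEq ι] (g : ι → MvPolynomial (Fin n) ℂ)
    (m : ι → ℕ) (i : Fin n) :
    (∏ j, g j) * pderiv i (prodPow g m) = prodPow g m * vv g m i := by
  have h1 : ∀ s : Finset ι, (∏ j ∈ s, g j) * pderiv i (∏ j ∈ s, g j ^ m j) =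
      (∏ j ∈ s, g j ^ m j) * ∑ j ∈ s, C (m j : ℂ) * (∏ k ∈ s.erase j, g k) * pderiv i (g j) := by
    intro s
    induction s using Finset.induction_on with
    | empty => simp
    | insert a s ha ih =>
      rw [Finset.prod_insert ha, Finset.prod_insert ha, Finset.sum_insert ha,
        Finset.erase_insert ha, Derivation.leibniz, smul_eq_mul, smul_eq_mul]
      have h2 : ∑ j ∈ s, C (m j : ℂ) * (∏ k ∈ (insert a s).erase j, g k) * pderiv i (g j) =
          g a * ∑ j ∈ s, C (m j : ℂ) * (∏ k ∈ s.erase j, g k) * pderiv i (g j) := by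
        rw [Finset.mul_sum]
        refine Finset.sum_congr rfl fun j hj => ?_
        have h3 : j ≠ a := fun h => ha (h ▸ hj)
        rw [Finset.erase_insert_of_ne h3.symm,
          Finset.prod_insert (fun h => ha (Finset.mem_of_mem_erase h))]
        ring
      have h4 : g a * pderiv i (g a ^ m a) = C (m a : ℂ) * g a ^ m a * pderiv i (g a) := by
        rw [Derivation.leibniz_pow, smul_eq_mul, nsmul_eq_mul]
        rcases Nat.eq_zero_or_pos (m a) with h5 | h5
        · simp [h5]
        · obtain ⟨l, hl⟩ := Nat.exists_eq_succ_of_ne_zero h5.ne'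
          rw [hl, Nat.succ_sub_one]
          simp only [map_natCast, Nat.succ_eq_add_one, pow_succ]
          ring
      rw [h2]
      calc g a * (∏ j ∈ s, g j) * (g a ^ m a * pderiv i (∏ j ∈ s, g j ^ m j) +
            (∏ j ∈ s, g j ^ m j) * pderiv i (g a ^ m a))
          = g a * g a ^ m a * ((∏ j ∈ s, g j) * pderiv i (∏ j ∈ s, g j ^ m j)) +
            (∏ j ∈ s, g j) * (∏ j ∈ s, g j ^ m j) * (g a * pderiv i (g a ^ m a)) := by ring
        _ = _ := by
          rw [ih, h4]
          ring
  exact h1 Finset.univ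

end MPb07157
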