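import Pool.Agent.Lib.MP_b07157_agQ.WHb
import Pool.Agent.Lib.MP_b07157_agQ.QDefs
import Pool.Agent.Lib.MP_b07157_agQ.Line

/-!
# Weighted homogeneous germs in two variables
-/

noncomputable section

namespace MPb07157

open MvPolynomial

/-- A weighted homogeneous polynomial in the first two variables is in the stable class. -/
theorem stableLoc_of_weighted {h : MvPolynomial (Fin 3) ℂ} (hne : h ≠ 0) {w : Fin 3 → ℕ} {N : ℕ}
    (h0 : 0 < w 0) (h1 : 0 < w 1) (hN : 0 < N)
    (hw : ∀ v ∈ h.support, w 0 * v 0 + w 1 * v 1 = N ∧ v 2 = 0) : StableLoc 3 h := by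
  obtain ⟨v₀, hv₀⟩ : h.support.Nonempty := support_nonempty.2 hne
  set g : ℕ := Nat.gcd (w 0) (w 1) with hg
  have hg0 : 0 < g := Nat.gcd_pos_of_pos_left _ h0
  obtain ⟨a, ha⟩ : g ∣ w 0 := Nat.gcd_dvd_left _ _
  obtain ⟨b, hb⟩ : g ∣ w 1 := Nat.gcd_dvd_right _ _
  have hab : Nat.Coprime a b := by
    have h2 := Nat.coprime_div_gcd_div_gcd (m := w 0) (n := w 1) hg0
    rw [← hg, ha, hb, Nat.mul_div_cancel_left _ hg0, Nat.mul_div_cancel_left _ hg0] at h2
    exact h2
  have ha0 : 0 < a := Nat.pos_of_ne_zero fun h2 => by rw [ha, h2, mul_zero] at h0; omega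
  refine (stable_of_line hne ?_ (fun j => (v₀ j : ℤ)) ![(b : ℤ), -(a : ℤ), 0]
    (fun j => if j = 2 then 1 else w j) ?_ ?_ ?_).1
  · by_contra hc
    have h2 := (hw 0 (mem_support_iff.2 hc)).1
    simp only [Finsupp.coe_zero, Pi.zero_apply, mul_zero, add_zero] at h2
    omega
  · intro j
    fin_cases j
    · simpa using h0
    · simpa using h1
    · simp
  · rw [Fin.sum_univ_three]
    simp only [Matrix.cons_val_zero, Matrix.cons_val_one, Matrix.cons_val_two]
    rw [if_neg (by decide), if_neg (by decide), ha, hb]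
    push_cast
    simp
    ring
  · intro v hv
    have e1 := (hw v hv).1
    have e2 := (hw v₀ hv₀).1
    have e3 : (a : ℤ) * ((v 0 : ℤ) - v₀ 0) = b * ((v₀ 1 : ℤ) - v 1) := by
      have e4 : (g : ℤ) * ((a : ℤ) * ((v 0 : ℤ) - v₀ 0)) = g * (b * ((v₀ 1 : ℤ) - v 1)) := by
        rw [ha, hb] at e1 e2
        have e5 : ((g * a * v 0 + g * b * v 1 : ℕ) : ℤ) = ((g * a * v₀ 0 + g * b * v₀ 1 : ℕ) : ℤ) := by
          rw [e1, e2]
        push_cast at e5
        linear_combination e5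
      exact mul_left_cancel₀ (by exact_mod_cast hg0.ne') e4
    have hcop : IsCoprime (a : ℤ) (b : ℤ) := Nat.isCoprime_iff_coprime.2 hab
    obtain ⟨k, hk⟩ : (b : ℤ) ∣ (v 0 : ℤ) - v₀ 0 :=
      hcop.symm.dvd_of_dvd_mul_left ⟨_, e3⟩
    refine ⟨k, fun j => ?_⟩
    fin_cases j
    · simp only [Fin.zero_eta, Matrix.cons_val_zero]
      linarith
    · simp only [Fin.mk_one, Matrix.cons_val_one]
      rw [hk] at e3
      have hb0 : (b : ℤ) ≠ 0 := by
        intro h2
        rw [hb] at h1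
        have h3 : b = 0 := by exact_mod_cast h2
        rw [h3, mul_zero] at h1
        omega
      have e6 : (a : ℤ) * k = (v₀ 1 : ℤ) - v 1 :=
        mul_left_cancel₀ hb0 (by linear_combination e3)
      simp
      linarith
    · have h2 := (hw v hv).2
      have h3 := (hw v₀ hv₀).2
      simp [h2, h3]

theorem stableLoc_of_isWHAt {f : MvPolynomial (Fin 3) ℂ} (hf : f ≠ 0) {p : Fin 3 → ℂ}
    (h : IsWHAt f p) : StableLoc 3 (translate p f) := by
  obtain ⟨g, w, N, h0, h1, hN, hw, he⟩ := h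
  refine StableLoc.equiv _ g 1 one_pos he (stableLoc_of_weighted ?_ h0 h1 hN hw)
  exact ne_zero_of_formEquivPow one_pos he (translate_ne_zero hf p)

theorem qhat_of_isWHAt {f : MvPolynomial (Fin 3) ℂ} {d : ℕ} (_hd : 0 < d)
    (hh : f.IsHomogeneous d) {p : Fin 3 → ℂ} (hp : p ≠ 0) (h : IsWHAt f p) : QHat f p := by
  obtain ⟨g, w, N, h0, h1, hN, hw, he⟩ := h
  have hg : g.IsWeightedHomogeneous ![w 0, w 1, 1] N := by
    intro v hv
    obtain ⟨h2, h3⟩ := hw v (mem_support_iff.2 hv)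
    rw [Finsupp.weight_apply, Finsupp.sum_fintype _ _ (fun i => by simp), Fin.sum_univ_three]
    simp only [Matrix.cons_val_zero, Matrix.cons_val_one, Matrix.cons_val_two, smul_eq_mul]
    rw [h3, ← h2]
    simp
    ring
  obtain ⟨c, a, hc, ha, hae⟩ := exists_field_of_formEquivPow hh one_pos he hN hg
  obtain ⟨i, hi⟩ : ∃ i, p i ≠ 0 := by
    by_contra hcon
    push Not at hcon
    exact hp (funext hcon)
  exact ⟨a, ha, i, by rw [hae]; exact mul_ne_zero hc hi⟩

end MPb07157
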