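import Mathlib

/-!
# Factors of homogeneous polynomials are homogeneous
-/

noncomputable section

namespace MPb07157

open MvPolynomial

section HomDvd

variable {σ R : Type} [CommRing R]

/-- The grading homomorphism `X_i ↦ X_i t`. -/
private def gr (σ R : Type) [CommRing R] : MvPolynomial σ R →ₐ[R] Polynomial (MvPolynomial σ R) :=
  aeval fun i => Polynomial.C (X i) * Polynomial.X

private lemma gr_monomial (v : σ →₀ ℕ) (a : R) :
    gr σ R (monomial v a) = Polynomial.C (monomial v a) * Polynomial.X ^ v.degree := by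
  classical
  unfold gr
  rw [aeval_monomial, Finsupp.degree_apply]
  have h1 : (v.prod fun i k => (Polynomial.C (X i : MvPolynomial σ R) * Polynomial.X) ^ k) =
      Polynomial.C (v.prod fun i k => (X i : MvPolynomial σ R) ^ k) *
        Polynomial.X ^ (∑ i ∈ v.support, v i) := by
    rw [Finsupp.prod, Finsupp.prod, map_prod, ← Finset.prod_pow_eq_pow_sum,
      ← Finset.prod_mul_distrib]
    refine Finset.prod_congr rfl fun i _ => ?_
    rw [mul_pow, map_pow]
  rw [h1, ← mul_assoc]
  congr 1
  rw [monomial_eq, map_mul]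
  congr 1

private lemma eval_gr (f : MvPolynomial σ R) : (gr σ R f).eval 1 = f := by
  have h : (Polynomial.evalRingHom (1 : MvPolynomial σ R)).comp
      (gr σ R : MvPolynomial σ R →+* Polynomial (MvPolynomial σ R)) = RingHom.id _ := by
    apply MvPolynomial.ringHom_ext
    · intro a
      simp [gr, MvPolynomial.algebraMap_eq]
    · intro i
      simp [gr]
  exact congrArg (fun φ => φ f) h

private lemma gr_of_isHomogeneous {f : MvPolynomial σ R} {d : ℕ} (hf : f.IsHomogeneous d) :
    gr σ R f = Polynomial.C f * Polynomial.X ^ d := by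
  conv_lhs => rw [f.as_sum]
  conv_rhs => rw [f.as_sum]
  rw [map_sum, map_sum, Finset.sum_mul]
  refine Finset.sum_congr rfl fun v hv => ?_
  have h1 : v.degree = d := by
    have h2 := hf (mem_support_iff.1 hv)
    rw [← h2, Finsupp.degree_eq_weight_one]
    rfl
  rw [gr_monomial, h1]

private lemma coeff_gr (f : MvPolynomial σ R) (k : ℕ) : ((gr σ R f).coeff k).IsHomogeneous k := by
  rw [f.as_sum, map_sum, Polynomial.finsetSum_coeff]
  refine IsHomogeneous.sum _ _ _ fun v _ => ?_
  rw [gr_monomial, Polynomial.coeff_C_mul, Polynomial.coeff_X_pow]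
  split_ifs with h
  · rw [mul_one, h]
    refine isHomogeneous_monomial _ rfl
  · rw [mul_zero]
    exact isHomogeneous_zero _ _ _

variable [IsDomain R]

/-- A factor of a nonzero homogeneous polynomial is homogeneous. -/
theorem isHomogeneous_of_mul {f g : MvPolynomial σ R} {d : ℕ} (h : (f * g).IsHomogeneous d)
    (h0 : f * g ≠ 0) : ∃ e, f.IsHomogeneous e := by
  have hf0 : f ≠ 0 := left_ne_zero_of_mul h0
  have hg0 : g ≠ 0 := right_ne_zero_of_mul h0
  have hgr : ∀ p : MvPolynomial σ R, p ≠ 0 → gr σ R p ≠ 0 := by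
    intro p hp h1
    apply hp
    rw [← eval_gr p, h1, Polynomial.eval_zero]
  have h1 : gr σ R f * gr σ R g = Polynomial.C (f * g) * Polynomial.X ^ d := by
    rw [← map_mul, gr_of_isHomogeneous h]
  have hC : Polynomial.C (f * g) ≠ 0 := Polynomial.C_ne_zero.2 h0
  have h2 : (gr σ R f).natDegree + (gr σ R g).natDegree = d := by
    rw [← Polynomial.natDegree_mul (hgr f hf0) (hgr g hg0), h1,
      Polynomial.natDegree_C_mul_X_pow _ _ h0]
  have h3 : (gr σ R f).natTrailingDegree + (gr σ R g).natTrailingDegree = d := by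
    rw [← Polynomial.natTrailingDegree_mul (hgr f hf0) (hgr g hg0), h1,
      Polynomial.natTrailingDegree_mul hC (pow_ne_zero _ Polynomial.X_ne_zero),
      Polynomial.natTrailingDegree_C, zero_add, Polynomial.natTrailingDegree_X_pow]
  have h4 := Polynomial.natTrailingDegree_le_natDegree (gr σ R f)
  have h5 := Polynomial.natTrailingDegree_le_natDegree (gr σ R g)
  have h6 : (gr σ R f).natTrailingDegree = (gr σ R f).natDegree := by omega
  refine ⟨(gr σ R f).natDegree, ?_⟩
  have h7 : gr σ R f = Polynomial.C ((gr σ R f).coeff (gr σ R f).natDegree) *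
      Polynomial.X ^ (gr σ R f).natDegree := by
    ext1 k
    rw [Polynomial.coeff_C_mul, Polynomial.coeff_X_pow]
    split_ifs with hk
    · rw [hk, mul_one]
    · rw [mul_zero]
      rcases lt_or_gt_of_ne hk with h8 | h8
      · exact Polynomial.coeff_eq_zero_of_lt_natTrailingDegree (by rw [h6]; exact h8)
      · exact Polynomial.coeff_eq_zero_of_natDegree_lt h8
  have h8 : f = (gr σ R f).coeff (gr σ R f).natDegree := by
    conv_lhs => rw [← eval_gr f, h7]
    simp
  conv => enter [1]; rw [h8]
  exact coeff_gr f _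

/-- A divisor of a nonzero homogeneous polynomial is homogeneous. -/
theorem isHomogeneous_of_dvd {f g : MvPolynomial σ R} {d : ℕ} (h : g.IsHomogeneous d)
    (h0 : g ≠ 0) (hfg : f ∣ g) : ∃ e, f.IsHomogeneous e := by
  obtain ⟨c, rfl⟩ := hfg
  exact isHomogeneous_of_mul h h0

end HomDvd

end MPb07157
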