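import Mathlib

/-!
# Finiteness of the common zero lines of homogeneous polynomials in three variables
-/

noncomputable section

namespace MPb07157

open MvPolynomial

/-- The restriction of polynomials to the line through `0` and `p`. -/
private def lineHom (p : Fin 3 → ℂ) : MvPolynomial (Fin 3) ℂ →ₐ[ℂ] Polynomial ℂ :=
  aeval fun i => Polynomial.C (p i) * Polynomial.X

private lemma lineHom_X (p : Fin 3 → ℂ) (i : Fin 3) :
    lineHom p (X i) = Polynomial.C (p i) * Polynomial.X := by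
  simp [lineHom]

private lemma eval_lineHom (p : Fin 3 → ℂ) (c : ℂ) (f : MvPolynomial (Fin 3) ℂ) :
    (lineHom p f).eval c = eval (c • p) f := by
  have h : (Polynomial.evalRingHom c).comp (lineHom p : MvPolynomial (Fin 3) ℂ →+* Polynomial ℂ) =
      eval (c • p) := by
    apply MvPolynomial.ringHom_ext
    · intro a
      simp [lineHom]
    · intro i
      simp only [RingHom.comp_apply, RingHom.coe_coe, lineHom_X, Polynomial.coe_evalRingHom,
        Polynomial.eval_mul, Polynomial.eval_C, Polynomial.eval_X, eval_X, Pi.smul_apply,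
        smul_eq_mul]
      ring
  exact congrArg (fun φ => φ f) h

/-- Values of homogeneous polynomials at multiples of a point. -/
theorem eval_smul_of_isHomogeneous {n e : ℕ} {f : MvPolynomial (Fin n) ℂ}
    (hf : f.IsHomogeneous e) (c : ℂ) (p : Fin n → ℂ) :
    eval (c • p) f = c ^ e * eval p f := by
  rw [eval_eq', eval_eq', Finset.mul_sum]
  refine Finset.sum_congr rfl fun d hd => ?_
  have h1 : ∑ i, d i = e := by
    have h2 := hf (mem_support_iff.1 hd)
    rw [← h2, Finsupp.weight_apply, Finsupp.sum_fintype _ _ (fun i => by simp)]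
    simp
  have h3 : ∏ i, (c • p) i ^ d i = c ^ e * ∏ i, p i ^ d i := by
    rw [← h1, ← Finset.prod_pow_eq_pow_sum, ← Finset.prod_mul_distrib]
    refine Finset.prod_congr rfl fun i _ => ?_
    rw [Pi.smul_apply, smul_eq_mul, mul_pow]
  rw [h3]
  ring

/-- The ideal of the line. -/
private def lineIdeal (p : Fin 3 → ℂ) : Ideal (MvPolynomial (Fin 3) ℂ) :=
  RingHom.ker (lineHom p)

private lemma mem_lineIdeal {p : Fin 3 → ℂ} {f : MvPolynomial (Fin 3) ℂ} :
    f ∈ lineIdeal p ↔ lineHom p f = 0 := RingHom.mem_ker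

private instance (p : Fin 3 → ℂ) : (lineIdeal p).IsPrime := RingHom.ker_isPrime _

private lemma homogeneous_mem {p : Fin 3 → ℂ} {f : MvPolynomial (Fin 3) ℂ} {e : ℕ}
    (hf : f.IsHomogeneous e) (h : eval p f = 0) : f ∈ lineIdeal p := by
  rw [mem_lineIdeal]
  apply Polynomial.funext
  intro c
  rw [eval_lineHom, Polynomial.eval_zero]
  rw [eval_smul_of_isHomogeneous hf, h, mul_zero]

private lemma cross_mem (p : Fin 3 → ℂ) (i k : Fin 3) :
    C (p k) * X i - C (p i) * X k ∈ lineIdeal p := by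
  rw [mem_lineIdeal, map_sub, map_mul, map_mul, lineHom_X, lineHom_X]
  simp [lineHom]
  ring

/-- The ideal of the line has height at most two. -/
private lemma height_lineIdeal {p : Fin 3 → ℂ} (hp : p ≠ 0) : (lineIdeal p).height ≤ 2 := by
  classical
  obtain ⟨k, hk⟩ : ∃ k, p k ≠ 0 := by
    by_contra h
    push Not at h
    exact hp (funext h)
  let s : Finset (MvPolynomial (Fin 3) ℂ) :=
    (Finset.univ.erase k).image fun i => C (p k) * X i - C (p i) * X k
  have hs : s.card ≤ 2 := by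
    refine Finset.card_image_le.trans ?_
    rw [Finset.card_erase_of_mem (Finset.mem_univ k)]
    simp
  have hmem : ∀ i, C (p k) * X i - C (p i) * X k ∈ Ideal.span (s : Set (MvPolynomial (Fin 3) ℂ)) := by
    intro i
    by_cases hik : i = k
    · rw [hik, sub_self]
      exact zero_mem _
    · exact Ideal.subset_span (by
        simp only [s, Finset.coe_image, Set.mem_image, Finset.mem_coe, Finset.mem_erase]
        exact ⟨i, ⟨hik, Finset.mem_univ i⟩, rfl⟩)
  let ψ : Polynomial ℂ →ₐ[ℂ] MvPolynomial (Fin 3) ℂ := Polynomial.aeval (C (p k)⁻¹ * X k)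
  have hspan : lineIdeal p = Ideal.span (s : Set (MvPolynomial (Fin 3) ℂ)) := by
    apply le_antisymm
    · intro f hf
      rw [mem_lineIdeal] at hf
      have h1 : (Ideal.Quotient.mkₐ ℂ (Ideal.span (s : Set (MvPolynomial (Fin 3) ℂ)))).comp
          (ψ.comp (lineHom p)) =
          Ideal.Quotient.mkₐ ℂ (Ideal.span (s : Set (MvPolynomial (Fin 3) ℂ))) := by
        apply MvPolynomial.algHom_ext
        intro i
        rw [AlgHom.comp_apply, AlgHom.comp_apply, lineHom_X]
        simp only [Ideal.Quotient.mkₐ_eq_mk]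
        rw [Ideal.Quotient.eq]
        have h2 : ψ (Polynomial.C (p i) * Polynomial.X) - X i =
            -(C (p k)⁻¹ * (C (p k) * X i - C (p i) * X k)) := by
          simp only [ψ, map_mul, Polynomial.aeval_C, Polynomial.aeval_X,
            MvPolynomial.algebraMap_eq]
          have h3 : (C (p k)⁻¹ : MvPolynomial (Fin 3) ℂ) * C (p k) = 1 := by
            rw [← C_mul, inv_mul_cancel₀ hk, C_1]
          linear_combination (X i : MvPolynomial (Fin 3) ℂ) * h3
        rw [h2]
        exact neg_mem (Ideal.mul_mem_left _ _ (hmem i))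
      have h2 := congrArg (fun φ => φ f) h1
      simp only [AlgHom.comp_apply, hf, map_zero, Ideal.Quotient.mkₐ_eq_mk] at h2
      exact Ideal.Quotient.eq_zero_iff_mem.1 h2.symm
    · rw [Ideal.span_le]
      intro f hf
      simp only [s, Finset.coe_image, Set.mem_image] at hf
      obtain ⟨i, -, rfl⟩ := hf
      exact cross_mem p i k
  have h1 : lineIdeal p ∈ (Ideal.span (s : Set (MvPolynomial (Fin 3) ℂ))).minimalPrimes := by
    rw [← hspan, Ideal.minimalPrimes_eq_subsingleton_self]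
    exact Set.mem_singleton _
  refine (Ideal.height_le_card_of_mem_minimalPrimes_span_finset h1).trans ?_
  exact_mod_cast hs

private lemma proportional {p p' : Fin 3 → ℂ} (hp : p ≠ 0) (hp' : p' ≠ 0)
    (h : lineIdeal p = lineIdeal p') : ∃ c : ℂ, c ≠ 0 ∧ p = c • p' := by
  obtain ⟨k, hk⟩ : ∃ k, p' k ≠ 0 := by
    by_contra h
    push Not at h
    exact hp' (funext h)
  have h1 : ∀ i, p k * p' i = p i * p' k := by
    intro i
    have h2 := cross_mem p i k
    rw [h, mem_lineIdeal, map_sub, map_mul, map_mul, lineHom_X, lineHom_X] at h2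
    have h3 := congrArg (Polynomial.eval 1) h2
    simp only [lineHom, aeval_C, Polynomial.algebraMap_eq, Polynomial.eval_sub,
      Polynomial.eval_mul, Polynomial.eval_C, Polynomial.eval_X, mul_one,
      Polynomial.eval_zero] at h3
    exact sub_eq_zero.1 h3
  have h2 : p = (p k / p' k) • p' := by
    funext i
    rw [Pi.smul_apply, smul_eq_mul]
    field_simp
    exact (h1 i).symm
  refine ⟨p k / p' k, ?_, h2⟩
  intro h0
  rw [h0, zero_smul] at h2
  exact hp h2

private lemma lineIdeal_smul {p : Fin 3 → ℂ} {c : ℂ} (hc : c ≠ 0) :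
    lineIdeal (c • p) = lineIdeal p := by
  ext f
  rw [mem_lineIdeal, mem_lineIdeal]
  constructor
  · intro h
    apply Polynomial.funext
    intro a
    have h1 := congrArg (Polynomial.eval (c⁻¹ * a)) h
    rw [eval_lineHom, smul_smul, Polynomial.eval_zero] at h1
    rw [eval_lineHom, Polynomial.eval_zero]
    have h2 : c⁻¹ * a * c = a := by field_simp
    rwa [h2] at h1
  · intro h
    apply Polynomial.funext
    intro a
    have h1 := congrArg (Polynomial.eval (a * c)) h
    rw [eval_lineHom, Polynomial.eval_zero] at h1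
    rw [eval_lineHom, smul_smul, Polynomial.eval_zero]
    exact h1

/-- A prime ideal of a unique factorization domain which is not zero and not principal has height
at least two. -/
private lemma two_le_height {R : Type*} [CommRing R] [IsDomain R] [IsNoetherianRing R]
    [UniqueFactorizationMonoid R] {P : Ideal R} [hP : P.IsPrime] (h0 : P ≠ ⊥)
    (h : ∀ q, Prime q → P ≠ Ideal.span {q}) : 2 ≤ P.height := by
  obtain ⟨q, hqP, hq⟩ := hP.exists_mem_prime_of_ne_bot h0
  have hqp : (Ideal.span {q}).IsPrime := (Ideal.span_singleton_prime hq.ne_zero).2 hq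
  have h1 : (⊥ : Ideal R) < Ideal.span {q} := by
    rw [bot_lt_iff_ne_bot, Ne, Ideal.span_singleton_eq_bot]
    exact hq.ne_zero
  have h2 : Ideal.span {q} < P := by
    refine lt_of_le_of_ne ?_ (Ne.symm (h q hq))
    rw [Ideal.span_singleton_le_iff_mem]
    exact hqP
  have h3 := Ideal.height_strict_mono_of_isPrime_of_isPrime h1
  have h4 := Ideal.height_strict_mono_of_isPrime_of_isPrime h2
  rw [Ideal.height_bot] at h3
  have h5 : (1 : ℕ∞) ≤ (Ideal.span {q}).height := Order.one_le_iff_pos.2 h3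
  have h6 : (1 : ℕ∞) < P.height := h5.trans_lt h4
  have h7 : (1 : ℕ∞) + 1 ≤ P.height := Order.add_one_le_of_lt h6
  calc (2 : ℕ∞) = 1 + 1 := by norm_num
    _ ≤ P.height := h7

/-- **Finiteness of the common zero lines.** -/
theorem exists_finset_lines {v : Fin 3 → MvPolynomial (Fin 3) ℂ}
    (hv : ∀ i, ∃ e, (v i).IsHomogeneous e) (hv0 : ∃ i, v i ≠ 0)
    (hgcd : ∀ q, Irreducible q → ∃ i, ¬ q ∣ v i) :
    ∃ P : Finset (Fin 3 → ℂ), (∀ p ∈ P, p ≠ 0 ∧ ∀ i, eval p (v i) = 0) ∧
      (∀ p ∈ P, ∀ p' ∈ P, ∀ c : ℂ, p' = c • p → p' = p) ∧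
      ∀ p : Fin 3 → ℂ, p ≠ 0 → (∀ i, eval p (v i) = 0) →
        ∃ p' ∈ P, ∃ c : ℂ, c ≠ 0 ∧ p = c • p' := by
  classical
  let I : Ideal (MvPolynomial (Fin 3) ℂ) := Ideal.span (Set.range v)
  have hfin : I.minimalPrimes.Finite := Ideal.finite_minimalPrimes_of_isNoetherianRing _ I
  let Z : Set (Fin 3 → ℂ) := {p | p ≠ 0 ∧ ∀ i, eval p (v i) = 0}
  have hZ : ∀ p ∈ Z, lineIdeal p ∈ I.minimalPrimes := by
    rintro p ⟨hp, hpv⟩
    have hI : I ≤ lineIdeal p := by
      rw [Ideal.span_le]
      rintro _ ⟨i, rfl⟩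
      obtain ⟨e, he⟩ := hv i
      exact homogeneous_mem he (hpv i)
    obtain ⟨Q, hQ, hQp⟩ := Ideal.exists_minimalPrimes_le hI
    have hQprime : Q.IsPrime := hQ.1.1
    have hIQ : I ≤ Q := hQ.1.2
    have hvQ : ∀ i, v i ∈ Q := fun i => hIQ (Ideal.subset_span ⟨i, rfl⟩)
    have hQ2 : 2 ≤ Q.height := by
      apply two_le_height
      · rintro rfl
        obtain ⟨i, hi⟩ := hv0
        exact hi ((Ideal.mem_bot).1 (hvQ i))
      · rintro q hq rfl
        obtain ⟨i, hi⟩ := hgcd q hq.irreducible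
        exact hi (Ideal.mem_span_singleton.1 (hvQ i))
    have h1 : Q = lineIdeal p :=
      Ideal.eq_of_le_of_height_le Q hQp ((height_lineIdeal hp).trans hQ2)
    rw [← h1]
    exact hQ
  have hfin2 : (lineIdeal '' Z).Finite := hfin.subset (by
    rintro _ ⟨p, hp, rfl⟩
    exact hZ p hp)
  have hch : ∀ J : Ideal (MvPolynomial (Fin 3) ℂ), ∃ p : Fin 3 → ℂ,
      J ∈ lineIdeal '' Z → p ∈ Z ∧ lineIdeal p = J := by
    intro J
    by_cases hJ : J ∈ lineIdeal '' Z
    · obtain ⟨p, hp, rfl⟩ := hJ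
      exact ⟨p, fun _ => ⟨hp, rfl⟩⟩
    · exact ⟨0, fun h => absurd h hJ⟩
  choose r hr using hch
  refine ⟨hfin2.toFinset.image r, ?_, ?_, ?_⟩
  · intro p hp
    obtain ⟨J, hJ, rfl⟩ := Finset.mem_image.1 hp
    exact (hr J (hfin2.mem_toFinset.1 hJ)).1
  · intro p hp p' hp' c hc
    obtain ⟨J, hJ, rfl⟩ := Finset.mem_image.1 hp
    obtain ⟨J', hJ', rfl⟩ := Finset.mem_image.1 hp'
    obtain ⟨⟨h1, h2⟩, h3⟩ := hr J (hfin2.mem_toFinset.1 hJ)
    obtain ⟨⟨h1', h2'⟩, h3'⟩ := hr J' (hfin2.mem_toFinset.1 hJ')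
    have hc0 : c ≠ 0 := by
      rintro rfl
      rw [zero_smul] at hc
      exact h1' hc
    have h4 : J' = J := by
      rw [← h3', ← h3, hc, lineIdeal_smul hc0]
    rw [h4]
  · intro p hp hpv
    have hpZ : p ∈ Z := ⟨hp, hpv⟩
    obtain ⟨⟨h1, h2⟩, h3⟩ := hr (lineIdeal p) ⟨p, hpZ, rfl⟩
    refine ⟨r (lineIdeal p), Finset.mem_image.2 ⟨_, hfin2.mem_toFinset.2 ⟨p, hpZ, rfl⟩, rfl⟩, ?_⟩
    exact proportional hp h1 h3.symm

end MPb07157
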