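import Pool.Agent.Lib.MP_b07157_agQ.PoleQ
import Pool.Agent.Lib.MP_b07157_agQ.HomDvd
import Pool.Agent.Lib.MP_b07157_agQ.Lines

/-!
# Factorization, and finiteness of the singular lines
-/

noncomputable section

namespace MPb07157

open MvPolynomial

variable {n : ℕ}

theorem IsFact.ne_zero {r : ℕ} {f : MvPolynomial (Fin n) ℂ} {g : Fin r → MvPolynomial (Fin n) ℂ}
    {m : Fin r → ℕ} (hf : IsFact f g m) : f ≠ 0 := by
  rw [hf.eq]
  exact Finset.prod_ne_zero_iff.2 fun i _ => pow_ne_zero _ (hf.irr i).ne_zero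

/-- The factors of a homogeneous polynomial are homogeneous, of positive degree. -/
theorem IsFact.exists_degree {r : ℕ} {f : MvPolynomial (Fin n) ℂ}
    {g : Fin r → MvPolynomial (Fin n) ℂ} {m : Fin r → ℕ} (hf : IsFact f g m) {d : ℕ}
    (hh : f.IsHomogeneous d) (j : Fin r) : ∃ e, 0 < e ∧ (g j).IsHomogeneous e := by
  have h1 : g j ∣ f := by
    rw [hf.eq]
    exact (dvd_pow_self _ (hf.pos j).ne').trans (Finset.dvd_prod_of_mem _ (Finset.mem_univ j))
  obtain ⟨q, hq⟩ := h1
  have h0 := hf.ne_zero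
  rw [hq] at hh h0
  obtain ⟨e, he⟩ := isHomogeneous_of_mul hh h0
  refine ⟨e, ?_, he⟩
  rcases Nat.eq_zero_or_pos e with h | h
  · exfalso
    subst h
    rw [← totalDegree_zero_iff_isHomogeneous, totalDegree_eq_zero_iff_eq_C] at he
    apply (hf.irr j).not_isUnit
    rw [he, MvPolynomial.isUnit_iff_eq_C_of_isReduced]
    refine ⟨_, ?_, rfl⟩
    rw [isUnit_iff_ne_zero]
    intro h2
    rw [h2, C_0] at he
    exact (hf.irr j).ne_zero he
  · exact h

theorem IsFact.pos_card {r : ℕ} {f : MvPolynomial (Fin n) ℂ} {g : Fin r → MvPolynomial (Fin n) ℂ}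
    {m : Fin r → ℕ} (hf : IsFact f g m) {d : ℕ} (hd : 0 < d) (hh : f.IsHomogeneous d) : 0 < r := by
  rcases Nat.eq_zero_or_pos r with h | h
  · exfalso
    subst h
    have h1 : f = 1 := by
      rw [hf.eq]
      simp [prodPow]
    rw [h1] at hh
    have := (isHomogeneous_one (Fin n) ℂ).inj_right hh one_ne_zero
    omega
  · exact h

theorem vv_isHomogeneous {r : ℕ} {g : Fin r → MvPolynomial (Fin n) ℂ} {m : Fin r → ℕ}
    {e : Fin r → ℕ} (he : ∀ j, 0 < e j) (hg : ∀ j, (g j).IsHomogeneous (e j)) (i : Fin n) :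
    (vv g m i).IsHomogeneous ((∑ j, e j) - 1) := by
  refine IsHomogeneous.sum _ _ _ fun j _ => ?_
  have h1 : (0 + ∑ k ∈ Finset.univ.erase j, e k) + (e j - 1) = (∑ j, e j) - 1 := by
    rw [← Finset.sum_erase_add _ _ (Finset.mem_univ j)]
    have := he j
    omega
  rw [← h1]
  refine ((isHomogeneous_C _ _).mul (IsHomogeneous.prod _ _ _ fun k _ => hg k)).mul (hg j).pderiv

/-- Euler's formula. -/
theorem sum_X_mul_vv {r : ℕ} {g : Fin r → MvPolynomial (Fin n) ℂ} {m : Fin r → ℕ}
    {e : Fin r → ℕ} (hg : ∀ j, (g j).IsHomogeneous (e j)) :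
    ∑ i, X i * vv g m i = C ((∑ j, m j * e j : ℕ) : ℂ) * ∏ j, g j := by
  have h1 : ∀ j, ∑ i, X i * pderiv i (g j) = (e j) • g j := fun j => (hg j).sum_X_mul_pderiv
  simp only [vv, Finset.mul_sum]
  rw [Finset.sum_comm]
  have h2 : ∀ j, ∑ i, X i * (C (m j : ℂ) * (∏ k ∈ Finset.univ.erase j, g k) * pderiv i (g j)) =
      C ((m j * e j : ℕ) : ℂ) * ∏ j, g j := by
    intro j
    have h3 : ∑ i, X i * (C (m j : ℂ) * (∏ k ∈ Finset.univ.erase j, g k) * pderiv i (g j)) =
        (C (m j : ℂ) * (∏ k ∈ Finset.univ.erase j, g k)) * ∑ i, X i * pderiv i (g j) := by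
      rw [Finset.mul_sum]
      exact Finset.sum_congr rfl fun i _ => by ring
    rw [h3, h1, ← Finset.prod_erase_mul _ _ (Finset.mem_univ j)]
    push_cast
    rw [map_mul, nsmul_eq_mul]
    simp only [map_natCast]
    ring
  rw [Finset.sum_congr rfl fun j _ => h2 j, ← Finset.sum_mul]
  push_cast
  rw [map_sum]

/-- The components of `(∏ g_k) · grad f / f` have no common factor.

Let `q` be an irreducible common factor. By Euler's formula `∑ x_i v_i = c ∏ g_k`, so `q` is
associated to some `g_j`; modulo `g_j`, `v_i ≡ m_j (∏_{k ≠ j} g_k) ∂_i g_j`, so `g_j ∣ ∂_i g_j` for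
all `i`, hence `∂_i g_j = 0` for all `i` (degrees), so `g_j` is constant. -/
theorem vv_coprime {r : ℕ} {f : MvPolynomial (Fin n) ℂ} {g : Fin r → MvPolynomial (Fin n) ℂ}
    {m : Fin r → ℕ} (hf : IsFact f g m) {d : ℕ} (hd : 0 < d) (hh : f.IsHomogeneous d)
    {q : MvPolynomial (Fin n) ℂ} (hq : ∀ i, q ∣ vv g m i) : IsUnit q := by
  choose e he hg using hf.exists_degree hh
  have hr := hf.pos_card hd hh
  have hprod : ∏ j, g j ≠ 0 := Finset.prod_ne_zero_iff.2 fun i _ => (hf.irr i).ne_zero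
  have hsum : ((∑ j, m j * e j : ℕ) : ℂ) ≠ 0 := by
    rw [Nat.cast_ne_zero]
    have : 0 < ∑ j, m j * e j := Finset.sum_pos (fun j _ => Nat.mul_pos (hf.pos j) (he j))
      ⟨⟨0, hr⟩, Finset.mem_univ _⟩
    omega
  have hE := sum_X_mul_vv (m := m) hg
  by_contra hu
  have hq0 : q ≠ 0 := by
    rintro rfl
    have h1 : ∑ i, X i * vv g m i = 0 := Finset.sum_eq_zero fun i _ => by
      rw [zero_dvd_iff.1 (hq i), mul_zero]
    rw [h1] at hE
    rcases mul_eq_zero.1 hE.symm with h2 | h2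
    · exact hsum (C_injective (Fin n) ℂ (h2.trans C_0.symm))
    · exact hprod h2
  obtain ⟨q', hq', hqq⟩ := WfDvdMonoid.exists_irreducible_factor hu hq0
  have hp : Prime q' := hq'.prime
  have h1 : q' ∣ C ((∑ j, m j * e j : ℕ) : ℂ) * ∏ j, g j := by
    rw [← hE]
    exact Finset.dvd_sum fun i _ => Dvd.dvd.mul_left (hqq.trans (hq i)) _
  have hC : ∀ c : ℂ, c ≠ 0 → IsUnit (C c : MvPolynomial (Fin n) ℂ) := fun c hc =>
    (isUnit_iff_ne_zero.2 hc).map C
  have h2 : q' ∣ ∏ j, g j := (hC _ hsum).dvd_mul_left.1 h1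
  obtain ⟨j, -, h3⟩ := (Prime.dvd_finsetProd_iff hp _).1 h2
  have h4 : Associated q' (g j) := hq'.associated_of_dvd (hf.irr j) h3
  have hpj : Prime (g j) := (hf.irr j).prime
  have h5 : ∀ i, g j ∣ pderiv i (g j) := by
    intro i
    have h6 : g j ∣ vv g m i := h4.symm.dvd.trans (hqq.trans (hq i))
    rw [vv, ← Finset.sum_erase_add _ _ (Finset.mem_univ j)] at h6
    have h7 : g j ∣ ∑ l ∈ Finset.univ.erase j,
        C (m l : ℂ) * (∏ k ∈ Finset.univ.erase l, g k) * pderiv i (g l) := by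
      refine Finset.dvd_sum fun l hl => ?_
      refine Dvd.dvd.mul_right (Dvd.dvd.mul_left ?_ _) _
      exact Finset.dvd_prod_of_mem _ (Finset.mem_erase.2 ⟨(Finset.ne_of_mem_erase hl).symm,
        Finset.mem_univ _⟩)
    have h8 := (dvd_add_right h7).1 h6
    rcases hpj.dvd_or_dvd h8 with h9 | h9
    · exfalso
      rcases hpj.dvd_or_dvd h9 with h10 | h10
      · exact hpj.not_isUnit (isUnit_of_dvd_unit h10
          (hC _ (Nat.cast_ne_zero.2 (hf.pos j).ne')))
      · obtain ⟨k, hk, h11⟩ := (Prime.dvd_finsetProd_iff hpj _).1 h10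
        exact hf.ne j k (Finset.ne_of_mem_erase hk).symm
          ((hf.irr j).associated_of_dvd (hf.irr k) h11)
    · exact h9
  have h6 : ∀ i, pderiv i (g j) = 0 := by
    intro i
    by_contra h7
    have h8 := totalDegree_le_of_dvd_of_isDomain (h5 i) h7
    rw [(hg j).totalDegree (hf.irr j).ne_zero, (hg j).pderiv.totalDegree h7] at h8
    have := he j
    omega
  have h7 := (hg j).sum_X_mul_pderiv
  simp only [h6, mul_zero, Finset.sum_const_zero] at h7
  rw [nsmul_eq_mul] at h7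
  rcases mul_eq_zero.1 h7.symm with h8 | h8
  · have h9 := Nat.cast_eq_zero.1 h8
    exact (he j).ne' h9
  · exact (hf.irr j).ne_zero h8

/-- If the vector field `(∏ g_k) · grad f / f` does not vanish at `p`, then at most one `g_i`
vanishes at `p`, and its gradient at `p` is not zero. -/
theorem sncAt_of_vv_ne {r : ℕ} (g : Fin r → MvPolynomial (Fin n) ℂ) (m : Fin r → ℕ)
    {p : Fin n → ℂ} (hp : ∃ i, eval p (vv g m i) ≠ 0) : SncAt g p := by
  obtain ⟨i, hi⟩ := hp
  rw [vv, map_sum] at hi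
  obtain ⟨j, -, hj⟩ := Finset.exists_ne_zero_of_sum_ne_zero hi
  rw [map_mul, map_mul, map_prod] at hj
  have h1 : ∀ k, k ≠ j → eval p (g k) ≠ 0 := fun k hk =>
    Finset.prod_ne_zero_iff.1 (right_ne_zero_of_mul (left_ne_zero_of_mul hj)) k
      (Finset.mem_erase.2 ⟨hk, Finset.mem_univ _⟩)
  have h2 : eval p (pderiv i (g j)) ≠ 0 := right_ne_zero_of_mul hj
  have h3 : Subsingleton {i : Fin r // eval p (g i) = 0} := by
    constructor
    rintro ⟨a, ha⟩ ⟨b, hb⟩
    have h4 : a = j := by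
      by_contra h
      exact h1 a h ha
    have h5 : b = j := by
      by_contra h
      exact h1 b h hb
    exact Subtype.ext (h4.trans h5.symm)
  rw [SncAt]
  rw [linearIndependent_subsingleton_index_iff]
  rintro ⟨a, ha⟩ h0
  have h4 : a = j := by
    by_contra h
    exact h1 a h ha
  subst h4
  exact h2 (congrFun h0 i)

/-- Factorization into powers of different irreducible polynomials (the constant is an `m_i`-th
power). -/
theorem exists_isFact {f : MvPolynomial (Fin n) ℂ} (hf : f ≠ 0) {d : ℕ} (hd : 0 < d)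
    (hh : f.IsHomogeneous d) :
    ∃ (r : ℕ) (g : Fin r → MvPolynomial (Fin n) ℂ) (m : Fin r → ℕ), IsFact f g m := by
  classical
  let _ : StrongNormalizationMonoid (MvPolynomial (Fin n) ℂ) :=
    UniqueFactorizationMonoid.strongNormalizationMonoid
  let s := UniqueFactorizationMonoid.normalizedFactors f
  have hs : Associated s.prod f := UniqueFactorizationMonoid.prod_normalizedFactors hf
  have hirr : ∀ a ∈ s, Irreducible a := fun a ha =>
    UniqueFactorizationMonoid.irreducible_of_normalized_factor a ha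
  have hnorm : ∀ a ∈ s, normalize a = a := fun a ha =>
    UniqueFactorizationMonoid.normalize_normalized_factor a ha
  let t := s.toFinset
  let φ := t.equivFin
  let g : Fin t.card → MvPolynomial (Fin n) ℂ := fun i => (φ.symm i : MvPolynomial (Fin n) ℂ)
  let m : Fin t.card → ℕ := fun i => s.count (g i)
  have hmem : ∀ i, g i ∈ s := fun i => Multiset.mem_toFinset.1 (φ.symm i).2
  have hprod : ∏ i, g i ^ m i = s.prod := by
    rw [Finset.prod_multiset_count, ← Finset.prod_coe_sort t]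
    exact Equiv.prod_comp φ.symm
      (fun a : t => (a : MvPolynomial (Fin n) ℂ) ^ s.count (a : MvPolynomial (Fin n) ℂ))
  obtain ⟨u, hu⟩ := hs
  obtain ⟨c, hc, hcu⟩ := MvPolynomial.isUnit_iff_eq_C_of_isReduced.1 u.isUnit
  rw [isUnit_iff_ne_zero] at hc
  have hcard : 0 < t.card := by
    rcases Nat.eq_zero_or_pos t.card with h | h
    · exfalso
      have h1 : t = ∅ := Finset.card_eq_zero.1 h
      have h2 : s = 0 := Multiset.toFinset_eq_empty.1 h1
      rw [h2, Multiset.prod_zero, one_mul, hcu] at hu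
      rw [← hu] at hh hf
      have := (isHomogeneous_C (Fin n) c).inj_right hh hf
      omega
    · exact h
  let i₀ : Fin t.card := ⟨0, hcard⟩
  have hm : ∀ i, 0 < m i := fun i => Multiset.count_pos.2 (hmem i)
  obtain ⟨b, hb⟩ := IsAlgClosed.exists_pow_nat_eq c (hm i₀)
  have hb0 : b ≠ 0 := by
    rintro rfl
    rw [zero_pow (hm i₀).ne'] at hb
    exact hc hb.symm
  have hbu : IsUnit (C b : MvPolynomial (Fin n) ℂ) := (isUnit_iff_ne_zero.2 hb0).map C
  have hass : ∀ i, Associated ((if i = i₀ then C b else 1) * g i) (g i) := by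
    intro i
    split_ifs
    · exact associated_unit_mul_left _ _ hbu
    · rw [one_mul]
  refine ⟨t.card, fun i => (if i = i₀ then C b else 1) * g i, m, ?_, ?_, hm, ?_⟩
  · intro i
    exact (hass i).symm.irreducible (hirr _ (hmem i))
  · intro i j hij h
    have h1 : Associated (g i) (g j) := (hass i).symm.trans (h.trans (hass j))
    have h2 : g i = g j := by
      rw [← hnorm _ (hmem i), ← hnorm _ (hmem j)]
      exact normalize_eq_normalize_iff_associated.2 h1
    exact hij (φ.symm.injective (Subtype.ext h2))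
  · rw [prodPow]
    simp only [mul_pow]
    rw [Finset.prod_mul_distrib, hprod, ← hu, mul_comm, hcu]
    congr 1
    rw [Finset.prod_eq_single_of_mem i₀ (Finset.mem_univ _)]
    · rw [if_pos rfl, ← map_pow, hb]
    · intro j _ hj
      rw [if_neg hj, one_pow]

/-- The singular points are on finitely many lines. -/
theorem exists_lines {r : ℕ} {f : MvPolynomial (Fin 3) ℂ} {g : Fin r → MvPolynomial (Fin 3) ℂ}
    {m : Fin r → ℕ} (hf : IsFact f g m) {d : ℕ} (hd : 0 < d) (hh : f.IsHomogeneous d) :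
    ∃ B : Finset (Fin 3 → ℂ), (∀ b ∈ B, b ≠ 0) ∧ ∀ p ≠ 0, (∀ i, eval p (vv g m i) = 0) →
      ∃ b ∈ B, ∃ l : ℂ, p = l • b := by
  choose e he hg using hf.exists_degree hh
  obtain ⟨P, hP1, -, hP3⟩ := exists_finset_lines (v := vv g m)
    (fun i => ⟨_, vv_isHomogeneous he hg i⟩) (by
      by_contra hcon
      push Not at hcon
      exact not_isUnit_zero (vv_coprime hf hd hh (q := 0) (fun i => by rw [hcon i]))) (by
      intro q hq
      by_contra hcon
      push Not at hcon
      exact hq.not_isUnit (vv_coprime hf hd hh hcon))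
  refine ⟨P, fun b hb => (hP1 b hb).1, fun p hp0 hp => ?_⟩
  obtain ⟨b, hb, c, -, hc⟩ := hP3 p hp0 hp
  exact ⟨b, hb, c, hc⟩

end MPb07157
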