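import Pool.Agent.Lib.MP_b07157_agS.SMain

/-!
# Homogeneous polynomials: local and global Bernstein–Sato polynomials
-/

noncomputable section

namespace MPb07157

open MvPolynomial

variable {n : ℕ}

section HC

variable {A : Type} [CommRing A]

theorem homogeneousComponent_mul_left {c g : MvPolynomial (Fin n) A} {i : ℕ}
    (hc : c.IsHomogeneous i) (j : ℕ) :
    homogeneousComponent (i + j) (c * g) = c * homogeneousComponent j g := by
  classical
  ext m
  rw [coeff_homogeneousComponent, coeff_mul, coeff_mul]
  split_ifs with hm
  · refine Finset.sum_congr rfl fun p hp => ?_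
    by_cases h0 : coeff p.1 c = 0
    · rw [h0, zero_mul, zero_mul]
    · have h1 : p.1.degree = i := by
        by_contra hne
        exact h0 (hc.coeff_eq_zero hne)
      have h2 : p.1 + p.2 = m := Finset.HasAntidiagonal.mem_antidiagonal.1 hp
      have h3 : p.2.degree = j := by
        rw [← h2, map_add, h1] at hm
        omega
      rw [coeff_homogeneousComponent, if_pos h3]
  · symm
    refine Finset.sum_eq_zero fun p hp => ?_
    by_cases h0 : coeff p.1 c = 0
    · rw [h0, zero_mul]
    · have h1 : p.1.degree = i := by
        by_contra hne
        exact h0 (hc.coeff_eq_zero hne)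
      have h2 : p.1 + p.2 = m := Finset.HasAntidiagonal.mem_antidiagonal.1 hp
      have h3 : p.2.degree ≠ j := by
        intro h4
        apply hm
        rw [← h2, map_add, h1, h4]
      rw [coeff_homogeneousComponent, if_neg h3, mul_zero]

theorem homogeneousComponent_mul_left_lt {c g : MvPolynomial (Fin n) A} {i : ℕ}
    (hc : c.IsHomogeneous i) {j : ℕ} (hj : j < i) :
    homogeneousComponent j (c * g) = 0 := by
  classical
  ext m
  rw [coeff_homogeneousComponent, coeff_mul, coeff_zero]
  split_ifs with hm
  · refine Finset.sum_eq_zero fun p hp => ?_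
    have h2 : p.1 + p.2 = m := Finset.HasAntidiagonal.mem_antidiagonal.1 hp
    have h1 : p.1.degree ≠ i := by
      rw [← h2, map_add] at hm
      omega
    rw [hc.coeff_eq_zero h1, zero_mul]
  · rfl

theorem homogeneousComponent_monomial (j : ℕ) (m : Fin n →₀ ℕ) (a : A) :
    homogeneousComponent j (monomial m a) = if m.degree = j then monomial m a else 0 := by
  rw [homogeneousComponent_of_mem (isHomogeneous_monomial a rfl)]
  simp only [eq_comm]

theorem homogeneousComponent_pderiv (i : Fin n) (g : MvPolynomial (Fin n) A) (j : ℕ) :
    homogeneousComponent j (pderiv i g) = pderiv i (homogeneousComponent (j + 1) g) := by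
  classical
  induction g using MvPolynomial.induction_on' with
  | add p q hp hq => simp only [map_add, hp, hq]
  | monomial m a =>
    rw [pderiv_monomial, homogeneousComponent_monomial, homogeneousComponent_monomial]
    by_cases hm : m i = 0
    · rw [hm, Nat.cast_zero, mul_zero, monomial_zero, ite_self]
      split_ifs
      · rw [pderiv_monomial, hm, Nat.cast_zero, mul_zero, monomial_zero]
      · rw [map_zero]
    · have h1 : (m - Finsupp.single i 1).degree + 1 = m.degree := by
        have h2 : m - Finsupp.single i 1 + Finsupp.single i 1 = m := by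
          ext k
          rw [Finsupp.add_apply, Finsupp.tsub_apply]
          by_cases hk : k = i
          · subst hk
            rw [Finsupp.single_eq_same]
            omega
          · rw [Finsupp.single_eq_of_ne hk]
            omega
        conv_rhs => rw [← h2]
        rw [map_add, Finsupp.degree_single]
      by_cases h3 : m.degree = j + 1
      · rw [if_pos (by omega), if_pos h3, pderiv_monomial]
      · rw [if_neg (by omega), if_neg h3, map_zero]

end HC

theorem liftS_isHomogeneous {f : MvPolynomial (Fin n) ℂ} {d : ℕ} (hf : f.IsHomogeneous d) :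
    (liftS f).IsHomogeneous d := hf.map _

/-- The homogeneous components of the elements of `InDn f k` are in `InDn f k`. -/
theorem InDn.homogeneousComponent {f : MvPolynomial (Fin n) ℂ} {d : ℕ} (hf : f.IsHomogeneous d)
    {k : ℕ} {g : MvPolynomial (Fin n) (Polynomial ℂ)} (h : InDn f k g) (j : ℕ) :
    InDn f k (MvPolynomial.homogeneousComponent j g) := by
  classical
  induction h generalizing j with
  | base =>
    rw [homogeneousComponent_of_mem (isHomogeneous_one (Fin n) (Polynomial ℂ))]
    split_ifs
    · exact InDn.base
    · exact InDn.exists_zero f 0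
  | add _ _ ih1 ih2 =>
    rw [map_add]
    exact (ih1 j).add (ih2 j)
  | @mul k g c _ ih =>
    conv => enter [3]; rw [← sum_homogeneousComponent c, Finset.sum_mul, map_sum]
    refine InDn.sum _ fun i _ => ?_
    have hc := homogeneousComponent_isHomogeneous i c
    rcases lt_or_ge j i with h1 | h1
    · rw [homogeneousComponent_mul_left_lt hc h1]
      exact InDn.exists_zero f k
    · obtain ⟨l, rfl⟩ := Nat.exists_eq_add_of_le h1
      rw [homogeneousComponent_mul_left hc]
      exact (ih l).mul _
  | @deriv k g i _ ih =>
    have hL := liftS_isHomogeneous hf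
    have hL' : (liftS (pderiv i f)).IsHomogeneous (d - 1) := liftS_isHomogeneous hf.pderiv
    have hC : (MvPolynomial.C (Polynomial.X + 1 - (k : Polynomial ℂ)) *
        liftS (pderiv i f)).IsHomogeneous (d - 1) := by
      have := (isHomogeneous_C (Fin n) (Polynomial.X + 1 - (k : Polynomial ℂ))).mul hL'
      rwa [zero_add] at this
    rw [map_add]
    rcases Nat.eq_zero_or_pos d with hd | hd
    · subst hd
      have h1 : pderiv i f = 0 := by
        rw [← totalDegree_zero_iff_isHomogeneous, totalDegree_eq_zero_iff_eq_C] at hf
        rw [hf, pderiv_C]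
      have h2 := (ih (j + 1)).deriv i
      rw [h1] at h2 ⊢
      have h3 : liftS (0 : MvPolynomial (Fin n) ℂ) = 0 := map_zero _
      rw [h3, mul_zero, zero_mul, add_zero] at h2
      rw [h3, mul_zero, zero_mul, map_zero, add_zero, ← Nat.zero_add j,
        homogeneousComponent_mul_left hL, homogeneousComponent_pderiv]
      exact h2
    · rcases lt_or_ge j (d - 1) with h1 | h1
      · rw [homogeneousComponent_mul_left_lt hL (by omega),
          homogeneousComponent_mul_left_lt hC h1, add_zero]
        exact InDn.exists_zero f _
      · obtain ⟨l, rfl⟩ := Nat.exists_eq_add_of_le h1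
        rw [homogeneousComponent_mul_left hC]
        have h2 := (ih l).deriv i
        have h3 : MvPolynomial.homogeneousComponent (d - 1 + l) (liftS f * pderiv i g) =
            liftS f * pderiv i (MvPolynomial.homogeneousComponent l g) := by
          rcases Nat.eq_zero_or_pos l with h4 | h4
          · subst h4
            rw [homogeneousComponent_mul_left_lt hL (by omega)]
            have h5 := homogeneousComponent_isHomogeneous 0 g
            rw [← totalDegree_zero_iff_isHomogeneous, totalDegree_eq_zero_iff_eq_C] at h5
            rw [h5, pderiv_C, mul_zero]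
          · obtain ⟨l', rfl⟩ := Nat.exists_eq_add_of_lt h4
            have h5 : d - 1 + (0 + l' + 1) = d + l' := by omega
            rw [h5, homogeneousComponent_mul_left hL, homogeneousComponent_pderiv, Nat.zero_add]
        rw [h3]
        exact h2
  | @raise k g _ ih =>
    have hL := liftS_isHomogeneous hf
    rcases lt_or_ge j d with h1 | h1
    · rw [homogeneousComponent_mul_left_lt hL h1]
      exact InDn.exists_zero f _
    · obtain ⟨l, rfl⟩ := Nat.exists_eq_add_of_le h1
      rw [homogeneousComponent_mul_left hL]
      exact (ih l).raise
  | @lower k g _ ih =>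
    apply InDn.lower
    rw [← homogeneousComponent_mul_left (liftS_isHomogeneous hf)]
    exact ih _

/-- For homogeneous `f` formal Bernstein–Sato polynomials are global Bernstein–Sato polynomials. -/
theorem isBernsteinSato_of_form_homogeneous {f : MvPolynomial (Fin n) ℂ} {d : ℕ}
    (hh : f.IsHomogeneous d) {b : Polynomial ℂ}
    (hb : InDnForm f 1 (b.map (MvPowerSeries.C (σ := Fin n) (R := ℂ)))) :
    IsBernsteinSato f b := by
  obtain ⟨h, h0, h1⟩ := hb.exists_poly
  have h2 := h1.homogeneousComponent hh 0
  have h3 : MvPolynomial.homogeneousComponent 0 (MvPolynomial.C b * liftS h) =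
      MvPolynomial.C b := by
    rw [homogeneousComponent_zero, coeff_C_mul]
    have h4 : coeff 0 (liftS h) = 1 := by
      rw [liftS, coeff_map, ← constantCoeff_eq, h0, map_one]
    rw [h4, mul_one]
  rw [h3] at h2
  exact h2

end MPb07157
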