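import Pool.Agent.Lib.MP_b07157_agS.SMain

/-!
# Homogeneous polynomials: scaling of arcs

`f` homogeneous of degree `d ≥ 1` in `n` variables: `Z_{f,0} = L^{-n} T^d Z_f`.
-/

noncomputable section

namespace MPb07157

open MvPolynomial

variable {n : ℕ}

theorem aeval_mul_of_isHomogeneous {f : MvPolynomial (Fin n) ℂ} {d : ℕ} (hf : f.IsHomogeneous d)
    (t : PowerSeries ℂ) (g : Fin n → PowerSeries ℂ) :
    (aeval (fun i => t * g i) f : PowerSeries ℂ) = t ^ d * aeval g f := by
  rw [aeval_def, aeval_def, eval₂_eq', eval₂_eq', Finset.mul_sum]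
  refine Finset.sum_congr rfl fun v hv => ?_
  have h1 : ∑ i, v i = d := by
    have h2 := hf (mem_support_iff.1 hv)
    rw [Finsupp.weight_apply, Finsupp.sum_fintype _ _ (fun i => by simp)] at h2
    simpa using h2
  simp only [mul_pow]
  rw [Finset.prod_mul_distrib, Finset.prod_pow_eq_pow_sum, h1]
  ring

/-- The jet `t γ(t)`. -/
def shiftJ (n N : ℕ) (p : Fin n × Fin (N + 1)) : MvPolynomial (Fin n × Fin N) ℂ :=
  Fin.cases 0 (fun j => X (p.1, j)) p.2

theorem polyMap_shiftJ_zero {N : ℕ} (γ : Fin n × Fin N → ℂ) (i : Fin n) :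
    polyMap (shiftJ n N) γ (i, 0) = 0 := by
  simp [polyMap, shiftJ]

theorem polyMap_shiftJ_succ {N : ℕ} (γ : Fin n × Fin N → ℂ) (i : Fin n) (j : Fin N) :
    polyMap (shiftJ n N) γ (i, j.succ) = γ (i, j) := by
  simp [polyMap, shiftJ]

theorem arc_shiftJ {N : ℕ} (γ : Fin n × Fin N → ℂ) (i : Fin n) :
    arc (polyMap (shiftJ n N) γ) i = PowerSeries.X * arc γ i := by
  ext k
  rw [coeff_arc]
  cases k with
  | zero =>
    rw [dif_pos (Nat.succ_pos N), PowerSeries.coeff_zero_X_mul]
    exact polyMap_shiftJ_zero γ i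
  | succ k =>
    rw [PowerSeries.coeff_succ_X_mul, coeff_arc]
    by_cases hk : k < N
    · rw [dif_pos (by omega : k + 1 < N + 1), dif_pos hk]
      exact polyMap_shiftJ_succ γ i ⟨k, hk⟩
    · rw [dif_neg (by omega), dif_neg hk]

theorem cls_arcs_shift {f : MvPolynomial (Fin n) ℂ} {d : ℕ} (hf : f.IsHomogeneous d) (N m : ℕ) :
    cls (arcs f (N + 1) (m + d) ∩ Start n 1 (N + 1)) = cls (arcs f N m) := by
  have hord : ∀ γ : Fin n × Fin N → ℂ,
      polyMap (shiftJ n N) γ ∈ arcs f (N + 1) (m + d) ↔ γ ∈ arcs f N m := by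
    intro γ
    simp only [arcs, Set.mem_ofPred_eq]
    have h1 : arc (polyMap (shiftJ n N) γ) = fun i => PowerSeries.X * arc γ i :=
      funext fun i => arc_shiftJ γ i
    rw [h1, aeval_mul_of_isHomogeneous hf, PowerSeries.order_mul, PowerSeries.order_pow,
      PowerSeries.order_X]
    generalize (aeval (arc γ) f : PowerSeries ℂ).order = x
    induction x using ENat.recTopCoe with
    | top =>
      constructor
      · intro h
        rw [add_top] at h
        exact absurd h.symm (ENat.natCast_ne_top _)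
      · intro h
        exact absurd h.symm (ENat.natCast_ne_top _)
    | coe x =>
      rw [nsmul_eq_mul, mul_one]
      constructor
      · intro h
        have h2 : d + x = m + d := by exact_mod_cast h
        have h3 : x = m := by omega
        rw [h3]
      · intro h
        have h2 : x = m := by exact_mod_cast h
        rw [h2, Nat.cast_add, add_comm]
  symm
  refine cls_bijOn (isConstr_arcs f N m)
    ((isConstr_arcs f (N + 1) (m + d)).inter (isConstr_Start n 1 (N + 1))) (shiftJ n N)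
    ⟨?_, ?_, ?_⟩
  · intro γ hγ
    exact ⟨(hord γ).2 hγ, mem_Start_one.2 fun i => polyMap_shiftJ_zero γ i⟩
  · intro γ _ γ' _ h
    funext p
    rw [← polyMap_shiftJ_succ γ p.1 p.2, h, polyMap_shiftJ_succ]
  · rintro γ ⟨h1, h2⟩
    rw [mem_Start_one] at h2
    have h3 : polyMap (shiftJ n N) (fun p => γ (p.1, p.2.succ)) = γ := by
      funext p
      obtain ⟨i, j⟩ := p
      refine Fin.cases ?_ (fun j => ?_) j
      · rw [polyMap_shiftJ_zero, h2 i]
      · rw [polyMap_shiftJ_succ]
    refine ⟨_, ?_, h3⟩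
    rw [← hord, h3]
    exact h1

/-- `Z_{f,0} = L^{-n} T^d Z_f` for a homogeneous polynomial of degree `d ≥ 1`. -/
theorem Zmot0_of_isHomogeneous {f : MvPolynomial (Fin n) ℂ} {d : ℕ} (hd : 0 < d)
    (hf : f.IsHomogeneous d) :
    Zmot0 f = PowerSeries.C (↑(LU ^ (-(n : ℤ))) : Mot) * PowerSeries.X ^ d * Zmot f := by
  rw [Zmot0_eq, Zmot_eq]
  ext k
  rw [mul_assoc, PowerSeries.coeff_C_mul, PowerSeries.coeff_X_pow_mul']
  unfold ZE
  rw [PowerSeries.coeff_mk]
  split_ifs with hk
  · obtain ⟨m, rfl⟩ := Nat.exists_eq_add_of_le' hk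
    rw [Nat.add_sub_cancel, PowerSeries.coeff_mk, ← muE_eq f (ε := 0) (N := m + d) (by omega)
      (by norm_num)]
    unfold muE clsM
    rw [cls_arcs_shift hf (m + d) m]
    have h1 : Start n 0 (m + d) = Set.univ := by
      ext γ
      simp [Start]
    rw [h1, Set.inter_univ, ← mul_assoc]
    congr 1
    rw [← Units.val_mul]
    congr 1
    rw [mul_add, pow_add, mul_inv, mul_one, mul_comm, zpow_neg, zpow_natCast]
  · rw [mul_zero]
    unfold muE clsM
    have h1 : arcs f (k + 1) k ∩ Start n 1 (k + 1) = ∅ := by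
      rw [Set.eq_empty_iff_forall_notMem]
      rintro γ ⟨h1, h2⟩
      rw [mem_Start_one] at h2
      apply hk
      have h3 : ∀ i, ∃ g : PowerSeries ℂ, arc γ i = PowerSeries.X * g := fun i =>
        PowerSeries.X_dvd_iff.2 (constantCoeff_arc h2 i)
      choose g hg using h3
      have h4 : arc γ = fun i => PowerSeries.X * g i := funext hg
      simp only [arcs, Set.mem_ofPred_eq] at h1
      rw [h4, aeval_mul_of_isHomogeneous hf, PowerSeries.order_mul, PowerSeries.order_pow,
        PowerSeries.order_X] at h1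
      generalize (aeval g f : PowerSeries ℂ).order = x at h1
      induction x using ENat.recTopCoe with
      | top =>
        rw [add_top] at h1
        exact absurd h1.symm (ENat.natCast_ne_top _)
      | coe x =>
        rw [nsmul_eq_mul, mul_one] at h1
        have h2 : d + x = k := by exact_mod_cast h1
        omega
    rw [h1, cls_empty, map_zero, mul_zero]

/-- If the contribution `Z_f - Z_{f,0}` of the arcs not starting at the origin is regular at
`s₀ ≠ -n/d`, then so are `Z_f` and `Z_{f,0}`. -/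
theorem mem_regularAt_of_isHomogeneous {f : MvPolynomial (Fin n) ℂ} {d : ℕ} (hd : 0 < d)
    (hf : f.IsHomogeneous d) {s₀ : ℚ} (hs : s₀ ≠ -(n / d : ℚ))
    (h : Zmot f - Zmot0 f ∈ regularAt s₀) : Zmot f ∈ regularAt s₀ ∧ Zmot0 f ∈ regularAt s₀ := by
  have h1 := Zmot0_of_isHomogeneous hd hf
  set q : PowerSeries Mot := PowerSeries.C (↑(LU ^ (-(n : ℤ))) : Mot) * PowerSeries.X ^ d with hq
  have hu : IsUnit (1 - q) := by
    rw [PowerSeries.isUnit_iff_constantCoeff, hq, map_sub, map_mul, map_pow, map_one,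
      PowerSeries.constantCoeff_X, zero_pow hd.ne', mul_zero, sub_zero]
    exact isUnit_one
  obtain ⟨g, hg⟩ := hu.exists_left_inv
  have hgm : g ∈ regularAt s₀ := by
    refine Algebra.subset_adjoin (Or.inr ⟨n, d, hd, ?_, hg⟩)
    intro h2
    apply hs
    have h3 : ((n : ℤ) : ℚ) / (d : ℚ) = (n / d : ℚ) := by push_cast; rfl
    rw [h3] at h2
    linarith
  have h2 : Zmot f = g * (Zmot f - Zmot0 f) := by
    rw [h1, ← one_sub_mul, ← mul_assoc, hg, one_mul]
  have h3 : Zmot f ∈ regularAt s₀ := by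
    rw [h2]
    exact mul_mem hgm h
  refine ⟨h3, ?_⟩
  rw [h1, hq]
  exact mul_mem (mul_mem (C_mem_regularAt s₀ _) (pow_mem (X_mem_regularAt s₀) d)) h3

end MPb07157
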