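import Pool.Agent.Lib.MP_b07157_agQ.QDefs
import Pool.Agent.Lib.MP_b07157_agQ.HArc
import Pool.Agent.Lib.MP_b07157_agH.HZ
import Pool.Agent.Lib.MP_b07157_agK.K1

/-!
# The poles of the zeta functions of homogeneous polynomials
-/

noncomputable section

namespace MPb07157

open MvPolynomial

variable {n : ℕ}

/-- The hypersurfaces `g_i = 0` are smooth and cross normally at `p`. -/
def SncAt {ι : Type} (g : ι → MvPolynomial (Fin n) ℂ) (p : Fin n → ℂ) : Prop :=
  LinearIndependent ℂ fun (i : {i : ι // eval p (g i) = 0}) (j : Fin n) =>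
    eval p (pderiv j (g i))

theorem seriesAt_eq_mk (f : MvPolynomial (Fin n) ℂ) (W : Set (Fin n → ℂ)) :
    seriesAt f W = PowerSeries.mk (muW f W) := rfl

theorem seriesAt_zero (f : MvPolynomial (Fin n) ℂ) : seriesAt f {0} = Zmot0 f := by
  ext m
  rw [seriesAt_eq_mk, PowerSeries.coeff_mk, muW_point, translate_zero]
  simp only [Zmot0, PowerSeries.coeff_mk]

/-- The local zeta function at a point at which `f` does not vanish is a constant. -/
theorem Zmot0_mem_of_coeff_ne {f : MvPolynomial (Fin n) ℂ} (h : coeff 0 f ≠ 0) (s₀ : ℚ) :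
    Zmot0 f ∈ regularAt s₀ := by
  have hf : f ≠ 0 := by
    rintro rfl
    exact h (coeff_zero 0)
  have h1 : Zmot0 f = PowerSeries.C (Zcoeff0 f 0) := by
    ext k
    rw [PowerSeries.coeff_C]
    simp only [Zmot0, PowerSeries.coeff_mk]
    split_ifs with hk
    · rw [hk]
    · unfold Zcoeff0
      have h2 : {γ : Fin n × Fin (k + 1) → ℂ | γ ∈ arcs f (k + 1) k ∧ ∀ i, γ (i, 0) = 0} = ∅ := by
        rw [Set.eq_empty_iff_forall_notMem]
        rintro γ ⟨h3, h4⟩
        have h5 := ((mem_arcs_iff f _ _ γ).1 h3).2 0 (Nat.pos_of_ne_zero hk)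
        rw [coeff_zero_Fv hf γ] at h5
        apply h
        have h6 : (fun i => γ (i, 0)) = (0 : Fin n → ℂ) := funext h4
        rw [h6] at h5
        rw [← constantCoeff_eq, ← h5]
        simp
      rw [h2]
      unfold clsM
      rw [cls_empty, map_zero, mul_zero]
  rw [h1]
  exact C_mem_regularAt s₀ _

theorem pole_of_homogeneous {ι : Type} [Fintype ι] {g : ι → MvPolynomial (Fin n) ℂ} {m : ι → ℕ}
    (hg : ∀ i, g i ≠ 0) (hm : ∀ i, 0 < m i) {d : ℕ} (hd : 0 < d)
    (hh : (prodPow g m).IsHomogeneous d) (B : Finset (Fin n → ℂ)) (hB : ∀ b ∈ B, b ≠ 0)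
    (hsnc : ∀ p ≠ 0, (∀ b ∈ B, ∀ l : ℂ, p ≠ l • b) → SncAt g p) {s₀ : ℚ}
    (hp : IsPole (Zmot (prodPow g m)) s₀ ∨ IsPole (Zmot0 (prodPow g m)) s₀) :
    s₀ = -(n / d) ∨ (∃ b ∈ B, eval b (prodPow g m) = 0 ∧
      IsPole (Zmot0 (translate b (prodPow g m))) s₀) ∨ ∃ i, s₀ = -(1 / (m i : ℚ)) := by
  by_contra hcon
  push Not at hcon
  obtain ⟨h1, h2, h3⟩ := hcon
  have hreg : ∀ b ∈ B, b ≠ 0 ∧ Zmot0 (translate b (prodPow g m)) ∈ regularAt s₀ := by
    intro b hb
    refine ⟨hB b hb, ?_⟩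
    by_cases h0 : eval b (prodPow g m) = 0
    · have h4 := h2 b hb h0
      unfold IsPole at h4
      exact not_not.1 h4
    · refine Zmot0_mem_of_coeff_ne ?_ s₀
      intro h4
      apply h0
      have h5 : eval (0 : Fin n → ℂ) (translate b (prodPow g m)) = eval b (prodPow g m) := by
        unfold translate
        rw [← coe_aeval_eq_eval, ← coe_aeval_eq_eval]
        show (aeval (0 : Fin n → ℂ)) (aeval _ (prodPow g m)) = aeval b (prodPow g m)
        rw [← AlgHom.comp_apply, comp_aeval]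
        congr 2
        funext i
        simp
      rw [← h5]
      have h6 : eval (0 : Fin n → ℂ) (translate b (prodPow g m)) =
          constantCoeff (translate b (prodPow g m)) := by
        rw [MvPolynomial.eval_zero]
      rw [h6, constantCoeff_eq, h4]
  obtain ⟨W, hW1, hW2, hW3⟩ := exists_lineSet hh (s₀ := s₀) B hreg
  have hc0 : IsConstr ({0} : Set (Fin n → ℂ)) := isConstr_point 0
  set V : Set (Fin n → ℂ) := ({0} ∪ W)ᶜ with hV
  have hVc : IsConstr V := (hc0.union hW1).compl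
  have hV1 : ∀ p ∈ V, SncAt g p := by
    intro p hp
    rw [hV, Set.mem_compl_iff, Set.mem_union, not_or] at hp
    have hp0 : p ≠ 0 := hp.1
    refine hsnc p hp0 fun b hb l hl => hp.2 ((hW2 p).2 ⟨b, hb, l, ?_, hl⟩)
    rintro rfl
    exact hp0 (hl.trans (zero_smul _ _))
  have hV2 : seriesAt (prodPow g m) V ∈ regularAt s₀ :=
    seriesAt_mem_of_snc hg hm hVc hV1 fun i _ => h3 i
  have hdisj : Disjoint ({0} : Set (Fin n → ℂ)) W := by
    rw [Set.disjoint_left]
    intro x hx hxW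
    obtain ⟨p, hp, c, hc, hxc⟩ := (hW2 x).1 hxW
    rw [Set.mem_singleton_iff] at hx
    rw [hx] at hxc
    rcases smul_eq_zero.1 hxc.symm with h4 | h4
    · exact hc h4
    · exact hB p hp h4
  have hun : (({0} : Set (Fin n → ℂ)) ∪ W) ∪ V = Set.univ := Set.union_compl_self _
  have key : Zmot (prodPow g m) - Zmot0 (prodPow g m) =
      seriesAt (prodPow g m) W + seriesAt (prodPow g m) V := by
    rw [← seriesAt_univ, ← hun, seriesAt_union _ (hc0.union hW1) hVc
      (Set.disjoint_compl_right_iff_subset.2 subset_rfl), seriesAt_union _ hc0 hW1 hdisj, seriesAt_zero]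
    ring
  have h4 : Zmot (prodPow g m) - Zmot0 (prodPow g m) ∈ regularAt s₀ := by
    rw [key]
    exact add_mem hW3 hV2
  have h5 := mem_regularAt_of_isHomogeneous hd hh h1 h4
  rcases hp with hp | hp
  · exact hp h5.1
  · exact hp h5.2

end MPb07157
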