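import Pool.Agent.Lib.MP_b07157_agK.K2
import Pool.Agent.Lib.MP_b07157_agQ.RootQ
import Pool.Agent.Lib.MP_b07157_agQ.PoleQ
import Pool.Agent.Lib.MP_b07157_agQ.FinQ
import Pool.Agent.Lib.MP_b07157_agQ.NSQ
import Pool.Agent.Lib.MP_b07157_agQ.WH
import Pool.Agent.Lib.MP_b07157_agQ.QHom

/-!
# The strong monodromy conjecture for homogeneous polynomials in three variables whose reduced curve
has only quasi-homogeneous points
-/

noncomputable section

namespace MPb07157

open MvPolynomial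

theorem IsFact.not_pow_dvd {r : ℕ} {n : ℕ} {f : MvPolynomial (Fin n) ℂ}
    {g : Fin r → MvPolynomial (Fin n) ℂ} {m : Fin r → ℕ} (hf : IsFact f g m) (i : Fin r) :
    ¬ g i ^ (m i + 1) ∣ f := by
  classical
  intro h
  rw [hf.eq] at h
  unfold prodPow at h
  rw [← Finset.mul_prod_erase Finset.univ _ (Finset.mem_univ i), pow_succ] at h
  have h1 : g i ∣ ∏ j ∈ Finset.univ.erase i, g j ^ m j :=
    (mul_dvd_mul_iff_left (pow_ne_zero _ (hf.irr i).ne_zero)).1 h
  have h2 : Prime (g i) := (hf.irr i).prime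
  obtain ⟨j, hj, hj2⟩ := (Prime.dvd_finset_prod_iff h2 _).1 h1
  have h3 : g i ∣ g j := h2.dvd_of_dvd_pow hj2
  exact hf.ne i j (Finset.ne_of_mem_erase hj).symm
    ((hf.irr i).associated_of_dvd (hf.irr j) h3)

theorem smc_homogeneous_aux {f : MvPolynomial (Fin 3) ℂ} (hf : f ≠ 0) {d : ℕ} (hd : 0 < d)
    (hh : f.IsHomogeneous d) (hw : ∀ p ≠ 0, eval p f = 0 → IsWHAt f p) {s₀ : ℚ} (hs : s₀ < 0)
    (hp : IsPole (Zmot f) s₀ ∨ IsPole (Zmot0 f) s₀) (b : Polynomial ℂ)
    (hb : InDnForm f 1 (b.map (MvPowerSeries.C (σ := Fin 3) (R := ℂ)))) :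
    b.eval (s₀ : ℂ) = 0 := by
  have hbg : IsBernsteinSato f b := isBernsteinSato_of_form_homogeneous hh hb
  have h0 : coeff 0 f = 0 := by
    rw [← MvPolynomial.notMem_support_iff]
    intro h
    have := hh (mem_support_iff.1 h)
    simp at this
    omega
  by_cases hNS : NS f
  · obtain ⟨r, g, m, hfact⟩ := exists_isFact hf hd hh
    obtain ⟨B, hB0, hB⟩ := exists_lines hfact hd hh
    have hp' : IsPole (Zmot (prodPow g m)) s₀ ∨ IsPole (Zmot0 (prodPow g m)) s₀ := by
      rw [← hfact.eq]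
      exact hp
    have hsnc : ∀ p ≠ 0, (∀ b ∈ B, ∀ l : ℂ, p ≠ l • b) → SncAt g p := by
      intro p hp0 hpB
      apply sncAt_of_vv_ne g m
      by_contra hcon
      push Not at hcon
      obtain ⟨b, hb, l, hl⟩ := hB p hp0 hcon
      exact hpB b hb l hl
    rcases pole_of_homogeneous (fun i => (hfact.irr i).ne_zero) hfact.pos hd
      (hfact.eq ▸ hh) B hB0 hsnc hp' with h1 | ⟨p, hpB, hp0, hpp⟩ | ⟨i, h1⟩
    · subst h1
      exact root_of_qh hfact hd hh (fun p hp hp0 => qhat_of_isWHAt hd hh hp (hw p hp hp0)) hNS b hb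
    · rw [← hfact.eq] at hp0 hpp
      exact SmcLoc.of_stableLoc (stableLoc_of_isWHAt hf (hw p (hB0 p hpB) hp0))
        (translate_ne_zero hf p) (coeff_zero_translate hp0) s₀ hs hpp b (form_translate p hbg)
    · subst h1
      refine root_of_mult (hfact.irr i) (hfact.pos i) ?_ ?_ b hbg
      · rw [hfact.eq]
        exact Finset.dvd_prod_of_mem _ (Finset.mem_univ i)
      · exact hfact.not_pow_dvd i
  · obtain ⟨h1, h2⟩ := stable_of_not_NS hf hd hh hNS
    rcases hp with hp | hp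
    · exact SmcGlob.of_stableGlob h2 hf s₀ hs hp b hbg
    · exact SmcLoc.of_stableLoc h1 hf h0 s₀ hs hp b hb

/-- **The strong monodromy conjecture** (global and local version) for homogeneous polynomials in
three variables which define a curve, with arbitrary multiplicities, all of whose points are
quasi-homogeneous. -/
theorem smc_homogeneous {f : MvPolynomial (Fin 3) ℂ} (hf : f ≠ 0) {d : ℕ} (hd : 0 < d)
    (hh : f.IsHomogeneous d) (hw : ∀ p ≠ 0, eval p f = 0 → IsWHAt f p) {s₀ : ℚ} (hs : s₀ < 0) :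
    (IsPole (Zmot f) s₀ → IsBernsteinSatoRoot f s₀) ∧
      (IsPole (Zmot0 f) s₀ → IsLocalBernsteinSatoRoot f s₀) :=
  ⟨fun hp => (roots_of_form fun b hb => smc_homogeneous_aux hf hd hh hw hs (Or.inl hp) b hb).1,
    fun hp => (roots_of_form fun b hb => smc_homogeneous_aux hf hd hh hw hs (Or.inr hp) b hb).2⟩

end MPb07157
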