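import Pool.Agent.Lib.MP_b07157_agQ.Psi

/-!
# Integration by parts on `ℂ^n` against test functions

If `∑_β ∂^β (G_β f^q) = 0` for all `q`, then `∫ |f|^{2q} Q = 0` for all `q`, where
`Q = ∑_β G_β (-D)^β w` does not depend on `q` (`w` a test function, `D_i = ∂ / ∂ x_i` the holomorphic
derivatives).
-/

noncomputable section

namespace MPb07157Q

open MvPolynomial MPb07157 MeasureTheory
open scoped ContDiff

variable {n : ℕ}

/-- The derivative `∂ / ∂ x_i` in the direction of a complex coordinate. -/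
def wirt (i : Fin n) (w : (Fin n → ℂ) → ℂ) (x : Fin n → ℂ) : ℂ :=
  (1 / 2) * (fderiv ℝ w x (Pi.single i 1) - Complex.I * fderiv ℝ w x (Pi.single i Complex.I))

theorem hasFDerivAt_evalC (P : MvPolynomial (Fin n) ℂ) (x : Fin n → ℂ) :
    ∃ A : (Fin n → ℂ) →L[ℂ] ℂ, HasFDerivAt (fun x : Fin n → ℂ => eval x P) A x ∧
      ∀ v, A v = ∑ i, eval x (pderiv i P) * v i := by
  induction P using MvPolynomial.induction_on with
  | C a =>
    refine ⟨0, ?_, fun v => ?_⟩
    · simp only [eval_C]
      exact hasFDerivAt_const _ _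
    · simp
  | add p q hp hq =>
    obtain ⟨A, h1, h2⟩ := hp
    obtain ⟨B, h3, h4⟩ := hq
    refine ⟨A + B, ?_, fun v => ?_⟩
    · simp only [map_add]
      exact h1.fun_add h3
    · rw [add_apply, h2, h4, ← Finset.sum_add_distrib]
      refine Finset.sum_congr rfl fun i _ => ?_
      rw [map_add, map_add, add_mul]
  | mul_X p j hp =>
    obtain ⟨A, h1, h2⟩ := hp
    have h3 : HasFDerivAt (fun x : Fin n → ℂ => x j)
        (ContinuousLinearMap.proj j : (Fin n → ℂ) →L[ℂ] ℂ) x := hasFDerivAt_apply j x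
    have h4 := h1.fun_mul h3
    refine ⟨eval x p • (ContinuousLinearMap.proj j : (Fin n → ℂ) →L[ℂ] ℂ) + x j • A, ?_,
      fun v => ?_⟩
    · simp only [map_mul, eval_X]
      exact h4
    · have h5 : ∀ i, eval x (pderiv i (p * X j)) * v i =
          (if i = j then eval x p * v i else 0) + x j * (eval x (pderiv i p) * v i) := by
        intro i
        rw [Derivation.leibniz, pderiv_X, smul_eq_mul, smul_eq_mul, map_add, map_mul, map_mul,
          eval_X]
        by_cases h : i = j
        · subst h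
          rw [if_pos rfl, Pi.single_eq_same, map_one]
          ring
        · rw [if_neg h, Pi.single_eq_of_ne (fun h' => h h'.symm), map_zero]
          ring
      rw [Finset.sum_congr rfl fun i _ => h5 i, Finset.sum_add_distrib, Finset.sum_ite_eq',
        if_pos (Finset.mem_univ j), ← Finset.mul_sum, ← h2]
      simp

/-- The real derivative of `P(x) conj(Q(x))`. -/
theorem hasFDerivAt_mul_conj (P Q : MvPolynomial (Fin n) ℂ) (x : Fin n → ℂ) :
    ∃ A : (Fin n → ℂ) →L[ℝ] ℂ,
      HasFDerivAt (fun x : Fin n → ℂ => eval x P * starRingEnd ℂ (eval x Q)) A x ∧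
      ∀ v, A v = (∑ i, eval x (pderiv i P) * v i) * starRingEnd ℂ (eval x Q) +
        eval x P * starRingEnd ℂ (∑ i, eval x (pderiv i Q) * v i) := by
  obtain ⟨A, hA, hA'⟩ := hasFDerivAt_evalC P x
  obtain ⟨B, hB, hB'⟩ := hasFDerivAt_evalC Q x
  have h1 := hA.restrictScalars ℝ
  have h2 := hB.restrictScalars ℝ
  have h3 : HasFDerivAt (fun x : Fin n → ℂ => starRingEnd ℂ (eval x Q))
      ((Complex.conjCLE : ℂ →L[ℝ] ℂ).comp (B.restrictScalars ℝ)) x :=
    (Complex.conjCLE : ℂ →L[ℝ] ℂ).hasFDerivAt.comp x h2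
  refine ⟨_, h1.fun_mul h3, fun v => ?_⟩
  rw [← hA', ← hB']
  simp
  ring

theorem wirt_mul_conj (P Q : MvPolynomial (Fin n) ℂ) (i : Fin n) (x : Fin n → ℂ) :
    wirt i (fun x : Fin n → ℂ => eval x P * starRingEnd ℂ (eval x Q)) x =
      eval x (pderiv i P) * starRingEnd ℂ (eval x Q) := by
  obtain ⟨A, h1, h2⟩ := hasFDerivAt_mul_conj P Q x
  unfold wirt
  rw [h1.fderiv, h2, h2]
  have h3 : ∀ (R : MvPolynomial (Fin n) ℂ) (c : ℂ),
      ∑ j, eval x (pderiv j R) * (Pi.single i c : Fin n → ℂ) j = eval x (pderiv i R) * c := by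
    intro R c
    rw [Finset.sum_eq_single i]
    · rw [Pi.single_eq_same]
    · intro j _ hj
      rw [Pi.single_eq_of_ne hj, mul_zero]
    · intro h
      exact absurd (Finset.mem_univ i) h
  rw [h3, h3, h3, h3, mul_one, mul_one, map_mul, Complex.conj_I]
  linear_combination (-(1 / 2) * eval x (pderiv i P) * starRingEnd ℂ (eval x Q) +
    (1 / 2) * eval x P * starRingEnd ℂ (eval x (pderiv i Q))) * Complex.I_mul_I

/-- Test functions. -/
structure IsTest (w : (Fin n → ℂ) → ℂ) : Prop where
  smooth : ContDiff ℝ ∞ w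
  supp : ∀ x, 2 < ‖x‖ → w x = 0

theorem IsTest.hasCompactSupport {w : (Fin n → ℂ) → ℂ} (hw : IsTest w) : HasCompactSupport w := by
  apply HasCompactSupport.intro (isCompact_closedBall (0 : Fin n → ℂ) 2)
  intro x hx
  apply hw.supp
  rwa [Metric.mem_closedBall, dist_zero_right, not_le] at hx

theorem IsTest.integrable_mul {w : (Fin n → ℂ) → ℂ} (hw : IsTest w) {u : (Fin n → ℂ) → ℂ}
    (hu : Continuous u) : Integrable (fun x => u x * w x) :=
  (hu.mul hw.smooth.continuous).integrable_of_hasCompactSupport hw.hasCompactSupport.mul_left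

theorem IsTest.fder {w : (Fin n → ℂ) → ℂ} (hw : IsTest w) (v : Fin n → ℂ) :
    IsTest (fun x => fderiv ℝ w x v) where
  smooth := (hw.smooth.fderiv_right (m := ∞) (by simp)).clm_apply contDiff_const
  supp x hx := by
    have h1 : w =ᶠ[nhds x] fun _ => 0 := by
      filter_upwards [(isOpen_lt continuous_const continuous_norm).mem_nhds hx] with y hy
      exact hw.supp y hy
    rw [h1.fderiv_eq]
    simp

theorem IsTest.const_mul {w : (Fin n → ℂ) → ℂ} (hw : IsTest w) (c : ℂ) :
    IsTest (fun x => c * w x) where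
  smooth := contDiff_const.mul hw.smooth
  supp x hx := by rw [hw.supp x hx, mul_zero]

theorem IsTest.sub {w w' : (Fin n → ℂ) → ℂ} (hw : IsTest w) (hw' : IsTest w') :
    IsTest (fun x => w x - w' x) where
  smooth := hw.smooth.sub hw'.smooth
  supp x hx := by rw [hw.supp x hx, hw'.supp x hx, sub_zero]

theorem IsTest.neg_wirt {w : (Fin n → ℂ) → ℂ} (hw : IsTest w) (i : Fin n) :
    IsTest (fun x => -wirt i w x) := by
  have h1 : (fun x => -wirt i w x) = fun x => (-(1 / 2)) *
      ((fun x => fderiv ℝ w x (Pi.single i 1)) x -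
        Complex.I * fderiv ℝ w x (Pi.single i Complex.I)) := by
    funext x
    unfold wirt
    ring
  rw [h1]
  exact ((hw.fder _).sub ((hw.fder _).const_mul _)).const_mul _

theorem continuous_evalC (P : MvPolynomial (Fin n) ℂ) :
    Continuous (fun x : Fin n → ℂ => eval x P) := by
  rw [continuous_iff_continuousAt]
  intro x
  obtain ⟨A, h, -⟩ := hasFDerivAt_evalC P x
  exact h.continuousAt

theorem continuous_mul_conj (P Q : MvPolynomial (Fin n) ℂ) :
    Continuous (fun x : Fin n → ℂ => eval x P * starRingEnd ℂ (eval x Q)) :=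
  (continuous_evalC P).mul (Complex.continuous_conj.comp (continuous_evalC Q))

/-- Integration by parts in one direction. -/
theorem IsTest.integral_fderiv {w : (Fin n → ℂ) → ℂ} (hw : IsTest w)
    (P Q : MvPolynomial (Fin n) ℂ) (v : Fin n → ℂ) :
    ∫ x, (eval x P * starRingEnd ℂ (eval x Q)) * fderiv ℝ w x v =
      -∫ x, fderiv ℝ (fun x : Fin n → ℂ => eval x P * starRingEnd ℂ (eval x Q)) x v * w x := by
  have hdiff : ∀ x, DifferentiableAt ℝ
      (fun x : Fin n → ℂ => eval x P * starRingEnd ℂ (eval x Q)) x := fun x =>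
    (hasFDerivAt_mul_conj P Q x).choose_spec.1.differentiableAt
  have hcont : Continuous (fun x => fderiv ℝ
      (fun x : Fin n → ℂ => eval x P * starRingEnd ℂ (eval x Q)) x v) := by
    have h1 : (fun x => fderiv ℝ
        (fun x : Fin n → ℂ => eval x P * starRingEnd ℂ (eval x Q)) x v) = fun x =>
        (∑ i, eval x (pderiv i P) * v i) * starRingEnd ℂ (eval x Q) +
          eval x P * starRingEnd ℂ (∑ i, eval x (pderiv i Q) * v i) := by
      funext x
      obtain ⟨A, h1, h2⟩ := hasFDerivAt_mul_conj P Q x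
      rw [h1.fderiv, h2]
    rw [h1]
    have h2 : ∀ R : MvPolynomial (Fin n) ℂ,
        Continuous (fun x : Fin n → ℂ => ∑ i, eval x (pderiv i R) * v i) := fun R =>
      continuous_finsetSum _ fun i _ => (continuous_evalC _).mul continuous_const
    exact ((h2 P).mul (Complex.continuous_conj.comp (continuous_evalC Q))).add
      ((continuous_evalC P).mul (Complex.continuous_conj.comp (h2 Q)))
  exact integral_mul_fderiv_eq_neg_fderiv_mul_of_integrable (hw.integrable_mul hcont)
    ((hw.fder v).integrable_mul (continuous_mul_conj P Q))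
    (hw.integrable_mul (continuous_mul_conj P Q)) (fun x _ => hdiff x)
    (fun x _ => (hw.smooth.differentiable (by simp)).differentiableAt)

/-- Integration by parts for a holomorphic derivative. -/
theorem IsTest.integral_pderiv {w : (Fin n → ℂ) → ℂ} (hw : IsTest w)
    (P Q : MvPolynomial (Fin n) ℂ) (i : Fin n) :
    ∫ x, (eval x (pderiv i P) * starRingEnd ℂ (eval x Q)) * w x =
      ∫ x, (eval x P * starRingEnd ℂ (eval x Q)) * (-wirt i w x) := by
  have h1 := hw.integral_fderiv P Q (Pi.single i 1)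
  have h2 := hw.integral_fderiv P Q (Pi.single i Complex.I)
  set u : (Fin n → ℂ) → ℂ := fun x => eval x P * starRingEnd ℂ (eval x Q) with hu
  have hcont : ∀ v, Continuous (fun x => fderiv ℝ u x v) := by
    intro v
    have h1 : (fun x => fderiv ℝ u x v) = fun x =>
        (∑ i, eval x (pderiv i P) * v i) * starRingEnd ℂ (eval x Q) +
          eval x P * starRingEnd ℂ (∑ i, eval x (pderiv i Q) * v i) := by
      funext x
      obtain ⟨A, h1, h2⟩ := hasFDerivAt_mul_conj P Q x
      rw [hu, h1.fderiv, h2]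
    rw [h1]
    have h2 : ∀ R : MvPolynomial (Fin n) ℂ,
        Continuous (fun x : Fin n → ℂ => ∑ i, eval x (pderiv i R) * v i) := fun R =>
      continuous_finsetSum _ fun i _ => (continuous_evalC _).mul continuous_const
    exact ((h2 P).mul (Complex.continuous_conj.comp (continuous_evalC Q))).add
      ((continuous_evalC P).mul (Complex.continuous_conj.comp (h2 Q)))
  have h3 : ∀ x, (eval x (pderiv i P) * starRingEnd ℂ (eval x Q)) * w x =
      (1 / 2) * (fderiv ℝ u x (Pi.single i 1) * w x) -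
        (Complex.I / 2) * (fderiv ℝ u x (Pi.single i Complex.I) * w x) := by
    intro x
    rw [← wirt_mul_conj P Q i x]
    unfold wirt
    ring
  have h4 : ∀ x, (eval x P * starRingEnd ℂ (eval x Q)) * (-wirt i w x) =
      -((1 / 2) * (u x * fderiv ℝ w x (Pi.single i 1)) -
        (Complex.I / 2) * (u x * fderiv ℝ w x (Pi.single i Complex.I))) := by
    intro x
    unfold wirt
    ring
  rw [integral_congr_ae (Filter.Eventually.of_forall h3),
    integral_congr_ae (Filter.Eventually.of_forall h4), integral_neg, integral_sub, integral_sub,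
    integral_const_mul, integral_const_mul, integral_const_mul, integral_const_mul, h1, h2]
  · ring
  · exact ((hw.fder _).integrable_mul (continuous_mul_conj P Q)).const_mul _
  · exact ((hw.fder _).integrable_mul (continuous_mul_conj P Q)).const_mul _
  · exact (hw.integrable_mul (hcont _)).const_mul _
  · exact (hw.integrable_mul (hcont _)).const_mul _

/-- If `w` is constant on the unit ball then its derivatives vanish there. -/
theorem wirt_eq_zero {w : (Fin n → ℂ) → ℂ} {c : ℂ} (hc : ∀ x, ‖x‖ < 1 → w x = c) (i : Fin n)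
    {x : Fin n → ℂ} (hx : ‖x‖ < 1) : wirt i w x = 0 := by
  have h1 : w =ᶠ[nhds x] fun _ => c := by
    filter_upwards [(isOpen_lt continuous_norm continuous_const).mem_nhds hx] with y hy
    exact hc y hy
  unfold wirt
  rw [h1.fderiv_eq]
  simp

/-- Integration by parts for all derivatives. -/
theorem exists_dual (k : ℕ) : ∀ (β : Fin n →₀ ℕ) (w : (Fin n → ℂ) → ℂ) (c : ℂ), β.degree = k →
    IsTest w → (∀ x, ‖x‖ < 1 → w x = c) →
    ∃ w' : (Fin n → ℂ) → ℂ, IsTest w' ∧ (β = 0 → w' = w) ∧
      (β ≠ 0 → ∀ x, ‖x‖ < 1 → w' x = 0) ∧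
      ∀ P Q : MvPolynomial (Fin n) ℂ, ∃ R : MvPolynomial (Fin n) ℂ,
        (R : MvPowerSeries (Fin n) ℂ) = dPow β (P : MvPowerSeries (Fin n) ℂ) ∧
        ∫ x, (eval x R * starRingEnd ℂ (eval x Q)) * w x =
          ∫ x, (eval x P * starRingEnd ℂ (eval x Q)) * w' x := by
  induction k with
  | zero =>
    intro β w c hβ hw hc
    have h0 : β = 0 := by rwa [Finsupp.degree_eq_zero_iff] at hβ
    subst h0
    refine ⟨w, hw, fun _ => rfl, fun h => absurd rfl h, fun P Q => ⟨P, ?_, rfl⟩⟩
    rw [dPow_zero]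
  | succ k ih =>
    intro β w c hβ hw hc
    obtain ⟨i, β', rfl, hβ'⟩ := exists_sub_single hβ
    have hβ0 : β' + Finsupp.single i 1 ≠ 0 := by
      intro h
      rw [h] at hβ
      simp at hβ
    obtain ⟨w', h1, h2, h3, h4⟩ := ih β' (fun x => -wirt i w x) 0 hβ' (hw.neg_wirt i)
      (fun x hx => by rw [wirt_eq_zero hc i hx, neg_zero])
    refine ⟨w', h1, fun h => absurd h hβ0, fun _ => ?_, fun P Q => ?_⟩
    · by_cases h0 : β' = 0
      · intro x hx
        rw [h2 h0]
        beta_reduce
        rw [wirt_eq_zero hc i hx, neg_zero]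
      · exact h3 h0
    · obtain ⟨R, hR, hR'⟩ := h4 P Q
      refine ⟨pderiv i R, ?_, ?_⟩
      · rw [← MvPowerSeries.pderiv_coe, hR, pderiv_dPow]
      · rw [hw.integral_pderiv, hR']

/-- There is a test function which is `1` on the unit ball. -/
theorem exists_test (n : ℕ) : ∃ w : (Fin n → ℂ) → ℂ, IsTest w ∧ ∀ x, ‖x‖ < 1 → w x = 1 := by
  let φ : ContDiffBump (0 : Fin n → ℂ) := ⟨1, 2, one_pos, one_lt_two⟩
  refine ⟨fun x => ((φ x : ℝ) : ℂ), ⟨?_, fun x hx => ?_⟩, fun x hx => ?_⟩
  · exact Complex.ofRealCLM.contDiff.comp φ.contDiff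
  · rw [φ.zero_of_le_dist (by rw [dist_zero_right]; exact hx.le), Complex.ofReal_zero]
  · beta_reduce
    rw [φ.one_of_mem_closedBall (by
      rw [Metric.mem_closedBall, dist_zero_right]
      exact hx.le), Complex.ofReal_one]

/-- **Part (a).** If `∑_β ∂^β (G_β f^q) = 0` for all `q`, then there is a continuous function `Q` with
support in the ball of radius `2`, equal to `G_0` on the unit ball, with `∫ |f|^{2q} Q = 0` for all
`q`. -/
theorem exists_orthogonal {f : MvPolynomial (Fin n) ℂ}
    {G : MvPolynomial (Fin n) (MvPolynomial (Fin n) ℂ)}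
    (hG : ∀ q : ℕ, Psi ((f : MvPowerSeries (Fin n) ℂ) ^ q) G = 0) :
    ∃ Q : (Fin n → ℂ) → ℂ, Continuous Q ∧ (∀ x, 2 < ‖x‖ → Q x = 0) ∧
      (∀ x, ‖x‖ < 1 → Q x = eval x (coeff 0 G)) ∧
      ∀ q : ℕ, ∫ x, ((‖eval x f‖ ^ (2 * q) : ℝ) : ℂ) * Q x = 0 := by
  classical
  obtain ⟨w, hw, hw1⟩ := exists_test n
  choose w' h1 h2 h3 h4 using fun β : Fin n →₀ ℕ => exists_dual β.degree β w 1 rfl hw hw1
  set s : Finset (Fin n →₀ ℕ) := insert 0 G.support with hs
  refine ⟨fun x => ∑ β ∈ s, eval x (coeff β G) * w' β x, ?_, ?_, ?_, ?_⟩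
  · exact continuous_finsetSum _ fun β _ => (continuous_evalC _).mul (h1 β).smooth.continuous
  · intro x hx
    exact Finset.sum_eq_zero fun β _ => by rw [(h1 β).supp x hx, mul_zero]
  · intro x hx
    beta_reduce
    rw [hs, Finset.sum_eq_single_of_mem 0 (Finset.mem_insert_self _ _)]
    · rw [h2 0 rfl, hw1 x hx, mul_one]
    · intro β _ hβ
      rw [h3 β hβ x hx, mul_zero]
  · intro q
    choose R hR hR' using fun β : Fin n →₀ ℕ => h4 β (coeff β G * f ^ q) (f ^ q)
    have e1 : ∀ x : Fin n → ℂ, ((‖eval x f‖ ^ (2 * q) : ℝ) : ℂ) *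
        ∑ β ∈ s, eval x (coeff β G) * w' β x =
        ∑ β ∈ s, (eval x (coeff β G * f ^ q) * starRingEnd ℂ (eval x (f ^ q))) * w' β x := by
      intro x
      rw [Finset.mul_sum]
      refine Finset.sum_congr rfl fun β _ => ?_
      have e2 : ((‖eval x f‖ ^ (2 * q) : ℝ) : ℂ) =
          eval x (f ^ q) * starRingEnd ℂ (eval x (f ^ q)) := by
        rw [Complex.mul_conj, map_pow, Complex.normSq_eq_norm_sq, norm_pow, ← pow_mul,
          mul_comm q 2]
      rw [e2, map_mul]
      ring
    rw [integral_congr_ae (Filter.Eventually.of_forall e1), integral_finsetSum]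
    · rw [Finset.sum_congr rfl fun β _ => (hR' β).symm, ← integral_finsetSum]
      · have e3 : ∀ x : Fin n → ℂ, ∑ β ∈ s, (eval x (R β) * starRingEnd ℂ (eval x (f ^ q))) * w x =
            (eval x (∑ β ∈ s, R β) * starRingEnd ℂ (eval x (f ^ q))) * w x := by
          intro x
          rw [map_sum, Finset.sum_mul, Finset.sum_mul]
        rw [integral_congr_ae (Filter.Eventually.of_forall e3)]
        have e4 : ∑ β ∈ s, R β = 0 := by
          apply MvPolynomial.coe_injective
          rw [coe_zero, ← coeToMvPowerSeries.ringHom_apply, map_sum]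
          simp only [coeToMvPowerSeries.ringHom_apply]
          rw [← hG q, Psi_eq_sum _ (Finset.subset_insert 0 G.support)]
          refine Finset.sum_congr rfl fun β _ => ?_
          rw [hR, coe_mul, coe_pow]
        simp [e4]
      · intro β _
        exact hw.integrable_mul (continuous_mul_conj _ _)
    · intro β _
      exact (h1 β).integrable_mul (continuous_mul_conj _ _)

end MPb07157Q
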