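import Pool.Agent.Lib.MP_b07157_agS.SMain

/-!
# From formal to polynomial relations between polynomials (Artin–Rees)
-/

noncomputable section

namespace MPb07157

open MvPolynomial

variable {n : ℕ}

theorem mem_vars_pow_iff {N : ℕ} {p : MvPolynomial (Fin n) ℂ} :
    p ∈ idealOfVars (Fin n) ℂ ^ N ↔ LowZ N (p : MvPowerSeries (Fin n) ℂ) := by
  rw [mem_pow_idealOfVars_iff']
  constructor
  · intro h v hv
    rw [MvPolynomial.coeff_coe]
    exact h v (by rw [Finsupp.degree_eq_sum]; exact hv)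
  · intro h v hv
    rw [← MvPolynomial.coeff_coe]
    exact h v (by rw [Finsupp.degree_eq_sum] at hv; exact hv)

theorem mem_vars_iff {p : MvPolynomial (Fin n) ℂ} :
    p ∈ idealOfVars (Fin n) ℂ ↔ constantCoeff p = 0 := by
  have h := mem_vars_pow_iff (N := 1) (p := p)
  rw [pow_one] at h
  rw [h]
  constructor
  · intro h1
    have h2 := h1 0 (by simp)
    rwa [MvPolynomial.coeff_coe] at h2
  · intro h1 v hv
    have hv0 : v = 0 := by
      ext j
      have h1 : v j ≤ ∑ i, v i :=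
        Finset.single_le_sum (f := fun i => v i) (fun _ _ => Nat.zero_le _) (Finset.mem_univ j)
      simp only [Finsupp.coe_zero, Pi.zero_apply]
      omega
    rw [hv0, MvPolynomial.coeff_coe]
    exact h1

/-- A formal relation `∑ a_i g_i = 0` with `a_j(0) ≠ 0` gives a polynomial one. -/
theorem exists_poly_relation {ι : Type} [Fintype ι] (g : ι → MvPolynomial (Fin n) ℂ)
    (a : ι → MvPowerSeries (Fin n) ℂ) (h : ∑ i, a i * (g i : MvPowerSeries (Fin n) ℂ) = 0) :
    ∃ b : ι → MvPolynomial (Fin n) ℂ, ∑ i, b i * g i = 0 ∧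
      ∀ i, constantCoeff (b i) = MvPowerSeries.constantCoeff (a i) := by
  obtain ⟨k, hk⟩ := Ideal.exists_pow_inf_eq_pow_smul (idealOfVars (Fin n) ℂ)
    (Ideal.span (Set.range g) : Submodule (MvPolynomial (Fin n) ℂ) (MvPolynomial (Fin n) ℂ))
  choose c hc using fun i => exists_poly_lowZ (k + 1) (a i)
  have h1 : ∑ i, c i * g i ∈ idealOfVars (Fin n) ℂ ^ (k + 1) := by
    rw [mem_vars_pow_iff]
    have h2 : ((∑ i, c i * g i : MvPolynomial (Fin n) ℂ) : MvPowerSeries (Fin n) ℂ) =
        ∑ i, (a i * (g i : MvPowerSeries (Fin n) ℂ) -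
          (a i - (c i : MvPowerSeries (Fin n) ℂ)) * (g i : MvPowerSeries (Fin n) ℂ)) := by
      rw [← MvPolynomial.coeToMvPowerSeries.ringHom_apply, map_sum]
      refine Finset.sum_congr rfl fun i _ => ?_
      rw [map_mul, MvPolynomial.coeToMvPowerSeries.ringHom_apply,
        MvPolynomial.coeToMvPowerSeries.ringHom_apply]
      ring
    rw [h2, Finset.sum_sub_distrib, h]
    refine LowZ.sub (fun v _ => map_zero _) (LowZ.sum _ fun i _ => ?_)
    have h3 := (hc i).mul (fun v hv => absurd hv (Nat.not_lt_zero _) :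
      LowZ 0 (g i : MvPowerSeries (Fin n) ℂ))
    rwa [add_zero] at h3
  have h4 : ∑ i, c i * g i ∈ (Ideal.span (Set.range g) :
      Submodule (MvPolynomial (Fin n) ℂ) (MvPolynomial (Fin n) ℂ)) :=
    Submodule.sum_mem _ fun i _ => Ideal.mul_mem_left _ _ (Ideal.subset_span ⟨i, rfl⟩)
  have h5 : ∑ i, c i * g i ∈ idealOfVars (Fin n) ℂ ^ (k + 1) •
      (⊤ : Submodule (MvPolynomial (Fin n) ℂ) (MvPolynomial (Fin n) ℂ)) ⊓
      (Ideal.span (Set.range g) :
        Submodule (MvPolynomial (Fin n) ℂ) (MvPolynomial (Fin n) ℂ)) := by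
    refine ⟨?_, h4⟩
    rw [smul_eq_mul, Ideal.mul_top]
    exact h1
  rw [hk (k + 1) (Nat.le_succ k), Nat.add_sub_cancel_left, pow_one] at h5
  have h6 : ∑ i, c i * g i ∈ idealOfVars (Fin n) ℂ • (Ideal.span (Set.range g) :
      Submodule (MvPolynomial (Fin n) ℂ) (MvPolynomial (Fin n) ℂ)) :=
    (Submodule.smul_mono le_rfl inf_le_right) h5
  have h7 := (Submodule.mem_ideal_smul_span_iff_exists_sum (idealOfVars (Fin n) ℂ) g
    (∑ i, c i * g i)).1 h6
  obtain ⟨d, hd, hds⟩ := h7
  refine ⟨fun i => c i - d i, ?_, fun i => ?_⟩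
  · simp only [sub_mul]
    rw [Finset.sum_sub_distrib, ← hds, Finsupp.sum_fintype _ _ (fun i => by simp)]
    simp only [smul_eq_mul, sub_self]
  · rw [map_sub, mem_vars_iff.1 (hd i), sub_zero]
    have h8 := hc i 0 (by simp)
    rw [map_sub, MvPolynomial.coeff_coe, sub_eq_zero,
      MvPowerSeries.coeff_zero_eq_constantCoeff_apply] at h8
    rw [h8]
    rfl

end MPb07157
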