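import Pool.Agent.Lib.MP_b07157_agQ.QDefs
import Pool.Agent.Lib.MP_b07157_agY.Yd

/-!
# Homogeneous polynomials in three variables: the conditions for the root `-3/d`
-/

noncomputable section

namespace MPb07157

open MvPolynomial MeasureTheory

/-- Conditions under which `-3/d` is a root: the log canonical threshold is `3/d`; or the curve,
with arbitrary multiplicities, has only quasi-homogeneous points; or, in suitable coordinates, the
point `(1 : 0 : 0)` of the curve has multiplicity `m > 2d/3` (`d = m + k`, `3 k < d`,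
`f = ∑_{j ≤ k} x_0^j q_j(x_1, x_2)`), the tangent lines of multiplicity `r` at this point, the factors
of `q_k`, satisfy `r d < d + 3 r (k - 1)`, and some line through the point, not tangent to the
curve, contains at least two further points of the curve. -/
def CondThreeA (f : MvPolynomial (Fin 3) ℂ) (d : ℕ) : Prop :=
  (∀ c : ℝ, 0 < c → c < (3 : ℝ) / d →
    IntegrableOn (fun x => ‖eval x f‖ ^ (-(2 * c))) (Metric.ball (0 : Fin 3 → ℂ) 1)) ∨
  (∀ p ≠ 0, eval p f = 0 → IsWHAt f p) ∨
  ∃ (e : MvPolynomial (Fin 3) ℂ ≃ₐ[ℂ] MvPolynomial (Fin 3) ℂ) (k m : ℕ),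
    Alp.Dat (n := 2) (e f) d k m ∧
    (∀ l : MvPolynomial (Fin 2) ℂ, l.IsHomogeneous 1 → l ≠ 0 → ∀ r : ℕ,
      l ^ r ∣ Alp.qf (n := 2) (e f) → r * d < d + 3 * r * (k - 1)) ∧
    Alp.TwoPoints (n := 2) (e f)

end MPb07157
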