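import Pool.Agent.Lib.MP_b07157_agM.StrSnc
import Pool.Agent.Lib.MP_b07157_agS.SCor
import Pool.Agent.Lib.MP_b07157_agL.HLct
import Pool.Agent.Lib.MP_b07157_agY.Ym8
import Pool.Agent.Lib.MP_b07157_agQ.CThree

/-!
# Homogeneous polynomials in three variables
-/

noncomputable section

namespace MPb07157

open MvPolynomial MeasureTheory

variable {n : ℕ}

theorem aeval_smul_of_isHomogeneous {σ R : Type*} [CommRing R] [Algebra ℂ R]
    {f : MvPolynomial σ ℂ} {d : ℕ} (hf : f.IsHomogeneous d) (t : R) (g : σ → R) :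
    aeval (fun i => t * g i) f = t ^ d * aeval g f := by
  classical
  rw [aeval_def, aeval_def, eval₂_eq, eval₂_eq, Finset.mul_sum]
  refine Finset.sum_congr rfl fun v hv => ?_
  have h1 : ∑ i ∈ v.support, v i = d := by
    have h2 := hf (mem_support_iff.1 hv)
    rw [Finsupp.weight_apply, Finsupp.sum] at h2
    simpa using h2
  simp only [mul_pow]
  rw [Finset.prod_mul_distrib, Finset.prod_pow_eq_pow_sum, h1]
  ring

/-- The germ of a homogeneous polynomial in `n + 1` variables at a point different from the origin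
is, up to a unit and formal coordinates, a polynomial in `n` variables. -/
theorem formEquiv_of_isHomogeneous {f : MvPolynomial (Fin (n + 1)) ℂ} {d : ℕ}
    (hh : f.IsHomogeneous d) {p : Fin (n + 1) → ℂ} {i₀ : Fin (n + 1)} (hp : p i₀ ≠ 0) :
    ∃ g : MvPolynomial (Fin n) ℂ, FormEquivPow (translate p f) (rename i₀.succAbove g) 1 := by
  classical
  set c : ℂ := p i₀ with hc
  -- the polynomial in `n` variables
  let v₀ : Fin (n + 1) → MvPolynomial (Fin n) ℂ :=
    i₀.insertNth (C c) fun j => C (p (i₀.succAbove j)) + X j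
  let g : MvPolynomial (Fin n) ℂ := aeval v₀ f
  refine ⟨g, ?_⟩
  let xx : MvPowerSeries (Fin (n + 1)) ℂ := MvPowerSeries.X i₀
  have hD : IsUnit (xx + MvPowerSeries.C c) := by
    rw [MvPowerSeries.isUnit_iff_constantCoeff, map_add, MvPowerSeries.constantCoeff_X,
      MvPowerSeries.constantCoeff_C, zero_add]
    exact isUnit_iff_ne_zero.2 hp
  obtain ⟨D, hD⟩ := hD
  let A : Fin (n + 1) → MvPowerSeries (Fin (n + 1)) ℂ := fun j =>
    if j = i₀ then xx else
      (MvPowerSeries.C c * MvPowerSeries.X j - MvPowerSeries.C (p j) * xx) *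
        ((D⁻¹ : (MvPowerSeries (Fin (n + 1)) ℂ)ˣ) : MvPowerSeries (Fin (n + 1)) ℂ)
  have hAi : A i₀ = xx := if_pos rfl
  have hAj : ∀ j, j ≠ i₀ → A j = (MvPowerSeries.C c * MvPowerSeries.X j -
      MvPowerSeries.C (p j) * xx) *
        ((D⁻¹ : (MvPowerSeries (Fin (n + 1)) ℂ)ˣ) : MvPowerSeries (Fin (n + 1)) ℂ) :=
    fun j hj => if_neg hj
  have hA0 : ∀ i, MvPowerSeries.constantCoeff (A i) = 0 := by
    intro i
    by_cases hi : i = i₀
    · rw [hi, hAi]
      exact MvPowerSeries.constantCoeff_X _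
    · rw [hAj i hi, map_mul, map_sub, map_mul, map_mul, MvPowerSeries.constantCoeff_X,
        MvPowerSeries.constantCoeff_X, mul_zero, mul_zero, sub_zero, zero_mul]
  have hDc : MvPowerSeries.constantCoeff
      ((D⁻¹ : (MvPowerSeries (Fin (n + 1)) ℂ)ˣ) : MvPowerSeries (Fin (n + 1)) ℂ) = c⁻¹ := by
    have h1 := congrArg MvPowerSeries.constantCoeff (Units.mul_inv D)
    rw [map_mul, hD, map_add, map_one] at h1
    have h2 : MvPowerSeries.constantCoeff xx = 0 := MvPowerSeries.constantCoeff_X _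
    rw [h2, MvPowerSeries.constantCoeff_C, zero_add] at h1
    exact eq_inv_of_mul_eq_one_right h1
  -- coefficients of degree one of a product
  have hlin : ∀ (l : Fin (n + 1)) (a b : MvPowerSeries (Fin (n + 1)) ℂ),
      MvPowerSeries.constantCoeff a = 0 →
      MvPowerSeries.coeff (Finsupp.single l 1) (a * b) =
        MvPowerSeries.coeff (Finsupp.single l 1) a * MvPowerSeries.constantCoeff b := by
    intro l a b ha
    rw [MvPowerSeries.coeff_mul, Finsupp.antidiagonal_single, Finset.sum_map,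
      Finset.Nat.antidiagonal_succ, Finset.sum_cons, Finset.Nat.antidiagonal_zero,
      Finset.map_singleton, Finset.sum_singleton]
    simp [ha]
  have hX : ∀ l j : Fin (n + 1), MvPowerSeries.coeff (Finsupp.single l 1)
      (MvPowerSeries.X j : MvPowerSeries (Fin (n + 1)) ℂ) = if l = j then 1 else 0 := by
    intro l j
    rw [MvPowerSeries.coeff_X]
    by_cases h : l = j
    · rw [if_pos h, if_pos (by rw [h])]
    · rw [if_neg h, if_neg]
      intro h2
      exact h (Finsupp.single_left_injective one_ne_zero h2)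
  have hM : (Matrix.of fun i j => MvPowerSeries.coeff (Finsupp.single j 1) (A i)).det ≠ 0 := by
    refine Str.det_ne_zero_of_injective fun v hv => ?_
    have h1 : v i₀ = 0 := by
      have h2 := hv i₀
      rw [Finset.sum_eq_single i₀] at h2
      · simp only [Matrix.of_apply] at h2
        rw [hAi] at h2
        show v i₀ = 0
        have h3 := hX i₀ i₀
        rw [if_pos rfl] at h3
        rw [show MvPowerSeries.coeff (Finsupp.single i₀ 1) xx = 1 from h3] at h2
        simpa using h2
      · intro b _ hb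
        simp only [Matrix.of_apply]
        rw [hAi, show MvPowerSeries.coeff (Finsupp.single b 1) xx = 0 from by
          have h3 := hX b i₀
          rwa [if_neg hb] at h3]
        simp
      · intro h
        exact absurd (Finset.mem_univ _) h
    funext j
    by_cases hj : j = i₀
    · rw [hj]
      exact h1
    have h2 := hv j
    rw [Finset.sum_eq_single j] at h2
    · simp only [Matrix.of_apply] at h2
      rw [hAj j hj, hlin _ _ _ (by
        rw [map_sub, map_mul, map_mul, MvPowerSeries.constantCoeff_X,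
          MvPowerSeries.constantCoeff_X, mul_zero, mul_zero, sub_zero]), hDc, map_sub,
        MvPowerSeries.coeff_C_mul, MvPowerSeries.coeff_C_mul, hX, hX, if_pos rfl, if_neg hj,
        mul_one, mul_zero, sub_zero] at h2
      have h3 : c * c⁻¹ = 1 := mul_inv_cancel₀ hp
      rw [h3] at h2
      simpa using h2
    · intro l _ hl
      by_cases hl0 : l = i₀
      · rw [hl0, h1]
        simp
      · simp only [Matrix.of_apply]
        rw [hAj j hj, hlin _ _ _ (by
          rw [map_sub, map_mul, map_mul, MvPowerSeries.constantCoeff_X,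
            MvPowerSeries.constantCoeff_X, mul_zero, mul_zero, sub_zero]), map_sub,
          MvPowerSeries.coeff_C_mul, MvPowerSeries.coeff_C_mul, hX, hX, if_neg hl, if_neg hl0]
        simp
    · intro h
      exact absurd (Finset.mem_univ _) h
  obtain ⟨e, he⟩ := IFT.exists_equiv hA0 hM
  let lam : MvPowerSeries (Fin (n + 1)) ℂ := (D : MvPowerSeries (Fin (n + 1)) ℂ) *
    MvPowerSeries.C c⁻¹
  have hlam : IsUnit lam := by
    refine D.isUnit.mul ?_
    exact (isUnit_iff_ne_zero.2 (inv_ne_zero hp)).map MvPowerSeries.C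
  obtain ⟨ul, hul⟩ := hlam
  refine ⟨e, ul ^ d, ?_⟩
  have hCC : MvPowerSeries.C c⁻¹ * MvPowerSeries.C c =
      (1 : MvPowerSeries (Fin (n + 1)) ℂ) := by
    rw [← map_mul, inv_mul_cancel₀ hp, map_one]
  let V : Fin (n + 1) → MvPowerSeries (Fin (n + 1)) ℂ :=
    i₀.insertNth (MvPowerSeries.C c) fun j => MvPowerSeries.C (p (i₀.succAbove j)) +
      A (i₀.succAbove j)
  have hV0 : V i₀ = MvPowerSeries.C c :=
    Fin.insertNth_apply_same (α := fun _ => MvPowerSeries (Fin (n + 1)) ℂ) i₀ _ _
  have hVj : ∀ l, V (i₀.succAbove l) = MvPowerSeries.C (p (i₀.succAbove l)) +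
      A (i₀.succAbove l) := fun l =>
    Fin.insertNth_apply_succAbove (α := fun _ => MvPowerSeries (Fin (n + 1)) ℂ) i₀ _ _ l
  have hv0 : v₀ i₀ = C c :=
    Fin.insertNth_apply_same (α := fun _ => MvPolynomial (Fin n) ℂ) i₀ _ _
  have hvj : ∀ l, v₀ (i₀.succAbove l) = C (p (i₀.succAbove l)) + X l := fun l =>
    Fin.insertNth_apply_succAbove (α := fun _ => MvPolynomial (Fin n) ℂ) i₀ _ _ l
  have h1 : e ((rename i₀.succAbove g : MvPolynomial (Fin (n + 1)) ℂ) :
      MvPowerSeries (Fin (n + 1)) ℂ) = aeval V f := by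
    rw [he, aeval_rename]
    show aeval (A ∘ i₀.succAbove) (aeval v₀ f) = aeval V f
    rw [← AlgHom.comp_apply, comp_aeval]
    congr 2
    funext j
    show aeval (A ∘ i₀.succAbove) (v₀ j) = V j
    rcases Fin.eq_self_or_eq_succAbove i₀ j with h | ⟨l, h⟩
    · rw [h, hv0, hV0, aeval_C]
      rfl
    · rw [h, hvj, hVj, map_add, aeval_C, aeval_X]
      rfl
  have h2 : ((translate p f : MvPolynomial (Fin (n + 1)) ℂ) : MvPowerSeries (Fin (n + 1)) ℂ) =
      lam ^ d * aeval V f := by
    rw [← aeval_smul_of_isHomogeneous hh]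
    have h3 : ((translate p f : MvPolynomial (Fin (n + 1)) ℂ) : MvPowerSeries (Fin (n + 1)) ℂ) =
        aeval (fun i => ((X i + C (p i) : MvPolynomial (Fin (n + 1)) ℂ) :
          MvPowerSeries (Fin (n + 1)) ℂ)) f := by
      unfold translate
      rw [← Str.aeval_coe]
    rw [h3]
    congr 2
    funext j
    rw [MvPolynomial.coe_add, MvPolynomial.coe_X, MvPolynomial.coe_C]
    rcases Fin.eq_self_or_eq_succAbove i₀ j with h | ⟨l, h⟩
    · rw [h, hV0]
      show _ = (D : MvPowerSeries (Fin (n + 1)) ℂ) * MvPowerSeries.C c⁻¹ * MvPowerSeries.C c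
      rw [mul_assoc, hCC, mul_one, hD]
    · rw [h, hVj, hAj _ (Fin.succAbove_ne i₀ l)]
      show _ = (D : MvPowerSeries (Fin (n + 1)) ℂ) * MvPowerSeries.C c⁻¹ * _
      have h4 := Units.mul_inv D
      have h5 : (D : MvPowerSeries (Fin (n + 1)) ℂ) * MvPowerSeries.C c⁻¹ *
          (MvPowerSeries.C (p (i₀.succAbove l)) +
            (MvPowerSeries.C c * MvPowerSeries.X (i₀.succAbove l) -
              MvPowerSeries.C (p (i₀.succAbove l)) * xx) *
            ((D⁻¹ : (MvPowerSeries (Fin (n + 1)) ℂ)ˣ) : MvPowerSeries (Fin (n + 1)) ℂ)) =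
          (D : MvPowerSeries (Fin (n + 1)) ℂ) * MvPowerSeries.C c⁻¹ *
            MvPowerSeries.C (p (i₀.succAbove l)) +
          ((D : MvPowerSeries (Fin (n + 1)) ℂ) *
            ((D⁻¹ : (MvPowerSeries (Fin (n + 1)) ℂ)ˣ) : MvPowerSeries (Fin (n + 1)) ℂ)) *
            ((MvPowerSeries.C c⁻¹ * MvPowerSeries.C c) * MvPowerSeries.X (i₀.succAbove l) -
              MvPowerSeries.C c⁻¹ * MvPowerSeries.C (p (i₀.succAbove l)) * xx) := by ring
      rw [h5, h4, hCC, hD]
      have h6 : (xx + MvPowerSeries.C c) * MvPowerSeries.C c⁻¹ *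
          MvPowerSeries.C (p (i₀.succAbove l)) =
          MvPowerSeries.C c⁻¹ * MvPowerSeries.C (p (i₀.succAbove l)) * xx +
            (MvPowerSeries.C c⁻¹ * MvPowerSeries.C c) *
              MvPowerSeries.C (p (i₀.succAbove l)) := by ring
      rw [h6, hCC]
      ring
  rw [pow_one, h1, h2, Units.val_pow_eq_pow_val, hul]

/-- The germs of homogeneous polynomials in three variables outside the origin. -/
theorem stableLoc_translate_three {f : MvPolynomial (Fin 3) ℂ} {d : ℕ}
    (hh : f.IsHomogeneous d) {p : Fin 3 → ℂ} (hp : p ≠ 0) : StableLoc 3 (translate p f) := by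
  obtain ⟨i₀, hi₀⟩ := Function.ne_iff.1 hp
  obtain ⟨g, hg⟩ := formEquiv_of_isHomogeneous hh (i₀ := i₀) hi₀
  exact StableLoc.equiv _ _ 1 one_pos hg
    ((StableLoc.plane g).rename Fin.succAbove_right_injective)

/-- The poles `≠ -3/d` of the zeta functions of a homogeneous polynomial of degree `d` in three
variables are roots of each Bernstein–Sato polynomial. -/
theorem root_of_pole_three {f : MvPolynomial (Fin 3) ℂ} (hf : f ≠ 0) {d : ℕ} (hd : 0 < d)
    (hh : f.IsHomogeneous d) {s₀ : ℚ} (hs : s₀ < 0)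
    (hp : IsPole (Zmot f) s₀ ∨ IsPole (Zmot0 f) s₀) {b : Polynomial ℂ}
    (hbg : IsBernsteinSato f b) : s₀ = -(3 / d) ∨ b.eval (s₀ : ℂ) = 0 := by
  obtain ⟨r, g, m, hfact⟩ := exists_isFact hf hd hh
  obtain ⟨B, hB0, hB⟩ := exists_lines hfact hd hh
  have hp' : IsPole (Zmot (prodPow g m)) s₀ ∨ IsPole (Zmot0 (prodPow g m)) s₀ := by
    rw [← hfact.eq]
    exact hp
  have hsnc : ∀ p ≠ 0, (∀ b ∈ B, ∀ l : ℂ, p ≠ l • b) → SncAt g p := by
    intro p hp0 hpB
    apply sncAt_of_vv_ne g m
    by_contra hcon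
    push Not at hcon
    obtain ⟨b, hb, l, hl⟩ := hB p hp0 hcon
    exact hpB b hb l hl
  rcases pole_of_homogeneous (fun i => (hfact.irr i).ne_zero) hfact.pos hd
    (hfact.eq ▸ hh) B hB0 hsnc hp' with h1 | ⟨p, hpB, hp0, hpp⟩ | ⟨i, h1⟩
  · exact Or.inl h1
  · right
    rw [← hfact.eq] at hp0 hpp
    exact SmcLoc.of_stableLoc (stableLoc_translate_three hh (hB0 p hpB))
      (translate_ne_zero hf p) (coeff_zero_translate hp0) s₀ hs hpp b (form_translate p hbg)
  · right
    subst h1
    refine root_of_mult (hfact.irr i) (hfact.pos i) ?_ ?_ b hbg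
    · rw [hfact.eq]
      exact Finset.dvd_prod_of_mem _ (Finset.mem_univ i)
    · exact hfact.not_pow_dvd i

/-- **The strong monodromy conjecture** (global and local version) for homogeneous polynomials of
degree `d` in three variables: all poles `≠ -3/d`, and also `-3/d` if one of the conditions
`CondThreeA` holds. -/
theorem smc_homogeneous_three {f : MvPolynomial (Fin 3) ℂ} (hf : f ≠ 0) {d : ℕ} (hd : 0 < d)
    (hh : f.IsHomogeneous d) {s₀ : ℚ} (hs : s₀ < 0) (h : s₀ = -(3 / d) → CondThreeA f d)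
    (hs₀ : IsPole (Zmot f) s₀ ∨ IsPole (Zmot0 f) s₀) :
    IsBernsteinSatoRoot f s₀ ∧ IsLocalBernsteinSatoRoot f s₀ := by
  refine roots_of_form fun b hb => ?_
  have hbg : IsBernsteinSato f b := isBernsteinSato_of_form_homogeneous hh hb
  rcases root_of_pole_three hf hd hh hs hs₀ hbg with h1 | h1
  · rcases h h1 with h2 | h2 | ⟨e, k, m, h2, h3, h4⟩
    · have h3 := Lct.root_of_lct hd hf hh (by exact_mod_cast h2) hbg
      rw [h1]
      exact_mod_cast h3
    · exact smc_homogeneous_aux hf hd hh h2 hs hs₀ b hb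
    · rw [h1]
      exact Alp.root_three e h2 h3 h4 hbg
  · exact h1

end MPb07157
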