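import Pool.Agent.Lib.MP_b07157_agQ.WHa

/-!
# Polynomial vector fields which kill a homogeneous polynomial, at a quasi-homogeneous point
-/

noncomputable section

namespace MPb07157

open MvPolynomial

variable {n : ℕ}

theorem coe_pderiv_ps (i : Fin n) (f : MvPolynomial (Fin n) ℂ) :
    ((pderiv i f : MvPolynomial (Fin n) ℂ) : MvPowerSeries (Fin n) ℂ) =
      MvPowerSeries.pderiv ℂ i (f : MvPowerSeries (Fin n) ℂ) := by
  ext m
  rw [MvPolynomial.coeff_coe, MvPowerSeries.coeff_pderiv, MvPolynomial.coeff_coe,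
    MvPolynomial.coeff_pderiv]

/-- The Euler identity for power series. -/
theorem euler_ps {h : MvPolynomial (Fin n) ℂ} {w : Fin n → ℕ} {N : ℕ}
    (hh : h.IsWeightedHomogeneous w N) :
    ∑ k, (w k : MvPowerSeries (Fin n) ℂ) * MvPowerSeries.X k *
      MvPowerSeries.pderiv ℂ k (h : MvPowerSeries (Fin n) ℂ) =
        (N : MvPowerSeries (Fin n) ℂ) * (h : MvPowerSeries (Fin n) ℂ) := by
  have h1 := hh.sum_weight_X_mul_pderiv
  have h2 := congrArg (MvPolynomial.coeToMvPowerSeries.ringHom (σ := Fin n) (R := ℂ)) h1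
  rw [map_sum, map_nsmul, MvPolynomial.coeToMvPowerSeries.ringHom_apply, nsmul_eq_mul] at h2
  rw [← h2]
  refine Finset.sum_congr rfl fun k _ => ?_
  rw [map_nsmul, map_mul, MvPolynomial.coeToMvPowerSeries.ringHom_apply,
    MvPolynomial.coeToMvPowerSeries.ringHom_apply, coe_pderiv_ps, MvPolynomial.coe_X, nsmul_eq_mul,
    mul_assoc]

/-- The components `e (D (e⁻¹ X_j))` of the transported vector field, `D = ∑ w_k X_k ∂_k`. -/
def eulD (e : MvPowerSeries (Fin n) ℂ ≃ₐ[ℂ] MvPowerSeries (Fin n) ℂ) (w : Fin n → ℕ) (j : Fin n) :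
    MvPowerSeries (Fin n) ℂ :=
  e (∑ k, (w k : MvPowerSeries (Fin n) ℂ) * MvPowerSeries.X k *
    MvPowerSeries.pderiv ℂ k (e.symm (MvPowerSeries.X j)))

theorem constantCoeff_eulD (e : MvPowerSeries (Fin n) ℂ ≃ₐ[ℂ] MvPowerSeries (Fin n) ℂ)
    (w : Fin n → ℕ) (j : Fin n) : MvPowerSeries.constantCoeff (eulD e w j) = 0 := by
  unfold eulD
  rw [constantCoeff_equiv, map_sum]
  refine Finset.sum_eq_zero fun k _ => ?_
  rw [map_mul, map_mul, MvPowerSeries.constantCoeff_X, mul_zero, zero_mul]

theorem sum_eulD (e : MvPowerSeries (Fin n) ℂ ≃ₐ[ℂ] MvPowerSeries (Fin n) ℂ) (w : Fin n → ℕ)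
    (h : MvPowerSeries (Fin n) ℂ) :
    ∑ j, eulD e w j * MvPowerSeries.pderiv ℂ j (e h) =
      e (∑ k, (w k : MvPowerSeries (Fin n) ℂ) * MvPowerSeries.X k *
        MvPowerSeries.pderiv ℂ k h) := by
  have h1 : ∀ k, e (MvPowerSeries.pderiv ℂ k h) =
      ∑ j, e (MvPowerSeries.pderiv ℂ k (e.symm (MvPowerSeries.X j))) *
        MvPowerSeries.pderiv ℂ j (e h) := by
    intro k
    have h2 := pderiv_equiv e.symm k (e h)
    rw [AlgEquiv.symm_apply_apply] at h2
    rw [h2, map_sum]
    refine Finset.sum_congr rfl fun j _ => ?_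
    rw [map_mul, AlgEquiv.apply_symm_apply]
  rw [map_sum]
  simp only [map_mul, h1]
  unfold eulD
  simp only [map_sum, map_mul, Finset.sum_mul, Finset.mul_sum]
  rw [Finset.sum_comm]
  refine Finset.sum_congr rfl fun k _ => Finset.sum_congr rfl fun j _ => ?_
  ring

theorem translate_neg_translate (p : Fin n → ℂ) (f : MvPolynomial (Fin n) ℂ) :
    translate (fun i => -p i) (translate p f) = f := by
  unfold translate
  have h : ((aeval fun i => X i + C (-p i) : MvPolynomial (Fin n) ℂ →ₐ[ℂ]
      MvPolynomial (Fin n) ℂ).comp (aeval fun i => X i + C (p i))) = AlgHom.id ℂ _ := by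
    apply MvPolynomial.algHom_ext
    intro i
    simp
  exact congrArg (fun φ : MvPolynomial (Fin n) ℂ →ₐ[ℂ] MvPolynomial (Fin n) ℂ => φ f) h

theorem eval_translate_neg (p : Fin n → ℂ) (f : MvPolynomial (Fin n) ℂ) :
    eval p (translate (fun i => -p i) f) = constantCoeff f := by
  unfold translate
  induction f using MvPolynomial.induction_on with
  | C a => simp
  | add a b ha hb => simp only [map_add, ha, hb]
  | mul_X a i ha => simp [map_mul]

/-- At a point `p ≠ 0` at which the homogeneous polynomial `f` is, up to a unit and a formal change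
of coordinates, a power of a weighted homogeneous polynomial, there is a polynomial vector field
`a` with `a(f) = 0` and `a(p) ≠ 0`. -/
theorem exists_field_of_formEquivPow {f : MvPolynomial (Fin n) ℂ} {d : ℕ}
    (hf : f.IsHomogeneous d) {p : Fin n → ℂ} {h : MvPolynomial (Fin n) ℂ} {m : ℕ} (hm : 0 < m)
    (he : FormEquivPow (translate p f) h m) {w : Fin n → ℕ} {N : ℕ} (hN : 0 < N)
    (hh : h.IsWeightedHomogeneous w N) :
    ∃ (c : ℂ) (a : Fin n → MvPolynomial (Fin n) ℂ), c ≠ 0 ∧ ∑ i, a i * pderiv i f = 0 ∧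
      ∀ i, eval p (a i) = c * p i := by
  obtain ⟨e, u, hF⟩ := he
  set F : MvPolynomial (Fin n) ℂ := translate p f with hFdef
  -- the vector field `δ`
  have hδ := sum_eulD e w (h : MvPowerSeries (Fin n) ℂ)
  rw [euler_ps hh, map_mul, map_natCast] at hδ
  set δ := eulD e w with hδdef
  set v : MvPowerSeries (Fin n) ℂ := ((u⁻¹ : (MvPowerSeries (Fin n) ℂ)ˣ) : MvPowerSeries (Fin n) ℂ)
    with hv
  have huv : (u : MvPowerSeries (Fin n) ℂ) * v = 1 := Units.mul_inv u
  set lam : MvPowerSeries (Fin n) ℂ := (m : MvPowerSeries (Fin n) ℂ) * N +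
    (∑ j, δ j * MvPowerSeries.pderiv ℂ j (u : MvPowerSeries (Fin n) ℂ)) * v with hlam
  have hδF : ∑ j, δ j * MvPowerSeries.pderiv ℂ j (F : MvPowerSeries (Fin n) ℂ) =
      lam * (F : MvPowerSeries (Fin n) ℂ) := by
    have h1 : ∀ j, δ j * MvPowerSeries.pderiv ℂ j (F : MvPowerSeries (Fin n) ℂ) =
        (δ j * MvPowerSeries.pderiv ℂ j (u : MvPowerSeries (Fin n) ℂ)) *
          e (h : MvPowerSeries (Fin n) ℂ) ^ m +
        (u : MvPowerSeries (Fin n) ℂ) * (m : MvPowerSeries (Fin n) ℂ) *
          e (h : MvPowerSeries (Fin n) ℂ) ^ (m - 1) *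
          (δ j * MvPowerSeries.pderiv ℂ j (e (h : MvPowerSeries (Fin n) ℂ))) := by
      intro j
      rw [hF, Derivation.leibniz, Derivation.leibniz_pow]
      simp only [smul_eq_mul, nsmul_eq_mul]
      ring
    rw [Finset.sum_congr rfl fun j _ => h1 j, Finset.sum_add_distrib, ← Finset.sum_mul,
      ← Finset.mul_sum, hδ, hF, hlam]
    obtain ⟨m, rfl⟩ : ∃ l, m = l + 1 := ⟨m - 1, by omega⟩
    rw [Nat.add_sub_cancel]
    push_cast
    linear_combination (-(∑ j, δ j * MvPowerSeries.pderiv ℂ j (u : MvPowerSeries (Fin n) ℂ)) *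
      e (h : MvPowerSeries (Fin n) ℂ) ^ (m + 1)) * huv
  -- the Euler field
  have hE : ∑ i, (MvPowerSeries.X i + MvPowerSeries.C (p i)) *
      MvPowerSeries.pderiv ℂ i (F : MvPowerSeries (Fin n) ℂ) =
        (d : MvPowerSeries (Fin n) ℂ) * (F : MvPowerSeries (Fin n) ℂ) := by
    have h1 := congrArg (translate p) hf.sum_X_mul_pderiv
    have h2 : ∑ i, (X i + C (p i)) * pderiv i F = (d : MvPolynomial (Fin n) ℂ) * F := by
      have h3 : translate p (∑ i, X i * pderiv i f) = ∑ i, (X i + C (p i)) * pderiv i F := by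
        unfold translate
        rw [map_sum]
        refine Finset.sum_congr rfl fun i _ => ?_
        rw [map_mul, aeval_X, hFdef, pderiv_translate]
        rfl
      have h4 : translate p (d • f) = (d : MvPolynomial (Fin n) ℂ) * F := by
        rw [hFdef]
        unfold translate
        rw [map_nsmul, nsmul_eq_mul]
      rw [← h3, ← h4]
      exact h1
    have h5 := congrArg (MvPolynomial.coeToMvPowerSeries.ringHom (σ := Fin n) (R := ℂ)) h2
    rw [map_sum, map_mul, map_natCast, MvPolynomial.coeToMvPowerSeries.ringHom_apply] at h5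
    rw [← h5]
    refine Finset.sum_congr rfl fun i _ => ?_
    rw [map_mul, map_add, MvPolynomial.coeToMvPowerSeries.ringHom_apply,
      MvPolynomial.coeToMvPowerSeries.ringHom_apply, MvPolynomial.coeToMvPowerSeries.ringHom_apply,
      coe_pderiv_ps, MvPolynomial.coe_X, MvPolynomial.coe_C]
  -- the combination
  obtain ⟨b, hb, hb0⟩ := exists_poly_relation (fun i => pderiv i F)
    (fun i => lam * (MvPowerSeries.X i + MvPowerSeries.C (p i)) -
      (d : MvPowerSeries (Fin n) ℂ) * δ i) (by
      have h1 : ∀ i, (lam * (MvPowerSeries.X i + MvPowerSeries.C (p i)) -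
          (d : MvPowerSeries (Fin n) ℂ) * δ i) *
            ((pderiv i F : MvPolynomial (Fin n) ℂ) : MvPowerSeries (Fin n) ℂ) =
          lam * ((MvPowerSeries.X i + MvPowerSeries.C (p i)) *
            MvPowerSeries.pderiv ℂ i (F : MvPowerSeries (Fin n) ℂ)) -
          (d : MvPowerSeries (Fin n) ℂ) *
            (δ i * MvPowerSeries.pderiv ℂ i (F : MvPowerSeries (Fin n) ℂ)) := by
        intro i
        rw [coe_pderiv_ps]
        ring
      rw [Finset.sum_congr rfl fun i _ => h1 i, Finset.sum_sub_distrib, ← Finset.mul_sum,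
        ← Finset.mul_sum, hE, hδF]
      ring)
  refine ⟨MvPowerSeries.constantCoeff lam, fun i => translate (fun i => -p i) (b i), ?_, ?_, ?_⟩
  · rw [hlam, map_add, map_mul, map_mul, map_natCast, map_natCast, map_sum]
    have h1 : ∀ j, MvPowerSeries.constantCoeff
        (δ j * MvPowerSeries.pderiv ℂ j (u : MvPowerSeries (Fin n) ℂ)) = 0 := by
      intro j
      rw [map_mul, hδdef, constantCoeff_eulD, zero_mul]
    rw [Finset.sum_eq_zero fun j _ => h1 j, zero_mul, add_zero]
    exact mul_ne_zero (by exact_mod_cast hm.ne') (by exact_mod_cast hN.ne')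
  · have h1 := congrArg (translate fun i => -p i) hb
    have h2 : translate (fun i => -p i) (∑ i, b i * pderiv i F) =
        ∑ i, translate (fun i => -p i) (b i) * pderiv i f := by
      conv_lhs => unfold translate
      rw [map_sum]
      refine Finset.sum_congr rfl fun i _ => ?_
      rw [map_mul]
      change translate (fun i => -p i) (b i) * translate (fun i => -p i) (pderiv i F) = _
      rw [hFdef, pderiv_translate, translate_neg_translate]
    rw [h2] at h1
    rw [h1]
    unfold translate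
    exact map_zero _
  · intro i
    have h1 : MvPowerSeries.constantCoeff
        (MvPowerSeries.X i + MvPowerSeries.C (p i) : MvPowerSeries (Fin n) ℂ) = p i := by
      rw [map_add, MvPowerSeries.constantCoeff_X, MvPowerSeries.constantCoeff_C, zero_add]
    have h2 : MvPowerSeries.constantCoeff (δ i) = 0 := constantCoeff_eulD e w i
    rw [eval_translate_neg, hb0, map_sub, map_mul, map_mul, h1, h2, mul_zero, sub_zero]

end MPb07157
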