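import Pool.Agent.Lib.MP_b07157_agQ.MultC
import Pool.Agent.Lib.MP_b07157_agQ.L2a
import Pool.Agent.Lib.MP_b07157_agQ.Lines
import Pool.Agent.Lib.MP_b07157_agE.EDefs

/-!
# Local integrability of `|f|^{-2c}` and multiplicities

`|f|^{-2c}` is integrable near `p` if `c < 1 / mult_p f`; if `f` is homogeneous of degree `d` in `n`
variables and `mult_p f ≤ d / n` for all `p ≠ 0` then `|f|^{-2c}` is integrable on the unit ball for
all `c < n / d`.
-/

noncomputable section

namespace MPb07157

open MvPolynomial MeasureTheory Metric Module MPb07157M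
open scoped ENNReal

variable {n : ℕ}

/-- The polynomial `F(y + t u)` in `t`, with coefficients in `ℂ[y]`. -/
def lnMv (F : MvPolynomial (Fin n) ℂ) (u : Fin n → ℂ) : Polynomial (MvPolynomial (Fin n) ℂ) :=
  aeval (fun i => Polynomial.C (X i) + Polynomial.C (C (u i)) * Polynomial.X) F

theorem eval_lnMv (F : MvPolynomial (Fin n) ℂ) (u y : Fin n → ℂ) (t : ℂ) :
    ((lnMv F u).map (eval y)).eval t = eval (y + t • u) F := by
  unfold lnMv
  induction F using MvPolynomial.induction_on with
  | C a => simp [algebraMap_eq]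
  | add p q hp hq => simp only [map_add, Polynomial.map_add, Polynomial.eval_add, hp, hq]
  | mul_X p i hp =>
    rw [map_mul, Polynomial.map_mul, Polynomial.eval_mul, hp, map_mul]
    congr 1
    simp only [aeval_X, Polynomial.map_add, Polynomial.map_mul, Polynomial.map_C, Polynomial.map_X,
      Polynomial.eval_add, Polynomial.eval_mul, Polynomial.eval_C, Polynomial.eval_X, eval_X, eval_C,
      Pi.add_apply, Pi.smul_apply, smul_eq_mul]
    ring

theorem coeff_lnMv_zero (F : MvPolynomial (Fin n) ℂ) (u : Fin n → ℂ) (j : ℕ) :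
    eval 0 ((lnMv F u).coeff j) = eval u (homogeneousComponent j F) := by
  classical
  unfold lnMv
  induction F using MvPolynomial.induction_on' with
  | monomial v a =>
    have h1 : ((aeval (fun i => Polynomial.C (X i : MvPolynomial (Fin n) ℂ) +
        Polynomial.C (C (u i)) * Polynomial.X) (monomial v a) :
          Polynomial (MvPolynomial (Fin n) ℂ)).map (eval (0 : Fin n → ℂ))) =
        Polynomial.C (a * ∏ i, u i ^ v i) * Polynomial.X ^ v.degree := by
      rw [aeval_monomial, Polynomial.map_mul, Finsupp.prod_fintype _ _ (fun i => by simp),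
        Polynomial.map_prod]
      have h2 : ∀ i, (((Polynomial.C (X i : MvPolynomial (Fin n) ℂ) +
          Polynomial.C (C (u i)) * Polynomial.X) ^ v i).map (eval (0 : Fin n → ℂ))) =
          Polynomial.C (u i ^ v i) * Polynomial.X ^ v i := by
        intro i
        simp [mul_pow]
      rw [Finset.prod_congr rfl fun i _ => h2 i, Finset.prod_mul_distrib, Finset.prod_pow_eq_pow_sum,
        ← map_prod, ← mul_assoc]
      congr 1
      · rw [Polynomial.C_mul]
        congr 1
        simp [algebraMap_eq]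
      · rw [Finsupp.degree_eq_sum]
    have h2 := congrArg (fun P : Polynomial ℂ => P.coeff j) h1
    simp only [Polynomial.coeff_map, Polynomial.coeff_C_mul_X_pow] at h2
    rw [h2]
    have h3 : homogeneousComponent j (monomial v a) = if j = v.degree then monomial v a else 0 :=
      homogeneousComponent_of_mem (isHomogeneous_monomial a rfl)
    rw [h3]
    split_ifs with h
    · rw [eval_monomial, Finsupp.prod_fintype _ _ (fun i => by simp)]
    · rw [map_zero]
  | add p q hp hq =>
    simp only [map_add, Polynomial.coeff_add, hp, hq]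

/-- **Local integrability.** -/
theorem local_integrable {F : MvPolynomial (Fin n) ℂ} {v : Fin n →₀ ℕ} (hv : coeff v F ≠ 0)
    {c : ℝ} (hc0 : 0 < c) (hcm : c * v.degree < 1) :
    ∃ r : ℝ, 0 < r ∧ ∫⁻ x in ball (0 : Fin n → ℂ) r, ‖eval x F‖ₑ ^ (-(2 * c)) < ∞ := by
  classical
  set m := v.degree with hm
  have hH : homogeneousComponent m F ≠ 0 := by
    intro h
    apply hv
    have h1 := congrArg (coeff v) h
    rwa [coeff_homogeneousComponent, if_pos hm.symm, coeff_zero] at h1
  obtain ⟨u, hu⟩ : ∃ u : Fin n → ℂ, eval u (homogeneousComponent m F) ≠ 0 := by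
    by_contra hcon
    push Not at hcon
    exact hH (MvPolynomial.funext fun x => by rw [hcon x, map_zero])
  set N := (lnMv F u).natDegree with hN
  -- the condition of `exists_bound_disc` near the origin
  let φ : (Fin n → ℂ) × ℝ → ℝ := fun x => ‖eval x.1 ((lnMv F u).coeff m)‖ -
    ∑ j ∈ Finset.Ioc m N, ‖eval x.1 ((lnMv F u).coeff j)‖ * ((m + 1) * x.2) ^ (j - m)
  have hφc : Continuous φ := by
    have h1 : ∀ P : MvPolynomial (Fin n) ℂ,
        Continuous (fun x : (Fin n → ℂ) × ℝ => ‖eval x.1 P‖) := fun P =>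
      ((MPb07157Q.continuous_evalC P).comp continuous_fst).norm
    exact (h1 _).sub (continuous_finsetSum _ fun j _ =>
      (h1 _).mul ((continuous_const.mul continuous_snd).pow _))
  have hφ0 : φ (0, 0) = ‖eval u (homogeneousComponent m F)‖ := by
    simp only [φ]
    rw [coeff_lnMv_zero, Finset.sum_eq_zero, sub_zero]
    intro j hj
    rw [Finset.mem_Ioc] at hj
    rw [mul_zero, zero_pow (by omega), mul_zero]
  set ε := ‖eval u (homogeneousComponent m F)‖ / 2 with hε
  have hεpos : 0 < ε := by
    have := norm_pos_iff.2 hu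
    positivity
  have hnear : ∀ᶠ x in nhds ((0 : Fin n → ℂ), (0 : ℝ)), ε < φ x := by
    apply hφc.continuousAt.eventually_const_lt
    rw [hφ0]
    linarith
  obtain ⟨ρ, hρ, hball⟩ := Metric.eventually_nhds_iff_ball.1 hnear
  set δ := min (1 / 4) (min (ρ / 2) (ρ / (2 * (1 + ‖u‖)))) with hδ
  have hu1 : 0 < 1 + ‖u‖ := by positivity
  have hδ0 : 0 < δ := by
    rw [hδ]
    exact lt_min (by norm_num) (lt_min (by positivity) (by positivity))
  have hδ1 : δ ≤ 1 / 4 := min_le_left _ _
  have hδ2 : δ ≤ ρ / 2 := (min_le_right _ _).trans (min_le_left _ _)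
  have hδ3 : δ * ‖u‖ ≤ ρ / 2 := by
    have h1 : δ ≤ ρ / (2 * (1 + ‖u‖)) := (min_le_right _ _).trans (min_le_right _ _)
    have h2 : δ * (1 + ‖u‖) ≤ ρ / 2 := by
      rw [le_div_iff₀ (by positivity)] at h1
      linarith
    nlinarith
  obtain ⟨B, hB, hB'⟩ := exists_bound_disc N m hc0 hcm hεpos
  have hline : ∀ y ∈ ball (0 : Fin n → ℂ) ρ,
      ∫⁻ t in closedBall (0 : ℂ) δ, ‖eval (y + t • u) F‖ₑ ^ (-(2 * c)) ≤ B := by
    intro y hy
    have h1 := hB' δ hδ0 hδ1 ((lnMv F u).map (eval y)) Polynomial.natDegree_map_le (by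
      have h2 := hball (y, δ) (by
        rw [mem_ball, Prod.dist_eq, max_lt_iff, dist_zero_right, dist_zero_right,
          Real.norm_of_nonneg hδ0.le]
        refine ⟨by rwa [mem_ball_zero_iff] at hy, ?_⟩
        linarith)
      simp only [φ] at h2
      simp only [tl, Polynomial.coeff_map]
      exact h2.le)
    simp only [eval_lnMv] at h1
    exact h1
  set G : (Fin n → ℂ) → ℝ≥0∞ := fun x => ‖eval x F‖ₑ ^ (-(2 * c)) with hG
  have hGm : Measurable G := (MPb07157Q.continuous_evalC F).measurable.enorm.pow_const _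
  refine ⟨ρ / 2, by positivity, ?_⟩
  -- averaging over the translations by `t u`
  have hav : ∀ t ∈ closedBall (0 : ℂ) δ, ∫⁻ x in ball (0 : Fin n → ℂ) (ρ / 2), G x ≤
      ∫⁻ y in ball (0 : Fin n → ℂ) ρ, G (y + t • u) := by
    intro t ht
    rw [mem_closedBall_zero_iff] at ht
    rw [← lintegral_indicator measurableSet_ball, ← lintegral_indicator measurableSet_ball,
      ← lintegral_add_right_eq_self ((ball (0 : Fin n → ℂ) (ρ / 2)).indicator G) (t • u)]
    apply lintegral_mono
    intro y
    beta_reduce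
    by_cases hy : y + t • u ∈ ball (0 : Fin n → ℂ) (ρ / 2)
    · rw [Set.indicator_of_mem hy, Set.indicator_of_mem]
      rw [mem_ball_zero_iff] at hy ⊢
      have h1 : y = (y + t • u) - t • u := by abel
      have h2 : ‖t • u‖ ≤ ρ / 2 := by
        rw [norm_smul]
        exact (mul_le_mul_of_nonneg_right ht (norm_nonneg _)).trans hδ3
      have h3 := norm_sub_le (y + t • u) (t • u)
      rw [← h1] at h3
      linarith
    · rw [Set.indicator_of_notMem hy]
      simp
  set I := ∫⁻ x in ball (0 : Fin n → ℂ) (ρ / 2), G x with hI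
  have hV0 : volume (closedBall (0 : ℂ) δ) ≠ 0 := (measure_closedBall_pos _ _ hδ0).ne'
  have hmul : volume (closedBall (0 : ℂ) δ) * I ≤ B * volume (ball (0 : Fin n → ℂ) ρ) := by
    calc volume (closedBall (0 : ℂ) δ) * I = ∫⁻ _t in closedBall (0 : ℂ) δ, I := by
          rw [setLIntegral_const, mul_comm]
      _ ≤ ∫⁻ t in closedBall (0 : ℂ) δ, ∫⁻ y in ball (0 : Fin n → ℂ) ρ, G (y + t • u) :=
          setLIntegral_mono' measurableSet_closedBall hav
      _ = ∫⁻ y in ball (0 : Fin n → ℂ) ρ, ∫⁻ t in closedBall (0 : ℂ) δ, G (y + t • u) := by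
          apply lintegral_lintegral_swap
          apply Measurable.aemeasurable
          have h1 : Measurable (fun z : ℂ × (Fin n → ℂ) => z.2 + z.1 • u) :=
            measurable_snd.add (measurable_fst.smul_const u)
          exact hGm.comp h1
      _ ≤ ∫⁻ _y in ball (0 : Fin n → ℂ) ρ, B := setLIntegral_mono' measurableSet_ball hline
      _ = B * volume (ball (0 : Fin n → ℂ) ρ) := setLIntegral_const _ _
  have hlt : volume (closedBall (0 : ℂ) δ) * I < ∞ :=
    hmul.trans_lt (ENNReal.mul_lt_top hB measure_ball_lt_top)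
  exact ENNReal.lt_top_of_mul_ne_top_right hlt.ne hV0

theorem eval_translate (p x : Fin n → ℂ) (f : MvPolynomial (Fin n) ℂ) :
    eval x (translate p f) = eval (x + p) f := by
  unfold translate
  induction f using MvPolynomial.induction_on with
  | C a => simp
  | add a b ha hb => simp only [map_add, ha, hb]
  | mul_X a i ha =>
    rw [map_mul, map_mul, ha, map_mul]
    congr 1
    simp

/-- The integral over a compact set which does not contain the origin. -/
theorem integrable_compact {f : MvPolynomial (Fin n) ℂ} {c : ℝ} {K : Set (Fin n → ℂ)}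
    (hK : IsCompact K)
    (h : ∀ p ∈ K, ∃ r : ℝ, 0 < r ∧
      ∫⁻ x in ball (0 : Fin n → ℂ) r, ‖eval x (translate p f)‖ₑ ^ (-(2 * c)) < ∞) :
    ∫⁻ x in K, ‖eval x f‖ₑ ^ (-(2 * c)) < ∞ := by
  refine hK.induction_on (p := fun s => ∫⁻ x in s, ‖eval x f‖ₑ ^ (-(2 * c)) < ∞) ?_ ?_ ?_ ?_
  · simp
  · intro s t hst ht
    exact (lintegral_mono_set hst).trans_lt ht
  · intro s t hs ht
    exact (lintegral_union_le _ _ _).trans_lt (ENNReal.add_lt_top.2 ⟨hs, ht⟩)
  · intro p hp
    obtain ⟨r, hr, hint⟩ := h p hp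
    refine ⟨ball p r, mem_nhdsWithin_of_mem_nhds (ball_mem_nhds p hr), ?_⟩
    refine lt_of_le_of_lt (le_of_eq ?_) hint
    rw [← lintegral_indicator measurableSet_ball, ← lintegral_indicator measurableSet_ball,
      ← lintegral_add_right_eq_self _ p]
    congr 1
    funext x
    have h1 : (x + p ∈ ball p r) ↔ x ∈ ball (0 : Fin n → ℂ) r := by
      rw [mem_ball, mem_ball, dist_eq_norm, dist_eq_norm, add_sub_cancel_right, sub_zero]
    by_cases hx : x ∈ ball (0 : Fin n → ℂ) r
    · rw [Set.indicator_of_mem (h1.2 hx), Set.indicator_of_mem hx, eval_translate]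
    · rw [Set.indicator_of_notMem (fun h => hx (h1.1 h)), Set.indicator_of_notMem hx]

/-- **Integrability from multiplicities.** -/
theorem integrable_of_mult {f : MvPolynomial (Fin n) ℂ} {d : ℕ} (hd : 0 < d)
    (hh : f.IsHomogeneous d)
    (hm : ∀ p ≠ 0, ∃ v : Fin n →₀ ℕ, n * v.degree ≤ d ∧ coeff v (translate p f) ≠ 0) {c : ℝ}
    (hc0 : 0 < c) (hc : c < n / d) :
    IntegrableOn (fun x : Fin n → ℂ => ‖eval x f‖ ^ (-(2 * c))) (ball 0 1) := by
  have hd' : (0 : ℝ) < d := by exact_mod_cast hd
  have hn : 0 < n := by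
    rcases Nat.eq_zero_or_pos n with h | h
    · subst h
      rw [Nat.cast_zero, zero_div] at hc
      linarith
    · exact h
  have hn' : (0 : ℝ) < n := by exact_mod_cast hn
  have hcd : c * d < n := by rwa [lt_div_iff₀ hd'] at hc
  have : Nonempty (Fin n) := ⟨⟨0, hn⟩⟩
  have hmeas : Measurable (fun x : Fin n → ℂ => ‖eval x f‖ₑ ^ (-(2 * c))) :=
    (MPb07157Q.continuous_evalC f).measurable.enorm.pow_const _
  have hlt : ∫⁻ x in ball (0 : Fin n → ℂ) 1, ‖eval x f‖ₑ ^ (-(2 * c)) < ∞ := by
    apply lintegral_ball_lt_top volume hmeas (α := 2 * (c * d))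
    · have h1 : finrank ℝ (Fin n → ℂ) = 2 * n := by
        simp [Module.finrank_pi_fintype, Complex.finrank_real_complex, mul_comm]
      rw [h1]
      push_cast
      linarith
    · intro x
      have h1 : (2 : ℝ)⁻¹ • x = ((2 : ℂ)⁻¹) • x := by
        funext i
        simp
      rw [h1, eval_smul_of_isHomogeneous hh, enorm_mul,
        ENNReal.mul_rpow_of_ne_top enorm_ne_top enorm_ne_top]
      congr 1
      have h2 : ‖((2 : ℂ)⁻¹) ^ d‖ₑ = ENNReal.ofReal ((2 : ℝ) ^ (-(d : ℝ))) := by
        rw [← ofReal_norm, norm_pow, norm_inv, Complex.norm_ofNat, Real.rpow_neg (by norm_num),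
          Real.rpow_natCast, inv_pow]
      rw [h2, ENNReal.ofReal_rpow_of_pos (by positivity), ← Real.rpow_mul (by norm_num)]
      congr 2
      ring
    · have hK : IsCompact (closedBall (0 : Fin n → ℂ) 1 \ ball 0 (2 : ℝ)⁻¹) :=
        (isCompact_closedBall _ _).diff isOpen_ball
      refine lt_of_le_of_lt (lintegral_mono_set ?_) (integrable_compact (f := f) (c := c) hK ?_)
      · intro x hx
        obtain ⟨h1, h2⟩ := hx
        rw [zero_add, pow_one] at h1
        rw [pow_zero] at h2
        refine ⟨?_, ?_⟩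
        · rw [mem_closedBall_zero_iff]
          exact h2.le
        · rw [mem_ball_zero_iff, not_lt]
          exact h1
      · intro p hp
        have hp0 : p ≠ 0 := by
          rintro rfl
          exact hp.2 (mem_ball_self (by norm_num))
        obtain ⟨v, hv1, hv2⟩ := hm p hp0
        apply local_integrable hv2 hc0
        have h1 : (n : ℝ) * v.degree ≤ d := by exact_mod_cast hv1
        have h2 : c * (n * v.degree) ≤ c * d := mul_le_mul_of_nonneg_left h1 hc0.le
        by_contra hcon
        rw [not_lt] at hcon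
        nlinarith
  refine ⟨?_, ?_⟩
  · apply Measurable.aestronglyMeasurable
    exact (MPb07157Q.continuous_evalC f).norm.measurable.pow_const _
  · refine lt_of_le_of_lt (lintegral_mono fun x => ?_) hlt
    rw [Real.enorm_of_nonneg (Real.rpow_nonneg (norm_nonneg _) _)]
    by_cases h0 : eval x f = 0
    · rw [h0, enorm_zero, ENNReal.zero_rpow_of_neg (by linarith)]
      exact le_top
    · rw [← ofReal_norm, ENNReal.ofReal_rpow_of_pos (norm_pos_iff.2 h0)]

end MPb07157
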