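import Mathlib

/-!
# Integrability near the origin by dyadic scaling
-/

noncomputable section

namespace MPb07157M

open MeasureTheory Metric Module
open scoped ENNReal

section Scaling

variable {E : Type*} [NormedAddCommGroup E] [NormedSpace ℝ E] [FiniteDimensional ℝ E]
  [MeasurableSpace E] [BorelSpace E] (μ : Measure E) [μ.IsAddHaarMeasure]

theorem lintegral_half {h : E → ℝ≥0∞} (hh : Measurable h) :
    ∫⁻ x, h x ∂μ =
      ENNReal.ofReal ((2 : ℝ)⁻¹ ^ finrank ℝ E) * ∫⁻ y, h ((2 : ℝ)⁻¹ • y) ∂μ := by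
  have h1 := Measure.map_addHaar_smul μ (r := (2 : ℝ)⁻¹) (by norm_num)
  have h2 : ∫⁻ x, h x ∂(Measure.map (fun x : E => (2 : ℝ)⁻¹ • x) μ) =
      ∫⁻ y, h ((2 : ℝ)⁻¹ • y) ∂μ := lintegral_map hh (measurable_const_smul _)
  rw [h1, lintegral_smul_measure, smul_eq_mul] at h2
  rw [← h2, ← mul_assoc, ← ENNReal.ofReal_mul (by positivity), abs_of_pos (by positivity),
    mul_inv_cancel₀ (by positivity), ENNReal.ofReal_one, one_mul]

/-- Dyadic shells. -/
def shell (E : Type*) [NormedAddCommGroup E] (k : ℕ) : Set E :=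
  {x | (2 : ℝ)⁻¹ ^ (k + 1) ≤ ‖x‖ ∧ ‖x‖ < (2 : ℝ)⁻¹ ^ k}

omit [NormedSpace ℝ E] [FiniteDimensional ℝ E] in
theorem measurableSet_shell (k : ℕ) : MeasurableSet (shell E k) :=
  (measurableSet_le measurable_const measurable_norm).inter
    (measurableSet_lt measurable_norm measurable_const)

omit [FiniteDimensional ℝ E] [MeasurableSpace E] [BorelSpace E] in
theorem half_smul_mem_shell {k : ℕ} {y : E} : (2 : ℝ)⁻¹ • y ∈ shell E (k + 1) ↔ y ∈ shell E k := by
  unfold shell
  rw [Set.mem_ofPred_eq, Set.mem_ofPred_eq, norm_smul, Real.norm_of_nonneg (by norm_num)]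
  rw [pow_succ' _ (k + 1), pow_succ' _ k]
  constructor
  · rintro ⟨h1, h2⟩
    refine ⟨?_, ?_⟩
    · rw [← pow_succ'] at h1
      linarith [pow_succ' (2 : ℝ)⁻¹ k]
    · linarith
  · rintro ⟨h1, h2⟩
    refine ⟨?_, ?_⟩
    · rw [← pow_succ']
      linarith [pow_succ' (2 : ℝ)⁻¹ k]
    · linarith

theorem lintegral_shell_succ {g : E → ℝ≥0∞} (hg : Measurable g) {C : ℝ≥0∞}
    (hs : ∀ x, g ((2 : ℝ)⁻¹ • x) = C * g x) (k : ℕ) :
    ∫⁻ x in shell E (k + 1), g x ∂μ =
      (ENNReal.ofReal ((2 : ℝ)⁻¹ ^ finrank ℝ E) * C) * ∫⁻ x in shell E k, g x ∂μ := by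
  rw [← lintegral_indicator (measurableSet_shell (k + 1)),
    lintegral_half μ (hg.indicator (measurableSet_shell (k + 1)))]
  have h1 : (fun y : E => (shell E (k + 1)).indicator g ((2 : ℝ)⁻¹ • y)) =
      (shell E k).indicator (fun y => C * g y) := by
    funext y
    by_cases hy : y ∈ shell E k
    · rw [Set.indicator_of_mem (half_smul_mem_shell.2 hy), Set.indicator_of_mem hy, hs]
    · rw [Set.indicator_of_notMem (fun h => hy (half_smul_mem_shell.1 h)),
        Set.indicator_of_notMem hy]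
  rw [h1, lintegral_indicator (measurableSet_shell k), lintegral_const_mul _ hg, mul_assoc]

/-- If `g` is multiplied by `2^α` under `x ↦ x/2`, `α < dim E`, and the integral of `g` over the shell
`1/2 ≤ |x| < 1` is finite, then the integral over the unit ball is finite. -/
theorem lintegral_ball_lt_top [Nontrivial E] {g : E → ℝ≥0∞} (hg : Measurable g) {α : ℝ}
    (hα : α < finrank ℝ E)
    (hs : ∀ x, g ((2 : ℝ)⁻¹ • x) = ENNReal.ofReal ((2 : ℝ) ^ α) * g x)
    (hA : ∫⁻ x in shell E 0, g x ∂μ < ∞) : ∫⁻ x in ball 0 1, g x ∂μ < ∞ := by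
  set q := ENNReal.ofReal ((2 : ℝ)⁻¹ ^ finrank ℝ E) * ENNReal.ofReal ((2 : ℝ) ^ α) with hq
  have hq1 : q < 1 := by
    rw [hq, ← ENNReal.ofReal_mul (by positivity), ← ENNReal.ofReal_one]
    apply (ENNReal.ofReal_lt_ofReal_iff one_pos).2
    rw [inv_pow, ← Real.rpow_natCast, ← Real.rpow_neg (by norm_num), ← Real.rpow_add (by norm_num)]
    apply Real.rpow_lt_one_of_one_lt_of_neg (by norm_num)
    linarith
  have h1 : ∀ k, ∫⁻ x in shell E k, g x ∂μ = q ^ k * ∫⁻ x in shell E 0, g x ∂μ := by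
    intro k
    induction k with
    | zero => rw [pow_zero, one_mul]
    | succ k ih => rw [lintegral_shell_succ μ hg hs k, ← hq, ih, pow_succ', mul_assoc q]
  have h2 : ball (0 : E) 1 ⊆ {0} ∪ ⋃ k, shell E k := by
    intro x hx
    rw [mem_ball_zero_iff] at hx
    by_cases hx0 : x = 0
    · exact Or.inl hx0
    · right
      rw [Set.mem_iUnion]
      have hpos : 0 < ‖x‖ := norm_pos_iff.2 hx0
      have hex : ∃ k : ℕ, (2 : ℝ)⁻¹ ^ k ≤ ‖x‖ := by
        obtain ⟨k, hk⟩ := exists_pow_lt_of_lt_one hpos (show (2 : ℝ)⁻¹ < 1 by norm_num)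
        exact ⟨k, hk.le⟩
      classical
      have hk := Nat.find_spec hex
      have hk' := fun j => Nat.find_min hex (m := j)
      cases hc : Nat.find hex with
      | zero =>
        rw [hc, pow_zero] at hk
        linarith
      | succ k =>
        refine ⟨k, ?_, ?_⟩
        · rw [hc] at hk
          exact hk
        · have := hk' k (by omega)
          exact not_le.1 this
  calc ∫⁻ x in ball 0 1, g x ∂μ ≤ ∫⁻ x in ({0} ∪ ⋃ k, shell E k), g x ∂μ := lintegral_mono_set h2
    _ ≤ ∫⁻ x in ({0} : Set E), g x ∂μ + ∫⁻ x in ⋃ k, shell E k, g x ∂μ := lintegral_union_le _ _ _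
    _ ≤ 0 + ∑' k, ∫⁻ x in shell E k, g x ∂μ := by
        apply add_le_add
        · have : μ ({0} : Set E) = 0 := measure_singleton 0
          rw [setLIntegral_measure_zero _ _ this]
        · exact lintegral_iUnion_le _ _
    _ = (∑' k, q ^ k) * ∫⁻ x in shell E 0, g x ∂μ := by
        rw [zero_add, ← ENNReal.tsum_mul_right]
        exact tsum_congr h1
    _ < ∞ := by
        rw [ENNReal.tsum_geometric]
        apply ENNReal.mul_lt_top _ hA
        rw [ENNReal.inv_lt_top]
        exact tsub_pos_of_lt hq1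

end Scaling

/-- The function `|z|^{-a}`, `a < 2`, on the unit disc. -/
theorem lintegral_enorm_rpow {a : ℝ} (ha0 : 0 ≤ a) (ha : a < 2) :
    ∫⁻ z in ball (0 : ℂ) 1, ‖z‖ₑ ^ (-a) < ∞ := by
  apply lintegral_ball_lt_top volume (α := a)
  · exact measurable_enorm.pow_const _
  · rw [Complex.finrank_real_complex]
    exact_mod_cast ha
  · intro x
    rw [enorm_smul, ENNReal.mul_rpow_of_ne_top enorm_ne_top enorm_ne_top]
    congr 1
    rw [← ofReal_norm, Real.norm_of_nonneg (by norm_num),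
      ENNReal.ofReal_rpow_of_pos (by norm_num), Real.inv_rpow (by norm_num), Real.rpow_neg
      (by norm_num), inv_inv]
  · have h1 : ∀ z ∈ shell ℂ 0, ‖z‖ₑ ^ (-a) ≤ (2⁻¹ : ℝ≥0∞) ^ (-a) := by
      intro z hz
      have h2 : (2⁻¹ : ℝ≥0∞) ≤ ‖z‖ₑ := by
        have h3 := hz.1
        rw [zero_add, pow_one] at h3
        rw [← ofReal_norm, ← ENNReal.ofReal_ofNat, ← ENNReal.ofReal_inv_of_pos (by norm_num)]
        exact ENNReal.ofReal_le_ofReal h3
      rw [ENNReal.rpow_neg, ENNReal.rpow_neg]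
      exact ENNReal.inv_le_inv.2 (ENNReal.rpow_le_rpow h2 ha0)
    calc ∫⁻ z in shell ℂ 0, ‖z‖ₑ ^ (-a) ≤ ∫⁻ _ in shell ℂ 0, (2⁻¹ : ℝ≥0∞) ^ (-a) :=
          setLIntegral_mono' (measurableSet_shell 0) h1
      _ = (2⁻¹ : ℝ≥0∞) ^ (-a) * volume (shell ℂ 0) := setLIntegral_const _ _
      _ < ∞ := by
          apply ENNReal.mul_lt_top
          · rw [ENNReal.rpow_neg, ENNReal.inv_lt_top]
            apply ENNReal.rpow_pos (by simp) (by simp)
          · have h2 : shell ℂ 0 ⊆ ball 0 1 := by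
              intro z hz
              have := hz.2
              rw [pow_zero] at this
              rwa [mem_ball_zero_iff]
            exact (measure_mono h2).trans_lt measure_ball_lt_top

end MPb07157M
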