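import Pool.Agent.Lib.MP_b07157_agQ.MultA
import Pool.Agent.Lib.MP_b07157_agQ.MultB

/-!
# Uniform integrability of `|P|^{-2c}` on a small disc, `c < 1/m`
-/

noncomputable section

namespace MPb07157M

open MeasureTheory Metric Module Polynomial Finset
open scoped ENNReal

theorem prod_le_one_add_sum {m : ℕ} (x : Fin m → ℝ≥0∞) :
    ∏ i, x i ≤ 1 + ∑ i, x i ^ m := by
  rcases Nat.eq_zero_or_pos m with h | h
  · subst h
    simp
  · obtain ⟨i₀, -, hi₀⟩ := Finset.exists_max_image (Finset.univ : Finset (Fin m)) x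
      ⟨⟨0, h⟩, Finset.mem_univ _⟩
    calc ∏ i, x i ≤ ∏ _i : Fin m, x i₀ := Finset.prod_le_prod' fun i hi => hi₀ i hi
      _ = x i₀ ^ m := by simp
      _ ≤ ∑ i, x i ^ m := Finset.single_le_sum (f := fun i => x i ^ m) (fun _ _ => by simp)
          (Finset.mem_univ i₀)
      _ ≤ 1 + ∑ i, x i ^ m := le_add_self

theorem rpow_neg_le {x y : ℝ≥0∞} (h : x ≤ y) {a : ℝ} (ha : 0 ≤ a) : y ^ (-a) ≤ x ^ (-a) := by
  rw [ENNReal.rpow_neg, ENNReal.rpow_neg]
  exact ENNReal.inv_le_inv.2 (ENNReal.rpow_le_rpow h ha)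

theorem lintegral_translate {t : ℂ} {δ : ℝ} (hδ : δ ≤ 1 / 4) (ht : ‖t‖ ≤ δ) {g : ℂ → ℝ≥0∞} :
    ∫⁻ z in closedBall (0 : ℂ) δ, g (z - t) ≤ ∫⁻ z in ball (0 : ℂ) 1, g z := by
  rw [← lintegral_indicator measurableSet_closedBall, ← lintegral_indicator measurableSet_ball,
    ← lintegral_sub_right_eq_self ((ball (0 : ℂ) 1).indicator g) t]
  apply lintegral_mono
  intro z
  by_cases hz : z ∈ closedBall (0 : ℂ) δ
  · rw [Set.indicator_of_mem hz]
    beta_reduce
    rw [Set.indicator_of_mem]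
    rw [mem_ball_zero_iff]
    rw [mem_closedBall_zero_iff] at hz
    have := norm_sub_le z t
    linarith
  · rw [Set.indicator_of_notMem hz]
    simp

theorem exists_bound_disc (N m : ℕ) {c ε : ℝ} (hc0 : 0 < c) (hcm : c * m < 1) (hε : 0 < ε) :
    ∃ B : ℝ≥0∞, B < ∞ ∧ ∀ δ : ℝ, 0 < δ → δ ≤ 1 / 4 → ∀ P : ℂ[X], P.natDegree ≤ N →
      ε ≤ ‖P.coeff m‖ - tl N m ((m + 1) * δ) P →
      ∫⁻ z in closedBall (0 : ℂ) δ, ‖P.eval z‖ₑ ^ (-(2 * c)) ≤ B := by
  set J := ∫⁻ z in ball (0 : ℂ) 1, ‖z‖ₑ ^ (-(2 * c * m)) with hJ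
  have hJ1 : J < ∞ := lintegral_enorm_rpow (by positivity) (by nlinarith)
  set A' := ENNReal.ofReal ((1 / 2) ^ m * ε) with hA'
  have hA'0 : 0 < A' := ENNReal.ofReal_pos.2 (by positivity)
  have hA't : A' ≠ ∞ := ENNReal.ofReal_ne_top
  set A := A' ^ (-(2 * c)) with hA
  have hA1 : A < ∞ := by
    rw [hA, ENNReal.rpow_neg, ENNReal.inv_lt_top]
    exact ENNReal.rpow_pos hA'0 hA't
  refine ⟨A * (volume (ball (0 : ℂ) 1) + m * J), ?_, ?_⟩
  · apply ENNReal.mul_lt_top hA1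
    rw [ENNReal.add_lt_top]
    exact ⟨measure_ball_lt_top, ENNReal.mul_lt_top (ENNReal.natCast_lt_top m) hJ1⟩
  · intro δ hδ0 hδ P hP h
    obtain ⟨t, ht, hz⟩ := exists_points hδ0.le m P hP h
    have hpt : ∀ z ∈ closedBall (0 : ℂ) δ, ‖P.eval z‖ₑ ^ (-(2 * c)) ≤
        A * (1 + ∑ i, ‖z - t i‖ₑ ^ (-(2 * c * m))) := by
      intro z hz'
      rw [mem_closedBall_zero_iff] at hz'
      have h1 : A' * ∏ i, ‖z - t i‖ₑ ≤ ‖P.eval z‖ₑ := by
        have h2 := ENNReal.ofReal_le_ofReal (hz z hz')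
        rw [ENNReal.ofReal_mul (by positivity), ENNReal.ofReal_prod_of_nonneg
          (fun i _ => norm_nonneg _)] at h2
        simp only [ofReal_norm] at h2
        exact h2
      refine (rpow_neg_le h1 (by positivity)).trans ?_
      rw [ENNReal.mul_rpow_of_ne_top hA't (ENNReal.prod_ne_top fun i _ => enorm_ne_top)]
      apply mul_le_mul_right
      rw [← ENNReal.prod_rpow_of_ne_top (fun i _ => enorm_ne_top)]
      refine (prod_le_one_add_sum _).trans ?_
      apply add_le_add le_rfl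
      refine Finset.sum_le_sum fun i _ => le_of_eq ?_
      rw [← ENNReal.rpow_natCast, ← ENNReal.rpow_mul]
      congr 1
      ring
    have hmeas : ∀ i, Measurable (fun z : ℂ => ‖z - t i‖ₑ ^ (-(2 * c * m))) := fun i =>
      ((measurable_id.sub_const _).enorm).pow_const _
    calc ∫⁻ z in closedBall (0 : ℂ) δ, ‖P.eval z‖ₑ ^ (-(2 * c))
        ≤ ∫⁻ z in closedBall (0 : ℂ) δ, A * (1 + ∑ i, ‖z - t i‖ₑ ^ (-(2 * c * m))) :=
          setLIntegral_mono' measurableSet_closedBall hpt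
      _ = A * ∫⁻ z in closedBall (0 : ℂ) δ, (1 + ∑ i, ‖z - t i‖ₑ ^ (-(2 * c * m))) := by
          rw [lintegral_const_mul]
          exact measurable_const.add (Finset.measurable_sum _ fun i _ => hmeas i)
      _ = A * (volume (closedBall (0 : ℂ) δ) +
          ∑ i, ∫⁻ z in closedBall (0 : ℂ) δ, ‖z - t i‖ₑ ^ (-(2 * c * m))) := by
          rw [lintegral_add_left measurable_const, lintegral_finsetSum _ fun i _ => hmeas i,
            setLIntegral_const, one_mul]
      _ ≤ A * (volume (ball (0 : ℂ) 1) + m * J) := by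
          apply mul_le_mul_right
          apply add_le_add
          · apply measure_mono
            intro z hz
            rw [mem_closedBall_zero_iff] at hz
            rw [mem_ball_zero_iff]
            linarith
          · calc ∑ i, ∫⁻ z in closedBall (0 : ℂ) δ, ‖z - t i‖ₑ ^ (-(2 * c * m))
                ≤ ∑ _i : Fin m, J := Finset.sum_le_sum fun i _ =>
                  lintegral_translate (g := fun z => ‖z‖ₑ ^ (-(2 * c * m))) hδ (ht i)
              _ = m * J := by simp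

end MPb07157M
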