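import Mathlib

/-!
# Elimination

Polynomials `v_i ∈ R[X]` over a factorial ring `R` without a common factor: their ideal contains a
non-zero element of `R`.
-/

noncomputable section

namespace MPb07157

open nonZeroDivisors

theorem exists_elim {R : Type} [CommRing R] [IsDomain R] [NormalizedGCDMonoid R] {ι : Type}
    [Fintype ι] (v : ι → Polynomial R) (hv : ∀ q, (∀ i, q ∣ v i) → IsUnit q) :
    ∃ t : R, t ≠ 0 ∧ Polynomial.C t ∈ Ideal.span (Set.range v) := by
  classical
  let K := FractionRing R
  have hinj : Function.Injective (Polynomial.map (algebraMap R K)) :=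
    Polynomial.map_injective _ (IsFractionRing.injective R K)
  let J : Ideal (Polynomial K) := Ideal.span (Set.range fun i => (v i).map (algebraMap R K))
  obtain ⟨d, hd⟩ := (IsPrincipalIdealRing.principal J).principal
  have hd' : J = Ideal.span {d} := hd
  have hdvd : ∀ i, d ∣ (v i).map (algebraMap R K) := by
    intro i
    rw [← Ideal.mem_span_singleton, ← hd']
    exact Ideal.subset_span ⟨i, rfl⟩
  have hd0 : d ≠ 0 := by
    rintro rfl
    have h1 := hv 0 fun i => by
      have h2 := zero_dvd_iff.1 (hdvd i)
      have h3 : v i = 0 := hinj (by rw [h2, Polynomial.map_zero])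
      rw [h3]
    exact not_isUnit_zero h1
  set D := IsLocalization.integerNormalization R⁰ d with hD
  obtain ⟨b, hb, hbD⟩ := IsLocalization.integerNormalization_spec R⁰ d
  have hb0 : algebraMap R K b ≠ 0 := by
    intro h
    exact nonZeroDivisors.ne_zero hb (IsFractionRing.injective R K (by rw [h, map_zero]))
  have hq : IsUnit D.primPart := by
    refine hv _ fun i => ?_
    refine (D.isPrimitive_primPart).dvd_of_fraction_map_dvd_fraction_map (K := K) ?_
    have h1 : D.primPart.map (algebraMap R K) ∣ D.map (algebraMap R K) :=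
      Polynomial.map_dvd _ ⟨Polynomial.C D.content, by
        conv_lhs => rw [D.eq_C_content_mul_primPart]
        rw [mul_comm]⟩
    refine h1.trans ?_
    rw [hD, hbD]
    obtain ⟨r, hr⟩ := hdvd i
    refine ⟨Polynomial.C (algebraMap R K b)⁻¹ * r, ?_⟩
    rw [hr, Algebra.smul_def, Polynomial.algebraMap_apply]
    have h2 : Polynomial.C (algebraMap R K b) * Polynomial.C (algebraMap R K b)⁻¹ = 1 := by
      rw [← Polynomial.C_mul, mul_inv_cancel₀ hb0, Polynomial.C_1]
    linear_combination -(d * r) * h2
  have hdu : IsUnit d :=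
    Polynomial.isUnit_or_eq_zero_of_isUnit_integerNormalization_primPart hd0 hq
  have h1 : (1 : Polynomial K) ∈ J := by
    rw [hd', Ideal.span_singleton_eq_top.2 hdu]
    trivial
  obtain ⟨a, ha⟩ := Ideal.mem_span_range_iff_exists_fun.1 h1
  choose c hc hca using fun i => IsLocalization.integerNormalization_spec R⁰ (a i)
  set A := fun i => IsLocalization.integerNormalization R⁰ (a i) with hA
  refine ⟨∏ i, c i, Finset.prod_ne_zero_iff.2 fun i _ => nonZeroDivisors.ne_zero (hc i), ?_⟩
  have h2 : Polynomial.C (∏ i, c i) =
      ∑ i, Polynomial.C (∏ j ∈ Finset.univ.erase i, c j) * A i * v i := by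
    apply hinj
    rw [Polynomial.map_sum, Polynomial.map_C]
    have h3 : ∀ i, (Polynomial.C (∏ j ∈ Finset.univ.erase i, c j) * A i * v i).map
        (algebraMap R K) = Polynomial.C (algebraMap R K (∏ i, c i)) *
          (a i * (v i).map (algebraMap R K)) := by
      intro i
      rw [Polynomial.map_mul, Polynomial.map_mul, Polynomial.map_C, hA]
      simp only
      rw [hca i, Algebra.smul_def, Polynomial.algebraMap_apply,
        ← Finset.mul_prod_erase Finset.univ c (Finset.mem_univ i), map_mul, Polynomial.C_mul]
      ring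
    rw [Finset.sum_congr rfl fun i _ => h3 i, ← Finset.mul_sum, ha, mul_one]
  rw [h2]
  exact Submodule.sum_mem _ fun i _ => Ideal.mul_mem_left _ _ (Ideal.subset_span ⟨i, rfl⟩)

end MPb07157
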