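import Pool.Agent.Lib.MP_b07157_agQ.FinE

/-!
# Common zeros of homogeneous polynomials in three variables

Homogeneous polynomials in three variables without a common factor have only finitely many common
zeros in the projective plane.
-/

noncomputable section

namespace MPb07157

open MvPolynomial

variable {n : ℕ}

theorem finSuccEquiv_rename_succ' (t : MvPolynomial (Fin n) ℂ) :
    finSuccEquiv ℂ n (rename Fin.succ t) = Polynomial.C t := by
  induction t using MvPolynomial.induction_on with
  | C a => simp [finSuccEquiv_apply]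
  | add p q hp hq => rw [map_add, map_add, hp, hq, map_add]
  | mul_X p i hp => rw [map_mul, map_mul, hp, rename_X, finSuccEquiv_X_succ, map_mul]

theorem exists_elim_perm {ι : Type} [Fintype ι] (v : ι → MvPolynomial (Fin (n + 1)) ℂ)
    (hv : ∀ q, (∀ i, q ∣ v i) → IsUnit q) (σ : Equiv.Perm (Fin (n + 1))) :
    ∃ t : MvPolynomial (Fin n) ℂ, t ≠ 0 ∧
      rename (fun i : Fin n => σ i.succ) t ∈ Ideal.span (Set.range v) := by
  let φ : MvPolynomial (Fin (n + 1)) ℂ ≃ₐ[ℂ] Polynomial (MvPolynomial (Fin n) ℂ) :=
    (renameEquiv ℂ σ.symm).trans (finSuccEquiv ℂ n)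
  let _ : NormalizedGCDMonoid (MvPolynomial (Fin n) ℂ) := Nonempty.some inferInstance
  obtain ⟨t, ht, hmem⟩ := exists_elim (fun i => φ (v i)) (fun q hq => by
    have h1 := hv (φ.symm q) fun i => by
      have h2 := map_dvd φ.symm (hq i)
      rwa [AlgEquiv.symm_apply_apply] at h2
    have h2 := h1.map φ
    rwa [AlgEquiv.apply_symm_apply] at h2)
  refine ⟨t, ht, ?_⟩
  have h1 : φ (rename (fun i : Fin n => σ i.succ) t) = Polynomial.C t := by
    change finSuccEquiv ℂ n (rename σ.symm (rename (fun i : Fin n => σ i.succ) t)) = _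
    rw [rename_rename]
    have h2 : (σ.symm ∘ fun i : Fin n => σ i.succ) = Fin.succ := by
      funext i
      simp
    rw [h2, finSuccEquiv_rename_succ']
  have h3 := Ideal.mem_map_of_mem (φ.symm : Polynomial (MvPolynomial (Fin n) ℂ) →+*
    MvPolynomial (Fin (n + 1)) ℂ) hmem
  rw [Ideal.map_span, ← Set.range_comp] at h3
  have h4 : ((φ.symm : Polynomial (MvPolynomial (Fin n) ℂ) →+*
      MvPolynomial (Fin (n + 1)) ℂ) : Polynomial (MvPolynomial (Fin n) ℂ) →
      MvPolynomial (Fin (n + 1)) ℂ) ∘ (fun i => φ (v i)) = v := by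
    funext i
    simp
  rw [h4, ← h1] at h3
  simpa using h3

theorem eval_mul_of_isHomogeneous {f : MvPolynomial (Fin n) ℂ} {d : ℕ} (hf : f.IsHomogeneous d)
    (t : ℂ) (p : Fin n → ℂ) : eval (fun i => t * p i) f = t ^ d * eval p f := by
  rw [eval_eq', eval_eq', Finset.mul_sum]
  refine Finset.sum_congr rfl fun v hv => ?_
  have h1 : ∑ i, v i = d := by
    have h2 := hf (mem_support_iff.1 hv)
    rw [Finsupp.weight_apply, Finsupp.sum_fintype _ _ (fun i => by simp)] at h2
    simpa using h2
  simp only [mul_pow]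
  rw [Finset.prod_mul_distrib, Finset.prod_pow_eq_pow_sum, h1]
  ring

/-- A polynomial which vanishes at all multiples of `p`: its components vanish at `p`. -/
theorem eval_component_eq_zero {t : MvPolynomial (Fin n) ℂ} {p : Fin n → ℂ}
    (h : ∀ c : ℂ, eval (fun i => c * p i) t = 0) (j : ℕ) :
    eval p (homogeneousComponent j t) = 0 := by
  set P : Polynomial ℂ := ∑ j ∈ Finset.range (t.totalDegree + 1),
    Polynomial.C (eval p (homogeneousComponent j t)) * Polynomial.X ^ j with hP
  have h1 : P = 0 := by
    apply Polynomial.funext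
    intro c
    rw [Polynomial.eval_zero, hP, Polynomial.eval_finsetSum, ← h c]
    conv_rhs => rw [← sum_homogeneousComponent t, map_sum]
    refine Finset.sum_congr rfl fun j _ => ?_
    rw [eval_mul_of_isHomogeneous (homogeneousComponent_isHomogeneous j t), Polynomial.eval_mul,
      Polynomial.eval_C, Polynomial.eval_pow, Polynomial.eval_X, mul_comm]
  by_cases hj : j < t.totalDegree + 1
  · have h2 : P.coeff j = eval p (homogeneousComponent j t) := by
      rw [hP, Polynomial.finsetSum_coeff]
      simp only [Polynomial.coeff_C_mul, Polynomial.coeff_X_pow]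
      rw [Finset.sum_eq_single j]
      · rw [if_pos rfl, mul_one]
      · intro l _ hl
        rw [if_neg (fun h => hl h.symm), mul_zero]
      · intro h3
        exact absurd (Finset.mem_range.2 hj) h3
    rw [← h2, h1, Polynomial.coeff_zero]
  · rw [homogeneousComponent_eq_zero j t (by omega), map_zero]

/-- The slopes of the zeros of a non-zero homogeneous polynomial in two variables. -/
theorem exists_slopes {t : MvPolynomial (Fin 2) ℂ} {D : ℕ} (ht : t ≠ 0) (hD : t.IsHomogeneous D) :
    ∃ F : Finset ℂ, ∀ p : Fin 2 → ℂ, p 0 ≠ 0 → eval p t = 0 → p 1 / p 0 ∈ F := by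
  set P : Polynomial ℂ := aeval ![(1 : Polynomial ℂ), Polynomial.X] t with hP
  have hPe : ∀ y : ℂ, P.eval y = eval ![1, y] t := by
    intro y
    rw [hP, ← Polynomial.coe_evalRingHom, map_aeval]
    have h1 : ((Polynomial.evalRingHom y).comp (algebraMap ℂ (Polynomial ℂ))) = RingHom.id ℂ := by
      apply RingHom.ext
      intro c
      simp
    rw [h1, coe_eval₂Hom]
    have h2 : (fun i => (Polynomial.evalRingHom y) (![(1 : Polynomial ℂ), Polynomial.X] i)) =
        ![1, y] := by
      funext i
      fin_cases i <;> simp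
    rw [h2]
    rfl
  have hscale : ∀ p : Fin 2 → ℂ, p 0 ≠ 0 → eval p t = p 0 ^ D * P.eval (p 1 / p 0) := by
    intro p hp
    rw [hPe, ← eval_mul_of_isHomogeneous hD]
    congr 2
    funext i
    fin_cases i
    · simp
    · have h1 : p 1 = p 0 * (p 1 / p 0) := by field_simp
      exact h1
  have hP0 : P ≠ 0 := by
    intro h0
    apply ht
    have h1 : X 0 * t = 0 := by
      apply MvPolynomial.funext
      intro p
      rw [map_mul, eval_X, map_zero]
      by_cases hp : p 0 = 0
      · rw [hp, zero_mul]
      · rw [hscale p hp, h0, Polynomial.eval_zero, mul_zero, mul_zero]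
    exact (mul_eq_zero.1 h1).resolve_left (X_ne_zero 0)
  refine ⟨P.roots.toFinset, fun p hp h => ?_⟩
  rw [Multiset.mem_toFinset, Polynomial.mem_roots hP0, Polynomial.IsRoot.def]
  rw [hscale p hp] at h
  exact (mul_eq_zero.1 h).resolve_left (pow_ne_zero _ hp)

/-- Homogeneous polynomials in three variables without a common factor: their common zeros are on
finitely many lines through the origin. -/
theorem exists_lines_of_coprime {ι : Type} [Fintype ι] (v : ι → MvPolynomial (Fin 3) ℂ)
    {e : ι → ℕ} (he : ∀ i, (v i).IsHomogeneous (e i)) (hv : ∀ q, (∀ i, q ∣ v i) → IsUnit q) :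
    ∃ B : Finset (Fin 3 → ℂ), (∀ b ∈ B, b ≠ 0) ∧ ∀ p ≠ 0, (∀ i, eval p (v i) = 0) →
      ∃ b ∈ B, ∃ l : ℂ, p = l • b := by
  classical
  have hperm : ∀ a b : Fin 3, a ≠ b → ∃ σ : Equiv.Perm (Fin 3), σ 1 = a ∧ σ 2 = b := by decide
  have key : ∀ a b : Fin 3, ∃ F : Finset ℂ, a ≠ b → ∀ p : Fin 3 → ℂ, (∀ i, eval p (v i) = 0) →
      p a ≠ 0 → p b / p a ∈ F := by
    intro a b
    by_cases hab : a = b
    · exact ⟨∅, fun h => absurd hab h⟩
    obtain ⟨σ, h1, h2⟩ := hperm a b hab
    obtain ⟨t, ht, hmem⟩ := exists_elim_perm v hv σ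
    obtain ⟨D, hD⟩ : ∃ D, homogeneousComponent D t ≠ 0 := by
      by_contra hcon
      push Not at hcon
      apply ht
      rw [← sum_homogeneousComponent t]
      exact Finset.sum_eq_zero fun i _ => hcon i
    obtain ⟨F, hF⟩ := exists_slopes hD (homogeneousComponent_isHomogeneous D t)
    refine ⟨F, fun _ p hp hpa => ?_⟩
    have h3 : ∀ q : Fin 3 → ℂ, (∀ i, eval q (v i) = 0) → eval ![q a, q b] t = 0 := by
      intro q hq
      have h4 : Ideal.span (Set.range v) ≤ RingHom.ker (eval q) := by
        rw [Ideal.span_le]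
        rintro _ ⟨i, rfl⟩
        exact hq i
      have h5 : eval q (rename (fun i : Fin 2 => σ i.succ) t) = 0 := h4 hmem
      rw [eval_rename] at h5
      have h6 : (q ∘ fun i : Fin 2 => σ i.succ) = ![q a, q b] := by
        funext i
        fin_cases i
        · simp [h1]
        · have h7 : (Fin.succ (1 : Fin 2)) = (2 : Fin 3) := rfl
          simp [h7, h2]
      rwa [h6] at h5
    have h4 := eval_component_eq_zero (t := t) (p := ![p a, p b]) (fun c => by
      have h5 := h3 (fun i => c * p i) fun i => by
        rw [eval_mul_of_isHomogeneous (he i), hp i, mul_zero]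
      have h8 : (fun i => c * ![p a, p b] i) = ![c * p a, c * p b] := by
        funext j
        fin_cases j <;> rfl
      rw [h8]
      exact h5) D
    have h5 := hF ![p a, p b] (by simpa using hpa) h4
    simpa using h5
  choose F hF using key
  refine ⟨Finset.univ.biUnion fun a => Fintype.piFinset fun b => if b = a then {1} else F a b,
    ?_, ?_⟩
  · intro b hb h0
    rw [Finset.mem_biUnion] at hb
    obtain ⟨a, -, ha⟩ := hb
    rw [Fintype.mem_piFinset] at ha
    have h1 := ha a
    rw [if_pos rfl, Finset.mem_singleton, h0] at h1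
    exact zero_ne_one h1
  · intro p hp hpv
    obtain ⟨a, ha⟩ : ∃ a, p a ≠ 0 := by
      by_contra hcon
      push Not at hcon
      exact hp (funext hcon)
    refine ⟨fun b => p b / p a, ?_, p a, ?_⟩
    · rw [Finset.mem_biUnion]
      refine ⟨a, Finset.mem_univ a, ?_⟩
      rw [Fintype.mem_piFinset]
      intro b
      split_ifs with hb
      · rw [hb, div_self ha, Finset.mem_singleton]
      · exact hF a b (fun h => hb h.symm) p hpv ha
    · funext b
      simp only [Pi.smul_apply, smul_eq_mul]
      field_simp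

end MPb07157
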