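import Pool.Agent.Lib.MP_b07157_agQ.L2a

/-!
# Functions with vanishing moments
-/

noncomputable section

namespace MPb07157Q

open MvPolynomial MPb07157 MeasureTheory

variable {n : ℕ}

section Moments

variable {f : MvPolynomial (Fin n) ℂ} {Q : (Fin n → ℂ) → ℂ}

theorem integrable_mul_of_supp (hQ : Continuous Q) (hQ2 : ∀ x, 2 < ‖x‖ → Q x = 0)
    {u : (Fin n → ℂ) → ℂ} (hu : Continuous u) : Integrable (fun x => u x * Q x) := by
  have h1 : HasCompactSupport Q := by
    apply HasCompactSupport.intro (isCompact_closedBall (0 : Fin n → ℂ) 2)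
    intro x hx
    apply hQ2
    rwa [Metric.mem_closedBall, dist_zero_right, not_le] at hx
  exact (hu.mul hQ).integrable_of_hasCompactSupport h1.mul_left

theorem continuous_normSqF (f : MvPolynomial (Fin n) ℂ) :
    Continuous (fun x : Fin n → ℂ => ‖eval x f‖ ^ 2) := (continuous_evalC f).norm.pow 2

theorem integral_polynomial (hQ : Continuous Q) (hQ2 : ∀ x, 2 < ‖x‖ → Q x = 0)
    (h0 : ∀ q : ℕ, ∫ x, ((‖eval x f‖ ^ (2 * q) : ℝ) : ℂ) * Q x = 0) (p : Polynomial ℝ) :
    ∫ x, ((p.eval (‖eval x f‖ ^ 2) : ℝ) : ℂ) * Q x = 0 := by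
  have hcont : ∀ p : Polynomial ℝ,
      Continuous (fun x : Fin n → ℂ => ((p.eval (‖eval x f‖ ^ 2) : ℝ) : ℂ)) := fun p =>
    Complex.continuous_ofReal.comp (p.continuous.comp (continuous_normSqF f))
  induction p using Polynomial.induction_on' with
  | add p q hp hq =>
    simp only [Polynomial.eval_add, Complex.ofReal_add, add_mul]
    rw [integral_add (integrable_mul_of_supp hQ hQ2 (hcont p))
      (integrable_mul_of_supp hQ hQ2 (hcont q)), hp, hq, add_zero]
  | monomial k a =>
    simp only [Polynomial.eval_monomial, Complex.ofReal_mul, mul_assoc]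
    rw [integral_const_mul]
    simp only [← pow_mul]
    rw [h0 k, mul_zero]

theorem integral_continuous (hQ : Continuous Q) (hQ2 : ∀ x, 2 < ‖x‖ → Q x = 0)
    (h0 : ∀ q : ℕ, ∫ x, ((‖eval x f‖ ^ (2 * q) : ℝ) : ℂ) * Q x = 0) {φ : ℝ → ℝ}
    (hφ : ContinuousOn φ (Set.Ici 0)) :
    ∫ x, ((φ (‖eval x f‖ ^ 2) : ℝ) : ℂ) * Q x = 0 := by
  have hφc : Continuous (fun x : Fin n → ℂ => ((φ (‖eval x f‖ ^ 2) : ℝ) : ℂ)) :=
    Complex.continuous_ofReal.comp (hφ.comp_continuous (continuous_normSqF f)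
      fun x => Set.mem_Ici.2 (by positivity))
  obtain ⟨B, hB⟩ := (isCompact_closedBall (0 : Fin n → ℂ) 2).exists_bound_of_continuousOn
    (continuous_normSqF f).continuousOn
  have hQi : Integrable (fun x => ‖Q x‖) := by
    have := (integrable_mul_of_supp hQ hQ2 (u := fun _ => 1) continuous_const).norm
    simpa using this
  have key : ∀ ε : ℝ, 0 < ε → ‖∫ x, ((φ (‖eval x f‖ ^ 2) : ℝ) : ℂ) * Q x‖ ≤
      ε * ∫ x, ‖Q x‖ := by
    intro ε hε
    obtain ⟨p, hp⟩ := exists_polynomial_near_of_continuousOn 0 B φ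
      (hφ.mono Set.Icc_subset_Ici_self) ε hε
    have hpc : Continuous (fun x : Fin n → ℂ => ((p.eval (‖eval x f‖ ^ 2) : ℝ) : ℂ)) :=
      Complex.continuous_ofReal.comp (p.continuous.comp (continuous_normSqF f))
    have e1 : ∫ x, ((φ (‖eval x f‖ ^ 2) : ℝ) : ℂ) * Q x =
        ∫ x, (((φ (‖eval x f‖ ^ 2) : ℝ) : ℂ) * Q x -
          ((p.eval (‖eval x f‖ ^ 2) : ℝ) : ℂ) * Q x) := by
      rw [integral_sub (integrable_mul_of_supp hQ hQ2 hφc) (integrable_mul_of_supp hQ hQ2 hpc),
        integral_polynomial hQ hQ2 h0 p, sub_zero]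
    rw [e1, ← integral_const_mul]
    apply norm_integral_le_of_norm_le (hQi.const_mul ε)
    refine Filter.Eventually.of_forall fun x => ?_
    rw [← sub_mul, norm_mul, ← Complex.ofReal_sub, Complex.norm_real]
    by_cases hx : 2 < ‖x‖
    · rw [hQ2 x hx]
      simp
    · apply mul_le_mul_of_nonneg_right _ (norm_nonneg _)
      have h1 : ‖eval x f‖ ^ 2 ∈ Set.Icc 0 B := by
        refine ⟨by positivity, ?_⟩
        have h2 := hB x (by
          rw [Metric.mem_closedBall, dist_zero_right]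
          exact not_lt.1 hx)
        rwa [Real.norm_of_nonneg (by positivity)] at h2
      have h3 := hp _ h1
      rw [abs_sub_comm] at h3
      exact h3.le
  have h1 : ‖∫ x, ((φ (‖eval x f‖ ^ 2) : ℝ) : ℂ) * Q x‖ ≤ 0 := by
    apply le_of_forall_pos_le_add
    intro δ hδ
    have hI : 0 ≤ ∫ x, ‖Q x‖ := integral_nonneg fun x => norm_nonneg _
    have h2 := key (δ / ((∫ x, ‖Q x‖) + 1)) (by positivity)
    refine h2.trans ?_
    rw [zero_add, div_mul_eq_mul_div, div_le_iff₀ (by positivity)]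
    nlinarith
  exact norm_le_zero_iff.1 h1

/-- The function `min (k u) (u^s)`, continuous on `[0, ∞)`, increases to `u^s`. -/
theorem continuousOn_min_rpow {s : ℝ} (hs : s < 0) (k : ℕ) :
    ContinuousOn (fun u : ℝ => min (k * u) (u ^ s)) (Set.Ici 0) := by
  intro u hu
  rcases eq_or_lt_of_le (Set.mem_Ici.1 hu) with h | h
  · subst h
    have h0 : min ((k : ℝ) * 0) ((0 : ℝ) ^ s) = 0 := by
      rw [mul_zero, Real.zero_rpow hs.ne, min_self]
    unfold ContinuousWithinAt
    beta_reduce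
    rw [h0]
    have h1 : Filter.Tendsto (fun u : ℝ => (k : ℝ) * u) (nhdsWithin 0 (Set.Ici 0)) (nhds 0) := by
      have : Filter.Tendsto (fun u : ℝ => (k : ℝ) * u) (nhds 0) (nhds ((k : ℝ) * 0)) :=
        (continuous_const.mul continuous_id).tendsto 0
      rw [mul_zero] at this
      exact this.mono_left nhdsWithin_le_nhds
    refine tendsto_of_tendsto_of_tendsto_of_le_of_le' tendsto_const_nhds h1 ?_ ?_
    · filter_upwards [self_mem_nhdsWithin] with v hv
      have hv' : (0 : ℝ) ≤ v := hv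
      exact le_min (by positivity) (Real.rpow_nonneg hv' _)
    · exact Filter.Eventually.of_forall fun v => min_le_left _ _
  · apply ContinuousAt.continuousWithinAt
    exact (continuous_const.mul continuous_id).continuousAt.min
      (Real.continuousAt_rpow_const u s (Or.inl h.ne'))

theorem tendsto_min_rpow {s : ℝ} (hs : s < 0) {u : ℝ} (hu : 0 ≤ u) :
    Filter.Tendsto (fun k : ℕ => min (k * u) (u ^ s)) Filter.atTop (nhds (u ^ s)) := by
  rcases eq_or_lt_of_le hu with h | h
  · subst h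
    simp [Real.zero_rpow hs.ne]
  · apply tendsto_const_nhds.congr'
    obtain ⟨K, hK⟩ := exists_nat_ge (u ^ s / u)
    filter_upwards [Filter.eventually_ge_atTop K] with k hk
    rw [min_eq_right]
    have h1 : u ^ s / u ≤ k := hK.trans (by exact_mod_cast hk)
    rwa [div_le_iff₀ h] at h1

/-- **Part (b).** -/
theorem integral_rpow_mul (hQ : Continuous Q) (hQ2 : ∀ x, 2 < ‖x‖ → Q x = 0)
    (h0 : ∀ q : ℕ, ∫ x, ((‖eval x f‖ ^ (2 * q) : ℝ) : ℂ) * Q x = 0) {s : ℝ} (hs : s < 0)
    (hint : IntegrableOn (fun x : Fin n → ℂ => ‖eval x f‖ ^ (2 * s)) (Metric.closedBall 0 2)) :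
    Integrable (fun x : Fin n → ℂ => ((‖eval x f‖ ^ (2 * s) : ℝ) : ℂ) * Q x) ∧
    ∫ x, ((‖eval x f‖ ^ (2 * s) : ℝ) : ℂ) * Q x = 0 := by
  have hpow : ∀ x : Fin n → ℂ, (‖eval x f‖ ^ 2) ^ s = ‖eval x f‖ ^ (2 * s) := by
    intro x
    rw [Real.rpow_mul (norm_nonneg _)]
    norm_num
  obtain ⟨M, hM⟩ := (isCompact_closedBall (0 : Fin n → ℂ) 2).exists_bound_of_continuousOn
    hQ.continuousOn
  have hM' : ∀ x, ‖Q x‖ ≤ max M 0 := by
    intro x
    by_cases hx : 2 < ‖x‖
    · rw [hQ2 x hx, norm_zero]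
      exact le_max_right _ _
    · exact (hM x (by
        rw [Metric.mem_closedBall, dist_zero_right]
        exact not_lt.1 hx)).trans (le_max_left _ _)
  have hbound : Integrable (fun x : Fin n → ℂ => ‖eval x f‖ ^ (2 * s) * ‖Q x‖) := by
    have h1 : IntegrableOn (fun x : Fin n → ℂ => ‖eval x f‖ ^ (2 * s) * ‖Q x‖)
        (Metric.closedBall 0 2) := by
      refine Integrable.mul_bdd (c := max M 0) hint hQ.norm.aestronglyMeasurable ?_
      exact Filter.Eventually.of_forall fun x => by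
        rw [norm_norm]
        exact hM' x
    apply h1.integrable_of_forall_notMem_eq_zero
    intro x hx
    rw [Metric.mem_closedBall, dist_zero_right, not_le] at hx
    rw [hQ2 x hx, norm_zero, mul_zero]
  have hlim : Filter.Tendsto (fun k : ℕ =>
      ∫ x, ((min ((k : ℝ) * ‖eval x f‖ ^ 2) ((‖eval x f‖ ^ 2) ^ s) : ℝ) : ℂ) * Q x) Filter.atTop
      (nhds (∫ x, ((‖eval x f‖ ^ (2 * s) : ℝ) : ℂ) * Q x)) := by
    apply tendsto_integral_of_dominated_convergence
      (fun x : Fin n → ℂ => ‖eval x f‖ ^ (2 * s) * ‖Q x‖)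
    · intro k
      have hc : Continuous (fun x : Fin n → ℂ =>
          ((min ((k : ℝ) * ‖eval x f‖ ^ 2) ((‖eval x f‖ ^ 2) ^ s) : ℝ) : ℂ)) :=
        Complex.continuous_ofReal.comp ((continuousOn_min_rpow hs k).comp_continuous
          (continuous_normSqF f) fun x => Set.mem_Ici.2 (by positivity))
      exact (hc.mul hQ).aestronglyMeasurable
    · exact hbound
    · intro k
      refine Filter.Eventually.of_forall fun x => ?_
      rw [norm_mul, Complex.norm_real]
      apply mul_le_mul_of_nonneg_right _ (norm_nonneg _)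
      rw [Real.norm_of_nonneg (le_min (by positivity) (Real.rpow_nonneg (by positivity) _)),
        ← hpow x]
      exact min_le_right _ _
    · refine Filter.Eventually.of_forall fun x => ?_
      apply Filter.Tendsto.mul_const
      rw [← hpow x]
      exact (Complex.continuous_ofReal.tendsto _).comp (tendsto_min_rpow hs (by positivity))
  refine ⟨?_, ?_⟩
  · rw [← integrable_norm_iff]
    · refine hbound.congr (Filter.Eventually.of_forall fun x => ?_)
      beta_reduce
      rw [norm_mul, Complex.norm_real, Real.norm_of_nonneg (Real.rpow_nonneg (norm_nonneg _) _)]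
    · have hm : Measurable (fun x : Fin n → ℂ => ((‖eval x f‖ ^ (2 * s) : ℝ) : ℂ)) :=
        Complex.measurable_ofReal.comp
          ((continuous_evalC f).norm.measurable.pow_const _)
      exact (hm.mul hQ.measurable).aestronglyMeasurable
  · apply tendsto_nhds_unique hlim
    have h1 : ∀ k : ℕ, ∫ x, ((min ((k : ℝ) * ‖eval x f‖ ^ 2) ((‖eval x f‖ ^ 2) ^ s) : ℝ) : ℂ) *
        Q x = 0 := fun k => integral_continuous hQ hQ2 h0 (continuousOn_min_rpow hs k)
    simp only [h1]
    exact tendsto_const_nhds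

end Moments

end MPb07157Q
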