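import Pool.Agent.Lib.MP_b07157_agQ.Lines

/-!
# Scaling of the integrals of powers of a homogeneous polynomial
-/

noncomputable section

namespace MPb07157

open MvPolynomial MeasureTheory Metric Filter Topology Pointwise

variable {n : ℕ}

/-- The scaling of the absolute value of a homogeneous polynomial. -/
private lemma norm_eval_two_smul {d : ℕ} {f : MvPolynomial (Fin n) ℂ} (hh : f.IsHomogeneous d)
    (s : ℝ) (x : Fin n → ℂ) :
    ‖eval ((2 : ℝ) • x) f‖ ^ (2 * s) = (2 : ℝ) ^ (2 * (d * s)) * ‖eval x f‖ ^ (2 * s) := by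
  have h1 : (2 : ℝ) • x = (2 : ℂ) • x := by
    funext i
    simp
  rw [h1, eval_smul_of_isHomogeneous hh, norm_mul, norm_pow, Complex.norm_ofNat,
    Real.mul_rpow (by positivity) (norm_nonneg _), ← Real.rpow_natCast, ← Real.rpow_mul (by norm_num)]
  congr 2
  ring

private lemma two_smul_ball (r : ℝ) : (2 : ℝ) • ball (0 : Fin n → ℂ) r = ball 0 (2 * r) := by
  rw [smul_ball two_ne_zero]
  simp

/-- Integrability on all balls. -/
private lemma integrableOn_two {d : ℕ} {f : MvPolynomial (Fin n) ℂ} (hh : f.IsHomogeneous d)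
    {s : ℝ} (h : IntegrableOn (fun x : Fin n → ℂ => ‖eval x f‖ ^ (2 * s)) (ball 0 1)) :
    IntegrableOn (fun x : Fin n → ℂ => ‖eval x f‖ ^ (2 * s)) (ball 0 2) := by
  rw [← integrable_indicator_iff measurableSet_ball]
  rw [← integrable_comp_smul_iff volume _ (two_ne_zero (α := ℝ))]
  have h1 : (fun x : Fin n → ℂ => (ball (0 : Fin n → ℂ) 2).indicator
      (fun x => ‖eval x f‖ ^ (2 * s)) ((2 : ℝ) • x)) =
      (ball (0 : Fin n → ℂ) 1).indicator
        (fun x => (2 : ℝ) ^ (2 * (d * s)) * ‖eval x f‖ ^ (2 * s)) := by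
    funext x
    have h2 : ((2 : ℝ) • x ∈ ball (0 : Fin n → ℂ) 2) ↔ x ∈ ball (0 : Fin n → ℂ) 1 := by
      rw [mem_ball_zero_iff, mem_ball_zero_iff, norm_smul, Real.norm_ofNat]
      constructor <;> intro h <;> linarith
    by_cases hx : x ∈ ball (0 : Fin n → ℂ) 1
    · rw [Set.indicator_of_mem (h2.2 hx), Set.indicator_of_mem hx, norm_eval_two_smul hh]
    · rw [Set.indicator_of_notMem (fun h3 => hx (h2.1 h3)), Set.indicator_of_notMem hx]
  rw [h1, integrable_indicator_iff measurableSet_ball]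
  exact h.const_mul _

/-- A nonzero homogeneous polynomial has a point of the unit ball at which it is not zero. -/
private lemma exists_ne_zero_ball {d : ℕ} {f : MvPolynomial (Fin n) ℂ} (hf : f ≠ 0)
    (hh : f.IsHomogeneous d) : ({x : Fin n → ℂ | eval x f ≠ 0} ∩ ball 0 1).Nonempty := by
  obtain ⟨x, hx⟩ : ∃ x : Fin n → ℂ, eval x f ≠ 0 := by
    by_contra h
    push Not at h
    exact hf (MvPolynomial.funext fun x => by rw [h x, map_zero])
  have hpos : 0 < 2 * (‖x‖ + 1) := by positivity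
  refine ⟨((1 / (2 * (‖x‖ + 1)) : ℝ) : ℂ) • x, ?_, ?_⟩
  · change eval (((1 / (2 * (‖x‖ + 1)) : ℝ) : ℂ) • x) f ≠ 0
    rw [eval_smul_of_isHomogeneous hh]
    refine mul_ne_zero (pow_ne_zero _ ?_) hx
    exact_mod_cast (one_div_pos.2 hpos).ne'
  · rw [mem_ball_zero_iff, norm_smul, Complex.norm_real, Real.norm_of_nonneg (by positivity),
      one_div, inv_mul_lt_iff₀ hpos]
    have := norm_nonneg x
    linarith

/-- The main bound: if the integrals over the unit ball are bounded by the correction terms, the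
constant is zero. -/
theorem scaling_zero {d : ℕ} (hn : 0 < n) (hd : 0 < d) {f : MvPolynomial (Fin n) ℂ} (hf : f ≠ 0)
    (hh : f.IsHomogeneous d)
    (hint : ∀ c : ℝ, c < n / d →
      IntegrableOn (fun x : Fin n → ℂ => ‖eval x f‖ ^ (-(2 * c))) (ball 0 1))
    {c C : ℝ} (hC : 0 ≤ C)
    (hb : ∀ s : ℝ, -((n : ℝ) / d) < s → s < 0 →
      |c| * ∫ x in ball (0 : Fin n → ℂ) 1, ‖eval x f‖ ^ (2 * s) ≤
        C * (∫ x in ball (0 : Fin n → ℂ) 1, ‖x‖ * ‖eval x f‖ ^ (2 * s)) +
          C * ∫ x in ball (0 : Fin n → ℂ) 2 \ ball 0 1, ‖eval x f‖ ^ (2 * s)) : c = 0 := by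
  have hn' : (0 : ℝ) < n := by exact_mod_cast hn
  have hd' : (0 : ℝ) < d := by exact_mod_cast hd
  have hfin : Module.finrank ℝ (Fin n → ℂ) = 2 * n := by
    simp [Module.finrank_pi_fintype, Complex.finrank_real_complex, mul_comm]
  -- the factor
  let q : ℝ → ℝ := fun s => (2 : ℝ) ^ (2 * (n + d * s))
  have hq1 : ∀ s, -((n : ℝ) / d) < s → 1 < q s := by
    intro s hs
    apply Real.one_lt_rpow (by norm_num)
    have h1 := mul_lt_mul_of_pos_left hs hd'
    have h2 : (d : ℝ) * -((n : ℝ) / d) = -n := by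
      field_simp
    rw [h2] at h1
    linarith
  have key : ∀ s, -((n : ℝ) / d) < s → s < 0 → |c| ≤ C * (2 + q s) * (1 - (q s)⁻¹) := by
    intro s hs1 hs2
    have hq := hq1 s hs1
    have hq0 : 0 < q s := by linarith
    let u : (Fin n → ℂ) → ℝ := fun x => ‖eval x f‖ ^ (2 * s)
    have hu0 : ∀ x, 0 ≤ u x := fun x => Real.rpow_nonneg (norm_nonneg _) _
    have hI1 : IntegrableOn u (ball 0 1) := by
      have := hint (-s) (by linarith)
      simpa using this
    have hI2 : IntegrableOn u (ball 0 2) := integrableOn_two hh hI1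
    have hu2 : ∀ x, u ((2 : ℝ) • x) = (2 : ℝ) ^ (2 * (d * s)) * u x := norm_eval_two_smul hh s
    have hqn : (2 : ℝ) ^ (2 * n) * (2 : ℝ) ^ (2 * (d * s)) = q s := by
      rw [← Real.rpow_natCast, ← Real.rpow_add (by norm_num)]
      congr 1
      push_cast
      ring
    have hscale : ∀ r : ℝ, ∫ x in ball (0 : Fin n → ℂ) (2 * r), u x =
        q s * ∫ x in ball (0 : Fin n → ℂ) r, u x := by
      intro r
      have h1 := Measure.setIntegral_comp_smul_of_pos volume u (ball (0 : Fin n → ℂ) r)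
        (two_pos (α := ℝ))
      rw [two_smul_ball, hfin, smul_eq_mul] at h1
      simp_rw [hu2] at h1
      rw [integral_const_mul] at h1
      have h2 : (2 : ℝ) ^ (2 * n) ≠ 0 := by positivity
      rw [← hqn, mul_assoc, h1]
      field_simp
    have hscale' : ∀ r : ℝ, ∫ x in ball (0 : Fin n → ℂ) (2 * r), ‖x‖ * u x =
        2 * q s * ∫ x in ball (0 : Fin n → ℂ) r, ‖x‖ * u x := by
      intro r
      have h1 := Measure.setIntegral_comp_smul_of_pos volume (fun x => ‖x‖ * u x)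
        (ball (0 : Fin n → ℂ) r) (two_pos (α := ℝ))
      rw [two_smul_ball, hfin, smul_eq_mul] at h1
      have h3 : ∀ x : Fin n → ℂ, ‖(2 : ℝ) • x‖ * u ((2 : ℝ) • x) =
          (2 * (2 : ℝ) ^ (2 * (d * s))) * (‖x‖ * u x) := by
        intro x
        rw [hu2, norm_smul, Real.norm_ofNat]
        ring
      simp_rw [h3] at h1
      rw [integral_const_mul] at h1
      have h2 : (2 : ℝ) ^ (2 * n) ≠ 0 := by positivity
      have h4 : ∫ x in ball (0 : Fin n → ℂ) (2 * r), ‖x‖ * u x = (2 : ℝ) ^ (2 * n) *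
          (2 * (2 : ℝ) ^ (2 * (d * s)) * ∫ x in ball (0 : Fin n → ℂ) r, ‖x‖ * u x) := by
        rw [h1]
        field_simp
      rw [h4, ← hqn]
      ring
    have hball : ball (0 : Fin n → ℂ) (1 / 2) ⊆ ball 0 1 := ball_subset_ball (by norm_num)
    have hball2 : ball (0 : Fin n → ℂ) 1 ⊆ ball 0 2 := ball_subset_ball (by norm_num)
    have hJ1 : IntegrableOn (fun x : Fin n → ℂ => ‖x‖ * u x) (ball 0 1) := by
      refine Integrable.mono' hI1 ?_ ?_
      · exact (continuous_norm.aestronglyMeasurable).mul hI1.aestronglyMeasurable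
      · rw [ae_restrict_iff' measurableSet_ball]
        refine ae_of_all _ fun x hx => ?_
        rw [mem_ball_zero_iff] at hx
        rw [Real.norm_of_nonneg (mul_nonneg (norm_nonneg _) (hu0 x))]
        exact (mul_le_mul_of_nonneg_right hx.le (hu0 x)).trans (one_mul _).le
    obtain ⟨I1, hI1d⟩ : ∃ I1 : ℝ, I1 = ∫ x in ball (0 : Fin n → ℂ) 1, u x := ⟨_, rfl⟩
    obtain ⟨Ih, hIhd⟩ : ∃ Ih : ℝ, Ih = ∫ x in ball (0 : Fin n → ℂ) (1 / 2), u x := ⟨_, rfl⟩
    obtain ⟨J1, hJ1d⟩ : ∃ J1 : ℝ, J1 = ∫ x in ball (0 : Fin n → ℂ) 1, ‖x‖ * u x := ⟨_, rfl⟩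
    obtain ⟨Jh, hJhd⟩ : ∃ Jh : ℝ, Jh = ∫ x in ball (0 : Fin n → ℂ) (1 / 2), ‖x‖ * u x :=
      ⟨_, rfl⟩
    have e1 : I1 = q s * Ih := by
      have := hscale (1 / 2)
      rw [mul_one_div_cancel two_ne_zero] at this
      rw [hI1d, hIhd, this]
    have e2 : J1 = 2 * q s * Jh := by
      have := hscale' (1 / 2)
      rw [mul_one_div_cancel two_ne_zero] at this
      rw [hJ1d, hJhd, this]
    have e3 : ∫ x in ball (0 : Fin n → ℂ) 2 \ ball 0 1, u x = q s * I1 - I1 := by
      have := hscale 1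
      rw [mul_one] at this
      rw [setIntegral_sdiff measurableSet_ball hI2 hball2, this, ← hI1d]
    have e4 : J1 - Jh ≤ I1 - Ih := by
      rw [hJ1d, hJhd, hI1d, hIhd, ← setIntegral_sdiff measurableSet_ball hJ1 hball,
        ← setIntegral_sdiff measurableSet_ball hI1 hball]
      refine setIntegral_mono_on (hJ1.mono_set Set.sdiff_subset) (hI1.mono_set Set.sdiff_subset)
        (measurableSet_ball.diff measurableSet_ball) fun x hx => ?_
      have hx1 := mem_ball_zero_iff.1 hx.1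
      exact (mul_le_mul_of_nonneg_right hx1.le (hu0 x)).trans (one_mul _).le
    have hJ0 : 0 ≤ J1 := by
      rw [hJ1d]
      exact setIntegral_nonneg measurableSet_ball fun x _ => mul_nonneg (norm_nonneg _) (hu0 x)
    have e5 : Ih = (q s)⁻¹ * I1 := by rw [e1]; field_simp
    have e6 : Jh = (2 * q s)⁻¹ * J1 := by rw [e2]; field_simp
    have e7 : J1 ≤ 2 * ((1 - (q s)⁻¹) * I1) := by
      have h1 : (2 * q s)⁻¹ ≤ 1 / 2 := by
        rw [mul_inv, one_div]
        have : (q s)⁻¹ ≤ 1 := inv_le_one_of_one_le₀ hq.le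
        nlinarith [inv_pos.2 (two_pos (α := ℝ))]
      have h2 : J1 / 2 ≤ J1 - Jh := by
        rw [e6]
        nlinarith
      have h3 : I1 - Ih = (1 - (q s)⁻¹) * I1 := by rw [e5]; ring
      linarith
    have hpos : 0 < I1 := by
      rw [hI1d, setIntegral_pos_iff_support_of_nonneg_ae (ae_of_all _ hu0) hI1]
      have hopen : IsOpen ({x : Fin n → ℂ | eval x f ≠ 0} ∩ ball 0 1) := by
        refine IsOpen.inter ?_ isOpen_ball
        exact isOpen_ne_fun (MvPolynomial.continuous_eval f) continuous_const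
      refine (hopen.measure_pos volume (exists_ne_zero_ball hf hh)).trans_le (measure_mono ?_)
      refine Set.inter_subset_inter_left _ fun x hx => ?_
      rw [Function.mem_support]
      exact (Real.rpow_pos_of_pos (norm_pos_iff.2 hx) _).ne'
    have h1 := hb s hs1 hs2
    change |c| * ∫ x in ball (0 : Fin n → ℂ) 1, u x ≤
      C * (∫ x in ball (0 : Fin n → ℂ) 1, ‖x‖ * u x) +
        C * ∫ x in ball (0 : Fin n → ℂ) 2 \ ball 0 1, u x at h1
    rw [e3, ← hI1d, ← hJ1d] at h1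
    have h2 : q s * I1 - I1 = q s * ((1 - (q s)⁻¹) * I1) := by
      have : q s * (q s)⁻¹ = 1 := mul_inv_cancel₀ hq0.ne'
      linear_combination (I1) * this
    rw [h2] at h1
    have h3 : |c| * I1 ≤ (C * (2 + q s) * (1 - (q s)⁻¹)) * I1 := by
      calc |c| * I1 ≤ C * J1 + C * (q s * ((1 - (q s)⁻¹) * I1)) := h1
        _ ≤ C * (2 * ((1 - (q s)⁻¹) * I1)) + C * (q s * ((1 - (q s)⁻¹) * I1)) := by
          have := mul_le_mul_of_nonneg_left e7 hC
          linarith
        _ = (C * (2 + q s) * (1 - (q s)⁻¹)) * I1 := by ring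
    exact le_of_mul_le_mul_right h3 hpos
  -- the limit
  have hcont : Continuous q := by
    have : q = fun s => Real.exp (Real.log 2 * (2 * (n + d * s))) := by
      funext s
      exact Real.rpow_def_of_pos two_pos _
    rw [this]
    fun_prop
  have hq0 : q (-((n : ℝ) / d)) = 1 := by
    have h1 : (n : ℝ) + d * -((n : ℝ) / d) = 0 := by field_simp; ring
    simp only [q]
    rw [h1, mul_zero, Real.rpow_zero]
  have hlim : Tendsto (fun s => C * (2 + q s) * (1 - (q s)⁻¹)) (𝓝[>] (-((n : ℝ) / d)))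
      (𝓝 (C * (2 + q (-((n : ℝ) / d))) * (1 - (q (-((n : ℝ) / d)))⁻¹))) := by
    have h1 : Tendsto q (𝓝[>] (-((n : ℝ) / d))) (𝓝 (q (-((n : ℝ) / d)))) :=
      (hcont.tendsto _).mono_left nhdsWithin_le_nhds
    refine (tendsto_const_nhds.mul (tendsto_const_nhds.add h1)).mul
      (tendsto_const_nhds.sub (h1.inv₀ ?_))
    rw [hq0]
    exact one_ne_zero
  rw [hq0, inv_one, sub_self, mul_zero] at hlim
  have hneg : -((n : ℝ) / d) < 0 := by
    have := div_pos hn' hd'
    linarith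
  have hev : ∀ᶠ s in 𝓝[>] (-((n : ℝ) / d)), |c| ≤ C * (2 + q s) * (1 - (q s)⁻¹) := by
    filter_upwards [Ioo_mem_nhdsGT hneg] with s hs
    exact key s hs.1 hs.2
  have h1 : |c| ≤ 0 := ge_of_tendsto hlim hev
  exact abs_nonpos_iff.1 h1

end MPb07157
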