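import Pool.Agent.Lib.MP_b07157_agQ.L2b
import Pool.Agent.Lib.MP_b07157_agQ.L2d
import Pool.Agent.Lib.MP_b07157_agQ.RootQ

/-!
# The root `-n/d` of homogeneous polynomials of degree `d` in `n` variables with `|f|^{-2c}` locally
integrable for `c < n/d`
-/

noncomputable section

namespace MPb07157Q

open MvPolynomial MPb07157 MeasureTheory Metric

variable {n : ℕ}

/-- A polynomial near the origin. -/
theorem exists_bound_eval (P : MvPolynomial (Fin n) ℂ) :
    ∃ K : ℝ, 0 ≤ K ∧ ∀ x : Fin n → ℂ, ‖x‖ ≤ 1 → ‖eval x P - constantCoeff P‖ ≤ K * ‖x‖ := by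
  induction P using MvPolynomial.induction_on with
  | C a => exact ⟨0, le_rfl, fun x _ => by simp⟩
  | add p q hp hq =>
    obtain ⟨K, hK, h1⟩ := hp
    obtain ⟨K', hK', h2⟩ := hq
    refine ⟨K + K', add_nonneg hK hK', fun x hx => ?_⟩
    rw [map_add, map_add, add_sub_add_comm, add_mul]
    exact (norm_add_le _ _).trans (add_le_add (h1 x hx) (h2 x hx))
  | mul_X p j hp =>
    obtain ⟨K, hK, h1⟩ := hp
    refine ⟨K + ‖constantCoeff p‖, by positivity, fun x hx => ?_⟩
    rw [map_mul, map_mul, eval_X, constantCoeff_X, mul_zero, sub_zero, norm_mul]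
    have h2 : ‖eval x p‖ ≤ K + ‖constantCoeff p‖ := by
      have h3 := norm_add_le (eval x p - constantCoeff p) (constantCoeff p)
      rw [sub_add_cancel] at h3
      have h4 := h1 x hx
      have h5 : K * ‖x‖ ≤ K := by
        have := mul_le_mul_of_nonneg_left hx hK
        rwa [mul_one] at this
      linarith
    exact mul_le_mul h2 (norm_le_pi_norm x j) (norm_nonneg _) (by positivity)

/-- Integrability on all balls. -/
theorem integrableOn_ball_scale {d : ℕ} {f : MvPolynomial (Fin n) ℂ} (hh : f.IsHomogeneous d)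
    {s t : ℝ} (ht : 0 < t)
    (h : IntegrableOn (fun x : Fin n → ℂ => ‖eval x f‖ ^ (2 * s)) (ball 0 1)) :
    IntegrableOn (fun x : Fin n → ℂ => ‖eval x f‖ ^ (2 * s)) (ball 0 t) := by
  have hsm : ∀ x : Fin n → ℂ, ‖eval (t • x) f‖ ^ (2 * s) =
      (t ^ d) ^ (2 * s) * ‖eval x f‖ ^ (2 * s) := by
    intro x
    have h1 : t • x = (t : ℂ) • x := by
      funext i
      simp
    rw [h1, eval_smul_of_isHomogeneous hh, norm_mul, norm_pow, Complex.norm_real,
      Real.norm_of_nonneg ht.le, Real.mul_rpow (by positivity) (norm_nonneg _)]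
  rw [← integrable_indicator_iff measurableSet_ball]
  rw [← integrable_comp_smul_iff volume _ ht.ne']
  have h1 : (fun x : Fin n → ℂ => (ball (0 : Fin n → ℂ) t).indicator
      (fun x => ‖eval x f‖ ^ (2 * s)) (t • x)) =
      (ball (0 : Fin n → ℂ) 1).indicator
        (fun x => (t ^ d) ^ (2 * s) * ‖eval x f‖ ^ (2 * s)) := by
    funext x
    have h2 : (t • x ∈ ball (0 : Fin n → ℂ) t) ↔ x ∈ ball (0 : Fin n → ℂ) 1 := by
      rw [mem_ball_zero_iff, mem_ball_zero_iff, norm_smul, Real.norm_of_nonneg ht.le]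
      constructor
      · intro h
        by_contra h3
        rw [not_lt] at h3
        have := mul_le_mul_of_nonneg_left h3 ht.le
        linarith
      · intro h
        have := mul_lt_mul_of_pos_left h ht
        linarith
    by_cases hx : x ∈ ball (0 : Fin n → ℂ) 1
    · rw [Set.indicator_of_mem (h2.2 hx), Set.indicator_of_mem hx, hsm]
    · rw [Set.indicator_of_notMem (fun h3 => hx (h2.1 h3)), Set.indicator_of_notMem hx]
  rw [h1, integrable_indicator_iff measurableSet_ball]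
  exact h.const_mul _

/-- **Part (c).** -/
theorem cc_eq_zero_of_integrable {d : ℕ} (hn : 0 < n) (hd : 0 < d) {f : MvPolynomial (Fin n) ℂ}
    (hf : f ≠ 0) (hh : f.IsHomogeneous d)
    (hint : ∀ c : ℝ, c < n / d →
      IntegrableOn (fun x : Fin n → ℂ => ‖eval x f‖ ^ (-(2 * c))) (ball 0 1))
    {G : MvPolynomial (Fin n) (MvPolynomial (Fin n) ℂ)}
    (hG : ∀ q : ℕ, Psi ((f : MvPowerSeries (Fin n) ℂ) ^ q) G = 0) : cc G = 0 := by
  obtain ⟨Q, hQ, hQ2, hQ1, hQ0⟩ := exists_orthogonal hG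
  obtain ⟨K, hK, hK'⟩ := exists_bound_eval (coeff 0 G)
  -- `Q` vanishes on the sphere
  have hQ2' : ∀ x, 2 ≤ ‖x‖ → Q x = 0 := by
    intro x hx
    rcases eq_or_lt_of_le hx with h | h
    · have h1 : Filter.Tendsto (fun k : ℕ => Q ((1 + 1 / ((k : ℝ) + 1)) • x)) Filter.atTop
          (nhds (Q x)) := by
        have h2 : Filter.Tendsto (fun k : ℕ => (1 + 1 / ((k : ℝ) + 1)) • x) Filter.atTop
            (nhds ((1 + 0 : ℝ) • x)) :=
          (tendsto_const_nhds.add tendsto_one_div_add_atTop_nhds_zero_nat).smul_const x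
        rw [add_zero, one_smul] at h2
        exact (hQ.tendsto x).comp h2
      have h3 : ∀ k : ℕ, Q ((1 + 1 / ((k : ℝ) + 1)) • x) = 0 := by
        intro k
        apply hQ2
        have h4 : 0 < 1 / ((k : ℝ) + 1) := by positivity
        rw [norm_smul, Real.norm_of_nonneg (by positivity), ← h]
        linarith
      simp only [h3] at h1
      exact (tendsto_nhds_unique h1 tendsto_const_nhds)
    · exact hQ2 x h
  obtain ⟨M, hM⟩ := (isCompact_closedBall (0 : Fin n → ℂ) 2).exists_bound_of_continuousOn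
    hQ.continuousOn
  have hM' : ∀ x, ‖Q x‖ ≤ max K M := by
    intro x
    by_cases hx : 2 < ‖x‖
    · rw [hQ2 x hx, norm_zero]
      exact hK.trans (le_max_left _ _)
    · exact (hM x (by
        rw [mem_closedBall, dist_zero_right]
        exact not_lt.1 hx)).trans (le_max_right _ _)
  have hC : 0 ≤ max K M := hK.trans (le_max_left _ _)
  rw [← norm_eq_zero]
  refine scaling_zero hn hd hf hh hint hC fun s hs1 hs2 => ?_
  have hint1 : IntegrableOn (fun x : Fin n → ℂ => ‖eval x f‖ ^ (2 * s)) (ball 0 1) := by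
    have := hint (-s) (by linarith)
    have e : -(2 * -s) = 2 * s := by ring
    rwa [e] at this
  have hint2 : IntegrableOn (fun x : Fin n → ℂ => ‖eval x f‖ ^ (2 * s)) (closedBall 0 2) :=
    (integrableOn_ball_scale hh (t := 3) (by norm_num) hint1).mono_set
      (closedBall_subset_ball (by norm_num))
  obtain ⟨hFi, hF0⟩ := integral_rpow_mul hQ hQ2 hQ0 hs2 hint2
  rw [abs_norm]
  have e1 := integral_add_compl (measurableSet_ball (x := (0 : Fin n → ℂ)) (ε := 1)) hFi
  rw [hF0] at e1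
  -- the integral over the unit ball
  have hr : IntegrableOn (fun x : Fin n → ℂ => ((‖eval x f‖ ^ (2 * s) : ℝ) : ℂ) * cc G)
      (ball 0 1) := (hint1.ofReal (𝕜 := ℂ)).mul_const _
  have e2 : ∫ x in ball (0 : Fin n → ℂ) 1, ((‖eval x f‖ ^ (2 * s) : ℝ) : ℂ) * Q x =
      (∫ x in ball (0 : Fin n → ℂ) 1, ((‖eval x f‖ ^ (2 * s) : ℝ) : ℂ) * cc G) +
      ∫ x in ball (0 : Fin n → ℂ) 1, ((‖eval x f‖ ^ (2 * s) : ℝ) : ℂ) * (Q x - cc G) := by
    rw [← integral_add hr]
    · refine integral_congr_ae (Filter.Eventually.of_forall fun x => ?_)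
      beta_reduce
      ring
    · have h1 := hFi.integrableOn.sub hr
      refine h1.congr (Filter.Eventually.of_forall fun x => ?_)
      simp only [Pi.sub_apply]
      ring
  have e3 : ∫ x in ball (0 : Fin n → ℂ) 1, ((‖eval x f‖ ^ (2 * s) : ℝ) : ℂ) * cc G =
      ((∫ x in ball (0 : Fin n → ℂ) 1, ‖eval x f‖ ^ (2 * s) : ℝ) : ℂ) * cc G := by
    rw [integral_mul_const, integral_complex_ofReal]
  have hI : 0 ≤ ∫ x in ball (0 : Fin n → ℂ) 1, ‖eval x f‖ ^ (2 * s) :=
    integral_nonneg fun x => Real.rpow_nonneg (norm_nonneg _) _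
  have e4 : ‖cc G‖ * ∫ x in ball (0 : Fin n → ℂ) 1, ‖eval x f‖ ^ (2 * s) =
      ‖(∫ x in ball (0 : Fin n → ℂ) 1, ((‖eval x f‖ ^ (2 * s) : ℝ) : ℂ) * (Q x - cc G)) +
        ∫ x in (ball (0 : Fin n → ℂ) 1)ᶜ, ((‖eval x f‖ ^ (2 * s) : ℝ) : ℂ) * Q x‖ := by
    have e5 : ((∫ x in ball (0 : Fin n → ℂ) 1, ‖eval x f‖ ^ (2 * s) : ℝ) : ℂ) * cc G =
        -((∫ x in ball (0 : Fin n → ℂ) 1, ((‖eval x f‖ ^ (2 * s) : ℝ) : ℂ) * (Q x - cc G)) +
        ∫ x in (ball (0 : Fin n → ℂ) 1)ᶜ, ((‖eval x f‖ ^ (2 * s) : ℝ) : ℂ) * Q x) := by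
      rw [e2, e3] at e1
      linear_combination e1
    have e6 := congrArg norm e5
    rw [norm_mul, Complex.norm_real, Real.norm_of_nonneg hI, norm_neg] at e6
    rw [mul_comm]
    exact e6
  rw [e4]
  refine (norm_add_le _ _).trans (add_le_add ?_ ?_)
  · rw [← integral_const_mul]
    apply norm_integral_le_of_norm_le
    · have h1 : IntegrableOn (fun x : Fin n → ℂ => ‖x‖ * ‖eval x f‖ ^ (2 * s)) (ball 0 1) := by
        refine Integrable.bdd_mul (c := 1) hint1 continuous_norm.aestronglyMeasurable ?_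
        filter_upwards [ae_restrict_mem measurableSet_ball] with x hx
        rw [norm_norm]
        rw [mem_ball_zero_iff] at hx
        exact hx.le
      exact h1.const_mul _
    · filter_upwards [ae_restrict_mem measurableSet_ball] with x hx
      rw [mem_ball_zero_iff] at hx
      rw [norm_mul, Complex.norm_real, Real.norm_of_nonneg (Real.rpow_nonneg (norm_nonneg _) _),
        hQ1 x hx]
      have h1 := hK' x hx.le
      have h2 : K * ‖x‖ ≤ max K M * ‖x‖ :=
        mul_le_mul_of_nonneg_right (le_max_left _ _) (norm_nonneg _)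
      have h3 := mul_le_mul_of_nonneg_left (h1.trans h2)
        (Real.rpow_nonneg (norm_nonneg (eval x f)) (2 * s))
      refine h3.trans (le_of_eq ?_)
      ring
  · have e5 : ∫ x in (ball (0 : Fin n → ℂ) 1)ᶜ, ((‖eval x f‖ ^ (2 * s) : ℝ) : ℂ) * Q x =
        ∫ x in ball (0 : Fin n → ℂ) 2 \ ball 0 1, ((‖eval x f‖ ^ (2 * s) : ℝ) : ℂ) * Q x := by
      apply setIntegral_eq_of_subset_of_forall_sdiff_eq_zero measurableSet_ball.compl
        (fun x hx => hx.2)
      intro x hx
      have h1 : 2 ≤ ‖x‖ := by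
        by_contra h
        rw [not_le] at h
        exact hx.2 ⟨mem_ball_zero_iff.2 h, hx.1⟩
      rw [hQ2' x h1, mul_zero]
    rw [e5, ← integral_const_mul]
    apply norm_integral_le_of_norm_le
    · exact (hint2.mono_set (Set.sdiff_subset.trans ball_subset_closedBall)).const_mul _
    · refine Filter.Eventually.of_forall fun x => ?_
      rw [norm_mul, Complex.norm_real, Real.norm_of_nonneg (Real.rpow_nonneg (norm_nonneg _) _),
        mul_comm]
      exact mul_le_mul_of_nonneg_right (hM' x) (Real.rpow_nonneg (norm_nonneg _) _)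

/-- The relation given by a formal Bernstein–Sato polynomial of a homogeneous polynomial. -/
theorem exists_relation {f : MvPolynomial (Fin n) ℂ} (hf : f ≠ 0) {d : ℕ} (hd : 0 < d)
    (hh : f.IsHomogeneous d) (b : Polynomial ℂ)
    (hb : InDnForm f 1 (b.map (MvPowerSeries.C (σ := Fin n) (R := ℂ)))) :
    ∃ G : MvPolynomial (Fin n) (MvPolynomial (Fin n) ℂ),
      (∀ q : ℕ, Psi ((f : MvPowerSeries (Fin n) ℂ) ^ q) G = 0) ∧
      cc G = -b.eval (-((n : ℂ) / d)) := by
  classical
  obtain ⟨h, hh1, hIn⟩ := hb.exists_poly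
  have hA := inA_of_inDn hIn
  rw [map_mul, sw_C, sw_liftS] at hA
  obtain ⟨Φ, hΦ, hΦ2⟩ := hA.toOp hf
  obtain ⟨G, hG⟩ := exists_of_op hd hh hΦ
  obtain ⟨G', hG', hcc⟩ := exists_poly_mul hd hh b (C h)
  have hf0 : constantCoeff f = 0 := by
    rw [constantCoeff_eq]
    apply hh.coeff_eq_zero
    rw [map_zero]
    omega
  refine ⟨C f * G - G', fun q => ?_, ?_⟩
  · have e1 := hΦ2 (q + 1)
    have e2 : Φ (q + 1) = C (b.eval (q : ℂ)) * (h * f ^ q) := by
      apply mul_left_cancel₀ hf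
      rw [pow_one] at e1
      rw [e1, Polynomial.eval_mul, Polynomial.eval_C]
      have e3 : ((((q + 1 : ℕ) : MvPolynomial (Fin n) ℂ)) - 1) = C (q : ℂ) := by
        push_cast
        rw [add_sub_cancel_right]
        simp
      rw [e3, Polynomial.eval_map, Polynomial.eval₂_hom, pow_succ]
      ring
    rw [Psi_sub, Psi_mul_left, ← pow_succ', ← hG, e2, hG', Psi_C, coe_mul, coe_C, coe_mul,
      coe_pow, Algebra.smul_def, MvPowerSeries.c_eq_algebraMap, sub_self]
  · have e1 : cc (C f * G) = 0 := by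
      unfold cc
      rw [coeff_C_mul, map_mul, hf0, zero_mul]
    have e2 : cc (C h : MvPolynomial (Fin n) (MvPolynomial (Fin n) ℂ)) = 1 := by
      unfold cc
      rw [coeff_zero_C, hh1]
    rw [cc_sub, hcc, e1, e2, mul_one, zero_sub]

/-- **The root `-n/d`** of a homogeneous polynomial `f` of degree `d` in `n` variables for which
`|f|^{-2c}` is locally integrable for all `c < n/d`. -/
theorem root_of_integrable {f : MvPolynomial (Fin n) ℂ} (hn : 0 < n) (hf : f ≠ 0) {d : ℕ}
    (hd : 0 < d) (hh : f.IsHomogeneous d)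
    (hint : ∀ c : ℝ, c < n / d →
      IntegrableOn (fun x : Fin n → ℂ => ‖eval x f‖ ^ (-(2 * c))) (ball 0 1))
    (b : Polynomial ℂ)
    (hb : InDnForm f 1 (b.map (MvPowerSeries.C (σ := Fin n) (R := ℂ)))) :
    b.eval (-((n : ℂ) / d)) = 0 := by
  obtain ⟨G, hG, hcc⟩ := exists_relation hf hd hh b hb
  rw [cc_eq_zero_of_integrable hn hd hf hh hint hG] at hcc
  rw [← neg_eq_zero, ← hcc]

end MPb07157Q
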