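import Mathlib

/-!
# Relations of linear type: local part
-/

noncomputable section

namespace MPb07157Q

open MvPolynomial

/-- The relations generated by the linear ones: the polynomials `T · ξ` with `T · v = 0`. -/
def LI {R : Type*} [CommRing R] {n : ℕ} (v : Fin n → R) : Ideal (MvPolynomial (Fin n) R) where
  carrier := {F | ∃ T : Fin n → MvPolynomial (Fin n) R, ∑ i, T i * C (v i) = 0 ∧
    F = ∑ i, T i * X i}
  add_mem' := by
    rintro F G ⟨T, hT, rfl⟩ ⟨U, hU, rfl⟩
    refine ⟨T + U, ?_, ?_⟩
    · simp only [Pi.add_apply, add_mul, Finset.sum_add_distrib, hT, hU, add_zero]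
    · simp only [Pi.add_apply, add_mul, Finset.sum_add_distrib]
  zero_mem' := ⟨0, by simp, by simp⟩
  smul_mem' := by
    rintro c F ⟨T, hT, rfl⟩
    refine ⟨fun i => c * T i, ?_, ?_⟩
    · simp only [mul_assoc, ← Finset.mul_sum, hT, mul_zero]
    · simp only [smul_eq_mul, mul_assoc, ← Finset.mul_sum]

theorem mem_LI {R : Type*} [CommRing R] {n : ℕ} {v : Fin n → R} {F : MvPolynomial (Fin n) R} :
    F ∈ LI v ↔ ∃ T : Fin n → MvPolynomial (Fin n) R, ∑ i, T i * C (v i) = 0 ∧
      F = ∑ i, T i * X i := Iff.rfl

theorem lin_mem_LI {R : Type*} [CommRing R] {n : ℕ} {v : Fin n → R} {a : Fin n → R}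
    (ha : ∑ i, a i * v i = 0) : (∑ i, C (a i) * X i : MvPolynomial (Fin n) R) ∈ LI v := by
  refine ⟨fun i => C (a i), ?_, rfl⟩
  simp only [← C_mul, ← map_sum, ha, map_zero]

theorem two_mem_LI {R : Type*} [CommRing R] {n : ℕ} {v : Fin n → R} (i j : Fin n) {p q : R}
    (h : q * v i = p * v j) : (C q * X i - C p * X j : MvPolynomial (Fin n) R) ∈ LI v := by
  classical
  refine ⟨Pi.single i (C q) - Pi.single j (C p), ?_, ?_⟩
  · simp only [Pi.sub_apply, sub_mul, Finset.sum_sub_distrib, Pi.single_apply, ite_mul, zero_mul,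
      Finset.sum_ite_eq', Finset.mem_univ, if_true]
    rw [← C_mul, ← C_mul, h, sub_self]
  · simp only [Pi.sub_apply, sub_mul, Finset.sum_sub_distrib, Pi.single_apply, ite_mul, zero_mul,
      Finset.sum_ite_eq', Finset.mem_univ, if_true]

theorem twovar {R : Type*} [CommRing R] [IsDomain R] [DecompositionMonoid R] {S : Type*}
    [CommRing S] [Algebra R S] {p q : R} (h : IsRelPrime p q) (x y : S) (M : ℕ) (c : ℕ → R)
    (hc : ∑ l ∈ Finset.range (M + 1), c l * p ^ l * q ^ (M - l) = 0) :
    (algebraMap R S q * x - algebraMap R S p * y) ∣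
      ∑ l ∈ Finset.range (M + 1), algebraMap R S (c l) * x ^ l * y ^ (M - l) := by
  induction M generalizing c with
  | zero =>
    simp only [zero_add, Finset.range_one, Finset.sum_singleton, pow_zero, mul_one,
      Nat.sub_self] at hc ⊢
    rw [hc, map_zero]
    exact dvd_zero _
  | succ M ih =>
    have e : ∀ l ∈ Finset.range (M + 1), M + 1 - (l + 1) = M - l := fun l _ => by omega
    rw [Finset.sum_range_succ'] at hc ⊢
    simp only [Nat.sub_zero, pow_zero, mul_one] at hc ⊢
    have hc' : p * (∑ l ∈ Finset.range (M + 1), c (l + 1) * p ^ l * q ^ (M - l)) +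
        c 0 * q ^ (M + 1) = 0 := by
      rw [← hc, Finset.mul_sum]
      congr 1
      refine Finset.sum_congr rfl fun l hl => ?_
      rw [e l hl, pow_succ]
      ring
    have hd : p ∣ c 0 * q ^ (M + 1) := by
      refine ⟨-(∑ l ∈ Finset.range (M + 1), c (l + 1) * p ^ l * q ^ (M - l)), ?_⟩
      linear_combination hc'
    have hd2 : p ∣ c 0 := by
      have h1 : IsRelPrime p (q ^ (M + 1)) := h.pow_right
      exact h1.dvd_of_dvd_mul_right hd
    obtain ⟨c', hc'2⟩ := hd2
    have hsum : ∑ l ∈ Finset.range (M + 1), algebraMap R S (c (l + 1)) * x ^ (l + 1) *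
        y ^ (M + 1 - (l + 1)) =
        x * ∑ l ∈ Finset.range (M + 1), algebraMap R S (c (l + 1)) * x ^ l * y ^ (M - l) := by
      rw [Finset.mul_sum]
      refine Finset.sum_congr rfl fun l hl => ?_
      rw [e l hl, pow_succ]
      ring
    rw [hsum]
    by_cases hp : p = 0
    · subst hp
      have hq : IsUnit q := h (dvd_zero q) dvd_rfl
      rw [hc'2]
      simp only [map_zero, zero_mul, sub_zero, add_zero]
      obtain ⟨u, rfl⟩ := hq
      refine Dvd.dvd.mul_right ?_ _
      refine ⟨algebraMap R S (↑u⁻¹ : R), ?_⟩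
      rw [mul_comm (algebraMap R S (u : R)) x, mul_assoc, ← map_mul, Units.mul_inv, map_one,
        mul_one]
    · set c'' : ℕ → R := fun l => c (l + 1) + if l = 0 then c' * q else 0 with hc''
      have h1 : ∑ l ∈ Finset.range (M + 1), c'' l * p ^ l * q ^ (M - l) =
          ∑ l ∈ Finset.range (M + 1), c (l + 1) * p ^ l * q ^ (M - l) + c' * q ^ (M + 1) := by
        simp only [hc'', add_mul, Finset.sum_add_distrib, ite_mul, zero_mul]
        congr 1
        rw [Finset.sum_ite_eq' (Finset.range (M + 1)) 0, if_pos (Finset.mem_range.2 (by omega))]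
        simp only [pow_zero, Nat.sub_zero, pow_succ]
        ring
      have h2 : ∑ l ∈ Finset.range (M + 1), algebraMap R S (c'' l) * x ^ l * y ^ (M - l) =
          ∑ l ∈ Finset.range (M + 1), algebraMap R S (c (l + 1)) * x ^ l * y ^ (M - l) +
            algebraMap R S (c' * q) * y ^ M := by
        simp only [hc'', map_add, add_mul, Finset.sum_add_distrib]
        congr 1
        rw [Finset.sum_eq_single 0]
        · simp
        · intro b _ hb
          simp [hb]
        · intro h
          exact absurd (Finset.mem_range.2 (by omega)) h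
      have h3 := ih c'' (by
        rw [h1]
        apply mul_left_cancel₀ hp
        rw [mul_zero, mul_add]
        rw [hc'2] at hc'
        linear_combination hc')
      rw [h2] at h3
      obtain ⟨z, hz⟩ := h3
      refine ⟨x * z - algebraMap R S c' * y ^ M, ?_⟩
      rw [hc'2, map_mul]
      rw [map_mul] at hz
      linear_combination x * hz

theorem aeval_smul_hom {σ : Type*} {R : Type*} [CommRing R] {S : Type*} [CommRing S] [Algebra R S]
    {F : MvPolynomial σ R} {M : ℕ} (hF : F.IsHomogeneous M) (r : S) (y : σ → S) :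
    aeval (fun k => r * y k) F = r ^ M * aeval y F := by
  classical
  rw [aeval_def, aeval_def, eval₂_eq, eval₂_eq, Finset.mul_sum]
  refine Finset.sum_congr rfl fun d hd => ?_
  have h1 : d.degree = M := by
    by_contra hcon
    exact (mem_support_iff.1 hd) (hF.coeff_eq_zero hcon)
  simp only [mul_pow, Finset.prod_mul_distrib]
  have h2 : ∏ i ∈ d.support, r ^ d i = r ^ M := by
    rw [Finset.prod_pow_eq_pow_sum, ← h1]
    rfl
  rw [h2]
  ring

theorem aeval_two {R : Type*} [CommRing R] {S : Type*} [CommRing S] [Algebra R S]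
    {G : MvPolynomial (Fin 2) R} {M : ℕ} (hG : G.IsHomogeneous M) (x y : S) :
    aeval ![x, y] G = ∑ l ∈ Finset.range (M + 1),
      algebraMap R S (coeff (Finsupp.single 0 l + Finsupp.single 1 (M - l)) G) * x ^ l *
        y ^ (M - l) := by
  classical
  rw [aeval_def, eval₂_eq']
  have hdeg : ∀ d ∈ G.support, d 0 + d 1 = M := by
    intro d hd
    have h1 : d.degree = M := by
      by_contra hcon
      exact (mem_support_iff.1 hd) (hG.coeff_eq_zero hcon)
    rw [← h1, Finsupp.degree_eq_sum, Fin.sum_univ_two]
  symm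
  rw [← Finset.sum_subset (s₁ := G.support.image fun d => d 0)]
  · rw [Finset.sum_image]
    · refine Finset.sum_congr rfl fun d hd => ?_
      have h1 := hdeg d hd
      have h2 : Finsupp.single 0 (d 0) + Finsupp.single 1 (M - d 0) = d := by
        ext i
        fin_cases i
        · simp
        · simp
          omega
      rw [h2, Fin.prod_univ_two]
      have h3 : M - d 0 = d 1 := by omega
      rw [h3]
      simp [mul_assoc]
    · intro d hd d' hd' h
      have h1 := hdeg d hd
      have h2 := hdeg d' hd'
      ext i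
      fin_cases i
      · exact h
      · simp only at h
        simp
        omega
  · intro l hl
    rw [Finset.mem_image] at hl
    obtain ⟨d, hd, rfl⟩ := hl
    rw [Finset.mem_range]
    have := hdeg d hd
    omega
  · intro l hl hl2
    have h1 : coeff (Finsupp.single 0 l + Finsupp.single 1 (M - l)) G = 0 := by
      rw [← notMem_support_iff]
      intro h
      apply hl2
      rw [Finset.mem_image]
      exact ⟨_, h, by simp⟩
    rw [h1, map_zero, zero_mul, zero_mul]

/-- The local step: if `a · v = 0`, then `a_i^M F` is a combination of linear relations. -/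
theorem local_step {R : Type*} [CommRing R] [IsDomain R] [UniqueFactorizationMonoid R]
    {v : Fin 3 → R} (hv : ∀ q, (∀ i, q ∣ v i) → IsUnit q) {a : Fin 3 → R}
    (ha : ∑ i, a i * v i = 0) {M : ℕ} (hM : 0 < M) {F : MvPolynomial (Fin 3) R}
    (hF : F.IsHomogeneous M) (h0 : eval v F = 0) (i j k : Fin 3) (hij : i ≠ j) (hik : i ≠ k)
    (hjk : j ≠ k) : C (a i) ^ M * F ∈ LI v := by
  classical
  let _ : GCDMonoid R := UniqueFactorizationMonoid.toGCDMonoid R
  have hsum : ∀ g : Fin 3 → R, ∑ l, g l = g i + g j + g k := by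
    intro g
    have : (Finset.univ : Finset (Fin 3)) = {i, j, k} := by
      symm
      apply Finset.eq_univ_of_card
      rw [Finset.card_insert_of_notMem (by simp [hij, hik]), Finset.card_pair hjk]
      rfl
    rw [this, Finset.sum_insert (by simp [hij, hik]), Finset.sum_pair hjk]
    ring
  have hsum' : ∀ g : Fin 3 → MvPolynomial (Fin 3) R, ∑ l, g l = g i + g j + g k := by
    intro g
    have : (Finset.univ : Finset (Fin 3)) = {i, j, k} := by
      symm
      apply Finset.eq_univ_of_card
      rw [Finset.card_insert_of_notMem (by simp [hij, hik]), Finset.card_pair hjk]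
      rfl
    rw [this, Finset.sum_insert (by simp [hij, hik]), Finset.sum_pair hjk]
    ring
  have hcov : ∀ l : Fin 3, l = i ∨ l = j ∨ l = k := by
    intro l
    have : l ∈ ({i, j, k} : Finset (Fin 3)) := by
      have : (Finset.univ : Finset (Fin 3)) = {i, j, k} := by
        symm
        apply Finset.eq_univ_of_card
        rw [Finset.card_insert_of_notMem (by simp [hij, hik]), Finset.card_pair hjk]
        rfl
      rw [← this]
      exact Finset.mem_univ l
    simpa using this
  have ha' : a i * v i + a j * v j + a k * v k = 0 := by rw [← hsum (fun l => a l * v l)]; exact ha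
  by_cases hv0 : v j = 0 ∧ v k = 0
  · have h1 : v i ≠ 0 := by
      intro h
      have := hv 0 (by
        intro l
        rcases hcov l with rfl | rfl | rfl
        · rw [h]
        · rw [hv0.1]
        · rw [hv0.2])
      exact not_isUnit_zero this
    have h2 : a i = 0 := by
      rw [hv0.1, hv0.2, mul_zero, mul_zero, add_zero, add_zero] at ha'
      exact (mul_eq_zero.1 ha').resolve_right h1
    rw [h2, map_zero, zero_pow hM.ne', zero_mul]
    exact Ideal.zero_mem _
  obtain ⟨p, q, hp, hq, hu⟩ := extract_gcd (v j) (v k)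
  set c := gcd (v j) (v k) with hc
  have hc0 : c ≠ 0 := by
    intro h
    rw [h, zero_mul] at hp hq
    exact hv0 ⟨hp, hq⟩
  have hrel : IsRelPrime p q := by
    intro z hz1 hz2
    exact isUnit_of_dvd_unit (dvd_gcd hz1 hz2) hu
  -- the substitution
  set y : Fin 3 → MvPolynomial (Fin 2) R := fun l =>
    if l = i then -(C (a j) * X 0 + C (a k) * X 1) else if l = j then C (a i) * X 0
      else C (a i) * X 1 with hy
  have hyi : y i = -(C (a j) * X 0 + C (a k) * X 1) := by simp [hy]
  have hyj : y j = C (a i) * X 0 := by simp [hy, hij.symm]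
  have hyk : y k = C (a i) * X 1 := by simp [hy, hik.symm, hjk.symm]
  have hyh : ∀ l, (y l).IsHomogeneous 1 := by
    intro l
    rcases hcov l with rfl | rfl | rfl
    · rw [hyi]
      exact ((isHomogeneous_C_mul_X _ _).add (isHomogeneous_C_mul_X _ _)).neg
    · rw [hyj]
      exact isHomogeneous_C_mul_X _ _
    · rw [hyk]
      exact isHomogeneous_C_mul_X _ _
  set G : MvPolynomial (Fin 2) R := aeval y F with hG
  have hGh : G.IsHomogeneous M := by
    have := hF.aeval y hyh
    rwa [one_mul] at this
  -- the value at `(v_j, v_k)`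
  have e1 : aeval ![v j, v k] G = 0 := by
    have h1 : aeval ![v j, v k] G = aeval (fun l => a i * v l) F := by
      rw [hG, ← AlgHom.comp_apply, comp_aeval]
      congr 2
      funext l
      rcases hcov l with rfl | rfl | rfl
      · rw [hyi]
        simp
        linear_combination -ha'
      · rw [hyj]
        simp
      · rw [hyk]
        simp
    rw [h1, aeval_smul_hom hF]
    have h2 : aeval v F = 0 := by
      rw [← h0, ← MvPolynomial.coe_aeval_eq_eval]
      rfl
    rw [h2, mul_zero]
  have e2 : aeval ![p, q] G = 0 := by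
    have h1 : aeval ![v j, v k] G = aeval (fun l => c * ![p, q] l) G := by
      congr 2
      funext l
      fin_cases l
      · exact hp
      · exact hq
    rw [h1, aeval_smul_hom hGh] at e1
    exact (mul_eq_zero.1 e1).resolve_left (pow_ne_zero _ hc0)
  rw [aeval_two hGh] at e2
  simp only [Algebra.algebraMap_self, RingHom.id_apply] at e2
  have e3 := twovar hrel (X j : MvPolynomial (Fin 3) R) (X k) M _ e2
  rw [← aeval_two hGh] at e3
  have e4 : aeval ![(X j : MvPolynomial (Fin 3) R), X k] G ∈ LI v := by
    refine Ideal.mem_of_dvd _ e3 ?_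
    apply two_mem_LI
    rw [hp, hq]
    ring
  -- `a_i^M F` is congruent to it
  have e5 : C (a i) ^ M * F - aeval ![(X j : MvPolynomial (Fin 3) R), X k] G ∈ LI v := by
    have h1 : C (a i) ^ M * F = aeval (fun l => C (a i) * X l) F := by
      rw [aeval_smul_hom hF, aeval_X_left_apply]
    have h2 : aeval ![(X j : MvPolynomial (Fin 3) R), X k] G =
        aeval (fun l => aeval ![(X j : MvPolynomial (Fin 3) R), X k] (y l)) F := by
      rw [hG, ← AlgHom.comp_apply, comp_aeval]
    rw [h1, h2, ← Ideal.Quotient.mk_eq_mk_iff_sub_mem]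
    have h3 : ∀ z : Fin 3 → MvPolynomial (Fin 3) R,
        Ideal.Quotient.mk (LI v) (aeval z F) =
          aeval (fun l => Ideal.Quotient.mkₐ R (LI v) (z l)) F := by
      intro z
      rw [← Ideal.Quotient.mkₐ_eq_mk R, ← AlgHom.comp_apply, comp_aeval]
    rw [h3, h3]
    congr 2
    funext l
    rw [Ideal.Quotient.mkₐ_eq_mk, Ideal.Quotient.mk_eq_mk_iff_sub_mem]
    rcases hcov l with rfl | rfl | rfl
    · rw [hyi]
      have := lin_mem_LI ha
      rw [hsum'] at this
      convert this using 1
      simp
      ring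
    · rw [hyj]
      simp
    · rw [hyk]
      simp
  have := Ideal.add_mem _ e5 e4
  rwa [sub_add_cancel] at this

end MPb07157Q
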