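import Pool.Agent.Lib.MP_b07157_agS.SClass
import Pool.Agent.Lib.MP_b07157_agS.CubA

/-!
# Products of a monomial and of powers of binomials `M₁ - r_i M₂`: one step, and non-degeneracy
-/

noncomputable section

namespace MPb07157

open MvPolynomial

variable {n : ℕ}

/-! ### Sub-sums -/

/-- All sums of some of the terms of `f` are non-degenerate. -/
def SubND (f : MvPolynomial (Fin n) ℂ) : Prop :=
  ∀ S ⊆ f.support, S.Nonempty → IsNondeg (inForm f S)

theorem exists_initialPartZ {f : MvPolynomial (Fin n) ℂ} (w : Fin n → ℤ) {S : Finset (Fin n →₀ ℕ)}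
    (hS : S ⊆ f.support) (hS0 : S.Nonempty) :
    ∃ T ⊆ S, T.Nonempty ∧ initialPartZ (inForm f S) w = inForm f T := by
  classical
  refine ⟨MPb07157F.fc S w, Finset.filter_subset _ _, ?_, initialPartZ_inForm hS w⟩
  obtain ⟨v, hv, hmin⟩ := S.exists_min_image (fun v => ∑ j, w j * (v j : ℤ)) hS0
  refine ⟨v, ?_⟩
  unfold MPb07157F.fc
  rw [Finset.mem_filter]
  exact ⟨hv, hmin⟩

theorem initialPart_eq_inForm {f : MvPolynomial (Fin n) ℂ} (hf : f ≠ 0) (w : Fin n → ℕ) :
    ∃ S ⊆ f.support, S.Nonempty ∧ initialPart f w = inForm f S := by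
  classical
  have hs : f.support.Nonempty := support_nonempty.2 hf
  obtain ⟨v, hv, hmin⟩ := f.support.exists_min_image (fun v => ∑ j, w j * v j) hs
  refine ⟨f.support.filter (fun v => ∀ u ∈ f.support, ∑ j, w j * v j ≤ ∑ j, w j * u j),
    Finset.filter_subset _ _, ⟨v, ?_⟩, ?_⟩
  · rw [Finset.mem_filter]
    exact ⟨hv, hmin⟩
  · rfl

theorem SubND.stable {f : MvPolynomial (Fin n) ℂ} (h : SubND f) (hf : f ≠ 0) (h0 : coeff 0 f = 0) :
    StableLoc n f ∧ StableGlob n f := by
  have h1 : ∀ w : Fin n → ℕ, IsNondeg (initialPart f w) := by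
    intro w
    obtain ⟨S, hS, hS0, hw⟩ := initialPart_eq_inForm hf w
    rw [hw]
    exact h S hS hS0
  refine ⟨StableLoc.nondeg f fun w _ => h1 w, StableGlob.nondeg f h0 h1 fun w ω _ => ?_⟩
  obtain ⟨S, hS, hS0, hw⟩ := initialPart_eq_inForm hf w
  obtain ⟨T, hT, hT0, hω⟩ := exists_initialPartZ ω hS hS0
  rw [hw, hω]
  exact h T (hT.trans hS) hT0

/-! ### One step -/

/-- The polynomial `P z^m + S + w (z - q)`. -/
def exq (P q S : MvPolynomial (Fin n) ℂ) (m : ℕ) : MvPolynomial (Fin (n + 2)) ℂ :=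
  Cub.em P * Cub.W n ^ m + Cub.em S + Cub.Y n * (Cub.W n - Cub.em q)

/-- The images of the variables under `w ↦ w + r`. -/
def shw (r : MvPolynomial (Fin (n + 2)) ℂ) (i : Fin (n + 2)) : MvPolynomial (Fin (n + 2)) ℂ :=
  Fin.addCases (fun i => X (Fin.castAdd 2 i))
    (fun k : Fin 2 => if k = 0 then Cub.W n else Cub.Y n + r) i

theorem shw_castAdd (r : MvPolynomial (Fin (n + 2)) ℂ) (i : Fin n) :
    shw r (Fin.castAdd 2 i) = X (Fin.castAdd 2 i) := by
  simp [shw]

theorem shw_natAdd (r : MvPolynomial (Fin (n + 2)) ℂ) (k : Fin 2) :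
    shw r (Fin.natAdd n k) = if k = 0 then Cub.W n else Cub.Y n + r := by
  simp [shw]

theorem aeval_shw_em (r : MvPolynomial (Fin (n + 2)) ℂ) (p : MvPolynomial (Fin n) ℂ) :
    aeval (shw r) (Cub.em p) = Cub.em p := by
  unfold Cub.em
  rw [aeval_rename]
  have h : (shw r ∘ Fin.castAdd 2) = fun i => X (Fin.castAdd 2 i) := by
    funext i
    exact shw_castAdd r i
  have h2 : (aeval fun i => (X (Fin.castAdd 2 i) : MvPolynomial (Fin (n + 2)) ℂ)) =
      (rename (Fin.castAdd 2) : MvPolynomial (Fin n) ℂ →ₐ[ℂ] MvPolynomial (Fin (n + 2)) ℂ) := by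
    apply MvPolynomial.algHom_ext
    intro i
    simp
  rw [h, h2]

theorem aeval_shw_W (r : MvPolynomial (Fin (n + 2)) ℂ) : aeval (shw r) (Cub.W n) = Cub.W n := by
  conv_lhs => unfold Cub.W
  rw [aeval_X, shw_natAdd, if_pos rfl]

theorem aeval_shw_Y (r : MvPolynomial (Fin (n + 2)) ℂ) :
    aeval (shw r) (Cub.Y n) = Cub.Y n + r := by
  conv_lhs => unfold Cub.Y
  rw [aeval_X, shw_natAdd, if_neg one_ne_zero]

theorem aeval_shw_comp {r : MvPolynomial (Fin (n + 2)) ℂ} (hr : aeval (shw r) r = r) :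
    (aeval (shw r) : MvPolynomial (Fin (n + 2)) ℂ →ₐ[ℂ] MvPolynomial (Fin (n + 2)) ℂ).comp
      (aeval (shw (-r))) = AlgHom.id ℂ _ := by
  apply MvPolynomial.algHom_ext
  intro i
  rw [AlgHom.comp_apply, aeval_X, AlgHom.id_apply]
  refine Fin.addCases (fun i => ?_) (fun k => ?_) i
  · rw [shw_castAdd, aeval_X, shw_castAdd]
  · rw [shw_natAdd]
    split_ifs with h
    · rw [aeval_shw_W, h]
      rfl
    · have hk : k = 1 := by omega
      rw [map_add, aeval_shw_Y, map_neg, hr, hk, add_neg_cancel_right]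
      rfl

/-- The automorphism `w ↦ w + r`. -/
def shearw (r : MvPolynomial (Fin (n + 2)) ℂ) (hr : aeval (shw r) r = r)
    (hr' : aeval (shw (-r)) r = r) :
    MvPolynomial (Fin (n + 2)) ℂ ≃ₐ[ℂ] MvPolynomial (Fin (n + 2)) ℂ :=
  AlgEquiv.ofAlgHom (aeval (shw r)) (aeval (shw (-r))) (aeval_shw_comp hr)
    (by
      have h := aeval_shw_comp (r := -r) (by rw [map_neg, hr'])
      rwa [neg_neg] at h)

/-- The element `P ((z + q)^m - q^m) / z`. -/
def exr (P q : MvPolynomial (Fin n) ℂ) (m : ℕ) : MvPolynomial (Fin (n + 2)) ℂ :=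
  Cub.em P * ∑ i ∈ Finset.range m, (Cub.W n + Cub.em q) ^ i * Cub.em q ^ (m - 1 - i)

theorem exr_mul_W (P q : MvPolynomial (Fin n) ℂ) (m : ℕ) :
    exr P q m * Cub.W n = Cub.em P * ((Cub.W n + Cub.em q) ^ m - Cub.em q ^ m) := by
  unfold exr
  rw [mul_assoc, ← geom_sum₂_mul, add_sub_cancel_right]

theorem aeval_shw_exr (r : MvPolynomial (Fin (n + 2)) ℂ) (P q : MvPolynomial (Fin n) ℂ) (m : ℕ) :
    aeval (shw r) (exr P q m) = exr P q m := by
  unfold exr
  rw [map_mul, aeval_shw_em, map_sum]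
  congr 1
  refine Finset.sum_congr rfl fun i _ => ?_
  rw [map_mul, map_pow, map_pow, map_add, aeval_shw_em, aeval_shw_W]

/-- The automorphism which maps `P z^m + S + w (z - q)` to `P q^m + S + z w`. -/
def exE (P q : MvPolynomial (Fin n) ℂ) (m : ℕ) :
    MvPolynomial (Fin (n + 2)) ℂ ≃ₐ[ℂ] MvPolynomial (Fin (n + 2)) ℂ :=
  (Cub.shear q 0).trans (shearw (-exr P q m) (by rw [map_neg, aeval_shw_exr])
    (by rw [map_neg, aeval_shw_exr]))

theorem exE_apply (P q : MvPolynomial (Fin n) ℂ) (m : ℕ) (x : MvPolynomial (Fin (n + 2)) ℂ) :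
    exE P q m x = aeval (shw (-exr P q m)) (aeval (Cub.sh q 0) x) := rfl

theorem exE_symm_apply (P q : MvPolynomial (Fin n) ℂ) (m : ℕ) (x : MvPolynomial (Fin (n + 2)) ℂ) :
    (exE P q m).symm x = aeval (Cub.sh (-q) (-0)) (aeval (shw (- -exr P q m)) x) := rfl

theorem exE_exq (P q S : MvPolynomial (Fin n) ℂ) (m : ℕ) :
    exE P q m (exq P q S m) = stab (P * q ^ m + S) := by
  have hW : aeval (Cub.sh q 0) (Cub.W n) = Cub.W n + Cub.em q := by
    unfold Cub.W
    rw [aeval_X, Cub.sh_natAdd, if_pos rfl]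
  have hY : aeval (Cub.sh q 0) (Cub.Y n) = Cub.Y n := by
    unfold Cub.Y
    rw [aeval_X, Cub.sh_natAdd, if_neg one_ne_zero, Cub.em, map_zero, add_zero]
  have h := exr_mul_W P q m
  rw [exE_apply, exq]
  simp only [map_add, map_mul, map_pow, map_sub, Cub.aeval_sh_em, hW, hY, aeval_shw_em,
    aeval_shw_W, aeval_shw_Y]
  have h2 : stab (P * q ^ m + S) = Cub.em P * Cub.em q ^ m + Cub.em S + Cub.W n * Cub.Y n := by
    unfold stab Cub.em Cub.W Cub.Y
    rw [map_add, map_mul, map_pow]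
  rw [h2]
  linear_combination -h

theorem stableGlob_of_exq {P q S : MvPolynomial (Fin n) ℂ} {m : ℕ}
    (h : StableGlob (n + 2) (exq P q S m)) (h0 : coeff 0 (P * q ^ m + S) = 0) :
    StableGlob n (P * q ^ m + S) :=
  StableGlob.stab _ (StableGlob.equiv _ _ 1 one_pos (coeff_zero_stab h0)
    ⟨exE P q m, 1, one_ne_zero, by rw [pow_one, map_one, one_mul, exE_exq]⟩ h)

theorem stableLoc_of_exq {P q S : MvPolynomial (Fin n) ℂ} {m : ℕ}
    (h : StableLoc (n + 2) (exq P q S m)) (hq : constantCoeff q = 0) (hP : constantCoeff P = 0) :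
    StableLoc n (P * q ^ m + S) := by
  refine StableLoc.stab _ (StableLoc.equiv _ _ 1 one_pos ?_ h)
  rw [← exE_exq]
  have hsh : ∀ q : MvPolynomial (Fin n) ℂ, constantCoeff q = 0 → ∀ x : MvPolynomial (Fin (n + 2)) ℂ,
      constantCoeff (aeval (Cub.sh q 0) x) = constantCoeff x := by
    intro q hq x
    have h1 : ((constantCoeff : MvPolynomial (Fin (n + 2)) ℂ →+* ℂ).comp
        (aeval (Cub.sh q 0) : MvPolynomial (Fin (n + 2)) ℂ →ₐ[ℂ] MvPolynomial (Fin (n + 2)) ℂ).toRingHom) =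
        constantCoeff := by
      apply MvPolynomial.ringHom_ext
      · intro c
        simp
      · intro i
        show constantCoeff (aeval (Cub.sh q 0) (X i)) = constantCoeff (X i)
        rw [aeval_X, constantCoeff_X]
        refine Fin.addCases (fun i => ?_) (fun k => ?_) i
        · rw [Cub.sh_castAdd, constantCoeff_X]
        · rw [Cub.sh_natAdd, map_add, constantCoeff_X, zero_add]
          split_ifs
          · rw [Cub.em, constantCoeff_rename, hq]
          · rw [Cub.em, map_zero, map_zero]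
    exact congrArg (fun φ : MvPolynomial (Fin (n + 2)) ℂ →+* ℂ => φ x) h1
  have hsw : ∀ r : MvPolynomial (Fin (n + 2)) ℂ, constantCoeff r = 0 →
      ∀ i, constantCoeff (shw r i) = 0 := by
    intro r hr i
    refine Fin.addCases (fun i => ?_) (fun k => ?_) i
    · rw [shw_castAdd, constantCoeff_X]
    · rw [shw_natAdd]
      split_ifs
      · rw [Cub.W, constantCoeff_X]
      · rw [map_add, Cub.Y, constantCoeff_X, hr, add_zero]
  have hsw' : ∀ r : MvPolynomial (Fin (n + 2)) ℂ, constantCoeff r = 0 →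
      ∀ x : MvPolynomial (Fin (n + 2)) ℂ, constantCoeff (aeval (shw r) x) = constantCoeff x := by
    intro r hr x
    have h1 : ((constantCoeff : MvPolynomial (Fin (n + 2)) ℂ →+* ℂ).comp
        (aeval (shw r) : MvPolynomial (Fin (n + 2)) ℂ →ₐ[ℂ] MvPolynomial (Fin (n + 2)) ℂ).toRingHom) =
        constantCoeff := by
      apply MvPolynomial.ringHom_ext
      · intro c
        simp
      · intro i
        show constantCoeff (aeval (shw r) (X i)) = constantCoeff (X i)
        rw [aeval_X, constantCoeff_X]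
        exact hsw r hr i
    exact congrArg (fun φ : MvPolynomial (Fin (n + 2)) ℂ →+* ℂ => φ x) h1
  have hr0 : constantCoeff (exr P q m) = 0 := by
    rw [exr, map_mul, Cub.em, constantCoeff_rename, hP, zero_mul]
  refine Cub.formEquivPow_of_polyEquiv (exE P q m) (fun i => ?_) (fun i => ?_) _
  · rw [exE_apply, hsw' _ (by rw [map_neg, hr0, neg_zero]), hsh q hq, constantCoeff_X]
  · rw [exE_symm_apply, neg_zero, hsh (-q) (by rw [map_neg, hq, neg_zero]),
      hsw' _ (by rw [neg_neg, hr0]), constantCoeff_X]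

end MPb07157
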