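import Pool.Agent.Lib.MP_b07157_agQ.LineA

/-!
# Products of a monomial and of powers of binomials `M₁ - r_i M₂` are stably non-degenerate
-/

noncomputable section

namespace MPb07157

open MvPolynomial

namespace Line

variable {N : ℕ} {ι : Type} [DecidableEq ι]

/-- The binomial `M₁ - c M₂`. -/
def bin (β γ : Fin N →₀ ℕ) (c : ℂ) : MvPolynomial (Fin N) ℂ := monomial β 1 - monomial γ c

/-- The polynomial `x^α ∏_D z_i^(m_i) ∏_T (M₁ - r_i M₂)^(m_i) + ∑_D w_i (z_i - M₁ + r_i M₂)`. -/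
def FF (α β γ : Fin N →₀ ℕ) (r : ι → ℂ) (m : ι → ℕ) (T D : Finset ι) (z w : ι → Fin N) :
    MvPolynomial (Fin N) ℂ :=
  (monomial α 1 * (∏ i ∈ D, X (z i) ^ m i) * ∏ i ∈ T, bin β γ (r i) ^ m i) +
    ∑ i ∈ D, X (w i) * (X (z i) - bin β γ (r i))

/-- The variables `z_i, w_i` are different and do not occur in the monomials. -/
structure Good (α β γ : Fin N →₀ ℕ) (D : Finset ι) (z w : ι → Fin N) : Prop where
  zw : ∀ i ∈ D, ∀ j ∈ D, z i ≠ w j
  zz : ∀ i ∈ D, ∀ j ∈ D, z i = z j → i = j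
  ww : ∀ i ∈ D, ∀ j ∈ D, w i = w j → i = j
  az : ∀ i ∈ D, α (z i) = 0
  aw : ∀ i ∈ D, α (w i) = 0
  bz : ∀ i ∈ D, β (z i) = 0
  bw : ∀ i ∈ D, β (w i) = 0
  gz : ∀ i ∈ D, γ (z i) = 0
  gw : ∀ i ∈ D, γ (w i) = 0

theorem inForm_add (f g : MvPolynomial (Fin N) ℂ) (S : Finset (Fin N →₀ ℕ)) :
    inForm (f + g) S = inForm f S + inForm g S := by
  ext v
  rw [coeff_add, coeff_inForm, coeff_inForm, coeff_inForm, coeff_add]
  split_ifs <;> simp

/-- The restriction of the exponents to `S`. -/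
def rS (S : Finset (Fin N →₀ ℕ)) : MvPolynomial (Fin N) ℂ →+ MvPolynomial (Fin N) ℂ where
  toFun f := inForm f S
  map_zero' := by
    ext v
    rw [coeff_inForm]
    simp
  map_add' f g := inForm_add f g S

/-- The value of the monomial `x^v` at `u`, or zero if `v ∉ S`. -/
def chi (S : Finset (Fin N →₀ ℕ)) (u : Fin N → ℂ) (v : Fin N →₀ ℕ) : ℂ :=
  if v ∈ S then ∏ j, u j ^ v j else 0

theorem rS_monomial (S : Finset (Fin N →₀ ℕ)) (v : Fin N →₀ ℕ) (c : ℂ) :
    rS S (monomial v c) = if v ∈ S then monomial v c else 0 := by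
  classical
  show inForm (monomial v c) S = _
  ext x
  rw [coeff_inForm]
  by_cases hx : x = v
  · subst hx
    split_ifs <;> simp
  · rw [coeff_monomial, if_neg (Ne.symm hx)]
    split_ifs
    · rw [coeff_monomial, if_neg (Ne.symm hx)]
    · simp
    · rw [coeff_monomial, if_neg (Ne.symm hx)]
    · simp

/-- `f ↦` the value of the restriction of `f` at `u`. -/
def E0 (S : Finset (Fin N →₀ ℕ)) (u : Fin N → ℂ) : MvPolynomial (Fin N) ℂ →+ ℂ :=
  ((eval u : MvPolynomial (Fin N) ℂ →+* ℂ) : MvPolynomial (Fin N) ℂ →+ ℂ).comp (rS S)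

/-- `f ↦` the value of `x_j ∂_j` of the restriction of `f` at `u`. -/
def E1 (S : Finset (Fin N →₀ ℕ)) (u : Fin N → ℂ) (j : Fin N) : MvPolynomial (Fin N) ℂ →+ ℂ where
  toFun f := u j * eval u (pderiv j (rS S f))
  map_zero' := by simp
  map_add' f g := by simp only [map_add]; ring

theorem eval_monomial' (u : Fin N → ℂ) (v : Fin N →₀ ℕ) (c : ℂ) :
    eval u (monomial v c) = c * ∏ j, u j ^ v j := by
  rw [eval_monomial, Finsupp.prod_fintype _ _ (fun _ => pow_zero _)]

theorem E0_monomial (S : Finset (Fin N →₀ ℕ)) (u : Fin N → ℂ) (v : Fin N →₀ ℕ) (c : ℂ) :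
    E0 S u (monomial v c) = c * chi S u v := by
  show eval u (rS S (monomial v c)) = _
  rw [rS_monomial]
  unfold chi
  split_ifs
  · rw [eval_monomial']
  · simp

theorem E1_monomial (S : Finset (Fin N →₀ ℕ)) (u : Fin N → ℂ) (j : Fin N) (v : Fin N →₀ ℕ) (c : ℂ) :
    E1 S u j (monomial v c) = c * ((v j : ℂ) * chi S u v) := by
  show u j * eval u (pderiv j (rS S (monomial v c))) = _
  rw [rS_monomial]
  unfold chi
  split_ifs
  · have h := congrArg (eval u) (X_mul_pderiv_monomial (R := ℂ) (i := j) (m := v) (r := c))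
    rw [map_mul, eval_X] at h
    rw [h, map_nsmul, eval_monomial', nsmul_eq_mul]
    ring
  · simp

/-- The exponents of the terms. -/
def v0 (α : Fin N →₀ ℕ) (m : ι → ℕ) (D : Finset ι) (z : ι → Fin N) : Fin N →₀ ℕ :=
  α + ∑ i ∈ D, Finsupp.single (z i) (m i)

theorem FF_empty (α β γ : Fin N →₀ ℕ) (r : ι → ℂ) (m : ι → ℕ) (D : Finset ι) (z w : ι → Fin N) :
    FF α β γ r m ∅ D z w = monomial (v0 α m D z) 1 +
      ∑ i ∈ D, (monomial (Finsupp.single (w i) 1 + Finsupp.single (z i) 1) 1 -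
        monomial (Finsupp.single (w i) 1 + β) 1 + monomial (Finsupp.single (w i) 1 + γ) (r i)) := by
  unfold FF v0
  rw [Finset.prod_empty, mul_one]
  congr 1
  · rw [← mul_one (1 : ℂ), ← monomial_mul, mul_one, monomial_sum_one]
    congr 1
    refine Finset.prod_congr rfl fun i _ => ?_
    rw [X_pow_eq_monomial]
  · refine Finset.sum_congr rfl fun i _ => ?_
    unfold bin X
    rw [sub_sub_eq_add_sub, mul_sub, mul_add, monomial_mul, monomial_mul, monomial_mul, mul_one,
      one_mul]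
    ring

theorem E0_FF (S : Finset (Fin N →₀ ℕ)) (u : Fin N → ℂ) (α β γ : Fin N →₀ ℕ) (r : ι → ℂ)
    (m : ι → ℕ) (D : Finset ι) (z w : ι → Fin N) :
    E0 S u (FF α β γ r m ∅ D z w) = chi S u (v0 α m D z) +
      ∑ i ∈ D, (chi S u (Finsupp.single (w i) 1 + Finsupp.single (z i) 1) -
        chi S u (Finsupp.single (w i) 1 + β) + r i * chi S u (Finsupp.single (w i) 1 + γ)) := by
  rw [FF_empty, map_add, map_sum]
  simp only [map_add, map_sub, E0_monomial, one_mul]

theorem E1_FF (S : Finset (Fin N →₀ ℕ)) (u : Fin N → ℂ) (j : Fin N) (α β γ : Fin N →₀ ℕ)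
    (r : ι → ℂ) (m : ι → ℕ) (D : Finset ι) (z w : ι → Fin N) :
    E1 S u j (FF α β γ r m ∅ D z w) = (v0 α m D z j : ℂ) * chi S u (v0 α m D z) +
      ∑ i ∈ D, (((Finsupp.single (w i) 1 + Finsupp.single (z i) 1 : Fin N →₀ ℕ) j : ℂ) *
          chi S u (Finsupp.single (w i) 1 + Finsupp.single (z i) 1) -
        ((Finsupp.single (w i) 1 + β : Fin N →₀ ℕ) j : ℂ) * chi S u (Finsupp.single (w i) 1 + β) +
        r i * (((Finsupp.single (w i) 1 + γ : Fin N →₀ ℕ) j : ℂ) *
          chi S u (Finsupp.single (w i) 1 + γ))) := by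
  rw [FF_empty, map_add, map_sum]
  simp only [map_add, map_sub, E1_monomial, one_mul]

theorem subND_base {α β γ : Fin N →₀ ℕ} {r : ι → ℂ} {m : ι → ℕ} {D : Finset ι} {z w : ι → Fin N}
    (hg : Good α β γ D z w) (hr : ∀ i ∈ D, ∀ j ∈ D, r i = r j → i = j) (hβγ : β ≠ γ) :
    SubND (FF α β γ r m ∅ D z w) := by
  classical
  intro S hS hS0 u hu h0
  by_contra hcon
  push Not at hcon
  have e0 : E0 S u (FF α β γ r m ∅ D z w) = 0 := h0
  have e1 : ∀ j, E1 S u j (FF α β γ r m ∅ D z w) = 0 := by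
    intro j
    show u j * eval u (pderiv j (inForm (FF α β γ r m ∅ D z w) S)) = 0
    rw [hcon j, mul_zero]
  rw [E0_FF] at e0
  simp only [E1_FF] at e1
  -- abbreviations
  set c0 := chi S u (v0 α m D z) with hc0
  set c1 : ι → ℂ := fun i => chi S u (Finsupp.single (w i) 1 + Finsupp.single (z i) 1) with hc1
  set c2 : ι → ℂ := fun i => chi S u (Finsupp.single (w i) 1 + β) with hc2
  set c3 : ι → ℂ := fun i => r i * chi S u (Finsupp.single (w i) 1 + γ) with hc3
  have e1' : ∀ j, (v0 α m D z j : ℂ) * c0 +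
      ∑ i ∈ D, (((Finsupp.single (w i) 1 + Finsupp.single (z i) 1 : Fin N →₀ ℕ) j : ℂ) * c1 i -
        ((Finsupp.single (w i) 1 + β : Fin N →₀ ℕ) j : ℂ) * c2 i +
        ((Finsupp.single (w i) 1 + γ : Fin N →₀ ℕ) j : ℂ) * c3 i) = 0 := by
    intro j
    rw [← e1 j]
    congr 1
    refine Finset.sum_congr rfl fun i _ => ?_
    simp only [hc1, hc2, hc3]
    ring
  have e0' : c0 + ∑ i ∈ D, (c1 i - c2 i + c3 i) = 0 := e0
  -- the equation of `w_i`
  have hw : ∀ i ∈ D, c1 i - c2 i + c3 i = 0 := by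
    intro i hi
    have h := e1' (w i)
    have hv : v0 α m D z (w i) = 0 := by
      unfold v0
      rw [Finsupp.add_apply, hg.aw i hi, zero_add, Finsupp.finsetSum_apply]
      refine Finset.sum_eq_zero fun k hk => ?_
      rw [Finsupp.single_apply, if_neg (hg.zw k hk i hi)]
    rw [hv, Nat.cast_zero, zero_mul, zero_add, Finset.sum_eq_single i] at h
    · rw [Finsupp.add_apply, Finsupp.add_apply, Finsupp.add_apply, Finsupp.single_eq_same,
        hg.bw i hi, hg.gw i hi, Finsupp.single_apply, if_neg (hg.zw i hi i hi)] at h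
      simpa using h
    · intro k hk hki
      have hwk : w k ≠ w i := fun h => hki (hg.ww k hk i hi h)
      rw [Finsupp.add_apply, Finsupp.add_apply, Finsupp.add_apply, hg.bw i hi, hg.gw i hi,
        Finsupp.single_apply, if_neg hwk, Finsupp.single_apply, if_neg (hg.zw k hk i hi)]
      simp
    · intro h'
      exact absurd hi h'
  have h00 : c0 = 0 := by
    rw [Finset.sum_eq_zero hw, add_zero] at e0'
    exact e0'
  have hz : ∀ i ∈ D, c1 i = 0 := by
    intro i hi
    have h := e1' (z i)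
    rw [h00, mul_zero, zero_add, Finset.sum_eq_single i] at h
    · rw [Finsupp.add_apply, Finsupp.add_apply, Finsupp.add_apply, Finsupp.single_eq_same,
        hg.bz i hi, hg.gz i hi, Finsupp.single_apply, if_neg (hg.zw i hi i hi).symm] at h
      simpa using h
    · intro k hk hki
      have hzk : z k ≠ z i := fun h => hki (hg.zz k hk i hi h)
      rw [Finsupp.add_apply, Finsupp.add_apply, Finsupp.add_apply, hg.bz i hi, hg.gz i hi,
        Finsupp.single_apply, if_neg (hg.zw i hi k hk).symm, Finsupp.single_apply, if_neg hzk]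
      simp
    · intro h'
      exact absurd hi h'
  have h23 : ∀ i ∈ D, c3 i = c2 i := by
    intro i hi
    have := hw i hi
    rw [hz i hi] at this
    linear_combination this
  -- the terms with a nonzero `c2`
  have hM : ∀ i ∈ D, c2 i ≠ 0 → ∏ j, u j ^ β j = r i * ∏ j, u j ^ γ j := by
    intro i hi h
    have h3 : c3 i ≠ 0 := by rw [h23 i hi]; exact h
    have hb : Finsupp.single (w i) 1 + β ∈ S := by
      by_contra h'
      exact h (by simp only [hc2, chi]; rw [if_neg h'])
    have hc : Finsupp.single (w i) 1 + γ ∈ S := by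
      by_contra h'
      exact h3 (by simp only [hc3, chi]; rw [if_neg h', mul_zero])
    have h4 := h23 i hi
    simp only [hc2, hc3, chi] at h4
    rw [if_pos hb, if_pos hc] at h4
    simp only [Finsupp.add_apply, pow_add, Finset.prod_mul_distrib] at h4
    have h5 : ∏ j, u j ^ (Finsupp.single (w i) 1 : Fin N →₀ ℕ) j ≠ 0 :=
      Finset.prod_ne_zero_iff.2 fun j _ => pow_ne_zero _ (hu j)
    apply mul_left_cancel₀ h5
    rw [← h4]
    ring
  have hMγ : ∏ j, u j ^ γ j ≠ 0 := Finset.prod_ne_zero_iff.2 fun j _ => pow_ne_zero _ (hu j)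
  have huniq : ∀ i ∈ D, ∀ k ∈ D, c2 i ≠ 0 → c2 k ≠ 0 → i = k := by
    intro i hi k hk h1 h2
    apply hr i hi k hk
    apply mul_right_cancel₀ hMγ
    rw [← hM i hi h1, ← hM k hk h2]
  have h2z : ∀ i ∈ D, c2 i = 0 := by
    by_contra h
    push Not at h
    obtain ⟨i, hi, hci⟩ := h
    obtain ⟨j, hj⟩ : ∃ j, β j ≠ γ j := by
      by_contra h'
      push Not at h'
      exact hβγ (Finsupp.ext h')
    have hjw : ∀ k ∈ D, w k ≠ j := by
      rintro k hk rfl
      exact hj (by rw [hg.bw k hk, hg.gw k hk])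
    have h := e1' j
    rw [h00, mul_zero, zero_add, Finset.sum_eq_single i] at h
    · rw [hz i hi, h23 i hi] at h
      simp only [Finsupp.add_apply, Finsupp.single_apply, if_neg (hjw i hi), mul_zero,
        zero_add] at h
      have h' : ((γ j : ℂ) - (β j : ℂ)) * c2 i = 0 := by linear_combination h
      rw [mul_eq_zero, sub_eq_zero] at h'
      rcases h' with h' | h'
      · exact hj (by exact_mod_cast h'.symm)
      · exact hci h'
    · intro k hk hki
      have hk0 : c2 k = 0 := by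
        by_contra h'
        exact hki (huniq k hk i hi h' hci)
      rw [hz k hk, h23 k hk, hk0]
      simp
    · intro h'
      exact absurd hi h'
  -- conclusion
  obtain ⟨v, hv⟩ := hS0
  have hchi : ∀ x ∈ S, chi S u x ≠ 0 := by
    intro x hx
    unfold chi
    rw [if_pos hx]
    exact Finset.prod_ne_zero_iff.2 fun j _ => pow_ne_zero _ (hu j)
  have hvs := mem_support_iff.1 (hS hv)
  apply hvs
  rw [FF_empty, coeff_add, coeff_sum]
  have t0 : coeff v (monomial (v0 α m D z) (1 : ℂ)) = 0 := by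
    rw [coeff_monomial, if_neg]
    rintro rfl
    exact hchi _ hv h00
  rw [t0, zero_add]
  refine Finset.sum_eq_zero fun i hi => ?_
  rw [coeff_add, coeff_sub, coeff_monomial, coeff_monomial, coeff_monomial]
  have t1 : Finsupp.single (w i) 1 + Finsupp.single (z i) 1 ≠ v := by
    rintro rfl
    exact hchi _ hv (hz i hi)
  have t2 : Finsupp.single (w i) 1 + β ≠ v := by
    rintro rfl
    exact hchi _ hv (h2z i hi)
  rw [if_neg t1, if_neg t2]
  by_cases t3 : Finsupp.single (w i) 1 + γ = v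
  · rw [if_pos t3]
    have h3 := h23 i hi
    rw [h2z i hi] at h3
    simp only [hc3] at h3
    rw [t3, mul_eq_zero] at h3
    rcases h3 with h3 | h3
    · rw [h3]; ring
    · exact absurd h3 (hchi _ hv)
  · rw [if_neg t3]; ring

end Line

end MPb07157
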