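import Pool.Agent.Lib.MP_b07157_agQ.LineB

/-!
# Products of a monomial and of powers of binomials: the induction
-/

noncomputable section

namespace MPb07157

open MvPolynomial

namespace Line

variable {N : ℕ} {ι : Type} [DecidableEq ι]

/-- The exponents in the larger set of variables. -/
def eE (α : Fin N →₀ ℕ) : Fin (N + 2) →₀ ℕ := Finsupp.mapDomain (Fin.castAdd 2) α

theorem eE_castAdd (α : Fin N →₀ ℕ) (j : Fin N) : eE α (Fin.castAdd 2 j) = α j :=
  Finsupp.mapDomain_apply (Fin.castAdd_injective N 2) α j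

theorem eE_natAdd (α : Fin N →₀ ℕ) (k : Fin 2) : eE α (Fin.natAdd N k) = 0 := by
  unfold eE
  apply Finsupp.mapDomain_of_notMem_range
  rintro ⟨j, hj⟩
  have h := congrArg Fin.val hj
  have h1 := j.2
  simp only [Fin.val_castAdd, Fin.val_natAdd] at h
  omega

theorem eE_injective : Function.Injective (eE (N := N)) :=
  Finsupp.mapDomain_injective (Fin.castAdd_injective N 2)

theorem eE_ne_zero {α : Fin N →₀ ℕ} (h : α ≠ 0) : eE α ≠ 0 := by
  intro h1
  apply h
  apply eE_injective
  rw [h1]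
  unfold eE
  rw [Finsupp.mapDomain_zero]

theorem em_monomial (α : Fin N →₀ ℕ) (c : ℂ) : Cub.em (monomial α c) = monomial (eE α) c := by
  unfold Cub.em eE
  rw [rename_monomial]

theorem em_bin (β γ : Fin N →₀ ℕ) (c : ℂ) : Cub.em (bin β γ c) = bin (eE β) (eE γ) c := by
  have h := em_monomial β 1
  have h' := em_monomial γ c
  unfold Cub.em at h h' ⊢
  unfold bin
  rw [map_sub, h, h']

/-- The new variables. -/
def ext (z : ι → Fin N) (i : ι) (k : Fin 2) (j : ι) : Fin (N + 2) :=
  if j = i then Fin.natAdd N k else Fin.castAdd 2 (z j)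

theorem ext_self (z : ι → Fin N) (i : ι) (k : Fin 2) : ext z i k i = Fin.natAdd N k := by
  unfold ext
  rw [if_pos rfl]

theorem ext_of_ne (z : ι → Fin N) {i j : ι} (k : Fin 2) (h : j ≠ i) :
    ext z i k j = Fin.castAdd 2 (z j) := by
  unfold ext
  rw [if_neg h]

theorem castAdd_ne_natAdd (j : Fin N) (k : Fin 2) : Fin.castAdd 2 j ≠ Fin.natAdd N k := by
  intro h
  have h := congrArg Fin.val h
  have h1 := j.2
  simp only [Fin.val_castAdd, Fin.val_natAdd] at h
  omega

theorem Good.ext {α β γ : Fin N →₀ ℕ} {D : Finset ι} {z w : ι → Fin N} (h : Good α β γ D z w)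
    {i : ι} (hi : i ∉ D) :
    Good (eE α) (eE β) (eE γ) (insert i D) (ext z i 0) (ext w i 1) := by
  have key : ∀ (z : ι → Fin N) (k : Fin 2) (δ : Fin N →₀ ℕ), (∀ j ∈ D, δ (z j) = 0) →
      ∀ j ∈ insert i D, eE δ (Line.ext z i k j) = 0 := by
    intro z k δ hδ j hj
    by_cases hji : j = i
    · rw [hji, ext_self, eE_natAdd]
    · rw [ext_of_ne z k hji, eE_castAdd]
      exact hδ j ((Finset.mem_insert.1 hj).resolve_left hji)
  refine ⟨?_, ?_, ?_, key z 0 α h.az, key w 1 α h.aw, key z 0 β h.bz, key w 1 β h.bw,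
    key z 0 γ h.gz, key w 1 γ h.gw⟩
  · intro j hj k hk
    by_cases hji : j = i
    · by_cases hki : k = i
      · rw [hji, hki, ext_self, ext_self]
        intro h1
        have h2 := congrArg Fin.val h1
        simp [Fin.val_natAdd] at h2
      · rw [hji, ext_self, ext_of_ne w 1 hki]
        exact (castAdd_ne_natAdd _ _).symm
    · by_cases hki : k = i
      · rw [hki, ext_self, ext_of_ne z 0 hji]
        exact castAdd_ne_natAdd _ _
      · rw [ext_of_ne w 1 hki, ext_of_ne z 0 hji]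
        intro h1
        exact h.zw j ((Finset.mem_insert.1 hj).resolve_left hji) k
          ((Finset.mem_insert.1 hk).resolve_left hki) (Fin.castAdd_injective N 2 h1)
  · intro j hj k hk hjk
    by_cases hji : j = i
    · by_cases hki : k = i
      · rw [hji, hki]
      · rw [hji, ext_self, ext_of_ne z 0 hki] at hjk
        exact absurd hjk.symm (castAdd_ne_natAdd _ _)
    · by_cases hki : k = i
      · rw [hki, ext_self, ext_of_ne z 0 hji] at hjk
        exact absurd hjk (castAdd_ne_natAdd _ _)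
      · rw [ext_of_ne z 0 hki, ext_of_ne z 0 hji] at hjk
        exact h.zz j ((Finset.mem_insert.1 hj).resolve_left hji) k
          ((Finset.mem_insert.1 hk).resolve_left hki) (Fin.castAdd_injective N 2 hjk)
  · intro j hj k hk hjk
    by_cases hji : j = i
    · by_cases hki : k = i
      · rw [hji, hki]
      · rw [hji, ext_self, ext_of_ne w 1 hki] at hjk
        exact absurd hjk.symm (castAdd_ne_natAdd _ _)
    · by_cases hki : k = i
      · rw [hki, ext_self, ext_of_ne w 1 hji] at hjk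
        exact absurd hjk (castAdd_ne_natAdd _ _)
      · rw [ext_of_ne w 1 hki, ext_of_ne w 1 hji] at hjk
        exact h.ww j ((Finset.mem_insert.1 hj).resolve_left hji) k
          ((Finset.mem_insert.1 hk).resolve_left hki) (Fin.castAdd_injective N 2 hjk)

/-- The product without the factor with index `i`. -/
def PP (α β γ : Fin N →₀ ℕ) (r : ι → ℂ) (m : ι → ℕ) (T D : Finset ι) (z : ι → Fin N) :
    MvPolynomial (Fin N) ℂ :=
  monomial α 1 * (∏ i ∈ D, X (z i) ^ m i) * ∏ i ∈ T, bin β γ (r i) ^ m i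

/-- The sum. -/
def SS (β γ : Fin N →₀ ℕ) (r : ι → ℂ) (D : Finset ι) (z w : ι → Fin N) :
    MvPolynomial (Fin N) ℂ :=
  ∑ i ∈ D, X (w i) * (X (z i) - bin β γ (r i))

theorem FF_insert (α β γ : Fin N →₀ ℕ) (r : ι → ℂ) (m : ι → ℕ) {T D : Finset ι} (z w : ι → Fin N)
    {i : ι} (hi : i ∉ T) :
    FF α β γ r m (insert i T) D z w =
      PP α β γ r m T D z * bin β γ (r i) ^ m i + SS β γ r D z w := by
  unfold FF PP SS
  rw [Finset.prod_insert hi]
  ring

theorem em_mul (p q : MvPolynomial (Fin N) ℂ) : Cub.em (p * q) = Cub.em p * Cub.em q := by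
  unfold Cub.em; rw [map_mul]

theorem em_sub (p q : MvPolynomial (Fin N) ℂ) : Cub.em (p - q) = Cub.em p - Cub.em q := by
  unfold Cub.em; rw [map_sub]

theorem em_pow (p : MvPolynomial (Fin N) ℂ) (k : ℕ) : Cub.em (p ^ k) = Cub.em p ^ k := by
  unfold Cub.em; rw [map_pow]

theorem em_X (j : Fin N) : Cub.em (X j) = X (Fin.castAdd 2 j) := by
  unfold Cub.em; rw [rename_X]

theorem em_prod (D : Finset ι) (p : ι → MvPolynomial (Fin N) ℂ) :
    Cub.em (∏ i ∈ D, p i) = ∏ i ∈ D, Cub.em (p i) := by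
  unfold Cub.em; rw [map_prod]

theorem em_sum (D : Finset ι) (p : ι → MvPolynomial (Fin N) ℂ) :
    Cub.em (∑ i ∈ D, p i) = ∑ i ∈ D, Cub.em (p i) := by
  unfold Cub.em; rw [map_sum]

theorem exq_PP (α β γ : Fin N →₀ ℕ) (r : ι → ℂ) (m : ι → ℕ) {T D : Finset ι} (z w : ι → Fin N)
    {i : ι} (hi : i ∉ D) :
    exq (PP α β γ r m T D z) (bin β γ (r i)) (SS β γ r D z w) (m i) =
      FF (eE α) (eE β) (eE γ) r m T (insert i D) (ext z i 0) (ext w i 1) := by
  unfold exq FF PP SS
  rw [Finset.prod_insert hi, Finset.sum_insert hi, ext_self, ext_self]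
  have h1 : ∏ j ∈ D, X (ext z i 0 j) ^ m j =
      Cub.em (∏ j ∈ D, X (z j) ^ m j : MvPolynomial (Fin N) ℂ) := by
    rw [em_prod]
    refine Finset.prod_congr rfl fun j hj => ?_
    have hji : j ≠ i := by rintro rfl; exact hi hj
    rw [ext_of_ne z 0 hji, em_pow, em_X]
  have h2 : ∑ j ∈ D, X (ext w i 1 j) * (X (ext z i 0 j) - bin (eE β) (eE γ) (r j)) =
      Cub.em (∑ j ∈ D, X (w j) * (X (z j) - bin β γ (r j)) : MvPolynomial (Fin N) ℂ) := by
    rw [em_sum]
    refine Finset.sum_congr rfl fun j hj => ?_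
    have hji : j ≠ i := by rintro rfl; exact hi hj
    rw [ext_of_ne z 0 hji, ext_of_ne w 1 hji, em_mul, em_sub, em_X, em_X, em_bin]
  have h3 : ∏ j ∈ T, bin (eE β) (eE γ) (r j) ^ m j =
      Cub.em (∏ j ∈ T, bin β γ (r j) ^ m j) := by
    rw [em_prod]
    refine Finset.prod_congr rfl fun j hj => ?_
    rw [em_pow, em_bin]
  rw [h1, h2, h3, em_mul, em_mul, em_monomial, em_bin]
  unfold Cub.W Cub.Y
  ring

theorem constantCoeff_monomial_of_ne {β : Fin N →₀ ℕ} (h : β ≠ 0) (c : ℂ) :
    constantCoeff (monomial β c) = 0 := by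
  classical
  rw [constantCoeff_eq, coeff_monomial, if_neg h]

theorem constantCoeff_bin {β γ : Fin N →₀ ℕ} (hβ : β ≠ 0) (hγ : γ ≠ 0) (c : ℂ) :
    constantCoeff (bin β γ c) = 0 := by
  unfold bin
  rw [map_sub, constantCoeff_monomial_of_ne hβ, constantCoeff_monomial_of_ne hγ, sub_zero]

theorem constantCoeff_PP {α β γ : Fin N →₀ ℕ} {r : ι → ℂ} {m : ι → ℕ} (hm : ∀ i, 0 < m i)
    {T D : Finset ι} {z : ι → Fin N} (hβ : β ≠ 0) (hγ : γ ≠ 0)
    (h : α ≠ 0 ∨ D.Nonempty ∨ T.Nonempty) : constantCoeff (PP α β γ r m T D z) = 0 := by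
  unfold PP
  rw [map_mul, map_mul, map_prod, map_prod]
  rcases h with h | ⟨i, hi⟩ | ⟨i, hi⟩
  · rw [constantCoeff_monomial_of_ne h, zero_mul, zero_mul]
  · rw [Finset.prod_eq_zero hi (by rw [map_pow, constantCoeff_X, zero_pow (hm i).ne']), mul_zero,
      zero_mul]
  · rw [Finset.prod_eq_zero (s := T) hi
      (by rw [map_pow, constantCoeff_bin hβ hγ, zero_pow (hm i).ne']), mul_zero]

theorem constantCoeff_SS {β γ : Fin N →₀ ℕ} {r : ι → ℂ} {D : Finset ι} {z w : ι → Fin N} :
    constantCoeff (SS β γ r D z w) = 0 := by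
  unfold SS
  rw [map_sum]
  refine Finset.sum_eq_zero fun i _ => ?_
  rw [map_mul, constantCoeff_X, zero_mul]

theorem FF_empty_ne_zero {α β γ : Fin N →₀ ℕ} {r : ι → ℂ} {m : ι → ℕ} {D : Finset ι}
    {z w : ι → Fin N} (hg : Good α β γ D z w) : FF α β γ r m ∅ D z w ≠ 0 := by
  classical
  intro h
  have h1 : coeff (v0 α m D z) (FF α β γ r m ∅ D z w) = 1 := by
    rw [FF_empty, coeff_add, coeff_monomial, if_pos rfl, coeff_sum, Finset.sum_eq_zero, add_zero]
    intro i hi
    have hv : v0 α m D z (w i) = 0 := by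
      unfold v0
      rw [Finsupp.add_apply, hg.aw i hi, zero_add, Finsupp.finsetSum_apply]
      refine Finset.sum_eq_zero fun k hk => ?_
      rw [Finsupp.single_apply, if_neg (hg.zw k hk i hi)]
    have key : ∀ δ : Fin N →₀ ℕ, Finsupp.single (w i) 1 + δ ≠ v0 α m D z := by
      intro δ h2
      have h3 := DFunLike.congr_fun h2 (w i)
      rw [hv, Finsupp.add_apply, Finsupp.single_eq_same] at h3
      omega
    rw [coeff_add, coeff_sub, coeff_monomial, coeff_monomial, coeff_monomial, if_neg (key _),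
      if_neg (key _), if_neg (key _)]
    ring
  rw [h, coeff_zero] at h1
  exact zero_ne_one h1

theorem FF_eq_PP (α β γ : Fin N →₀ ℕ) (r : ι → ℂ) (m : ι → ℕ) (T D : Finset ι) (z w : ι → Fin N) :
    FF α β γ r m T D z w = PP α β γ r m T D z + SS β γ r D z w := rfl

theorem stable_FF {r : ι → ℂ} {m : ι → ℕ} (hm : ∀ i, 0 < m i) (k : ℕ) :
    ∀ (N : ℕ) (α β γ : Fin N →₀ ℕ) (T D : Finset ι) (z w : ι → Fin N), T.card = k →
      Good α β γ D z w → Disjoint T D → (∀ i ∈ T ∪ D, ∀ j ∈ T ∪ D, r i = r j → i = j) →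
      β ≠ γ → β ≠ 0 → γ ≠ 0 → (α ≠ 0 ∨ D.Nonempty ∨ 2 ≤ T.card) →
      StableLoc N (FF α β γ r m T D z w) ∧ StableGlob N (FF α β γ r m T D z w) := by
  induction k with
  | zero =>
    intro N α β γ T D z w hT hg _ hr hβγ hβ hγ h
    have hT0 : T = ∅ := Finset.card_eq_zero.1 hT
    subst hT0
    refine (subND_base hg (fun i hi j hj => hr i (Finset.mem_union_right _ hi) j
      (Finset.mem_union_right _ hj)) hβγ).stable (FF_empty_ne_zero hg) ?_
    rw [← constantCoeff_eq, FF_eq_PP, map_add, constantCoeff_SS, add_zero]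
    apply constantCoeff_PP hm hβ hγ
    rcases h with h | h | h
    · exact Or.inl h
    · exact Or.inr (Or.inl h)
    · rw [Finset.card_empty] at h
      omega
  | succ k ih =>
    intro N α β γ T D z w hT hg hTD hr hβγ hβ hγ h
    obtain ⟨i, hiT⟩ : T.Nonempty := by
      rw [← Finset.card_pos]
      omega
    obtain ⟨T', hiT', rfl⟩ : ∃ T', i ∉ T' ∧ T = insert i T' :=
      ⟨T.erase i, Finset.notMem_erase i T, (Finset.insert_erase hiT).symm⟩
    rw [Finset.card_insert_of_notMem hiT'] at hT h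
    have hiD : i ∉ D := Finset.disjoint_left.1 hTD (Finset.mem_insert_self i T')
    have hP : constantCoeff (PP α β γ r m T' D z) = 0 := by
      apply constantCoeff_PP hm hβ hγ
      rcases h with h | h | h
      · exact Or.inl h
      · exact Or.inr (Or.inl h)
      · refine Or.inr (Or.inr ?_)
        rw [← Finset.card_pos]
        omega
    have hun : T' ∪ insert i D = insert i T' ∪ D := by
      ext x
      simp only [Finset.mem_union, Finset.mem_insert]
      tauto
    have hdis : Disjoint T' (insert i D) := by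
      rw [Finset.disjoint_insert_right]
      exact ⟨hiT', Finset.disjoint_of_subset_left (Finset.subset_insert i T') hTD⟩
    obtain ⟨h1, h2⟩ := ih (N + 2) (eE α) (eE β) (eE γ) T' (insert i D) (ext z i 0) (ext w i 1)
      (by omega) (hg.ext hiD) hdis (by rw [hun]; exact hr) (fun h => hβγ (eE_injective h))
      (eE_ne_zero hβ) (eE_ne_zero hγ) (Or.inr (Or.inl ⟨i, Finset.mem_insert_self i D⟩))
    rw [← exq_PP α β γ r m z w hiD] at h1 h2
    rw [FF_insert α β γ r m z w hiT']
    refine ⟨stableLoc_of_exq h1 (constantCoeff_bin hβ hγ _) hP, stableGlob_of_exq h2 ?_⟩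
    rw [← constantCoeff_eq, map_add, constantCoeff_SS, map_mul, hP, zero_mul, add_zero]

end Line

end MPb07157
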