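import Mathlib

/-!
# Lower bounds for polynomials in one variable on a small disc

If the coefficient `a_m` of `P` dominates the higher ones on a disc, then
`|P(z)| ≥ 2^{-m} ε ∏_{i ≤ m} |z - t_i|` on the disc for suitable points `t_i` of the disc: take for
`t_1` a minimiser of `|P|`, divide `P - P(t_1)` by `z - t_1`, and go on.
-/

noncomputable section

namespace MPb07157M

open Polynomial Finset

/-- `∑_{j > m} |a_j| ρ^{j - m}`. -/
def tl (N m : ℕ) (ρ : ℝ) (P : ℂ[X]) : ℝ := ∑ j ∈ Ioc m N, ‖P.coeff j‖ * ρ ^ (j - m)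

theorem sum_pow_le {a b : ℝ} (ha : 0 ≤ a) (hb : 0 ≤ b) (k : ℕ) :
    ∑ l ∈ range (k + 1), a ^ (k - l) * b ^ l ≤ (b + a) ^ k := by
  rw [add_pow]
  refine Finset.sum_le_sum fun l hl => ?_
  have h1 : (1 : ℝ) ≤ (k.choose l : ℝ) := by
    have : 0 < k.choose l := Nat.choose_pos (by
      rw [Finset.mem_range] at hl
      omega)
    exact_mod_cast this
  have h2 : 0 ≤ a ^ (k - l) * b ^ l := by positivity
  calc a ^ (k - l) * b ^ l = b ^ l * a ^ (k - l) * 1 := by ring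
    _ ≤ b ^ l * a ^ (k - l) * (k.choose l : ℝ) := by
        apply mul_le_mul_of_nonneg_left h1
        positivity

theorem coeff_div (P : ℂ[X]) {N : ℕ} (hN : P.natDegree ≤ N) (t : ℂ) (i : ℕ) :
    (P /ₘ (X - C t)).coeff i = ∑ j ∈ Ioc i N, t ^ (j - (i + 1)) * P.coeff j := by
  rw [coeff_divByMonic_X_sub_C]
  have h1 : Ioc i N = Icc (i + 1) N := by
    ext j
    simp only [Finset.mem_Ioc, Finset.mem_Icc]
    omega
  rw [h1]
  apply Finset.sum_subset (Finset.Icc_subset_Icc_right hN)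
  intro j hj hj'
  rw [Finset.mem_Icc] at hj hj'
  rw [Polynomial.coeff_eq_zero_of_natDegree_lt (by omega), mul_zero]

/-- The key estimate for the division by `X - t`. -/
theorem div_estimate (P : ℂ[X]) {N : ℕ} (hN : P.natDegree ≤ N) {δ ρ : ℝ} (hρ : 0 ≤ ρ)
    {t : ℂ} (ht : ‖t‖ ≤ δ) (m : ℕ) :
    ‖P.coeff (m + 1)‖ - tl N (m + 1) (ρ + δ) P ≤
      ‖(P /ₘ (X - C t)).coeff m‖ - tl N m ρ (P /ₘ (X - C t)) := by
  have hδ : 0 ≤ δ := (norm_nonneg t).trans ht
  set Q := P /ₘ (X - C t) with hQ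
  by_cases hmN : m + 1 ≤ N
  · have e1 : Q.coeff m = P.coeff (m + 1) + ∑ j ∈ Ioc (m + 1) N, t ^ (j - (m + 1)) * P.coeff j := by
      rw [hQ, coeff_div P hN]
      have h1 : Ioc m N = insert (m + 1) (Ioc (m + 1) N) := by
        ext j
        simp only [Finset.mem_Ioc, Finset.mem_insert]
        omega
      rw [h1, Finset.sum_insert (by simp), Nat.sub_self, pow_zero, one_mul]
    have e2 : ‖P.coeff (m + 1)‖ - ∑ j ∈ Ioc (m + 1) N, δ ^ (j - (m + 1)) * ‖P.coeff j‖ ≤
        ‖Q.coeff m‖ := by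
      have h1 : ‖P.coeff (m + 1)‖ ≤ ‖Q.coeff m‖ +
          ‖∑ j ∈ Ioc (m + 1) N, t ^ (j - (m + 1)) * P.coeff j‖ := by
        have h2 : P.coeff (m + 1) = Q.coeff m -
            ∑ j ∈ Ioc (m + 1) N, t ^ (j - (m + 1)) * P.coeff j := by
          rw [e1, add_sub_cancel_right]
        rw [h2]
        exact norm_sub_le _ _
      have h2 : ‖∑ j ∈ Ioc (m + 1) N, t ^ (j - (m + 1)) * P.coeff j‖ ≤
          ∑ j ∈ Ioc (m + 1) N, δ ^ (j - (m + 1)) * ‖P.coeff j‖ := by
        refine (norm_sum_le _ _).trans (Finset.sum_le_sum fun j _ => ?_)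
        rw [norm_mul, norm_pow]
        exact mul_le_mul_of_nonneg_right (pow_le_pow_left₀ (norm_nonneg _) ht _) (norm_nonneg _)
      linarith
    have e3 : tl N m ρ Q ≤ ∑ j ∈ Ioc (m + 1) N, ‖P.coeff j‖ *
        ∑ i ∈ Ico (m + 1) j, δ ^ (j - (i + 1)) * ρ ^ (i - m) := by
      unfold tl
      have h1 : ∀ i ∈ Ioc m N, ‖Q.coeff i‖ * ρ ^ (i - m) ≤
          ∑ j ∈ Ioc i N, ‖P.coeff j‖ * (δ ^ (j - (i + 1)) * ρ ^ (i - m)) := by
        intro i _
        have h2 : ‖Q.coeff i‖ ≤ ∑ j ∈ Ioc i N, ‖P.coeff j‖ * δ ^ (j - (i + 1)) := by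
          rw [hQ, coeff_div P hN]
          refine (norm_sum_le _ _).trans (Finset.sum_le_sum fun j _ => ?_)
          rw [norm_mul, norm_pow, mul_comm]
          exact mul_le_mul_of_nonneg_left (pow_le_pow_left₀ (norm_nonneg _) ht _) (norm_nonneg _)
        refine (mul_le_mul_of_nonneg_right h2 (pow_nonneg hρ _)).trans (le_of_eq ?_)
        rw [Finset.sum_mul]
        exact Finset.sum_congr rfl fun j _ => by ring
      refine (Finset.sum_le_sum h1).trans (le_of_eq ?_)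
      simp only [Finset.mul_sum]
      rw [Finset.sum_sigma', Finset.sum_sigma']
      refine Finset.sum_bij' (fun x _ => ⟨x.2, x.1⟩) (fun x _ => ⟨x.2, x.1⟩) ?_ ?_ ?_ ?_ ?_
      · rintro ⟨i, j⟩ h
        simp only [Finset.mem_sigma, Finset.mem_Ioc, Finset.mem_Ico] at h ⊢
        omega
      · rintro ⟨j, i⟩ h
        simp only [Finset.mem_sigma, Finset.mem_Ioc, Finset.mem_Ico] at h ⊢
        omega
      · intro x _
        rfl
      · intro x _
        rfl
      · intro x _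
        rfl
    have e4 : ∑ j ∈ Ioc (m + 1) N, δ ^ (j - (m + 1)) * ‖P.coeff j‖ +
        ∑ j ∈ Ioc (m + 1) N, ‖P.coeff j‖ *
          ∑ i ∈ Ico (m + 1) j, δ ^ (j - (i + 1)) * ρ ^ (i - m) ≤ tl N (m + 1) (ρ + δ) P := by
      unfold tl
      rw [← Finset.sum_add_distrib]
      refine Finset.sum_le_sum fun j hj => ?_
      rw [Finset.mem_Ioc] at hj
      obtain ⟨k, rfl⟩ : ∃ k, j = m + 1 + k := ⟨j - (m + 1), by omega⟩
      have h1 : δ ^ (m + 1 + k - (m + 1)) +
          ∑ i ∈ Ico (m + 1) (m + 1 + k), δ ^ (m + 1 + k - (i + 1)) * ρ ^ (i - m) ≤ (ρ + δ) ^ k := by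
        refine le_trans (le_of_eq ?_) (sum_pow_le hδ hρ k)
        rw [Finset.sum_range_succ', Finset.sum_Ico_eq_sum_range]
        have h2 : m + 1 + k - (m + 1) = k := by omega
        rw [h2, Nat.sub_zero, pow_zero, mul_one, add_comm]
        congr 1
        refine Finset.sum_congr rfl fun l hl => ?_
        rw [Finset.mem_range] at hl
        congr 2 <;> omega
      have h2 : m + 1 + k - (m + 1) = k := by omega
      rw [h2] at h1 ⊢
      calc δ ^ k * ‖P.coeff (m + 1 + k)‖ + ‖P.coeff (m + 1 + k)‖ *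
            ∑ i ∈ Ico (m + 1) (m + 1 + k), δ ^ (m + 1 + k - (i + 1)) * ρ ^ (i - m)
          = ‖P.coeff (m + 1 + k)‖ * (δ ^ k +
            ∑ i ∈ Ico (m + 1) (m + 1 + k), δ ^ (m + 1 + k - (i + 1)) * ρ ^ (i - m)) := by ring
        _ ≤ _ := mul_le_mul_of_nonneg_left h1 (norm_nonneg _)
    linarith
  · have h1 : P.coeff (m + 1) = 0 := Polynomial.coeff_eq_zero_of_natDegree_lt (by omega)
    have h2 : tl N m ρ Q = 0 := by
      unfold tl
      rw [Finset.Ioc_eq_empty (by omega), Finset.sum_empty]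
    have h3 : 0 ≤ tl N (m + 1) (ρ + δ) P := Finset.sum_nonneg fun j _ => by positivity
    rw [h1, h2, norm_zero]
    have := norm_nonneg (Q.coeff m)
    linarith

/-- The lower bound by the constant coefficient. -/
theorem norm_eval_ge (P : ℂ[X]) {N : ℕ} (hN : P.natDegree ≤ N) {δ : ℝ} {z : ℂ} (hz : ‖z‖ ≤ δ) :
    ‖P.coeff 0‖ - tl N 0 δ P ≤ ‖P.eval z‖ := by
  have e1 : P.eval z = P.coeff 0 + ∑ j ∈ Ioc 0 N, P.coeff j * z ^ j := by
    rw [Polynomial.eval_eq_sum_range' (Nat.lt_succ_of_le hN), Finset.sum_range_succ']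
    rw [pow_zero, mul_one, add_comm]
    congr 1
    have h1 : Ioc 0 N = Ico 1 (N + 1) := by
      ext j
      simp only [Finset.mem_Ioc, Finset.mem_Ico]
      omega
    rw [h1, Finset.sum_Ico_eq_sum_range]
    refine Finset.sum_congr rfl fun j _ => ?_
    rw [add_comm 1 j]
  have e2 : ‖∑ j ∈ Ioc 0 N, P.coeff j * z ^ j‖ ≤ tl N 0 δ P := by
    unfold tl
    refine (norm_sum_le _ _).trans (Finset.sum_le_sum fun j _ => ?_)
    rw [norm_mul, norm_pow, Nat.sub_zero]
    exact mul_le_mul_of_nonneg_left (pow_le_pow_left₀ (norm_nonneg _) hz _) (norm_nonneg _)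
  have e3 : ‖P.coeff 0‖ ≤ ‖P.eval z‖ + ‖∑ j ∈ Ioc 0 N, P.coeff j * z ^ j‖ := by
    have h1 : P.coeff 0 = P.eval z - ∑ j ∈ Ioc 0 N, P.coeff j * z ^ j := by
      rw [e1, add_sub_cancel_right]
    rw [h1]
    exact norm_sub_le _ _
  linarith

/-- Virtual roots. -/
theorem exists_points {N : ℕ} {δ ε : ℝ} (hδ : 0 ≤ δ) (m : ℕ) :
    ∀ P : ℂ[X], P.natDegree ≤ N → ε ≤ ‖P.coeff m‖ - tl N m ((m + 1) * δ) P →
      ∃ t : Fin m → ℂ, (∀ i, ‖t i‖ ≤ δ) ∧
        ∀ z : ℂ, ‖z‖ ≤ δ → (1 / 2) ^ m * ε * ∏ i, ‖z - t i‖ ≤ ‖P.eval z‖ := by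
  induction m with
  | zero =>
    intro P hP h
    refine ⟨Fin.elim0, fun i => i.elim0, fun z hz => ?_⟩
    rw [Nat.cast_zero, zero_add, one_mul] at h
    simpa using h.trans (norm_eval_ge P hP hz)
  | succ m ih =>
    intro P hP h
    obtain ⟨t₁, ht₁, hmin⟩ := (isCompact_closedBall (0 : ℂ) δ).exists_isMinOn
      ⟨0, Metric.mem_closedBall_self hδ⟩ (P.continuous.norm.continuousOn)
    rw [mem_closedBall_zero_iff] at ht₁
    set Q := P /ₘ (X - C t₁) with hQ
    have hQN : Q.natDegree ≤ N := by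
      rw [hQ, natDegree_divByMonic _ (monic_X_sub_C t₁)]
      omega
    obtain ⟨t, ht, hz⟩ := ih Q hQN (by
      refine h.trans ?_
      have h1 := div_estimate P hP (ρ := (m + 1) * δ) (by positivity) ht₁ m
      have h2 : ((m + 1 : ℕ) + 1 : ℝ) * δ = (m + 1) * δ + δ := by
        push_cast
        ring
      rw [h2]
      exact h1)
    refine ⟨Fin.cons t₁ t, fun i => ?_, fun z hz' => ?_⟩
    · refine Fin.cases ?_ (fun j => ?_) i
      · simpa using ht₁
      · simpa using ht j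
    · have e1 : P.eval z = P.eval t₁ + (z - t₁) * Q.eval z := by
        have h1 := congrArg (Polynomial.eval z) (modByMonic_add_div P (X - C t₁))
        rw [modByMonic_X_sub_C_eq_C_eval] at h1
        simp only [eval_add, eval_C, eval_mul, eval_sub, eval_X] at h1
        rw [hQ]
        exact h1.symm
      have e2 : ‖z - t₁‖ * ‖Q.eval z‖ ≤ 2 * ‖P.eval z‖ := by
        rw [← norm_mul]
        have h1 : (z - t₁) * Q.eval z = P.eval z - P.eval t₁ := by
          rw [e1]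
          ring
        rw [h1]
        have h2 : ‖P.eval t₁‖ ≤ ‖P.eval z‖ := hmin (mem_closedBall_zero_iff.2 hz')
        have h3 := norm_sub_le (P.eval z) (P.eval t₁)
        linarith
      have e3 := hz z hz'
      rw [Fin.prod_univ_succ]
      simp only [Fin.cons_zero, Fin.cons_succ]
      have e4 := mul_le_mul_of_nonneg_left e3 (norm_nonneg (z - t₁))
      calc (1 / 2) ^ (m + 1) * ε * (‖z - t₁‖ * ∏ i, ‖z - t i‖)
          = (1 / 2) * (‖z - t₁‖ * ((1 / 2) ^ m * ε * ∏ i, ‖z - t i‖)) := by ring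
        _ ≤ (1 / 2) * (2 * ‖P.eval z‖) := by
            apply mul_le_mul_of_nonneg_left _ (by norm_num)
            exact e4.trans e2
        _ = ‖P.eval z‖ := by ring

end MPb07157M
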