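import Pool.Agent.Lib.MP_b07157_ag.NewtOp
import Pool.Agent.Lib.MP_b07157_agS.SA

/-!
# Operators with the derivatives on the left
-/

noncomputable section

namespace MPb07157Q

open MvPolynomial MPb07157

variable {n : ℕ}

theorem dPow_add (β : Fin n →₀ ℕ) (g h : MvPowerSeries (Fin n) ℂ) :
    dPow β (g + h) = dPow β g + dPow β h := by
  ext m
  rw [coeff_dPow, map_add, map_add, coeff_dPow, coeff_dPow, mul_add]

theorem dPow_smul (β : Fin n →₀ ℕ) (c : ℂ) (g : MvPowerSeries (Fin n) ℂ) :
    dPow β (c • g) = c • dPow β g := by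
  ext m
  rw [coeff_dPow, MvPowerSeries.coeff_smul, MvPowerSeries.coeff_smul, coeff_dPow]
  ring

theorem dPow_zero' (β : Fin n →₀ ℕ) : dPow β (0 : MvPowerSeries (Fin n) ℂ) = 0 := by
  have := dPow_smul β 0 (0 : MvPowerSeries (Fin n) ℂ)
  simpa using this

theorem dPow_sum {ι : Type*} (β : Fin n →₀ ℕ) (s : Finset ι) (g : ι → MvPowerSeries (Fin n) ℂ) :
    dPow β (∑ i ∈ s, g i) = ∑ i ∈ s, dPow β (g i) := by
  classical
  induction s using Finset.induction_on with
  | empty => rw [Finset.sum_empty, Finset.sum_empty, dPow_zero']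
  | insert a s ha ih => rw [Finset.sum_insert ha, Finset.sum_insert ha, dPow_add, ih]

theorem exists_sub_single {β : Fin n →₀ ℕ} {k : ℕ} (h : β.degree = k + 1) :
    ∃ i β', β = β' + Finsupp.single i 1 ∧ β'.degree = k := by
  have h1 : β ≠ 0 := by
    rintro rfl
    simp at h
  obtain ⟨i, hi⟩ := Finsupp.ne_iff.1 h1
  have h2 : Finsupp.single i 1 ≤ β := by
    rw [Finsupp.single_le_iff]
    simp only [Finsupp.coe_zero, Pi.zero_apply] at hi
    omega
  refine ⟨i, β - Finsupp.single i 1, (tsub_add_cancel_of_le h2).symm, ?_⟩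
  have h3 : (β - Finsupp.single i 1 + Finsupp.single i 1).degree = k + 1 := by
    rw [tsub_add_cancel_of_le h2, h]
  rw [map_add, Finsupp.degree_single] at h3
  omega

theorem dPow_pderiv (i : Fin n) (β : Fin n →₀ ℕ) (g : MvPowerSeries (Fin n) ℂ) :
    dPow β (MvPowerSeries.pderiv ℂ i g) = dPow (β + Finsupp.single i 1) g := by
  suffices h : ∀ k : ℕ, ∀ β : Fin n →₀ ℕ, β.degree = k →
      dPow β (MvPowerSeries.pderiv ℂ i g) = dPow (β + Finsupp.single i 1) g from h _ β rfl
  intro k
  induction k with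
  | zero =>
    intro β hβ
    have : β = 0 := by
      rwa [Finsupp.degree_eq_zero_iff] at hβ
    rw [this, dPow_zero, ← pderiv_dPow, dPow_zero]
  | succ k ih =>
    intro β hβ
    obtain ⟨j, β', rfl, hβ'⟩ := exists_sub_single hβ
    rw [← pderiv_dPow, ih β' hβ', pderiv_dPow]
    congr 1
    abel

/-- `∑_β ∂^β (G_β F)`. -/
def Psi (F : MvPowerSeries (Fin n) ℂ) (G : MvPolynomial (Fin n) (MvPolynomial (Fin n) ℂ)) :
    MvPowerSeries (Fin n) ℂ :=
  ∑ β ∈ G.support, dPow β (((coeff β G : MvPolynomial (Fin n) ℂ) : MvPowerSeries (Fin n) ℂ) * F)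

variable {F : MvPowerSeries (Fin n) ℂ}

theorem Psi_eq_sum (F : MvPowerSeries (Fin n) ℂ)
    {G : MvPolynomial (Fin n) (MvPolynomial (Fin n) ℂ)} {s : Finset (Fin n →₀ ℕ)}
    (hs : G.support ⊆ s) :
    Psi F G = ∑ β ∈ s, dPow β (((coeff β G : MvPolynomial (Fin n) ℂ) : MvPowerSeries (Fin n) ℂ) * F) := by
  unfold Psi
  apply Finset.sum_subset hs
  intro β _ hβ
  rw [notMem_support_iff.1 hβ, coe_zero, zero_mul, dPow_zero']

theorem Psi_add (F : MvPowerSeries (Fin n) ℂ)
    (G H : MvPolynomial (Fin n) (MvPolynomial (Fin n) ℂ)) :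
    Psi F (G + H) = Psi F G + Psi F H := by
  classical
  rw [Psi_eq_sum F (support_add : (G + H).support ⊆ _),
    Psi_eq_sum F (Finset.subset_union_left : G.support ⊆ G.support ∪ H.support),
    Psi_eq_sum F (Finset.subset_union_right : H.support ⊆ G.support ∪ H.support),
    ← Finset.sum_add_distrib]
  refine Finset.sum_congr rfl fun β _ => ?_
  rw [coeff_add, coe_add, add_mul, dPow_add]

theorem Psi_zero (F : MvPowerSeries (Fin n) ℂ) : Psi F 0 = 0 := by simp [Psi]

theorem Psi_neg (F : MvPowerSeries (Fin n) ℂ)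
    (G : MvPolynomial (Fin n) (MvPolynomial (Fin n) ℂ)) : Psi F (-G) = -Psi F G := by
  have := Psi_add F G (-G)
  rw [add_neg_cancel, Psi_zero] at this
  exact (neg_eq_of_add_eq_zero_right this.symm).symm

theorem Psi_sub (F : MvPowerSeries (Fin n) ℂ)
    (G H : MvPolynomial (Fin n) (MvPolynomial (Fin n) ℂ)) :
    Psi F (G - H) = Psi F G - Psi F H := by
  rw [sub_eq_add_neg, Psi_add, Psi_neg, sub_eq_add_neg]

theorem Psi_sum (F : MvPowerSeries (Fin n) ℂ) {ι : Type*} (s : Finset ι)
    (G : ι → MvPolynomial (Fin n) (MvPolynomial (Fin n) ℂ)) :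
    Psi F (∑ i ∈ s, G i) = ∑ i ∈ s, Psi F (G i) := by
  classical
  induction s using Finset.induction_on with
  | empty => rw [Finset.sum_empty, Finset.sum_empty, Psi_zero]
  | insert a s ha ih => rw [Finset.sum_insert ha, Finset.sum_insert ha, Psi_add, ih]

theorem Psi_monomial (F : MvPowerSeries (Fin n) ℂ) (β : Fin n →₀ ℕ)
    (a : MvPolynomial (Fin n) ℂ) :
    Psi F (monomial β a) = dPow β ((a : MvPowerSeries (Fin n) ℂ) * F) := by
  classical
  rw [Psi_eq_sum F (support_monomial_subset : (monomial β a).support ⊆ {β}),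
    Finset.sum_singleton, coeff_monomial, if_pos rfl]

theorem Psi_C (F : MvPowerSeries (Fin n) ℂ) (a : MvPolynomial (Fin n) ℂ) :
    Psi F (C a) = (a : MvPowerSeries (Fin n) ℂ) * F := by
  rw [C_apply, Psi_monomial, dPow_zero]

theorem Psi_X_mul (F : MvPowerSeries (Fin n) ℂ) (i : Fin n)
    (G : MvPolynomial (Fin n) (MvPolynomial (Fin n) ℂ)) :
    Psi F (X i * G) = MvPowerSeries.pderiv ℂ i (Psi F G) := by
  induction G using MvPolynomial.induction_on' with
  | monomial β a =>
    rw [X, monomial_mul, one_mul, Psi_monomial, Psi_monomial, pderiv_dPow, add_comm]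
  | add G H hG hH => rw [mul_add, Psi_add, Psi_add, hG, hH, map_add]

theorem Psi_smul (F : MvPowerSeries (Fin n) ℂ) (c : ℂ)
    (G : MvPolynomial (Fin n) (MvPolynomial (Fin n) ℂ)) :
    Psi F (C (C c) * G) = c • Psi F G := by
  induction G using MvPolynomial.induction_on' with
  | monomial β a =>
    rw [C_mul_monomial, Psi_monomial, Psi_monomial, ← dPow_smul, coe_mul, coe_C, mul_assoc,
      MvPowerSeries.c_eq_algebraMap, Algebra.smul_def]
  | add G H hG hH => rw [mul_add, Psi_add, Psi_add, hG, hH, smul_add]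

/-- The constant term of the part of order zero. -/
def cc (G : MvPolynomial (Fin n) (MvPolynomial (Fin n) ℂ)) : ℂ := constantCoeff (coeff 0 G)

theorem cc_add (G H : MvPolynomial (Fin n) (MvPolynomial (Fin n) ℂ)) :
    cc (G + H) = cc G + cc H := by simp [cc]

theorem cc_sub (G H : MvPolynomial (Fin n) (MvPolynomial (Fin n) ℂ)) :
    cc (G - H) = cc G - cc H := by simp [cc]

theorem cc_smul (c : ℂ) (G : MvPolynomial (Fin n) (MvPolynomial (Fin n) ℂ)) :
    cc (C (C c) * G) = c * cc G := by simp [cc, coeff_C_mul]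

theorem cc_X_mul (i : Fin n) (G : MvPolynomial (Fin n) (MvPolynomial (Fin n) ℂ)) :
    cc (X i * G) = 0 := by
  classical
  simp [cc, coeff_X_mul']

/-- `F` is replaced by `a F`. -/
theorem Psi_mul_left (F : MvPowerSeries (Fin n) ℂ) (a : MvPolynomial (Fin n) ℂ)
    (G : MvPolynomial (Fin n) (MvPolynomial (Fin n) ℂ)) :
    Psi F (C a * G) = Psi ((a : MvPowerSeries (Fin n) ℂ) * F) G := by
  induction G using MvPolynomial.induction_on' with
  | monomial β b =>
    rw [C_mul_monomial, Psi_monomial, Psi_monomial, coe_mul]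
    congr 1
    ring
  | add G H hG hH => rw [mul_add, Psi_add, Psi_add, hG, hH]

/-- Multiplication by a function on the left. -/
theorem exists_mul (r : MvPolynomial (Fin n) ℂ)
    (G : MvPolynomial (Fin n) (MvPolynomial (Fin n) ℂ)) :
    ∃ G', ∀ F : MvPowerSeries (Fin n) ℂ,
      (r : MvPowerSeries (Fin n) ℂ) * Psi F G = Psi F G' := by
  induction G using MvPolynomial.induction_on' with
  | monomial β a =>
    suffices h : ∀ k : ℕ, ∀ (β : Fin n →₀ ℕ) (r : MvPolynomial (Fin n) ℂ), β.degree = k →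
        ∃ G', ∀ F : MvPowerSeries (Fin n) ℂ,
          (r : MvPowerSeries (Fin n) ℂ) * Psi F (monomial β a) = Psi F G' from h _ β r rfl
    intro k
    induction k with
    | zero =>
      intro β r hβ
      have : β = 0 := by rwa [Finsupp.degree_eq_zero_iff] at hβ
      subst this
      refine ⟨C (r * a), fun F => ?_⟩
      rw [Psi_monomial, dPow_zero, Psi_C, coe_mul, mul_assoc]
    | succ k ih =>
      intro β r hβ
      obtain ⟨i, β', rfl, hβ'⟩ := exists_sub_single hβ
      obtain ⟨G₁, h1⟩ := ih β' r hβ'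
      obtain ⟨G₂, h2⟩ := ih β' (pderiv i r) hβ'
      refine ⟨X i * G₁ - G₂, fun F => ?_⟩
      rw [Psi_sub, Psi_X_mul, ← h1, ← h2, Derivation.leibniz, smul_eq_mul, smul_eq_mul,
        MvPowerSeries.pderiv_coe, Psi_monomial, Psi_monomial, ← pderiv_dPow]
      ring
  | add G H hG hH =>
    obtain ⟨G', h1⟩ := hG
    obtain ⟨H', h2⟩ := hH
    exact ⟨G' + H', fun F => by rw [Psi_add, Psi_add, mul_add, h1, h2]⟩

/-! ### Removal of `s` -/

theorem euler_aux {f : MvPolynomial (Fin n) ℂ} {d : ℕ} (hf : f.IsHomogeneous d) :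
    ∑ i, X i * pderiv i f = C (d : ℂ) * f := by
  have := hf.sum_X_mul_pderiv
  rw [this, nsmul_eq_mul, map_natCast]

theorem exists_s_mul {f : MvPolynomial (Fin n) ℂ} {d : ℕ} (hd : 0 < d) (hf : f.IsHomogeneous d)
    (G : MvPolynomial (Fin n) (MvPolynomial (Fin n) ℂ)) :
    ∃ G', (∀ q : ℕ, Psi ((f : MvPowerSeries (Fin n) ℂ) ^ q) G' =
      (q : ℂ) • Psi ((f : MvPowerSeries (Fin n) ℂ) ^ q) G) ∧
      cc G' = -((n : ℂ) / d) * cc G := by
  have hd' : (d : ℂ) ≠ 0 := by exact_mod_cast hd.ne'
  induction G using MvPolynomial.induction_on' with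
  | monomial β a =>
    refine ⟨C (C ((d : ℂ)⁻¹)) * (∑ i, X i * monomial β (X i * a) -
      monomial β ((n : MvPolynomial (Fin n) ℂ) * a) - monomial β (∑ i, X i * pderiv i a)), ?_, ?_⟩
    · intro q
      rw [Psi_smul, Psi_sub, Psi_sub, Psi_sum]
      have h1 : ∀ i, Psi ((f : MvPowerSeries (Fin n) ℂ) ^ q) (X i * monomial β (X i * a)) =
          dPow β (MvPowerSeries.pderiv ℂ i (((X i * a : MvPolynomial (Fin n) ℂ) :
            MvPowerSeries (Fin n) ℂ) * (f : MvPowerSeries (Fin n) ℂ) ^ q)) := by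
        intro i
        rw [Psi_X_mul, Psi_monomial, pderiv_dPow, dPow_pderiv]
      rw [Finset.sum_congr rfl fun i _ => h1 i, ← dPow_sum, Psi_monomial, Psi_monomial,
        Psi_monomial]
      have h2 : ∑ i, MvPowerSeries.pderiv ℂ i (((X i * a : MvPolynomial (Fin n) ℂ) :
            MvPowerSeries (Fin n) ℂ) * (f : MvPowerSeries (Fin n) ℂ) ^ q) =
          (((n : MvPolynomial (Fin n) ℂ) * a : MvPolynomial (Fin n) ℂ) :
            MvPowerSeries (Fin n) ℂ) * (f : MvPowerSeries (Fin n) ℂ) ^ q +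
          ((∑ i, X i * pderiv i a : MvPolynomial (Fin n) ℂ) : MvPowerSeries (Fin n) ℂ) *
            (f : MvPowerSeries (Fin n) ℂ) ^ q +
          ((d : ℂ) * q) • ((a : MvPowerSeries (Fin n) ℂ) *
            (f : MvPowerSeries (Fin n) ℂ) ^ q) := by
        have h3 : ∀ i, MvPowerSeries.pderiv ℂ i (((X i * a : MvPolynomial (Fin n) ℂ) :
            MvPowerSeries (Fin n) ℂ) * (f : MvPowerSeries (Fin n) ℂ) ^ q) =
            ((pderiv i ((X i * a) * f ^ q) : MvPolynomial (Fin n) ℂ) :
              MvPowerSeries (Fin n) ℂ) := by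
          intro i
          rw [← MvPowerSeries.pderiv_coe]
          simp only [coe_mul, coe_pow]
        rw [Finset.sum_congr rfl fun i _ => h3 i]
        have h4 : ∑ i, pderiv i ((X i * a) * f ^ q) = (n : MvPolynomial (Fin n) ℂ) * a * f ^ q +
            (∑ i, X i * pderiv i a) * f ^ q + C ((d : ℂ) * q) * (a * f ^ q) := by
          have h5 : ∀ i, pderiv i ((X i * a) * f ^ q) = a * f ^ q + X i * pderiv i a * f ^ q +
              X i * a * pderiv i (f ^ q) := by
            intro i
            rw [Derivation.leibniz, Derivation.leibniz, pderiv_X_self, smul_eq_mul, smul_eq_mul,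
              smul_eq_mul, smul_eq_mul]
            ring
          rw [Finset.sum_congr rfl fun i _ => h5 i, Finset.sum_add_distrib,
            Finset.sum_add_distrib, Finset.sum_const, Finset.card_univ, Fintype.card_fin,
            nsmul_eq_mul, Finset.sum_mul]
          have h6 : ∑ i, X i * a * pderiv i (f ^ q) = C ((d : ℂ) * q) * (a * f ^ q) := by
            have h7 : ∑ i, X i * a * pderiv i (f ^ q) = a * ∑ i, X i * pderiv i (f ^ q) := by
              rw [Finset.mul_sum]
              exact Finset.sum_congr rfl fun i _ => by ring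
            rw [h7, euler_aux (hf.pow q)]
            push_cast
            ring
          rw [h6]
          ring
        have h8 := congrArg (fun z : MvPolynomial (Fin n) ℂ => (z : MvPowerSeries (Fin n) ℂ)) h4
        simp only [coe_add, coe_mul, coe_pow, coe_C] at h8
        rw [← coeToMvPowerSeries.ringHom_apply, map_sum] at h8
        simp only [coeToMvPowerSeries.ringHom_apply] at h8
        rw [h8, Algebra.smul_def, MvPowerSeries.c_eq_algebraMap, coe_mul]
      rw [h2, dPow_add, dPow_add, dPow_smul]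
      have h9 : ∀ A B D : MvPowerSeries (Fin n) ℂ, A + B + D - A - B = D := by
        intro A B D
        ring
      rw [h9, smul_smul]
      congr 1
      field_simp
    · rw [cc_smul, cc_sub, cc_sub]
      have h1 : cc (∑ i, X i * monomial β (X i * a)) = 0 := by
        unfold cc
        rw [coeff_sum, map_sum]
        apply Finset.sum_eq_zero
        intro i _
        exact cc_X_mul i _
      rw [h1]
      unfold cc
      rw [coeff_monomial, coeff_monomial, coeff_monomial]
      split_ifs with h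
      · rw [map_mul, map_natCast, map_sum]
        have h2 : ∑ i, constantCoeff (X i * pderiv i a) = 0 := by
          apply Finset.sum_eq_zero
          intro i _
          rw [map_mul, constantCoeff_X, zero_mul]
        rw [h2]
        ring
      · simp
  | add G H hG hH =>
    obtain ⟨G', h1, h1'⟩ := hG
    obtain ⟨H', h2, h2'⟩ := hH
    refine ⟨G' + H', fun q => ?_, ?_⟩
    · rw [Psi_add, Psi_add, h1, h2, smul_add]
    · rw [cc_add, cc_add, h1', h2']
      ring

theorem exists_poly_mul {f : MvPolynomial (Fin n) ℂ} {d : ℕ} (hd : 0 < d)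
    (hf : f.IsHomogeneous d) (b : Polynomial ℂ)
    (G : MvPolynomial (Fin n) (MvPolynomial (Fin n) ℂ)) :
    ∃ G', (∀ q : ℕ, Psi ((f : MvPowerSeries (Fin n) ℂ) ^ q) G' =
      (b.eval (q : ℂ)) • Psi ((f : MvPowerSeries (Fin n) ℂ) ^ q) G) ∧
      cc G' = b.eval (-((n : ℂ) / d)) * cc G := by
  induction b using Polynomial.induction_on' with
  | add p q hp hq =>
    obtain ⟨G', h1, h1'⟩ := hp
    obtain ⟨H', h2, h2'⟩ := hq
    refine ⟨G' + H', fun q => ?_, ?_⟩
    · rw [Psi_add, h1, h2, Polynomial.eval_add, add_smul]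
    · rw [cc_add, h1', h2', Polynomial.eval_add]
      ring
  | monomial k a =>
    induction k with
    | zero =>
      refine ⟨C (C a) * G, fun q => ?_, ?_⟩
      · rw [Psi_smul]
        simp
      · rw [cc_smul]
        simp
    | succ k ih =>
      obtain ⟨G', h1, h1'⟩ := ih
      obtain ⟨H', h2, h2'⟩ := exists_s_mul hd hf G'
      refine ⟨H', fun q => ?_, ?_⟩
      · rw [h2, h1, smul_smul]
        simp only [Polynomial.eval_monomial, pow_succ]
        ring_nf
      · rw [h2', h1']
        simp only [Polynomial.eval_monomial, pow_succ]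
        ring

/-- For homogeneous `f` all elements of `D[s] f^{s+1}` are in `D f^{s+1}`. -/
theorem exists_of_op {f : MvPolynomial (Fin n) ℂ} {d : ℕ} (hd : 0 < d)
    (hf : f.IsHomogeneous d) {Φ : ℕ → MvPolynomial (Fin n) ℂ}
    (h : MPb07157S.Op (fun i : Fin n => (pderiv i :
      Derivation ℂ (MvPolynomial (Fin n) ℂ) (MvPolynomial (Fin n) ℂ))) f Φ) :
    ∃ G, ∀ m, (Φ m : MvPowerSeries (Fin n) ℂ) = Psi ((f : MvPowerSeries (Fin n) ℂ) ^ m) G := by
  induction h with
  | base => exact ⟨C 1, fun m => by rw [Psi_C, coe_one, one_mul, coe_pow]⟩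
  | add _ _ ih1 ih2 =>
    obtain ⟨G, h1⟩ := ih1
    obtain ⟨H, h2⟩ := ih2
    exact ⟨G + H, fun m => by rw [coe_add, h1, h2, Psi_add]⟩
  | @mul Φ c _ ih =>
    obtain ⟨G, h1⟩ := ih
    induction c using Polynomial.induction_on' with
    | add p q hp hq =>
      obtain ⟨G, h1⟩ := hp
      obtain ⟨H, h2⟩ := hq
      refine ⟨G + H, fun m => ?_⟩
      rw [Psi_add, ← h1, ← h2]
      dsimp only
      rw [Polynomial.eval_add, add_mul, coe_add]
    | monomial k a =>
      obtain ⟨G₁, h2⟩ := exists_mul a G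
      obtain ⟨G₂, h3, -⟩ := exists_poly_mul hd hf ((Polynomial.X - 1) ^ k) G₁
      refine ⟨G₂, fun m => ?_⟩
      rw [h3, ← h2, ← h1]
      dsimp only
      rw [Polynomial.eval_monomial]
      simp only [Polynomial.eval_pow, Polynomial.eval_sub, Polynomial.eval_X,
        Polynomial.eval_one]
      rw [Algebra.smul_def, ← MvPowerSeries.c_eq_algebraMap, coe_mul, coe_mul, coe_pow]
      have e : (((m : MvPolynomial (Fin n) ℂ) - 1 : MvPolynomial (Fin n) ℂ) :
          MvPowerSeries (Fin n) ℂ) = MvPowerSeries.C ((m : ℂ) - 1) := by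
        have e2 : (m : MvPolynomial (Fin n) ℂ) - 1 = C ((m : ℂ) - 1) := by simp
        rw [e2, coe_C]
      rw [e, map_pow]
      ring
  | deriv i _ ih =>
    obtain ⟨G, h1⟩ := ih
    exact ⟨X i * G, fun m => by rw [Psi_X_mul, ← h1, MvPowerSeries.pderiv_coe]⟩

end MPb07157Q
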